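import Pool.Agent.U828.KD.Ord
import Pool.Agent.N666.TM.Diag

/-! One null set for infinitely many functions of different orders (helper828). -/

set_option autoImplicit false

namespace Pool.Agent.U828.KD

open Finset Filter
open Pool.Agent.N666.TM (NullIn diag ex_dens Ex)

/-- the integers `t` such that for `l ≤ k` there is a prime above `k` which divides `v l t` exactly, and does not
divide the others -/
def OGood (v : ℕ → ℕ → ℤ) (k t : ℕ) : Prop :=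
  ∀ l < k + 1, ∃ p : ℕ, p.Prime ∧ k < p ∧ (p : ℤ) ∣ v l t ∧ ¬ (p : ℤ) ^ 2 ∣ v l t ∧
    ∀ i < k + 1, i ≠ l → ¬ (p : ℤ) ∣ v i t

/-- for every `k` the functions `f 0, …, f k` have the orders `c 0, …, c k` with a common order of differences -/
def Orders (c : ℕ → ℝ) (f : ℕ → ℕ → ℝ) : Prop :=
  ∀ k : ℕ, ∃ d : ℕ, 2 ≤ d ∧ ∀ l ≤ k, c l < d ∧ Order d (c l) (f l)

/-- finite subfamilies -/
theorem order_family {ι : Type} [Fintype ι] [DecidableEq ι] [Nonempty ι] {c : ℕ → ℝ} (hc0 : ∀ l, 0 < c l)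
    (hc : Function.Injective c) (f : ℕ → ℕ → ℝ) (hf : Orders c f) (l : ι → ℕ) (hl : Function.Injective l) :
    ∃ κ : ℝ, 0 < κ ∧ ∃ N₀ : ℕ, ∀ N : ℕ, N₀ ≤ N → ∀ H : ℕ, (H : ℝ) ≤ (N : ℝ) ^ κ →
      Pool.Agent.N666.TM.Well (Ioc N (2 * N)) (fun n i => ⌊f (l i) n⌋) H := by
  obtain ⟨d, hd, h⟩ := hf (univ.sup l)
  exact order_well d hd (fun i => c (l i)) (hc.comp hl) (fun i => hc0 _) (fun i => (h _ (le_sup (mem_univ i))).1)
    (fun i => f (l i)) (fun i => (h _ (le_sup (mem_univ i))).2)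

theorem order_null_set {c : ℕ → ℝ} (hc0 : ∀ l, 0 < c l) (hc : Function.Injective c) (f : ℕ → ℕ → ℝ)
    (hf : Orders c f) : ∃ E : Set ℕ, NullIn (fun N => Ioc N (2 * N)) E ∧
      ∀ k, {t : ℕ | t ∉ E ∧ ¬ OGood (fun l t => ⌊f l t⌋) k t}.Finite := by
  classical
  have hmono : Monotone (fun k => {t : ℕ | ¬ OGood (fun l t => ⌊f l t⌋) k t}) := by
    intro k k' hkk t ht hgood
    apply ht
    intro l hl
    obtain ⟨p, h1, h2, h3, h4, h5⟩ := hgood l (by omega)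
    exact ⟨p, h1, by omega, h3, h4, fun i hi => h5 i (by omega)⟩
  have hkey : ∀ k, NullIn (fun N => Ioc N (2 * N)) {t : ℕ | ¬ OGood (fun l t => ⌊f l t⌋) k t} := by
    intro k
    obtain ⟨d, hd, h⟩ := hf k
    obtain ⟨κ₁, hκ₁, g₁⟩ := order_well (ι := Fin (k + 1)) d hd (fun i => c i) (hc.comp Fin.val_injective)
      (fun i => hc0 i) (fun i => (h i (by have := i.2; omega)).1) (fun i => f i)
      (fun i => (h i (by have := i.2; omega)).2)
    have hsub : ∀ S : Finset ℕ, {t : ℕ | t ∈ S ∧ ¬ OGood (fun l t => ⌊f l t⌋) k t} ⊆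
        {n : ℕ | n ∈ S ∧ ¬ ∀ l : Fin (k + 1), ∃ p : ℕ, p.Prime ∧ k < p ∧
          Ex l p (fun i : Fin (k + 1) => ⌊f i n⌋)} := by
      rintro S t ⟨ht, hg⟩
      refine ⟨ht, fun hall => hg ?_⟩
      intro l hl
      obtain ⟨p, h1, h2, h3, h4, h5⟩ := hall ⟨l, hl⟩
      refine ⟨p, h1, h2, h3, h4, fun i hi hne => h5 ⟨i, hi⟩ ?_⟩
      intro heq
      exact hne (congrArg Fin.val heq)
    intro ε hε
    obtain ⟨N₀, hN₀⟩ := ex_dens hκ₁ g₁ k ε hε
    refine ⟨N₀, fun N hN => le_trans ?_ (hN₀ N hN)⟩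
    exact_mod_cast Set.ncard_le_ncard (hsub _) ((Finset.finite_toSet _).subset fun t ht => ht.1)
  obtain ⟨E, h1, -, h3⟩ := diag hmono (fun N => Finset.Subset.refl _)
    (fun N => Finset.Subset.refl _) hkey hkey
  refine ⟨E, h1, fun k => (h3 k).subset ?_⟩
  rintro t ⟨ht, ht'⟩
  exact ⟨ht', ht⟩

end Pool.Agent.U828.KD
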