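import Pool.Agent.U828.KD.OrdArc
import Pool.Agent.N141.SG.Near

/-! Fat points with multiplicities given by functions of a given order (helper828). -/

set_option autoImplicit false

namespace Pool.Agent.U828.KD

open Finset Filter
open Pool.Agent.H469R2.NK (e norm_e e_add conj_e)
open Pool.Agent.N141.SG (SmallTo smallTo_of Ex badU three_lt open_of win_nonneg GoodN badN good_sq window_near Tgt
  tgt_of_small)
open Pool.Agent.TH885.NW (loW upW win_len)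

theorem order_smallTo (d : ℕ) (hd : 2 ≤ d) (c : ℝ) (hc0 : 0 < c) (hcd : c < d) (f : ℕ → ℝ) (hf : Order d c f)
    (γ : ℝ) (hγ : γ ≠ 0) : SmallTo (fun N => Ioc N (2 * N)) (fun n => γ * f n) := by
  obtain ⟨τ, hτ0, hτ1, N₀, h⟩ := order_exp d hd c hc0 hcd f hf
  have hγ0 : 0 < |γ| := abs_pos.2 hγ
  have hev : ∀ᶠ N : ℕ in atTop, |γ|⁻¹ ≤ (N : ℝ) ^ τ ∧ |γ| ≤ (N : ℝ) ^ τ := by
    have h1 : Tendsto (fun N : ℕ => (N : ℝ) ^ τ) atTop atTop :=
      (tendsto_rpow_atTop hτ0).comp tendsto_natCast_atTop_atTop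
    filter_upwards [h1.eventually_ge_atTop |γ|⁻¹, h1.eventually_ge_atTop |γ|] with N h2 h3
    exact ⟨h2, h3⟩
  refine smallTo_of hτ0 ?_ ?_
  · filter_upwards [hev, eventually_ge_atTop (max N₀ 1)] with N hN hN1
    have hN2 : 1 ≤ N := (le_max_right _ _).trans hN1
    have hN3 : (0 : ℝ) < N := by exact_mod_cast hN2
    refine h N ((le_max_left _ _).trans hN1) γ ?_ hN.2
    rw [Real.rpow_neg hN3.le]
    exact inv_le_of_inv_le₀ hγ0 hN.1
  · filter_upwards [eventually_ge_atTop 1] with N hN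
    have hN1 : (1 : ℝ) ≤ N := by exact_mod_cast hN
    rw [Nat.card_Ioc, show 2 * N - N = N by omega]
    calc (N : ℝ) ^ (1 - τ / 2) ≤ (N : ℝ) ^ (1 : ℝ) :=
          Real.rpow_le_rpow_of_exponent_le hN1 (by linarith)
      _ = N := Real.rpow_one _

/-- nothing is bad -/
theorem count_order_none (f : ℕ → ℝ) (P : ℕ → Prop) (hP : ∀ m : ℕ, 1 ≤ m → ¬ P m) (N : ℕ) :
    ({t : ℕ | t ∈ Ioc N (2 * N) ∧ 1 ≤ f t ∧ P ⌊f t⌋₊}.ncard : ℝ) = 0 := by
  have : {t : ℕ | t ∈ Ioc N (2 * N) ∧ 1 ≤ f t ∧ P ⌊f t⌋₊} = ∅ := by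
    rw [Set.eq_empty_iff_forall_notMem]
    rintro t ⟨_, h1, h2⟩
    exact hP _ ((Nat.one_le_floor_iff _).2 h1) h2
  rw [this, Set.ncard_empty, Nat.cast_zero]

theorem bad_sqrt {n : ℕ} (hirr : Irrational √(n : ℝ)) : Bad √(n : ℝ) :=
  bad_of_sq hirr (p := n) (q := 1) (by norm_num) (by
    rw [Real.sq_sqrt (Nat.cast_nonneg n)]
    push_cast
    ring)

theorem bad_sqrt3 {n : ℕ} (hirr : Irrational (√(n : ℝ) / 3)) : Bad (√(n : ℝ) / 3) :=
  bad_of_sq hirr (p := n) (q := 9) (by norm_num) (by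
    rw [div_pow, Real.sq_sqrt (Nat.cast_nonneg n)]
    push_cast
    ring)

theorem bad_sqrt_inv {n : ℕ} (hn : 1 ≤ n) (hirr : Irrational (√(n : ℝ))⁻¹) : Bad (√(n : ℝ))⁻¹ :=
  bad_of_sq hirr (p := 1) (q := n) (by exact_mod_cast hn) (by
    have hn0 : (n : ℝ) ≠ 0 := by
      have : n ≠ 0 := by omega
      exact_mod_cast this
    rw [inv_pow, Real.sq_sqrt (Nat.cast_nonneg n)]
    push_cast
    field_simp)

section

variable (d : ℕ) (hd : 2 ≤ d) (c : ℝ) (hc0 : 0 < c) (hcd : c < d) (f : ℕ → ℝ) (hf : Order d c f)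
include hd hc0 hcd hf

/-- **one number of points, all degrees** -/
theorem one_order {n : ℕ} (hn : 10 ≤ n) : ∃ κ : ℝ, 0 < κ ∧ ∃ N₀ : ℕ, ∀ N : ℕ, N₀ ≤ N →
    ({t : ℕ | t ∈ Ioc N (2 * N) ∧ 1 ≤ f t ∧ ¬ Ex n ⌊f t⌋₊}.ncard : ℝ) ≤ badU n * N + (N : ℝ) ^ (1 - κ) := by
  classical
  have hs3 := three_lt hn
  by_cases hC : 37 ≤ n ∨ n = 13 ∨ n = 21 ∨ IsSquare n
  · refine ⟨1, one_pos, 0, fun N _ => ?_⟩
    have e : badU n = 0 := by
      unfold badU
      rw [if_pos hC]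
    rw [e, zero_mul, zero_add]
    refine (count_order_none f (fun m => ¬ Ex n m) (fun m hm hbad => ?_) N).le.trans (by positivity)
    obtain ⟨d, hd⟩ := open_of hn hm hbad
    exact hd.1 hC
  · have hsq : ¬ IsSquare n := fun h0 => hC (Or.inr (Or.inr (Or.inr h0)))
    have hirr : Irrational √(n : ℝ) := irrational_sqrt_natCast_iff.2 hsq
    by_cases h11 : n = 11 ∨ n = 15
    · have e : badU n = 0 - (-((√(n : ℝ) - 3) / 6)) := by
        unfold badU
        rw [if_neg hC, if_pos h11]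
        ring
      rw [e]
      have hirr3 : Irrational (√(n : ℝ) / 3) := by
        have := hirr.div_natCast (m := 3) (by norm_num)
        simpa using this
      refine count_order d hd c hc0 hcd f hf (√(n : ℝ) / 3) (by linarith) (bad_sqrt3 hirr3) 0 _ _ (by linarith)
        (fun m => ¬ Ex n m) (fun m hm hbad => ?_)
      obtain ⟨d, -, h1, h2, h3⟩ := open_of hn hm hbad
      obtain ⟨⟨z, rfl⟩, h4, h5⟩ := h3 h11
      push_cast at h4 h5
      refine ⟨z, ?_, ?_⟩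
      · push_cast
        linarith
      · push_cast
        linarith
    · obtain ⟨g1, g2⟩ := win_nonneg hn
      have e : badU n = min (√(n : ℝ) - 3) (2 / 3 + 9 / (4 * √(n : ℝ))) / 2 -
          (-(min (√(n : ℝ) - 3) (2 / 3 + 1 / (4 * √(n : ℝ))) / 2)) := by
        unfold badU
        rw [if_neg hC, if_neg h11]
        ring
      rw [e]
      refine count_order d hd c hc0 hcd f hf √(n : ℝ) (by linarith) (bad_sqrt hirr) ((√(n : ℝ) - 3) / 2) _ _
        (by linarith) (fun m => ¬ Ex n m) (fun m hm hbad => ?_)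
      obtain ⟨d, -, h1, h2, -⟩ := open_of hn hm hbad
      refine ⟨d, ?_, ?_⟩
      · push_cast
        linarith
      · push_cast
        linarith

/-- **near-uniform vectors** -/
theorem near_order {n : ℕ} (hn : 10 ≤ n) : ∃ κ : ℝ, 0 < κ ∧ ∃ N₀ : ℕ, ∀ N : ℕ, N₀ ≤ N →
    ({t : ℕ | t ∈ Ioc N (2 * N) ∧ 1 ≤ f t ∧ ¬ GoodN n ⌊f t⌋₊}.ncard : ℝ) ≤ badN n * N + (N : ℝ) ^ (1 - κ) := by
  classical
  have hs3 := three_lt hn
  by_cases hsq : IsSquare n
  · refine ⟨1, one_pos, 0, fun N _ => ?_⟩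
    have e : badN n = 0 := by
      unfold badN
      rw [if_pos hsq]
    rw [e, zero_mul, zero_add]
    exact (count_order_none f (fun m => ¬ GoodN n m) (fun m _ hbad => hbad (good_sq hn hsq m)) N).le.trans
      (by positivity)
  · have hirr : Irrational (√(n : ℝ))⁻¹ := (irrational_sqrt_natCast_iff.2 hsq).inv
    obtain ⟨g1, g2, g3⟩ := win_len hn
    have e : badN n = loW n / 2 - (-(upW n / 2)) := by
      unfold badN loW upW
      rw [if_neg hsq]
      ring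
    rw [e]
    exact count_order d hd c hc0 hcd f hf (√(n : ℝ))⁻¹ (by positivity) (bad_sqrt_inv (by omega) hirr)
      ((√(n : ℝ) - 3) / 2) _ _ (by linarith) (fun m => ¬ GoodN n m) (fun m _ hbad => window_near hn hbad)

/-- **all numbers of points at once** -/
theorem tgt_order (hpos : ∀ᶠ t : ℕ in atTop, 1 ≤ f t) : ∀ᶠ N : ℕ in atTop, 1 / 10000 ^ 22 * (N : ℝ) ≤
    ({t : ℕ | t ∈ Ioc N (2 * N) ∧ 1 ≤ ⌊f t⌋₊ ∧ Tgt (⌊f t⌋₊ : ℕ)}.ncard : ℝ) := by
  obtain ⟨T, hT⟩ := eventually_atTop.1 hpos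
  filter_upwards [tgt_of_small (fun γ hγ => order_smallTo d hd c hc0 hcd f hf γ hγ), eventually_ge_atTop T]
    with N h1 hN
  rw [Nat.card_Ioc, show 2 * N - N = N by omega] at h1
  refine h1.trans ?_
  have : ((Ioc N (2 * N) : Finset ℕ) : Set ℕ) ∩ {n : ℕ | Tgt ⌊f n⌋} ⊆
      {n : ℕ | n ∈ Ioc N (2 * N) ∧ 1 ≤ ⌊f n⌋₊ ∧ Tgt (⌊f n⌋₊ : ℕ)} := by
    rintro n ⟨hn, hn'⟩
    rw [Finset.mem_coe] at hn
    have h4 := hT n (hN.trans (Finset.mem_Ioc.1 hn).1.le)
    refine ⟨hn, (Nat.one_le_floor_iff _).2 h4, ?_⟩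
    rw [Pool.Agent.N141.SG.floor_nat (zero_le_one.trans h4)]
    exact hn'
  exact_mod_cast Set.ncard_le_ncard this ((Finset.finite_toSet _).subset fun n hn => hn.1)

end

end Pool.Agent.U828.KD
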