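import Mathlib
import Pool.Agent.U828.KD.Test
import Pool.Agent.N666.VE.Equi
import Pool.Agent.N666.TM.Mean

/-! Functions of a given order in the sense of their differences of order `d`: the integer parts of several such
functions with different orders are jointly well distributed in the residue classes modulo all the integers up to a
power (helper828). -/

set_option autoImplicit false

namespace Pool.Agent.U828.KD

open Finset Filter
open Pool.Agent.H469R2.NK (e norm_e e_add conj_e)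
open Pool.Agent.N666.VE (Small Equi equi_of_small)
open Pool.Agent.N666.TM (Well)
open Pool.Agent.N666.VE (cls)
open Pool.Agent.Y722.HS (red)
open Pool.Agent.W147.PS (ev_pow)

/-- from exponential sums to residue classes (the proof of `Pool.Agent.N666.TM.well_of_equi`, repeated here because of its
large imports) -/
theorem well_of_equi {ι : Type} [Fintype ι] [DecidableEq ι] [Nonempty ι] {r : ℕ} {s : ℕ → Finset ℕ} {x : ℕ → Fin r → ℝ} {δ : ℝ} (hδ : 0 < δ)
    (hE : Equi s x δ) (hs : ∃ N₀ : ℕ, ∀ N : ℕ, N₀ ≤ N → (N : ℝ) ^ (1 - δ / 2) ≤ (s N).card)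
    (e : ι ≃ Fin r) : ∃ κ : ℝ, 0 < κ ∧ ∃ N₀ : ℕ, ∀ N : ℕ, N₀ ≤ N → ∀ H : ℕ, (H : ℝ) ≤ (N : ℝ) ^ κ →
      Well (s N) (fun n i => ⌊x n (e i)⌋) H := by
  obtain ⟨N₁, h₁⟩ := hE
  obtain ⟨N₂, h₂⟩ := hs
  have hr : Fintype.card ι = r := by rw [Fintype.card_congr e, Fintype.card_fin]
  set κ : ℝ := δ / (4 * (r + 1)) with hκ
  have hκ0 : 0 < κ := by positivity
  have hκδ : (r + 1) * κ = δ / 4 := by rw [hκ]; field_simp
  have hr0 : (0 : ℝ) ≤ r := by positivity
  have hκδ' : κ ≤ δ / 4 := by nlinarith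
  have hev : ∀ᶠ Z : ℝ in atTop, 1 ≤ Z ∧ 3 * Z ^ κ ≤ Z ^ δ ∧
      3 ^ (r + 1) * Z ^ (δ / 4) ≤ Z ^ (δ / 2) := by
    filter_upwards [eventually_ge_atTop (1 : ℝ), ev_pow κ δ 3 (by linarith),
      ev_pow (δ / 4) (δ / 2) (3 ^ (r + 1)) (by linarith)] with Z h1 h2 h3
    exact ⟨h1, h2, h3⟩
  obtain ⟨Z₀, hZ₀⟩ := eventually_atTop.mp hev
  refine ⟨κ, hκ0, ⌈Z₀⌉₊ + N₁ + N₂ + 1, fun N hN H hH => ?_⟩
  have hNZ : Z₀ ≤ N := (Nat.le_ceil Z₀).trans (by exact_mod_cast (by omega : ⌈Z₀⌉₊ ≤ N))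
  obtain ⟨hN1, h3κ, h3r⟩ := hZ₀ N hNZ
  have hN0 : (0 : ℝ) < N := by linarith
  have hcard := h₂ N (by omega)
  have hcpos : (0 : ℝ) < (s N).card := lt_of_lt_of_le (by positivity) hcard
  refine ⟨by exact_mod_cast hcpos, fun q hq1 hq ρ => ?_⟩
  have h2H : 2 * (H : ℝ) + 1 ≤ 3 * (N : ℝ) ^ κ := by
    have : (1 : ℝ) ≤ (N : ℝ) ^ κ := Real.one_le_rpow hN1 hκ0.le
    linarith
  have hqR : (q : ℝ) ≤ 2 * (H : ℝ) + 1 := by exact_mod_cast hq
  have hqδ : (q : ℝ) ≤ (N : ℝ) ^ δ := by linarith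
  have hq0 : (0 : ℝ) < q := by exact_mod_cast hq1
  have : NeZero q := ⟨by omega⟩
  have h4 := h₁ N (by omega) q hq1 hqδ (fun j => ((ρ (e.symm j)).val : ℤ))
  have ecls : cls (s N) x q (fun j => ((ρ (e.symm j)).val : ℤ)) =
      {n ∈ s N | red q (fun i => ⌊x n (e i)⌋) = ρ} := by
    ext n
    unfold cls
    simp only [Finset.mem_filter, and_congr_right_iff]
    intro _
    have key : ∀ j, ((q : ℤ) ∣ ⌊x n j⌋ - ((ρ (e.symm j)).val : ℤ)) ↔
        ((⌊x n j⌋ : ℤ) : ZMod q) = ρ (e.symm j) := by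
      intro j
      have hc : (((ρ (e.symm j)).val : ℤ) : ZMod q) = ρ (e.symm j) := by
        rw [Int.cast_natCast, ZMod.natCast_zmod_val]
      rw [← ZMod.intCast_eq_intCast_iff_dvd_sub, hc]
      exact eq_comm
    constructor
    · intro h
      funext i
      have := (key (e i)).mp (h (e i))
      simpa [red] using this
    · intro h j
      rw [key]
      have := congrFun h (e.symm j)
      simpa [red] using this
  rw [ecls] at h4
  rw [hr]
  have h5 : |((#{n ∈ s N | red q (fun i => ⌊x n (e i)⌋) = ρ} : ℕ) : ℝ) / (s N).card -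
      1 / (q : ℝ) ^ r| ≤ (N : ℝ) ^ (1 - δ) / (s N).card := by
    have e1 : ((#{n ∈ s N | red q (fun i => ⌊x n (e i)⌋) = ρ} : ℕ) : ℝ) / (s N).card -
        1 / (q : ℝ) ^ r = (((#{n ∈ s N | red q (fun i => ⌊x n (e i)⌋) = ρ} : ℕ) : ℝ) -
          (s N).card / (q : ℝ) ^ r) / (s N).card := by
      field_simp
    rw [e1, abs_div, abs_of_pos hcpos]
    gcongr
  refine h5.trans ?_
  have h6 : (N : ℝ) ^ (1 - δ) / (s N).card ≤ 1 / (N : ℝ) ^ (δ / 2) := by
    rw [div_le_div_iff₀ hcpos (by positivity), one_mul, ← Real.rpow_add hN0]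
    have : 1 - δ + δ / 2 = 1 - δ / 2 := by ring
    rw [this]
    exact hcard
  refine h6.trans ?_
  have h7 : (2 * (H : ℝ) + 1) * (q : ℝ) ^ r ≤ (N : ℝ) ^ (δ / 2) := by
    calc (2 * (H : ℝ) + 1) * (q : ℝ) ^ r ≤ (3 * (N : ℝ) ^ κ) * (3 * (N : ℝ) ^ κ) ^ r := by
          gcongr
          linarith
      _ = 3 ^ (r + 1) * (N : ℝ) ^ ((r + 1) * κ) := by
          rw [← pow_succ', mul_pow, ← Real.rpow_natCast ((N : ℝ) ^ κ), ← Real.rpow_mul hN0.le]
          push_cast
          ring_nf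
      _ ≤ _ := by rw [hκδ]; exact h3r
  rw [one_div_mul_one_div]
  exact one_div_le_one_div_of_le (by positivity) h7

/-- the differences of order `d` of `f` have constant sign and are `n ^ (c - d + o(1))` in absolute value -/
def Order (d : ℕ) (c : ℝ) (f : ℕ → ℝ) : Prop :=
  ∀ ε : ℝ, 0 < ε → ∃ N₀ : ℕ,
    (∀ n : ℕ, N₀ ≤ n → (n : ℝ) ^ (c - d - ε) ≤ dk d f n ∧ dk d f n ≤ (n : ℝ) ^ (c - d + ε)) ∨
    (∀ n : ℕ, N₀ ≤ n → (n : ℝ) ^ (c - d - ε) ≤ -dk d f n ∧ -dk d f n ≤ (n : ℝ) ^ (c - d + ε))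

/-- the differences on a block -/
lemma order_block (d : ℕ) (c ε : ℝ) (f : ℕ → ℝ) (h : Order d c f) (hc0 : 0 < c) (hcd : c < d) (hε : 0 < ε)
    (hε1 : ε ≤ 1) (hεc : ε ≤ d - c) : ∃ σ : ℝ, (σ = 1 ∨ σ = -1) ∧ ∃ N₀ : ℕ, ∀ N : ℕ, N₀ ≤ N → ∀ n : ℕ, N ≤ n → n ≤ 3 * N →
      (N : ℝ) ^ (c - d - ε) * (1 / 3 ^ (d + 1)) ≤ σ * dk d f n ∧ σ * dk d f n ≤ (N : ℝ) ^ (c - d + ε) := by
  obtain ⟨N₀, h0⟩ := h ε hε
  have hlow : ∀ N : ℕ, 1 ≤ N → ∀ n : ℕ, N ≤ n → n ≤ 3 * N →
      (N : ℝ) ^ (c - d - ε) * (1 / 3 ^ (d + 1)) ≤ (n : ℝ) ^ (c - d - ε) := by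
    intro N hN n hn1 hn2
    have hN0 : (0 : ℝ) < N := by exact_mod_cast hN
    have hn0 : (0 : ℝ) < n := by exact_mod_cast (by omega : 0 < n)
    have h1 : (3 * (N : ℝ)) ^ (c - d - ε) ≤ (n : ℝ) ^ (c - d - ε) := by
      apply Real.rpow_le_rpow_of_nonpos hn0 (by exact_mod_cast hn2) (by linarith)
    refine le_trans ?_ h1
    rw [Real.mul_rpow (by norm_num) hN0.le, mul_comm]
    apply mul_le_mul_of_nonneg_right _ (by positivity)
    have h2 : (1 : ℝ) / 3 ^ (d + 1) = (3 : ℝ) ^ (-((d : ℝ) + 1)) := by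
      rw [Real.rpow_neg (by norm_num), one_div]
      congr 1
      rw [← Real.rpow_natCast]
      push_cast
      rfl
    rw [h2]
    apply Real.rpow_le_rpow_of_exponent_le (by norm_num)
    linarith
  have hupp : ∀ N : ℕ, 1 ≤ N → ∀ n : ℕ, N ≤ n → (n : ℝ) ^ (c - d + ε) ≤ (N : ℝ) ^ (c - d + ε) := by
    intro N hN n hn1
    have hN0 : (0 : ℝ) < N := by exact_mod_cast hN
    exact Real.rpow_le_rpow_of_nonpos hN0 (by exact_mod_cast hn1) (by linarith)
  rcases h0 with h0 | h0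
  · refine ⟨1, Or.inl rfl, N₀ + 1, fun N hN n hn1 hn2 => ?_⟩
    have h1 := h0 n (by omega)
    rw [one_mul]
    exact ⟨(hlow N (by omega) n hn1 hn2).trans h1.1, h1.2.trans (hupp N (by omega) n hn1)⟩
  · refine ⟨-1, Or.inr rfl, N₀ + 1, fun N hN n hn1 hn2 => ?_⟩
    have h1 := h0 n (by omega)
    rw [neg_one_mul]
    exact ⟨(hlow N (by omega) n hn1 hn2).trans h1.1, h1.2.trans (hupp N (by omega) n hn1)⟩

lemma dk_sum {ι : Type*} (s : Finset ι) (d : ℕ) (a : ι → ℝ) (f : ι → ℕ → ℝ) (m : ℕ) :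
    dk d (fun n => ∑ i ∈ s, a i * f i n) m = ∑ i ∈ s, a i * dk d (f i) m := by
  induction d generalizing m with
  | zero => rfl
  | succ d ih =>
    rw [dk_succ, ih, ih, ← sum_sub_distrib]
    apply sum_congr rfl
    intro i _
    rw [dk_succ]
    ring

/-- exponential sums over a block, from two-sided bounds for the differences of order `d` -/
lemma block_sum (d : ℕ) (hd : 2 ≤ d) (η c C : ℝ) (H : Test d η c C) (N : ℕ) (hN : 1 ≤ N) (F : ℕ → ℝ) (σ lam T : ℝ)
    (hσ : σ = 1 ∨ σ = -1) (hT : 1 ≤ T) (h1 : 1 ≤ lam * (N : ℝ) ^ d) (h2 : lam ≤ (N : ℝ) ^ (-η))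
    (hF : ∀ n, N ≤ n → n ≤ 3 * N → lam ≤ σ * dk d F n ∧ σ * dk d F n ≤ T * lam) :
    ‖∑ n ∈ Ioc N (2 * N), e (F n)‖ ≤ C * T * N * (lam * (N : ℝ) ^ d) ^ (-c) := by
  have hN0 : (0 : ℝ) < N := by exact_mod_cast hN
  have hlam0 : 0 < lam := by
    by_contra hcon
    push Not at hcon
    have : lam * (N : ℝ) ^ d ≤ 0 := mul_nonpos_of_nonpos_of_nonneg hcon (by positivity)
    linarith
  have e1 : ∑ n ∈ Ioc N (2 * N), e (F n) = ∑ n ∈ range N, e (F (n + (N + 1))) := by
    have h3 : Ioc N (2 * N) = Ico (N + 1) (2 * N + 1) := by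
      ext n
      simp only [mem_Ioc, mem_Ico]
      omega
    rw [h3, sum_Ico_eq_sum_range]
    have h4 : 2 * N + 1 - (N + 1) = N := by omega
    rw [h4]
    apply sum_congr rfl
    intro n _
    rw [add_comm]
  have e2 : ‖∑ n ∈ range N, e (F (n + (N + 1)))‖ = ‖∑ n ∈ range N, e ((fun n => σ * (fun n => F (n + (N + 1))) n) n)‖ := by
    rcases hσ with hσ | hσ
    · rw [hσ]
      simp only [one_mul]
    · rw [hσ]
      have e3 : ∑ n ∈ range N, e ((fun n => (-1 : ℝ) * (fun n => F (n + (N + 1))) n) n) =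
          (starRingEnd ℂ) (∑ n ∈ range N, e (F (n + (N + 1)))) := by
        rw [map_sum]
        apply sum_congr rfl
        intro m _
        rw [conj_e]
        congr 1
        ring
      rw [e3, RCLike.norm_conj]
  rw [e1, e2]
  have hdk : ∀ k m, dk k (fun n => σ * (fun n => F (n + (N + 1))) n) m = σ * dk k F (m + (N + 1)) := by
    intro k m
    rw [dk_mul, dk_shift]
  apply H N N _ lam T le_rfl hT h1 h2
  · intro m hm
    rw [hdk]
    exact (hF _ (by omega) (by omega)).1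
  · intro m m' hm hm'
    rw [hdk, hdk]
    obtain ⟨s, hs⟩ : ∃ s, s = d - 1 := ⟨_, rfl⟩
    have hds : d = s + 1 := by omega
    have key : ∀ a q : ℕ, N ≤ a → a + q ≤ 3 * N →
        0 ≤ σ * dk s F (a + q) - σ * dk s F a ∧ σ * dk s F (a + q) - σ * dk s F a ≤ q * (T * lam) := by
      intro a q ha haq
      rw [← mul_sub, dk_tel, mul_sum]
      constructor
      · apply sum_nonneg
        intro i hi
        rw [mem_range] at hi
        rw [← hds]
        exact hlam0.le.trans (hF _ (by omega) (by omega)).1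
      · calc ∑ i ∈ range q, σ * dk (s + 1) F (a + i) ≤ ∑ _i ∈ range q, T * lam := by
              apply sum_le_sum
              intro i hi
              rw [mem_range] at hi
              rw [← hds]
              exact (hF _ (by omega) (by omega)).2
          _ = q * (T * lam) := by rw [sum_const, card_range, nsmul_eq_mul]
    have hTl : 0 ≤ T * lam := by positivity
    rw [← hs] at hm hm' ⊢
    rcases le_total m' m with hmm | hmm
    · obtain ⟨q, rfl⟩ := Nat.exists_eq_add_of_le hmm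
      have h3 := (key (m' + (N + 1)) q (by omega) (by omega)).2
      have e4 : m' + q + (N + 1) = m' + (N + 1) + q := by ring
      rw [e4]
      refine h3.trans ?_
      have hq : (q : ℝ) ≤ N := by exact_mod_cast (by omega : q ≤ N)
      calc (q : ℝ) * (T * lam) ≤ N * (T * lam) := mul_le_mul_of_nonneg_right hq hTl
        _ = T * N * lam := by ring
    · obtain ⟨q, rfl⟩ := Nat.exists_eq_add_of_le hmm
      have h3 := (key (m + (N + 1)) q (by omega) (by omega)).1
      have e4 : m + q + (N + 1) = m + (N + 1) + q := by ring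
      rw [e4]
      have h5 : 0 ≤ T * N * lam := by positivity
      linarith

lemma exists_gap {r : ℕ} (c : Fin r → ℝ) (hc : Function.Injective c) :
    ∃ g : ℝ, 0 < g ∧ g ≤ 1 ∧ ∀ j k, c j < c k → c j + g ≤ c k := by
  classical
  obtain ⟨S, hS⟩ : ∃ S : Finset ℝ, S = insert 1 ((univ : Finset (Fin r × Fin r)).filter (fun p => c p.1 < c p.2)
    |>.image (fun p => c p.2 - c p.1)) := ⟨_, rfl⟩
  have hne : S.Nonempty := ⟨1, by rw [hS]; exact mem_insert_self _ _⟩
  have hm : ∀ x ∈ S, x = 1 ∨ ∃ p : Fin r × Fin r, c p.1 < c p.2 ∧ c p.2 - c p.1 = x := by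
    intro x hx
    rw [hS, mem_insert, mem_image] at hx
    rcases hx with hx | ⟨p, hp, hx⟩
    · exact Or.inl hx
    · exact Or.inr ⟨p, (mem_filter.1 hp).2, hx⟩
  refine ⟨S.min' hne, ?_, ?_, ?_⟩
  · rcases hm _ (S.min'_mem hne) with h1 | ⟨p, hp, h1⟩
    · rw [h1]; norm_num
    · rw [← h1]
      linarith
  · apply S.min'_le
    rw [hS]
    exact mem_insert_self _ _
  · intro j k hjk
    have h1 : S.min' hne ≤ c k - c j := by
      apply S.min'_le
      rw [hS, mem_insert, mem_image]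
      right
      exact ⟨(j, k), by rw [mem_filter]; exact ⟨mem_univ _, hjk⟩, rfl⟩
    linarith

theorem small_order {r : ℕ} (hr : 1 ≤ r) (d : ℕ) (hd : 2 ≤ d) (c : Fin r → ℝ) (hc : Function.Injective c)
    (hc0 : ∀ j, 0 < c j) (hcd : ∀ j, c j < d) (f : ℕ → Fin r → ℝ) (hf : ∀ j, Order d (c j) (fun n => f n j)) :
    Small (r := r) (fun N => Ioc N (2 * N)) f := by
  classical
  have : Nonempty (Fin r) := ⟨⟨0, hr⟩⟩
  obtain ⟨g, hg0, hg1, hg⟩ := exists_gap c hc
  obtain ⟨ja, -, hja⟩ := exists_min_image univ c (univ_nonempty : (univ : Finset (Fin r)).Nonempty)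
  obtain ⟨jb, -, hjb⟩ := exists_max_image univ c (univ_nonempty : (univ : Finset (Fin r)).Nonempty)
  obtain ⟨a, ha⟩ : ∃ a, a = min 1 (c ja) := ⟨_, rfl⟩
  obtain ⟨b, hb⟩ : ∃ b, b = min 1 (d - c jb) := ⟨_, rfl⟩
  have ha0 : 0 < a := by rw [ha]; exact lt_min one_pos (hc0 ja)
  have hb0 : 0 < b := by rw [hb]; exact lt_min one_pos (by linarith [hcd jb])
  have ha1 : a ≤ 1 := by rw [ha]; exact min_le_left _ _
  have hb1 : b ≤ 1 := by rw [hb]; exact min_le_left _ _
  have hac : ∀ j, a ≤ c j := fun j => by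
    rw [ha]; exact (min_le_right _ _).trans (hja j (mem_univ _))
  have hbc : ∀ j, c j ≤ d - b := fun j => by
    have h1 := hjb j (mem_univ _)
    have h2 : b ≤ d - c jb := by rw [hb]; exact min_le_right _ _
    linarith
  obtain ⟨c₀, C₀, hc₀, hc₀1, hC₀, H⟩ := test d hd b hb0 hb1
  obtain ⟨u, hu⟩ : ∃ u, u = min (min g a) b := ⟨_, rfl⟩
  have hu0 : 0 < u := by rw [hu]; exact lt_min (lt_min hg0 ha0) hb0
  have hug : u ≤ g := by rw [hu]; exact (min_le_left _ _).trans (min_le_left _ _)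
  have hua : u ≤ a := by rw [hu]; exact (min_le_left _ _).trans (min_le_right _ _)
  have hub : u ≤ b := by rw [hu]; exact min_le_right _ _
  obtain ⟨τ, hτ⟩ : ∃ τ, τ = c₀ * u / 32 := ⟨_, rfl⟩
  have hτ0 : 0 < τ := by rw [hτ]; positivity
  have hτu : τ ≤ u / 64 := by rw [hτ]; nlinarith
  have hτc : 8 * τ ≤ c₀ * a / 4 := by
    rw [hτ]
    have : c₀ * u ≤ c₀ * a := mul_le_mul_of_nonneg_left hua hc₀.le
    linarith
  have hτ1 : τ ≤ 1 := by linarith
  have hbl := fun j => order_block d (c j) τ (fun n => f n j) (hf j) (hc0 j) (hcd j) hτ0 hτ1 (by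
    have := hbc j
    linarith)
  choose σ hσ n₀ hn₀ using hbl
  obtain ⟨D, hD⟩ : ∃ D : ℝ, D = C₀ * (r * 3 ^ (d + 2)) := ⟨_, rfl⟩
  have hr1 : (1 : ℝ) ≤ r := by exact_mod_cast hr
  have h31 : (1 : ℝ) ≤ 3 ^ (d + 2) := one_le_pow₀ (by norm_num)
  have hD1 : (r : ℝ) * 3 ^ (d + 2) ≤ D := by
    rw [hD]
    exact le_mul_of_one_le_left (by positivity) hC₀
  have hD2 : (3 : ℝ) ^ (d + 2) ≤ D := (le_mul_of_one_le_left (by positivity) hr1).trans hD1
  have hDpos : 1 ≤ D := h31.trans hD2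
  have hev : ∀ᶠ Z : ℝ in atTop, 1 ≤ Z ∧ D ≤ Z ^ τ := by
    filter_upwards [eventually_ge_atTop (1 : ℝ), (tendsto_rpow_atTop hτ0).eventually_ge_atTop D] with Z h1 h2
    exact ⟨h1, h2⟩
  obtain ⟨Z₀, hZ₀⟩ := eventually_atTop.mp hev
  refine ⟨τ, hτ0, hτ1, ⌈Z₀⌉₊ + univ.sup n₀ + 1, ?_⟩
  intro N hN h hh hhN q hq hqN
  have hNZ : Z₀ ≤ N := (Nat.le_ceil Z₀).trans (by exact_mod_cast (by omega : ⌈Z₀⌉₊ ≤ N))
  obtain ⟨hN1, hND⟩ := hZ₀ N hNZ
  have hN1' : 1 ≤ N := by omega
  have hN0 : (0 : ℝ) < N := by linarith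
  have hq0 : (0 : ℝ) < q := by exact_mod_cast (by omega : 0 < q)
  have hNn : ∀ j, n₀ j ≤ N := fun j => (le_sup (mem_univ j)).trans (by omega)
  have hpow : ∀ x y : ℝ, x ≤ y → (N : ℝ) ^ x ≤ (N : ℝ) ^ y := fun x y hxy => Real.rpow_le_rpow_of_exponent_le hN1 hxy
  -- the leading function
  obtain ⟨j', hj'⟩ : ∃ j', h j' ≠ 0 := by
    by_contra hcon
    push Not at hcon
    exact hh (funext hcon)
  obtain ⟨k, hk, hkm⟩ := exists_max_image (univ.filter (fun j => h j ≠ 0)) c ⟨j', by simp [hj']⟩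
  have hk0 : h k ≠ 0 := (mem_filter.1 hk).2
  have hkge : (1 : ℝ) ≤ |(h k : ℝ)| := by
    have : 1 ≤ |h k| := Int.one_le_abs hk0
    exact_mod_cast this
  obtain ⟨F, hF⟩ : ∃ F : ℕ → ℝ, F = fun n => ∑ j, ((h j : ℝ) / q) * f n j := ⟨_, rfl⟩
  have hsum : ∑ n ∈ Ioc N (2 * N), e (∑ j, (h j : ℝ) * (f n j / q)) = ∑ n ∈ Ioc N (2 * N), e (F n) := by
    apply sum_congr rfl
    intro n _
    rw [hF]
    simp only
    congr 1
    apply sum_congr rfl
    intro j _
    ring
  have hdkF : ∀ n, dk d F n = ∑ j, ((h j : ℝ) / q) * dk d (fun n => f n j) n := by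
    intro n
    rw [hF]
    exact dk_sum univ d (fun j => (h j : ℝ) / q) (fun j n => f n j) n
  -- the individual terms
  have hterm : ∀ j n, N ≤ n → n ≤ 3 * N → |dk d (fun n => f n j) n| ≤ (N : ℝ) ^ (c j - d + τ) := by
    intro j n hn1 hn2
    have h1 := hn₀ j N (hNn j) n hn1 hn2
    have h2 : 0 ≤ σ j * dk d (fun n => f n j) n := by
      refine le_trans ?_ h1.1
      positivity
    have h3 : |dk d (fun n => f n j) n| = |σ j * dk d (fun n => f n j) n| := by
      rcases hσ j with h4 | h4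
      · rw [h4, one_mul]
      · rw [h4, neg_one_mul, abs_neg]
    rw [h3, abs_of_nonneg h2]
    exact h1.2
  obtain ⟨lam, hlam⟩ : ∃ lam, lam = (N : ℝ) ^ (c k - d - τ) / (q * 3 ^ (d + 2)) := ⟨_, rfl⟩
  have hlam0 : 0 < lam := by rw [hlam]; positivity
  obtain ⟨T, hT⟩ : ∃ T, T = (r * 3 ^ (d + 2)) * (N : ℝ) ^ (3 * τ) := ⟨_, rfl⟩
  have hT1 : 1 ≤ T := by
    rw [hT]
    exact one_le_mul_of_one_le_of_one_le (one_le_mul_of_one_le_of_one_le hr1 h31) (Real.one_le_rpow hN1 (by positivity))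
  obtain ⟨s, hs⟩ : ∃ s : ℝ, s = if 0 < h k then σ k else -σ k := ⟨_, rfl⟩
  have hs1 : s = 1 ∨ s = -1 := by
    rw [hs]
    rcases hσ k with h4 | h4 <;> rw [h4] <;> split_ifs <;> norm_num
  have hsk : s * h k = |(h k : ℝ)| * σ k := by
    rw [hs]
    split_ifs with h4
    · have : (0 : ℝ) < h k := by exact_mod_cast h4
      rw [abs_of_pos this]
      ring
    · have h5 : h k < 0 := lt_of_le_of_ne (not_lt.1 h4) hk0
      have : (h k : ℝ) < 0 := by exact_mod_cast h5
      rw [abs_of_neg this]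
      ring
  have hbound : ∀ n, N ≤ n → n ≤ 3 * N → lam ≤ s * dk d F n ∧ s * dk d F n ≤ T * lam := by
    intro n hn1 hn2
    obtain ⟨G, hG⟩ : ∃ G : Fin r → ℝ, G = fun j => dk d (fun n => f n j) n := ⟨_, rfl⟩
    have hGj : ∀ j, |G j| ≤ (N : ℝ) ^ (c j - d + τ) := fun j => by rw [hG]; exact hterm j n hn1 hn2
    have hdF : dk d F n = ∑ j, ((h j : ℝ) / q) * G j := by rw [hdkF, hG]
    rw [hdF, ← add_sum_erase univ _ (mem_univ k), mul_add]
    have hlead : s * ((h k : ℝ) / q * G k) = |(h k : ℝ)| / q * (σ k * G k) := by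
      have : s * ((h k : ℝ) / q * G k) = (s * h k) / q * G k := by ring
      rw [this, hsk]
      ring
    have hk1 := hn₀ k N (hNn k) n hn1 hn2
    have hGk : G k = dk d (fun n => f n k) n := by rw [hG]
    rw [← hGk] at hk1
    have hrest : |s * ∑ j ∈ univ.erase k, (h j : ℝ) / q * G j| ≤ lam * 2 := by
      rw [abs_mul]
      have hsa : |s| = 1 := by rcases hs1 with h4 | h4 <;> rw [h4] <;> norm_num
      rw [hsa, one_mul]
      refine (abs_sum_le_sum_abs _ _).trans ?_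
      have h4 : ∀ j ∈ univ.erase k, |(h j : ℝ) / q * G j| ≤ (N : ℝ) ^ (c k - d - g + 2 * τ) / q := by
        intro j hj
        by_cases hj0 : h j = 0
        · rw [hj0, Int.cast_zero, zero_div, zero_mul, abs_zero]
          positivity
        · have h5 : c j < c k := by
            refine lt_of_le_of_ne (hkm j (by simp [hj0])) fun h6 => ?_
            exact (mem_erase.1 hj).1 (hc h6)
          have h6 := hg j k h5
          rw [abs_mul, abs_div, abs_of_pos hq0]
          calc |(h j : ℝ)| / q * |G j| ≤ (N : ℝ) ^ τ / q * (N : ℝ) ^ (c j - d + τ) := by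
                apply mul_le_mul _ (hGj j) (abs_nonneg _) (by positivity)
                exact div_le_div_of_nonneg_right (hhN j) hq0.le
            _ = (N : ℝ) ^ (c j - d + 2 * τ) / q := by
                rw [div_mul_eq_mul_div, ← Real.rpow_add hN0]
                congr 2
                ring
            _ ≤ _ := by
                apply div_le_div_of_nonneg_right _ hq0.le
                exact hpow _ _ (by linarith)
      calc ∑ j ∈ univ.erase k, |(h j : ℝ) / q * G j| ≤ ∑ _j ∈ univ.erase k, (N : ℝ) ^ (c k - d - g + 2 * τ) / q :=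
            sum_le_sum h4
        _ ≤ r * ((N : ℝ) ^ (c k - d - g + 2 * τ) / q) := by
            rw [sum_const, nsmul_eq_mul]
            apply mul_le_mul_of_nonneg_right _ (by positivity)
            have h5 : ((univ.erase k).card : ℝ) ≤ (univ : Finset (Fin r)).card := by
              exact_mod_cast card_le_card (erase_subset _ _)
            rw [card_univ, Fintype.card_fin] at h5
            exact h5
        _ ≤ lam * 2 := by
            rw [hlam]
            have h5 : (N : ℝ) ^ (c k - d - g + 2 * τ) * (r * 3 ^ (d + 2)) ≤ (N : ℝ) ^ (c k - d - τ) := by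
              calc (N : ℝ) ^ (c k - d - g + 2 * τ) * (r * 3 ^ (d + 2)) ≤ (N : ℝ) ^ (c k - d - g + 2 * τ) * (N : ℝ) ^ τ := by
                    apply mul_le_mul_of_nonneg_left (hD1.trans hND) (by positivity)
                _ = (N : ℝ) ^ (c k - d - g + 3 * τ) := by rw [← Real.rpow_add hN0]; congr 1; ring
                _ ≤ _ := hpow _ _ (by linarith)
            have h6 : r * ((N : ℝ) ^ (c k - d - g + 2 * τ) / q) =
                ((N : ℝ) ^ (c k - d - g + 2 * τ) * (r * 3 ^ (d + 2))) / (q * 3 ^ (d + 2)) := by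
              field_simp
            rw [h6]
            have h7 := div_le_div_of_nonneg_right h5 (show (0 : ℝ) ≤ q * 3 ^ (d + 2) by positivity)
            have h8 : 0 ≤ (N : ℝ) ^ (c k - d - τ) / (q * 3 ^ (d + 2)) := by positivity
            linarith
    have hrest' := abs_le.1 hrest
    constructor
    · rw [hlead]
      have h4 : 3 * lam ≤ |(h k : ℝ)| / q * (σ k * G k) := by
        calc 3 * lam = 1 / q * ((N : ℝ) ^ (c k - d - τ) * (1 / 3 ^ (d + 1))) := by
              rw [hlam]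
              field_simp
              ring
          _ ≤ |(h k : ℝ)| / q * (σ k * G k) := by
              apply mul_le_mul _ hk1.1 (by positivity) (by positivity)
              exact div_le_div_of_nonneg_right hkge hq0.le
      linarith [hrest'.1]
    · rw [hlead]
      have h4 : |(h k : ℝ)| / q * (σ k * G k) ≤ (N : ℝ) ^ (c k - d + 2 * τ) / q := by
        calc |(h k : ℝ)| / q * (σ k * G k) ≤ (N : ℝ) ^ τ / q * (N : ℝ) ^ (c k - d + τ) := by
              apply mul_le_mul _ hk1.2 _ (by positivity)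
              · exact div_le_div_of_nonneg_right (hhN k) hq0.le
              · exact le_trans (by positivity) hk1.1
          _ = _ := by
              rw [div_mul_eq_mul_div, ← Real.rpow_add hN0]
              congr 2
              ring
      have h5 : T * lam = r * ((N : ℝ) ^ (c k - d + 2 * τ) / q) := by
        rw [hT, hlam]
        have e1 : (N : ℝ) ^ (c k - d + 2 * τ) = (N : ℝ) ^ (3 * τ) * (N : ℝ) ^ (c k - d - τ) := by
          rw [← Real.rpow_add hN0]
          congr 1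
          ring
        rw [e1]
        field_simp
      rcases Nat.lt_or_ge 1 r with h6 | h6
      · have h7 : (2 : ℝ) ≤ r := by exact_mod_cast h6
        rw [h5]
        have h8 : lam * 2 ≤ (N : ℝ) ^ (c k - d + 2 * τ) / q := by
          rw [hlam, div_mul_eq_mul_div, div_le_div_iff₀ (by positivity) hq0]
          have h9 : (N : ℝ) ^ (c k - d - τ) ≤ (N : ℝ) ^ (c k - d + 2 * τ) := hpow _ _ (by linarith)
          calc (N : ℝ) ^ (c k - d - τ) * 2 * q ≤ (N : ℝ) ^ (c k - d + 2 * τ) * 3 ^ (d + 2) * q := by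
                apply mul_le_mul_of_nonneg_right _ hq0.le
                apply mul_le_mul h9 _ (by norm_num) (by positivity)
                calc (2 : ℝ) ≤ 3 ^ 1 := by norm_num
                  _ ≤ 3 ^ (d + 2) := pow_le_pow_right₀ (by norm_num) (by omega)
            _ = _ := by ring
        have h10 : 2 * ((N : ℝ) ^ (c k - d + 2 * τ) / q) ≤ r * ((N : ℝ) ^ (c k - d + 2 * τ) / q) :=
          mul_le_mul_of_nonneg_right h7 (by positivity)
        linarith [hrest'.2]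
      · have h7 : r = 1 := by omega
        subst h7
        have h8 : (univ.erase k : Finset (Fin 1)) = ∅ := by
          ext j
          simp only [mem_erase, mem_univ, and_true, notMem_empty, iff_false, not_not]
          exact Subsingleton.elim _ _
        rw [h8, sum_empty, mul_zero, add_zero, h5]
        refine h4.trans ?_
        rw [Nat.cast_one, one_mul]
  have hu1 : (N : ℝ) ^ (a / 4) ≤ lam * (N : ℝ) ^ d := by
    rw [hlam, ← Real.rpow_natCast (N : ℝ) d, div_mul_eq_mul_div, ← Real.rpow_add hN0, le_div_iff₀ (by positivity)]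
    calc (N : ℝ) ^ (a / 4) * (q * 3 ^ (d + 2)) ≤ (N : ℝ) ^ (a / 4) * ((N : ℝ) ^ τ * (N : ℝ) ^ τ) := by
          apply mul_le_mul_of_nonneg_left _ (by positivity)
          exact mul_le_mul hqN (hD2.trans hND) (by positivity) (by positivity)
      _ = (N : ℝ) ^ (a / 4 + (τ + τ)) := by rw [← Real.rpow_add hN0, ← Real.rpow_add hN0]
      _ ≤ _ := hpow _ _ (by have := hac k; linarith)
  have hu2 : 1 ≤ lam * (N : ℝ) ^ d := (Real.one_le_rpow hN1 (by positivity)).trans hu1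
  have hu3 : lam ≤ (N : ℝ) ^ (-b) := by
    rw [hlam, div_le_iff₀ (by positivity)]
    calc (N : ℝ) ^ (c k - d - τ) ≤ (N : ℝ) ^ (-b) := hpow _ _ (by have := hbc k; linarith)
      _ ≤ (N : ℝ) ^ (-b) * (q * 3 ^ (d + 2)) := by
          apply le_mul_of_one_le_right (by positivity)
          exact one_le_mul_of_one_le_of_one_le (by exact_mod_cast hq) h31
  rw [hsum]
  refine (block_sum d hd b c₀ C₀ H N hN1' F s lam T hs1 hT1 hu2 hu3 hbound).trans ?_
  have h5 : (lam * (N : ℝ) ^ d) ^ (-c₀) ≤ (N : ℝ) ^ (-(8 * τ)) := by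
    calc (lam * (N : ℝ) ^ d) ^ (-c₀) ≤ ((N : ℝ) ^ (a / 4)) ^ (-c₀) :=
          Real.rpow_le_rpow_of_nonpos (by positivity) hu1 (by linarith)
      _ = (N : ℝ) ^ (a / 4 * -c₀) := by rw [← Real.rpow_mul hN0.le]
      _ ≤ _ := hpow _ _ (by linarith)
  calc C₀ * T * N * (lam * (N : ℝ) ^ d) ^ (-c₀) ≤ C₀ * T * N * (N : ℝ) ^ (-(8 * τ)) :=
        mul_le_mul_of_nonneg_left h5 (by positivity)
    _ = D * ((N : ℝ) ^ (3 * τ) * N * (N : ℝ) ^ (-(8 * τ))) := by rw [hT, hD]; ring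
    _ ≤ (N : ℝ) ^ τ * ((N : ℝ) ^ (3 * τ) * N * (N : ℝ) ^ (-(8 * τ))) :=
        mul_le_mul_of_nonneg_right hND (by positivity)
    _ = (N : ℝ) ^ (1 - 4 * τ) := by
        have e1 : (N : ℝ) ^ τ * ((N : ℝ) ^ (3 * τ) * N * (N : ℝ) ^ (-(8 * τ))) =
            (N : ℝ) ^ τ * ((N : ℝ) ^ (3 * τ) * (N : ℝ) ^ (1 : ℝ) * (N : ℝ) ^ (-(8 * τ))) := by rw [Real.rpow_one]
        rw [e1, ← Real.rpow_add hN0, ← Real.rpow_add hN0, ← Real.rpow_add hN0]
        congr 1
        ring
    _ ≤ _ := hpow _ _ (by linarith)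

/-- The integer parts of functions of different orders are jointly well distributed in the residue classes modulo all
the integers up to a power of `N`. -/
theorem order_well {ι : Type} [Fintype ι] [DecidableEq ι] [Nonempty ι] (d : ℕ) (hd : 2 ≤ d) (c : ι → ℝ)
    (hc : Function.Injective c) (hc0 : ∀ i, 0 < c i) (hcd : ∀ i, c i < d) (f : ι → ℕ → ℝ)
    (hf : ∀ i, Order d (c i) (f i)) : ∃ κ : ℝ, 0 < κ ∧ ∃ N₀ : ℕ, ∀ N : ℕ, N₀ ≤ N → ∀ H : ℕ, (H : ℝ) ≤ (N : ℝ) ^ κ →
      Well (Ioc N (2 * N)) (fun n i => ⌊f i n⌋) H := by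
  classical
  obtain ⟨e, he⟩ : ∃ e : ι ≃ Fin (Fintype.card ι), e = Fintype.equivFin ι := ⟨_, rfl⟩
  have hr : 1 ≤ Fintype.card ι := Fintype.card_pos
  obtain ⟨F, hF⟩ : ∃ F : ℕ → Fin (Fintype.card ι) → ℝ, F = fun n j => f (e.symm j) n := ⟨_, rfl⟩
  have hsm := small_order hr d hd (fun j => c (e.symm j)) (hc.comp e.symm.injective) (fun j => hc0 _) (fun j => hcd _) F
    (fun j => by rw [hF]; exact hf _)
  obtain ⟨δ, hδ, hδ1, hE⟩ := equi_of_small hr _ (fun _ => Finset.Subset.refl _) _ hsm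
  have hw := well_of_equi hδ hE ⟨1, fun N hN => ?_⟩ e
  · have e1 : (fun n i => ⌊F n (e i)⌋) = fun n i => ⌊f i n⌋ := by
      funext n i
      rw [hF]
      simp
    rw [e1] at hw
    exact hw
  · have hN1 : (1 : ℝ) ≤ N := by exact_mod_cast hN
    rw [Nat.card_Ioc, show 2 * N - N = N by omega]
    calc (N : ℝ) ^ (1 - δ / 2) ≤ (N : ℝ) ^ (1 : ℝ) := Real.rpow_le_rpow_of_exponent_le hN1 (by linarith)
      _ = N := Real.rpow_one _

end Pool.Agent.U828.KD
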