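import Mathlib
import Pool.Agent.U828.KD.One
import Pool.Agent.U471.RP.LogNearNat

/-! The criterion for families of integers from the criterion for families of natural numbers (helper828; the passage to a
subfamily is helper471's). -/

set_option autoImplicit false

namespace Pool.Agent.U828.KD

open Finset
open Pool.Agent.H373R2.T7 (energy)
open Pool.Agent.U828.CV.At (Crit1)

theorem crit1_nat {B h D V N : ℕ} (hN : 1 ≤ Real.log N) {Bad : ℕ → Prop}
    (hlaw : ∀ (x : ℕ) (s : ℕ → ℕ), (∀ m ∈ Icc 1 x, s m ≤ B * N) →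
      (energy h x (fun m => (s m : ℤ)) : ℝ) * N ≤ Real.log N ^ (D + 2 * h * V) * (x : ℝ) ^ (2 * h) →
      ∀ S ⊆ Icc 1 x, (∀ m ∈ S, Bad (s m)) → (S.card : ℝ) ≤ x / Real.log N ^ V) :
    Crit1 B h D V N (fun b => ¬ (0 ≤ b ∧ Bad b.toNat)) := by
  classical
  intro x s hs hE S hSx hS
  obtain ⟨L, hLd⟩ : ∃ L, L = Real.log (N : ℝ) := ⟨_, rfl⟩
  rw [← hLd] at hN hE hlaw ⊢
  have hL0 : 0 < L := by linarith
  have hS' : ∀ m ∈ S, 0 ≤ s m ∧ Bad (s m).toNat := fun m hm => not_not.1 (hS m hm)
  obtain ⟨T, hT⟩ : ∃ T : Finset ℕ, T = (Icc 1 x).filter (fun m => 0 ≤ s m) := ⟨_, rfl⟩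
  have hTx : T ⊆ Icc 1 x := by rw [hT]; exact filter_subset _ _
  have hST : S ⊆ T := by
    intro m hm
    rw [hT, mem_filter]
    exact ⟨hSx hm, (hS' m hm).1⟩
  by_cases hbig : (T.card : ℝ) * L ^ V ≤ x
  · rw [le_div_iff₀ (by positivity)]
    refine le_trans ?_ hbig
    apply mul_le_mul_of_nonneg_right _ (by positivity)
    exact_mod_cast card_le_card hST
  · rw [not_le] at hbig
    obtain ⟨e, he1, he2, he3, he4⟩ := Pool.Agent.U471.RP.restrict x T hTx s
    have hpos : ∀ i ∈ Icc 1 T.card, 0 ≤ s (e i) := by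
      intro i hi
      have := he1 i hi
      rw [hT, mem_filter] at this
      exact this.2
    have hen : energy h T.card (fun i => (((s (e i)).toNat : ℕ) : ℤ)) = energy h T.card (fun i => s (e i)) := by
      unfold energy
      congr 1
      apply filter_congr
      intro q hq
      rw [mem_product, Fintype.mem_piFinset, Fintype.mem_piFinset] at hq
      have e1 : ∀ i, (((s (e (q.1 i))).toNat : ℕ) : ℤ) = s (e (q.1 i)) := fun i => Int.toNat_of_nonneg (hpos _ (hq.1 i))
      have e2 : ∀ i, (((s (e (q.2 i))).toNat : ℕ) : ℤ) = s (e (q.2 i)) := fun i => Int.toNat_of_nonneg (hpos _ (hq.2 i))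
      simp only [e1, e2]
    have h1 := hlaw T.card (fun i => (s (e i)).toNat) (by
      intro i hi
      have h2 := hs (e i) (hTx (he1 i hi))
      have h3 : ((s (e i) : ℤ) : ℝ) ≤ B * N := (le_abs_self _).trans (by exact_mod_cast h2)
      have h4 : s (e i) ≤ ((B * N : ℕ) : ℤ) := by
        have : ((s (e i) : ℤ) : ℝ) ≤ ((B * N : ℕ) : ℝ) := by push_cast; exact h3
        exact_mod_cast this
      omega) (by
      rw [hen]
      have h2 : (energy h T.card (fun i => s (e i)) : ℝ) ≤ energy h x s := by exact_mod_cast he4 h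
      calc (energy h T.card (fun i => s (e i)) : ℝ) * N ≤ energy h x s * N :=
            mul_le_mul_of_nonneg_right h2 (Nat.cast_nonneg _)
        _ ≤ L ^ D * (x : ℝ) ^ (2 * h) := hE
        _ ≤ L ^ D * ((T.card : ℝ) * L ^ V) ^ (2 * h) := by
            apply mul_le_mul_of_nonneg_left _ (by positivity)
            exact pow_le_pow_left₀ (Nat.cast_nonneg _) hbig.le _
        _ = L ^ (D + 2 * h * V) * (T.card : ℝ) ^ (2 * h) := by
            rw [mul_pow, ← pow_mul, pow_add]
            ring) ((Icc 1 T.card).filter (fun i => e i ∈ S)) (filter_subset _ _) (by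
      intro i hi
      rw [mem_filter] at hi
      exact (hS' _ hi.2).2)
    have h2 : S.card ≤ ((Icc 1 T.card).filter (fun i => e i ∈ S)).card := by
      have h3 : S ⊆ ((Icc 1 T.card).filter (fun i => e i ∈ S)).image e := by
        intro m hm
        obtain ⟨i, hi, him⟩ := he3 m (hST hm)
        rw [mem_image]
        exact ⟨i, by rw [mem_filter]; exact ⟨hi, by rw [him]; exact hm⟩, him⟩
      exact (card_le_card h3).trans card_image_le
    have h4 : T.card ≤ x := by
      have := card_le_card hTx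
      rwa [Nat.card_Icc, Nat.add_sub_cancel] at this
    calc (S.card : ℝ) ≤ ((Icc 1 T.card).filter (fun i => e i ∈ S)).card := by exact_mod_cast h2
      _ ≤ T.card / L ^ V := h1
      _ ≤ x / L ^ V := by
          apply div_le_div_of_nonneg_right _ (by positivity)
          exact_mod_cast h4

end Pool.Agent.U828.KD
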