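import Mathlib
import Pool.Agent.U828.KD.Near
import Pool.Agent.TH893.CL.Fam

/-! Products of `k` consecutive values of the Liouville function along progressions, for all the lengths `k ≤ H` near almost
all values of a function whose differences of order `r` are bounded below; `H` may be bounded (helper828). -/

set_option autoImplicit false

namespace Pool.Agent.U828.KD

open Finset Filter
open Pool.Agent.U828.CV (Vec)
open Pool.Agent.TH893.CL (Pk lr Half fam_gen num num_le_card)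
open Pool.Agent.H373R2.T7 (energy)

lemma half_mono {a b N : ℕ} {ε ε' : ℝ} (h : ε' ≤ ε) {ξ : ℕ → ℂ} {k : ℕ} (hH : Half a b N ε' ξ k) : Half a b N ε ξ k := by
  intro Y X hYX hX
  refine (hH Y X hYX hX).trans ?_
  have : ε' * N ≤ ε * N := mul_le_mul_of_nonneg_right h (Nat.cast_nonneg _)
  linarith

/-- lengths `k ≤ H`, `H ≥ H₀`, near the values of a function whose differences of order `r` are bounded below -/
theorem len_bdd (r : ℕ) (hr : 2 ≤ r) (a : ℕ) (ha : 1 ≤ a) (L : ℕ) (hL : 1 ≤ L) (ε η : ℝ) (hε : 0 < ε) (hη : 0 < η) :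
    ∃ H₀ N₀ : ℕ, ∀ N H : ℕ, N₀ ≤ N → H₀ ≤ H → H ≤ N → ∀ b : ℕ, b ≤ N →
      ∀ x : ℕ, (H : ℝ) ^ (1 / (r : ℝ) + η) ≤ x → ∀ f : ℕ → ℝ, (∀ m ∈ Icc 1 x, |f m| ≤ H) →
      Bent r x f ((H : ℝ) / (L * (x : ℝ) ^ r)) → ∀ ξ : ℕ → ℂ, (∀ n, ‖ξ n‖ ≤ 1) →
      ∀ S ⊆ Icc 1 x, (∀ m ∈ S, ∃ k : ℕ, 1 ≤ k ∧ k ≤ H ∧ |(k : ℝ) - f m| ≤ L ∧ ¬ Half a b N ε ξ k) →
      (S.card : ℝ) ≤ ε * x := by
  classical
  rcases le_or_gt 1 ε with hε1 | hε1
  · refine ⟨0, 0, fun N H _ _ _ b _ x _ f _ _ ξ _ S hS _ => ?_⟩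
    have h1 : (S.card : ℝ) ≤ x := by
      have := card_le_card hS
      rw [Nat.card_Icc, Nat.add_sub_cancel] at this
      exact_mod_cast this
    have hx0 : (0 : ℝ) ≤ x := Nat.cast_nonneg _
    nlinarith
  have hr0 : (0 : ℝ) < r := by exact_mod_cast (by omega : 0 < r)
  have hL1 : (1 : ℝ) ≤ L := by exact_mod_cast hL
  obtain ⟨h₀, hh⟩ := energy_r r hr 1 η hη
  obtain ⟨C, hC1, hC⟩ := hh h₀ le_rfl
  obtain ⟨h, hhd⟩ : ∃ h, h = h₀ := ⟨_, rfl⟩
  rw [← hhd] at hC
  obtain ⟨Λ, hΛ⟩ : ∃ Λ : ℝ, Λ = L + 1 + 16 * r / ε := ⟨_, rfl⟩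
  have hΛ1 : 16 * r / ε ≤ Λ := by rw [hΛ]; linarith
  have hΛ2 : (L : ℝ) + 1 ≤ Λ := by
    rw [hΛ]
    have : 0 ≤ 16 * (r : ℝ) / ε := by positivity
    linarith
  have hΛ3 : 1 ≤ Λ := by linarith
  have hΛ0 : 0 < Λ := by linarith
  obtain ⟨H₀, N₀, h1⟩ := fam_gen ha (half_pos hε) h (C * Λ ^ (2 * h * (r + 1) + 1) * 4 ^ h)
  obtain ⟨H₁, hH₁⟩ : ∃ H₁ : ℕ, ∀ H : ℕ, H₁ ≤ H → 16 * r / ε + 8 ≤ (H : ℝ) ^ η := by
    have h2 := ((tendsto_rpow_atTop hη).comp (tendsto_natCast_atTop_atTop (R := ℝ))).eventually_ge_atTop (16 * r / ε + 8)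
    obtain ⟨H₁, h3⟩ := eventually_atTop.1 h2
    exact ⟨H₁, fun H hH => h3 H hH⟩
  refine ⟨H₀ + H₁ + 1, N₀, fun N H hN hH hHN b hb x hx f hf hbent ξ hξ S hS hSb => ?_⟩
  have hH1 : (1 : ℝ) ≤ H := by exact_mod_cast (by omega : 1 ≤ H)
  have hxb : 16 * r / ε + 8 ≤ x := by
    refine (hH₁ H (by omega)).trans (le_trans ?_ hx)
    apply Real.rpow_le_rpow_of_exponent_le hH1
    have : 0 ≤ 1 / (r : ℝ) := by positivity
    linarith
  have hre : 0 ≤ 16 * (r : ℝ) / ε := by positivity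
  have hx8 : (8 : ℝ) ≤ x := by linarith
  have hx16 : 16 * r ≤ ε * x := by
    have h3 : 16 * r / ε ≤ x := by linarith
    rw [div_le_iff₀ hε] at h3
    linarith
  have hr2 : (2 : ℝ) ≤ r := by exact_mod_cast hr
  obtain ⟨w, hw⟩ : ∃ w : ℕ, w = ⌊ε * x / (8 * r)⌋₊ := ⟨_, rfl⟩
  have hw1 : (w : ℝ) ≤ ε * x / (8 * r) := by rw [hw]; exact Nat.floor_le (by positivity)
  have hw2 : ε * x / (8 * r) < w + 1 := by rw [hw]; exact Nat.lt_floor_add_one _
  have hw1' : 8 * r * (w : ℝ) ≤ ε * x := by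
    rw [le_div_iff₀ (by positivity)] at hw1
    linarith
  have hw2' : ε * x < 8 * r * (w + 1) := by
    rw [div_lt_iff₀ (by positivity)] at hw2
    linarith
  have hxw : (x : ℝ) ≤ w * Λ := by
    have h3 : ε * x ≤ 16 * r * w := by nlinarith
    have h4 : (x : ℝ) ≤ w * (16 * r / ε) := by
      rw [mul_div_assoc', le_div_iff₀ hε]
      linarith
    exact h4.trans (mul_le_mul_of_nonneg_left hΛ1 (Nat.cast_nonneg _))
  have hrw : (r : ℝ) * w * 8 ≤ x := by nlinarith
  have hwx : 2 * r * w + 2 ≤ x := by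
    have h3 : (2 : ℝ) * r * w + 2 ≤ x := by nlinarith
    exact_mod_cast h3
  obtain ⟨J, hJ⟩ : ∃ J, J = Ico (r * w + 1) (x - r * w) := ⟨_, rfl⟩
  -- the lengths
  have hex : ∀ m ∈ Icc 1 x, ∃ t : ℤ, |t| ≤ H ∧ |(t : ℝ) - f m| ≤ Λ ∧ (m ∈ S → 0 < t ∧ ¬ Half a b N ε ξ t.toNat) := by
    intro m hm
    by_cases hmS : m ∈ S
    · obtain ⟨k, hk1, hk2, hk3, hk4⟩ := hSb m hmS
      refine ⟨k, by rw [Nat.abs_cast]; exact_mod_cast hk2, ?_, fun _ => ⟨by exact_mod_cast hk1, ?_⟩⟩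
      · rw [Int.cast_natCast]
        linarith
      · rw [Int.toNat_natCast]
        exact hk4
    · have h3 := abs_le.1 (hf m hm)
      rcases le_or_gt 0 (f m) with h4 | h4
      · have h5 := Int.floor_le (f m)
        have h6 := Int.lt_floor_add_one (f m)
        have h7 : 0 ≤ ⌊f m⌋ := Int.floor_nonneg.2 h4
        refine ⟨⌊f m⌋, ?_, ?_, fun h => absurd h hmS⟩
        · rw [abs_of_nonneg h7]
          have : (⌊f m⌋ : ℝ) ≤ H := by linarith
          exact_mod_cast this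
        · rw [abs_le]
          constructor <;> linarith
      · have h5 := Int.le_ceil (f m)
        have h6 := Int.ceil_lt_add_one (f m)
        have h7 : ⌈f m⌉ ≤ 0 := by
          rw [Int.ceil_le]
          push_cast
          linarith
        refine ⟨⌈f m⌉, ?_, ?_, fun h => absurd h hmS⟩
        · rw [abs_of_nonpos h7]
          have : -(⌈f m⌉ : ℝ) ≤ H := by linarith
          exact_mod_cast this
        · rw [abs_le]
          constructor <;> linarith
  choose! t ht1 ht2 ht3 using hex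
  have hJI : ∀ m ∈ J, m ∈ Icc 1 x := by
    intro m hm
    rw [hJ, mem_Ico] at hm
    rw [mem_Icc]
    omega
  have hen := hC H x w Λ (by omega) hΛ3 hx f (fun m hm => by
    have := hf m hm
    push_cast
    linarith) (by
    have hxr : (0 : ℝ) < (x : ℝ) ^ r := by
      have : (0 : ℝ) < x := by linarith
      positivity
    apply bent_mono r x f _ _ ?_ hbent
    have hL0 : (0 : ℝ) < L := by linarith
    apply div_le_div_of_nonneg_left (by linarith) (by positivity)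
    rw [mul_comm]
    apply mul_le_mul_of_nonneg_left _ hxr.le
    linarith) hxw hwx t (fun m hm => ht2 m (hJI m (by rw [hJ]; exact hm)))
  rw [← hJ] at hen
  obtain ⟨x', hx'⟩ : ∃ x', x' = x - 2 * r * w - 1 := ⟨_, rfl⟩
  have hidx : ∀ j ∈ Icc 1 x', r * w + j ∈ J := by
    intro j hj
    rw [mem_Icc] at hj
    rw [hJ, mem_Ico]
    have e : 2 * r * w = 2 * (r * w) := by ring
    omega
  have henr : energy h x' (fun j => t (r * w + j)) ≤
      ((Vec h J ×ˢ Vec h J).filter (fun q => ∑ i, t (q.1 i) = ∑ i, t (q.2 i))).card := by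
    unfold energy
    apply card_le_card_of_injOn (fun q => ((fun i => r * w + q.1 i : Fin h → ℕ), (fun i => r * w + q.2 i : Fin h → ℕ)))
    · intro q hq
      rw [mem_coe, mem_filter, mem_product, Fintype.mem_piFinset, Fintype.mem_piFinset] at hq
      rw [mem_coe, mem_filter, mem_product, Fintype.mem_piFinset, Fintype.mem_piFinset]
      exact ⟨⟨fun i => hidx _ (hq.1.1 i), fun i => hidx _ (hq.1.2 i)⟩, hq.2⟩
    · intro q _ q' _ hqq
      simp only [Prod.mk.injEq] at hqq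
      apply Prod.ext
      · funext i
        have := congrFun hqq.1 i
        omega
      · funext i
        have := congrFun hqq.2 i
        omega
  have hx'2 : (x : ℝ) ≤ 2 * x' := by
    have h3 : x ≤ 2 * x' := by
      have h4 : 8 * (r * w) ≤ x := by
        have : (8 : ℝ) * (r * w) ≤ x := by linarith
        exact_mod_cast this
      have h5 : 8 ≤ x := by exact_mod_cast hx8
      have e : 2 * r * w = 2 * (r * w) := by ring
      omega
    exact_mod_cast h3
  have hE : (energy h x' (fun j => t (r * w + j)) : ℝ) * H ≤ C * Λ ^ (2 * h * (r + 1) + 1) * 4 ^ h * (x' : ℝ) ^ (2 * h) := by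
    have h3 : (energy h x' (fun j => t (r * w + j)) : ℝ) ≤
        (((Vec h J ×ˢ Vec h J).filter (fun q => ∑ i, t (q.1 i) = ∑ i, t (q.2 i))).card : ℝ) := by exact_mod_cast henr
    have h4 : (x : ℝ) ^ (2 * h) ≤ 4 ^ h * (x' : ℝ) ^ (2 * h) := by
      calc (x : ℝ) ^ (2 * h) ≤ (2 * x') ^ (2 * h) := pow_le_pow_left₀ (Nat.cast_nonneg _) hx'2 _
        _ = _ := by rw [mul_pow, pow_mul (2 : ℝ) 2 h]; norm_num
    calc (energy h x' (fun j => t (r * w + j)) : ℝ) * H ≤ _ * H := mul_le_mul_of_nonneg_right h3 (by linarith)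
      _ ≤ C * Λ ^ (2 * h * (r + 1) + 1) * (x : ℝ) ^ (2 * h) := hen
      _ ≤ C * Λ ^ (2 * h * (r + 1) + 1) * (4 ^ h * (x' : ℝ) ^ (2 * h)) :=
          mul_le_mul_of_nonneg_left h4 (by positivity)
      _ = _ := by ring
  have key := h1 N H hN (by omega) hHN b hb x' (fun j => t (r * w + j)) (fun j hj => ht1 _ (hJI _ (hidx j hj))) hE ξ hξ
  -- counting
  obtain ⟨G, hG⟩ : ∃ G, G = (Icc 1 x').filter (fun j => 0 < t (r * w + j) ∧ ¬ Half a b N (ε / 2) ξ (t (r * w + j)).toNat) := ⟨_, rfl⟩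
  have hGc : (G.card : ℝ) ≤ ε / 2 * x' := by
    refine le_trans (le_of_eq ?_) key
    rw [hG]
    unfold num
    congr 2
    ext j
    simp only [mem_filter]
  have hsub : S ⊆ G.image (fun j => r * w + j) ∪ (Icc 1 (r * w) ∪ Icc (x - r * w) x) := by
    intro m hm
    have hmI := hS hm
    have hmI' := hmI
    rw [mem_Icc] at hmI'
    rw [mem_union, mem_union, mem_Icc, mem_Icc, mem_image]
    by_cases h3 : m ≤ r * w
    · right; left
      exact ⟨hmI'.1, h3⟩
    · by_cases h4 : x - r * w ≤ m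
      · right; right
        exact ⟨h4, hmI'.2⟩
      · left
        refine ⟨m - r * w, ?_, by omega⟩
        have e : r * w + (m - r * w) = m := by omega
        rw [hG, mem_filter, mem_Icc, e]
        have h5 := ht3 m hmI hm
        have e2 : 2 * r * w = 2 * (r * w) := by ring
        exact ⟨by omega, h5.1, fun h6 => h5.2 (half_mono (by linarith) h6)⟩
  have hcard := card_le_card hsub
  have h5 : S.card ≤ G.card + (r * w + (r * w + 1)) := by
    refine hcard.trans ((card_union_le _ _).trans ?_)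
    refine add_le_add card_image_le ((card_union_le _ _).trans ?_)
    rw [Nat.card_Icc, Nat.card_Icc]
    omega
  have h6 : (S.card : ℝ) ≤ G.card + (r * w + (r * w + 1)) := by exact_mod_cast h5
  have h7 : (x' : ℝ) ≤ x := by
    have : x' ≤ x := by omega
    exact_mod_cast this
  have h8 : (1 : ℝ) ≤ ε * x / 4 := by nlinarith
  have h9 : ε / 2 * x' ≤ ε / 2 * x := mul_le_mul_of_nonneg_left h7 (by linarith)
  nlinarith

end Pool.Agent.U828.KD
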