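import Pool.Agent.N141.TS.Thin
import Pool.Agent.U828.KD.Ord

/-!
# Values of polynomials at the integer parts of arbitrary functions of given orders

The analogues of `Pool.Agent.N141.TS.thin0` and `Pool.Agent.N141.TS.thin` (generalised polynomials) for arbitrary
functions of given orders; the distribution is `Pool.Agent.U828.KD.order_well`.
-/

set_option autoImplicit false

namespace Pool.Agent.U828.KD

open Finset Filter MvPolynomial
open Pool.Agent.Y722.HS (red)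
open Pool.Agent.N141.TS (MeanPoles MeanSet ZP Big core0 growth ncard_mono eval_red)

/-- a function with bounded differences of order `d` grows at most like `n ^ d` -/
lemma diff_growth (d : ℕ) : ∀ (f : ℕ → ℝ) (K : ℝ), (∀ t, |(fwdDiff 1)^[d] f t| ≤ K) →
    ∃ C : ℝ, 1 ≤ C ∧ ∀ n : ℕ, |f n| ≤ C * ((n : ℝ) + 1) ^ d := by
  induction d with
  | zero =>
    intro f K h
    refine ⟨max 1 K, le_max_left _ _, fun n => ?_⟩
    rw [pow_zero, mul_one]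
    exact (h n).trans (le_max_right _ _)
  | succ d ih =>
    intro f K h
    obtain ⟨C, hC, hC'⟩ := ih (fwdDiff 1 f) K (fun t => by
      have := h t
      rwa [Function.iterate_succ_apply] at this)
    have key : ∀ n : ℕ, |f n| ≤ |f 0| + C * n * ((n : ℝ) + 1) ^ d := by
      intro n
      induction n with
      | zero => simp
      | succ n ihn =>
        have e1 : f (n + 1) = f n + fwdDiff 1 f n := by
          unfold fwdDiff
          ring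
        have h1 := hC' n
        have h2 : |f (n + 1)| ≤ |f n| + |fwdDiff 1 f n| := by
          rw [e1]
          exact abs_add_le _ _
        have h3 : ((n : ℝ) + 1) ^ d ≤ (((n + 1 : ℕ) : ℝ) + 1) ^ d := by
          push_cast
          apply pow_le_pow_left₀ (by positivity)
          linarith
        have h4 : 0 ≤ C * ((n : ℝ) + 1) := by positivity
        have h5 := mul_le_mul_of_nonneg_left h3 h4
        have h6 : C * n * ((n : ℝ) + 1) ^ d + C * ((n : ℝ) + 1) ^ d = C * ((n : ℝ) + 1) * ((n : ℝ) + 1) ^ d := by ring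
        push_cast at h5 ⊢
        linarith
    refine ⟨C + |f 0|, by linarith [abs_nonneg (f 0)], fun n => (key n).trans ?_⟩
    have h1 : (1 : ℝ) ≤ ((n : ℝ) + 1) ^ (d + 1) := one_le_pow₀ (by linarith [(Nat.cast_nonneg n : (0 : ℝ) ≤ n)])
    have h2 : |f 0| ≤ |f 0| * ((n : ℝ) + 1) ^ (d + 1) := le_mul_of_one_le_right (abs_nonneg _) h1
    have h3 : C * n * ((n : ℝ) + 1) ^ d ≤ C * ((n : ℝ) + 1) ^ (d + 1) := by
      rw [pow_succ]
      have h4 : (n : ℝ) * ((n : ℝ) + 1) ^ d ≤ ((n : ℝ) + 1) ^ d * ((n : ℝ) + 1) := by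
        rw [mul_comm]
        apply mul_le_mul_of_nonneg_left _ (by positivity)
        linarith
      have := mul_le_mul_of_nonneg_left h4 (by linarith : (0 : ℝ) ≤ C)
      linarith
    calc |f 0| + C * n * ((n : ℝ) + 1) ^ d ≤ |f 0| * ((n : ℝ) + 1) ^ (d + 1) + C * ((n : ℝ) + 1) ^ (d + 1) := by linarith
      _ = (C + |f 0|) * ((n : ℝ) + 1) ^ (d + 1) := by ring

/-- functions of given orders grow at most like a power -/
lemma order_growth (d : ℕ) (c : ℝ) (hcd : c < d) (f : ℕ → ℝ) (hf : Order d c f) :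
    ∃ C : ℝ, 1 ≤ C ∧ ∀ n : ℕ, |f n| ≤ C * ((n : ℝ) + 1) ^ d := by
  obtain ⟨T, hT⟩ := hf (d - c) (by linarith)
  have hb : ∀ t : ℕ, T ≤ t → |(fwdDiff 1)^[d] f t| ≤ 1 := by
    intro t ht
    have e1 : (t : ℝ) ^ (c - d + (d - c)) = 1 := by
      rw [show c - (d : ℝ) + (d - c) = 0 by ring, Real.rpow_zero]
    have e2 : 0 ≤ (t : ℝ) ^ (c - d - (d - c)) := Real.rpow_nonneg (Nat.cast_nonneg _) _
    rcases hT with h | h
    · have h1 : (t : ℝ) ^ (c - d - (d - c)) ≤ (fwdDiff 1)^[d] f t := (h t ht).1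
      have h2 : (fwdDiff 1)^[d] f t ≤ (t : ℝ) ^ (c - d + (d - c)) := (h t ht).2
      rw [abs_of_nonneg (by linarith)]
      linarith
    · have h1 : (t : ℝ) ^ (c - d - (d - c)) ≤ -(fwdDiff 1)^[d] f t := (h t ht).1
      have h2 : -(fwdDiff 1)^[d] f t ≤ (t : ℝ) ^ (c - d + (d - c)) := (h t ht).2
      rw [abs_of_nonpos (by linarith)]
      linarith
  refine diff_growth d f (1 + ∑ t ∈ range T, |(fwdDiff 1)^[d] f t|) fun t => ?_
  have h0 : 0 ≤ ∑ t ∈ range T, |(fwdDiff 1)^[d] f t| := sum_nonneg fun _ _ => abs_nonneg _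
  by_cases ht : T ≤ t
  · linarith [hb t ht]
  · have := single_le_sum (f := fun t => |(fwdDiff 1)^[d] f t|) (fun _ _ => abs_nonneg _) (mem_range.2 (by omega : t < T))
    linarith

/-- the integer vectors grow polynomially -/
lemma floors_growth {r : ℕ} (d : ℕ) (c : Fin r → ℝ) (hcd : ∀ i, c i < d) (f : Fin r → ℕ → ℝ)
    (hf : ∀ i, Order d (c i) (f i)) :
    ∃ C : ℝ, 1 ≤ C ∧ ∀ n : ℕ, 1 ≤ n → ∀ i, |((⌊f i n⌋ : ℤ) : ℝ)| ≤ C * (n : ℝ) ^ d := by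
  classical
  choose C hC1 hC using fun i => order_growth d (c i) (hcd i) (f i) (hf i)
  have hs : ∀ i, C i ≤ ∑ i, C i := fun i =>
    single_le_sum (f := C) (fun i _ => by linarith [hC1 i]) (mem_univ i)
  have hs0 : 0 ≤ ∑ i, C i := sum_nonneg fun i _ => by linarith [hC1 i]
  refine ⟨(1 + 2 * ∑ i, C i) * 2 ^ d, one_le_mul_of_one_le_of_one_le (by linarith) (one_le_pow₀ (by norm_num)), ?_⟩
  intro n hn i
  have hn1 : (1 : ℝ) ≤ n := by exact_mod_cast hn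
  have h1 : |((⌊f i n⌋ : ℤ) : ℝ)| ≤ |f i n| + 1 := by
    have h2 := Int.floor_le (f i n)
    have h3 := Int.lt_floor_add_one (f i n)
    have h4 := neg_abs_le (f i n)
    have h5 := le_abs_self (f i n)
    rw [abs_le]
    constructor <;> linarith
  have h2 := hC i n
  have h3 : ((n : ℝ) + 1) ^ d ≤ 2 ^ d * (n : ℝ) ^ d := by
    rw [← mul_pow]
    apply pow_le_pow_left₀ (by positivity)
    linarith
  have h4 : (1 : ℝ) ≤ 2 ^ d * (n : ℝ) ^ d := one_le_mul_of_one_le_of_one_le (one_le_pow₀ (by norm_num)) (one_le_pow₀ hn1)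
  calc |((⌊f i n⌋ : ℤ) : ℝ)| ≤ C i * ((n : ℝ) + 1) ^ d + 1 := by linarith
    _ ≤ (∑ i, C i) * (2 ^ d * (n : ℝ) ^ d) + 1 * (2 ^ d * (n : ℝ) ^ d) := by
        have h5 : C i * ((n : ℝ) + 1) ^ d ≤ (∑ i, C i) * (2 ^ d * (n : ℝ) ^ d) :=
          mul_le_mul (hs i) h3 (by positivity) hs0
        linarith
    _ ≤ (1 + 2 * ∑ i, C i) * 2 ^ d * (n : ℝ) ^ d := by
        have h6 : 0 ≤ (∑ i, C i) * (2 ^ d * (n : ℝ) ^ d) := by positivity
        nlinarith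

/-- growth of the values -/
lemma val_growth_order {r : ℕ} (A : MvPolynomial (Fin r) ℤ) (d : ℕ) (c : Fin r → ℝ) (hcd : ∀ i, c i < d)
    (f : Fin r → ℕ → ℝ) (hf : ∀ i, Order d (c i) (f i)) : ∃ (C : ℝ) (m : ℕ), 1 ≤ C ∧ ∀ N : ℕ, 1 ≤ N →
      ∀ n ∈ Ioc N (2 * N), |((eval (fun i => ⌊f i n⌋) A : ℤ) : ℝ)| ≤ C * (N : ℝ) ^ m := by
  obtain ⟨C, hC, hfl⟩ := floors_growth d c hcd f hf
  obtain ⟨CA, mA, hCA, hA⟩ := growth A
  have h2m : (1 : ℝ) ≤ C * 2 ^ d := one_le_mul_of_one_le_of_one_le hC (one_le_pow₀ (by norm_num))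
  refine ⟨CA * (C * 2 ^ d) ^ mA, d * mA, one_le_mul_of_one_le_of_one_le hCA (one_le_pow₀ h2m), ?_⟩
  intro N hN n hn
  rw [Finset.mem_Ioc] at hn
  have hN1 : (1 : ℝ) ≤ N := by exact_mod_cast hN
  have hX : (1 : ℝ) ≤ (C * 2 ^ d) * (N : ℝ) ^ d :=
    one_le_mul_of_one_le_of_one_le h2m (one_le_pow₀ hN1)
  have hb : ∀ i, |(((fun i => ⌊f i n⌋) i : ℤ) : ℝ)| ≤ (C * 2 ^ d) * (N : ℝ) ^ d := by
    intro i
    refine (hfl n (by omega) i).trans ?_
    have hn2 : (n : ℝ) ≤ 2 * N := by exact_mod_cast hn.2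
    calc C * (n : ℝ) ^ d ≤ C * (2 * (N : ℝ)) ^ d := by gcongr
      _ = (C * 2 ^ d) * (N : ℝ) ^ d := by rw [mul_pow]; ring
  refine (hA _ _ hX hb).trans (le_of_eq ?_)
  rw [mul_pow, ← pow_mul, mul_assoc]

/-- a local condition at a large prime, for arbitrary functions of given orders -/
theorem thin0_order {r : ℕ} (hr : 0 < r) {D : MvPolynomial (Fin r) ℤ} (hD : D ≠ 0)
    {Ω : ∀ p : ℕ, Set (Fin r → ZMod p)} (hM : MeanSet Ω) (d : ℕ) (hd : 2 ≤ d) (c : Fin r → ℝ)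
    (hc : Function.Injective c) (hc0 : ∀ i, 0 < c i) (hcd : ∀ i, c i < d) (f : Fin r → ℕ → ℝ)
    (hf : ∀ i, Order d (c i) (f i)) (ε : ℝ) (hε : 0 < ε) : ∃ θ : ℝ, 0 < θ ∧ ∃ N₀ : ℕ, ∀ N : ℕ, N₀ ≤ N →
      ({n : ℕ | n ∈ Ioc N (2 * N) ∧ ¬ (eval (fun i => ⌊f i n⌋) D ≠ 0 ∧ ∃ p : ℕ, p.Prime ∧
        (N : ℝ) ^ θ ≤ p ∧ red p (fun i => ⌊f i n⌋) ∈ Ω p)}.ncard : ℝ) ≤ ε * (Ioc N (2 * N)).card := by
  classical
  have : Nonempty (Fin r) := ⟨⟨0, hr⟩⟩
  obtain ⟨κ, hκ, hw⟩ := order_well d hd c hc hc0 hcd f hf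
  exact core0 hD hM hκ hw ε hε

/-- the poles, for arbitrary functions of given orders -/
theorem thin_order {r : ℕ} (hr : 0 < r) {A D : MvPolynomial (Fin r) ℤ} (hD : D ≠ 0) (hM : MeanPoles A D)
    (d : ℕ) (hd : 2 ≤ d) (c : Fin r → ℝ)
    (hc : Function.Injective c) (hc0 : ∀ i, 0 < c i) (hcd : ∀ i, c i < d) (f : Fin r → ℕ → ℝ)
    (hf : ∀ i, Order d (c i) (f i)) (ε : ℝ) (hε : 0 < ε) : ∃ σ : ℝ, 0 ≤ σ ∧ ∃ N₀ : ℕ, ∀ N : ℕ, N₀ ≤ N →
      ({n : ℕ | n ∈ Ioc N (2 * N) ∧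
        ¬ Big σ (eval (fun i => ⌊f i n⌋) A) (eval (fun i => ⌊f i n⌋) D)}.ncard : ℝ) ≤ ε * N := by
  classical
  obtain ⟨θ, hθ, N₁, h1⟩ := thin0_order hr hD (Ω := ZP A D) hM d hd c hc hc0 hcd f hf ε hε
  obtain ⟨CA, mA, hCA, hA⟩ := val_growth_order A d c hcd f hf
  obtain ⟨CD, mD, hCD, hDg⟩ := val_growth_order D d c hcd f hf
  set C := max CA CD with hC
  set m := max mA mD with hm
  have key : ∀ N : ℕ, max (N₁ + 1) (⌈C⌉₊) ≤ N → ∀ n ∈ Ioc N (2 * N),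
      ¬ Big (2 * (1 + m) / θ) (eval (fun i => ⌊f i n⌋) A) (eval (fun i => ⌊f i n⌋) D) →
      ¬ (eval (fun i => ⌊f i n⌋) D ≠ 0 ∧ ∃ p : ℕ, p.Prime ∧ (N : ℝ) ^ θ ≤ p ∧
        red p (fun i => ⌊f i n⌋) ∈ ZP A D p) := by
    intro N hN n hn hbad
    rintro ⟨hc2, p, hp3, hpN, hpZ⟩
    have hN1 : 1 ≤ N := by
      have := (le_max_left _ _).trans hN
      omega
    have hN1R : (1 : ℝ) ≤ N := by exact_mod_cast hN1
    have hN0 : (0 : ℝ) < N := by linarith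
    have hCN : C ≤ N := (Nat.le_ceil C).trans (by exact_mod_cast (le_max_right _ _).trans hN)
    have hpZ' : aeval (fun i => ((⌊f i n⌋ : ℤ) : ZMod p)) D = 0 ∧
      aeval (fun i => ((⌊f i n⌋ : ℤ) : ZMod p)) A ≠ 0 := hpZ
    rw [eval_red, eval_red, ZMod.intCast_zmod_eq_zero_iff_dvd, Ne,
      ZMod.intCast_zmod_eq_zero_iff_dvd] at hpZ'
    apply hbad
    have hC1 : 1 ≤ C := hCA.trans (le_max_left _ _)
    have hpm : (1 : ℝ) ≤ (N : ℝ) ^ m := one_le_pow₀ hN1R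
    refine ⟨hc2, p, hp3, hpZ'.1, hpZ'.2, C * (N : ℝ) ^ m,
      one_le_mul_of_one_le_of_one_le hC1 hpm, ?_, ?_, ?_⟩
    · refine (hA N hN1 n hn).trans ?_
      exact mul_le_mul (le_max_left _ _) (pow_le_pow_right₀ hN1R (le_max_left _ _)) (by positivity)
        (by linarith)
    · refine (hDg N hN1 n hn).trans ?_
      exact mul_le_mul (le_max_right _ _) (pow_le_pow_right₀ hN1R (le_max_right _ _)) (by positivity)
        (by linarith)
    · have h1 : Real.log (C * (N : ℝ) ^ m) ≤ (1 + m) * Real.log N := by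
        rw [Real.log_mul (by positivity) (by positivity), Real.log_pow]
        have := Real.log_le_log (by linarith) hCN
        linarith
      have h2 : θ * Real.log N ≤ Real.log p := by
        rw [← Real.log_rpow hN0]
        exact Real.log_le_log (by positivity) hpN
      calc 2 * Real.log (C * (N : ℝ) ^ m) ≤ 2 * ((1 + m) * Real.log N) := by linarith
        _ = 2 * (1 + m) / θ * (θ * Real.log N) := by field_simp
        _ ≤ 2 * (1 + m) / θ * Real.log p := mul_le_mul_of_nonneg_left h2 (by positivity)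
  refine ⟨2 * (1 + m) / θ, by positivity, max (N₁ + 1) (⌈C⌉₊), fun N hN => ?_⟩
  have k1 := h1 N (by have := (le_max_left _ _).trans hN; omega)
  rw [Nat.card_Ioc, show 2 * N - N = N by omega] at k1
  exact (ncard_mono fun n hn => key N hN n hn).trans k1

/-- a large prime pole and bounds for the values, for arbitrary functions of given orders -/
theorem poles_order {r : ℕ} (hr : 0 < r) {A D : MvPolynomial (Fin r) ℤ} (hD : D ≠ 0) (hM : MeanPoles A D)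
    (d : ℕ) (hd : 2 ≤ d) (c : Fin r → ℝ)
    (hc : Function.Injective c) (hc0 : ∀ i, 0 < c i) (hcd : ∀ i, c i < d) (f : Fin r → ℕ → ℝ)
    (hf : ∀ i, Order d (c i) (f i)) (ε : ℝ) (hε : 0 < ε) : ∃ θ : ℝ, 0 < θ ∧ ∃ m N₀ : ℕ, ∀ N : ℕ, N₀ ≤ N →
      ({n : ℕ | n ∈ Ioc N (2 * N) ∧ ¬ (eval (fun i => ⌊f i n⌋) D ≠ 0 ∧
        (∃ p : ℕ, p.Prime ∧ (N : ℝ) ^ θ ≤ p ∧ (p : ℤ) ∣ eval (fun i => ⌊f i n⌋) D ∧
          ¬ (p : ℤ) ∣ eval (fun i => ⌊f i n⌋) A) ∧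
        |((eval (fun i => ⌊f i n⌋) A : ℤ) : ℝ)| ≤ (N : ℝ) ^ (m + 1) ∧
        |((eval (fun i => ⌊f i n⌋) D : ℤ) : ℝ)| ≤ (N : ℝ) ^ (m + 1))}.ncard : ℝ) ≤ ε * N := by
  classical
  obtain ⟨θ, hθ, N₁, h1⟩ := thin0_order hr hD (Ω := ZP A D) hM d hd c hc hc0 hcd f hf ε hε
  obtain ⟨CA, mA, hCA, hA⟩ := val_growth_order A d c hcd f hf
  obtain ⟨CD, mD, hCD, hDg⟩ := val_growth_order D d c hcd f hf
  obtain ⟨C, hC⟩ : ∃ C : ℝ, C = max CA CD := ⟨_, rfl⟩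
  obtain ⟨m, hm⟩ : ∃ m : ℕ, m = max mA mD := ⟨_, rfl⟩
  have hCAC : CA ≤ C := hC ▸ le_max_left _ _
  have hCDC : CD ≤ C := hC ▸ le_max_right _ _
  have hmA : mA ≤ m := hm ▸ le_max_left _ _
  have hmD : mD ≤ m := hm ▸ le_max_right _ _
  refine ⟨θ, hθ, m, N₁ + ⌈C⌉₊ + 1, fun N hN => ?_⟩
  have k1 := h1 N (by omega)
  rw [Nat.card_Ioc, show 2 * N - N = N by omega] at k1
  refine (ncard_mono fun n hn hbad => ?_).trans k1
  rintro ⟨hc2, p, hp3, hpN, hpZ⟩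
  have hN1 : 1 ≤ N := by omega
  have hN1R : (1 : ℝ) ≤ N := by exact_mod_cast hN1
  have hCN : C ≤ N := (Nat.le_ceil C).trans (by exact_mod_cast (by omega : ⌈C⌉₊ ≤ N))
  have hpZ' : aeval (fun i => ((⌊f i n⌋ : ℤ) : ZMod p)) D = 0 ∧
    aeval (fun i => ((⌊f i n⌋ : ℤ) : ZMod p)) A ≠ 0 := hpZ
  rw [eval_red, eval_red, ZMod.intCast_zmod_eq_zero_iff_dvd, Ne,
    ZMod.intCast_zmod_eq_zero_iff_dvd] at hpZ'
  have hC0 : 0 ≤ C := by linarith
  have hgrow : ∀ {c : ℝ} {k : ℕ}, c ≤ C → k ≤ m → c * (N : ℝ) ^ k ≤ (N : ℝ) ^ (m + 1) := by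
    intro c k hc hk
    calc c * (N : ℝ) ^ k ≤ C * (N : ℝ) ^ m :=
          mul_le_mul hc (pow_le_pow_right₀ hN1R hk) (by positivity) hC0
      _ ≤ N * (N : ℝ) ^ m := mul_le_mul_of_nonneg_right hCN (by positivity)
      _ = (N : ℝ) ^ (m + 1) := by ring
  exact hbad ⟨hc2, ⟨p, hp3, hpN, hpZ'.1, hpZ'.2⟩, (hA N hN1 n hn).trans (hgrow hCAC hmA),
    (hDg N hN1 n hn).trans (hgrow hCDC hmD)⟩

end Pool.Agent.U828.KD
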