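import Mathlib
import Pool.Agent.U828.KD.Chow

/-! Correlations with one shift near the values of a function of order d, the other shifts near arbitrary points; shifts of
both signs (helper828). -/

set_option autoImplicit false

namespace Pool.Agent.U828.KD

open Finset
open Pool.Agent.H373R2.T7 (exI SupSmall)
open Pool.Agent.U828.CV (BadShift BadZ)

/-- correlations of `h` with arbitrary bounded functions, the shift of `h` near the values of a function of order d -/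
theorem tuplesZ (d : ℕ) (hd : 2 ≤ d) (h : ℕ → ℂ) (hb : ∀ n, ‖h n‖ ≤ 1) (hsup : SupSmall h) (r B C V U : ℕ) (η : ℝ) (hη : 0 < η) :
    ∃ N₀ : ℕ, ∀ N : ℕ, N₀ ≤ N → ∀ G : ℕ → ℂ, (∀ n, ‖G n‖ ≤ 1) → ∀ u : Fin r → ℤ → ℂ, (∀ i n, ‖u i n‖ ≤ 1) →
    ∀ x : Fin (r + 1) → ℕ, (N : ℝ) ^ (1 / (d : ℝ) + η) ≤ x 0 →
    ∀ f : Fin (r + 1) → ℕ → ℝ, (∀ m ∈ Icc 1 (x 0), |f 0 m| ≤ B * N) →
    Bent d (x 0) (f 0) (N / ((x 0 : ℝ) ^ d * Real.log N ^ C)) →
    ∀ T ⊆ Fintype.piFinset (fun i => Icc 1 (x i)),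
      (∀ m ∈ T, ∃ (a : Fin (r + 1) → ℕ) (b : Fin (r + 1) → ℤ) (X : ℕ), 1 ≤ a 0 ∧ (∀ i, (a i : ℝ) ≤ Real.log N ^ C) ∧
        |(b 0 : ℝ)| ≤ B * N ∧ (∀ i, |(b i : ℝ) - f i (m i)| ≤ Real.log N ^ C) ∧ a 0 * X ≤ B * N ∧
        N / Real.log N ^ V < ‖∑ n ∈ Icc 1 X, G n * (exI h ((a 0 : ℤ) * n + b 0) *
          ∏ i : Fin r, u i ((a i.succ : ℤ) * n + b i.succ))‖) →
    (T.card : ℝ) ≤ (∏ i, (x i : ℝ)) / Real.log N ^ U := by
  classical
  obtain ⟨n1, h1⟩   := weightedZ d hd h hb hsup B C V (U + (2 * C + 2) * r) η hη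
  obtain ⟨n2, hn2⟩ := Pool.Agent.K7.H49.SM.ev_log 6
  refine ⟨max n1 n2, fun N hN G hG u hu x hx f hf hbent T hT hTb => ?_⟩
  have hL6 := hn2 N (le_trans (le_max_right _ _) hN)
  have key := fun g => h1 N (le_trans (le_max_left _ _) hN) g (x 0) hx (f 0) hf hbent
  obtain ⟨L, hLd⟩ : ∃ L, L = Real.log (N : ℝ) := ⟨_, rfl⟩
  rw [← hLd] at hL6 key hTb ⊢
  have hL6' : (6 : ℝ) ≤ L := by exact_mod_cast hL6
  have hL0 : 0 < L := by linarith
  have hL1 : 1 ≤ L := by linarith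
  have hLC : 1 ≤ L ^ C := one_le_pow₀ hL1
  obtain ⟨v, hv⟩ : ∃ v, v = ⌊L ^ C⌋₊ := ⟨_, rfl⟩
  have hv1 : (v : ℝ) ≤ L ^ C := by rw [hv]; exact Nat.floor_le (by positivity)
  obtain ⟨w, hw⟩ : ∃ w, w = ⌈L ^ C⌉₊ := ⟨_, rfl⟩
  have hw1 : L ^ C ≤ w := by rw [hw]; exact Nat.le_ceil _
  have hw2 : (w : ℝ) ≤ L ^ C + 1 := by rw [hw]; exact (Nat.ceil_lt_add_one (by positivity)).le
  have hLC1 : L ^ (C + 1) = L ^ C * L := pow_succ _ _
  -- the weights
  obtain ⟨g, hg⟩ : ∃ g : (Fin r → ℕ) × (Fin r → ℕ × ℕ) → ℕ → ℂ, g = fun q n =>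
      G n * ∏ i : Fin r, u i (((q.2 i).1 : ℤ) * n + (⌊f i.succ (q.1 i)⌋ + ((q.2 i).2 : ℤ) - (w : ℤ))) := ⟨_, rfl⟩
  have hg1 : ∀ q n, ‖g q n‖ ≤ 1 := by
    intro q n
    rw [hg]
    simp only
    rw [norm_mul, norm_prod]
    exact mul_le_one₀ (hG n) (prod_nonneg fun _ _ => norm_nonneg _)
      (prod_le_one (fun _ _ => norm_nonneg _) (fun i _ => hu i _))
  obtain ⟨W, hW⟩ : ∃ W : (Fin r → ℕ) × (Fin r → ℕ × ℕ) → Finset ℕ, W = fun q => (Icc 1 (x 0)).filter (fun m =>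
      ∃ b : ℤ, |(b : ℝ)| ≤ B * N ∧ |(b : ℝ) - f 0 m| ≤ L ^ C ∧ BadZ h (g q) B C V N b) := ⟨_, rfl⟩
  have hWc : ∀ q, ((W q).card : ℝ) ≤ x 0 / L ^ (U + (2 * C + 2) * r) := by
    intro q
    rw [hW]
    exact key ⟨g q, hg1 q⟩ _ (filter_subset _ _) (fun m hm => (mem_filter.1 hm).2)
  obtain ⟨Q, hQ⟩ : ∃ Q : Finset ((Fin r → ℕ) × (Fin r → ℕ × ℕ)), Q = Fintype.piFinset (fun i : Fin r => Icc 1 (x i.succ)) ×ˢ
      Fintype.piFinset (fun _ : Fin r => range (v + 1) ×ˢ range (2 * w + 2)) := ⟨_, rfl⟩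
  have hsub : T ⊆ Q.biUnion (fun q => (W q).image (fun m₀ => (Fin.cons m₀ q.1 : Fin (r + 1) → ℕ))) := by
    intro m hm
    obtain ⟨a, b, X, ha0, haC, hb0, hbf, haX, hbig⟩ := hTb m hm
    have hmb := Fintype.mem_piFinset.1 (hT hm)
    rw [mem_biUnion]
    refine ⟨(fun i => m i.succ, fun i => (a i.succ, (b i.succ - ⌊f i.succ (m i.succ)⌋ + w).toNat)), ?_, ?_⟩
    · rw [hQ, mem_product, Fintype.mem_piFinset, Fintype.mem_piFinset]
      refine ⟨fun i => hmb i.succ, fun i => ?_⟩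
      rw [mem_product, mem_range, mem_range]
      constructor
      · have : a i.succ ≤ v := by rw [hv]; exact Nat.le_floor (haC i.succ)
        simp only
        omega
      · have h1 := abs_le.1 (hbf i.succ)
        have h3 := Int.floor_le (f i.succ (m i.succ))
        have h4 := Int.lt_floor_add_one (f i.succ (m i.succ))
        have h5 : b i.succ - ⌊f i.succ (m i.succ)⌋ + w < 2 * w + 2 := by
          have : ((b i.succ - ⌊f i.succ (m i.succ)⌋ + w : ℤ) : ℝ) < ((2 * w + 2 : ℤ) : ℝ) := by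
            push_cast
            linarith [h1.2]
          exact_mod_cast this
        simp only
        omega
    · rw [mem_image]
      refine ⟨m 0, ?_, ?_⟩
      · rw [hW, mem_filter]
        refine ⟨hmb 0, b 0, hb0, hbf 0, a 0, X, ha0, ?_, haX, ?_⟩
        · rw [← hLd]; exact haC 0
        · rw [← hLd]
          refine lt_of_lt_of_le hbig (le_of_eq ?_)
          congr 1
          apply sum_congr rfl
          intro n _
          rw [hg]
          simp only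
          rw [mul_assoc, mul_comm (exI h _)]
          congr 2
          apply prod_congr rfl
          intro i _
          have h1 := abs_le.1 (hbf i.succ)
          have h3 := Int.floor_le (f i.succ (m i.succ))
          have h5 : 0 ≤ b i.succ - ⌊f i.succ (m i.succ)⌋ + w := by
            have : (-1 : ℝ) < ((b i.succ - ⌊f i.succ (m i.succ)⌋ + w : ℤ) : ℝ) := by
              push_cast
              linarith [h1.1]
            have h6 : (-1 : ℤ) < b i.succ - ⌊f i.succ (m i.succ)⌋ + w := by exact_mod_cast this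
            omega
          rw [Int.toNat_of_nonneg h5]
          have h6 : ⌊f i.succ (m i.succ)⌋ + (b i.succ - ⌊f i.succ (m i.succ)⌋ + w) - w = b i.succ := by ring
          rw [h6]
      · funext i
        refine Fin.cases ?_ (fun j => ?_) i
        · rfl
        · rfl
  have hcard : (T.card : ℝ) ≤ ∑ q ∈ Q, ((W q).card : ℝ) := by
    exact_mod_cast (card_le_card hsub).trans (card_biUnion_le.trans (sum_le_sum fun q _ => card_image_le))
  have hQc : (Q.card : ℝ) = (∏ i : Fin r, (x i.succ : ℝ)) * (((v + 1) * (2 * w + 2) : ℕ) : ℝ) ^ r := by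
    rw [hQ, card_product, Fintype.card_piFinset, Fintype.card_piFinset, prod_const, card_univ, Fintype.card_fin,
      card_product, card_range, card_range]
    push_cast
    congr 1
    apply prod_congr rfl
    intro i _
    rw [Nat.card_Icc, Nat.add_sub_cancel]
  have hvw : (((v + 1) * (2 * w + 2) : ℕ) : ℝ) ≤ L ^ (2 * C + 2) := by
    have h2 : ((v : ℝ) + 1) ≤ L ^ C * L := by nlinarith
    have h3 : (2 * (w : ℝ) + 2) ≤ L ^ C * L := by nlinarith
    push_cast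
    calc ((v : ℝ) + 1) * (2 * w + 2) ≤ (L ^ C * L) * (L ^ C * L) := by gcongr
      _ = L ^ (2 * C + 2) := by ring
  obtain ⟨P, hP⟩ : ∃ P, P = ∏ i : Fin r, (x i.succ : ℝ) := ⟨_, rfl⟩
  have hP0 : 0 ≤ P := by rw [hP]; exact prod_nonneg fun i _ => Nat.cast_nonneg _
  rw [Fin.prod_univ_succ, ← hP]
  rw [← hP] at hQc
  have hx0 : (0 : ℝ) ≤ x 0 := Nat.cast_nonneg _
  calc (T.card : ℝ) ≤ ∑ _q ∈ Q, (x 0 : ℝ) / L ^ (U + (2 * C + 2) * r) := hcard.trans (sum_le_sum fun q _ => hWc q)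
    _ = P * (((v + 1) * (2 * w + 2) : ℕ) : ℝ) ^ r * (x 0 / L ^ (U + (2 * C + 2) * r)) := by
        rw [sum_const, nsmul_eq_mul, hQc]
    _ ≤ P * (L ^ (2 * C + 2)) ^ r * (x 0 / L ^ (U + (2 * C + 2) * r)) := by gcongr
    _ = x 0 * P / L ^ U := by
        rw [← pow_mul, pow_add L U]
        have h9 : L ^ ((2 * C + 2) * r) ≠ 0 := by positivity
        have h10 : L ^ U ≠ 0 := by positivity
        field_simp

/-- the von Mangoldt function on the integers -/
noncomputable def vm (k : ℤ) : ℝ := ArithmeticFunction.vonMangoldt k.toNat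

lemma vm_le (k : ℤ) (Y : ℕ) (hY : 1 ≤ Y) (hk : k ≤ Y) : ‖(vm k : ℂ)‖ ≤ Real.log Y := by
  unfold vm
  rw [Complex.norm_real, Real.norm_of_nonneg ArithmeticFunction.vonMangoldt_nonneg]
  rcases Nat.eq_zero_or_pos k.toNat with h1 | h1
  · rw [h1, ArithmeticFunction.map_zero]
    exact Real.log_nonneg (by exact_mod_cast hY)
  · refine ArithmeticFunction.vonMangoldt_le_log.trans ?_
    apply Real.log_le_log (by exact_mod_cast h1)
    have : k.toNat ≤ Y := by omega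
    exact_mod_cast this

/-- one factor `h` with a shift near the values of a function of order d, arbitrary bounded functions, and factors which are
values of the von Mangoldt function -/
theorem joint (d : ℕ) (hd : 2 ≤ d) (h : ℕ → ℂ) (hb : ∀ n, ‖h n‖ ≤ 1) (hsup : SupSmall h) (r B C V U : ℕ) (η : ℝ) (hη : 0 < η) :
    ∃ N₀ : ℕ, ∀ N : ℕ, N₀ ≤ N → ∀ G : ℕ → ℂ, (∀ n, ‖G n‖ ≤ 1) →
    ∀ u : Fin r → ℤ → ℂ, (∀ i, (∀ n, ‖u i n‖ ≤ 1) ∨ u i = fun n => (vm n : ℂ)) →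
    ∀ x : Fin (r + 1) → ℕ, (N : ℝ) ^ (1 / (d : ℝ) + η) ≤ x 0 →
    ∀ f : Fin (r + 1) → ℕ → ℝ, (∀ i, ∀ m ∈ Icc 1 (x i), |f i m| ≤ B * N) →
    Bent d (x 0) (f 0) (N / ((x 0 : ℝ) ^ d * Real.log N ^ C)) →
    ∀ T ⊆ Fintype.piFinset (fun i => Icc 1 (x i)),
      (∀ m ∈ T, ∃ (a : Fin (r + 1) → ℕ) (b : Fin (r + 1) → ℤ) (X : ℕ), (∀ i, 1 ≤ a i ∧ (a i : ℝ) ≤ Real.log N ^ C) ∧
        |(b 0 : ℝ)| ≤ B * N ∧ (∀ i, |(b i : ℝ) - f i (m i)| ≤ Real.log N ^ C) ∧ (∀ i, a i * X ≤ B * N) ∧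
        N / Real.log N ^ V < ‖∑ n ∈ Icc 1 X, G n * (exI h ((a 0 : ℤ) * n + b 0) *
          ∏ i : Fin r, u i ((a i.succ : ℤ) * n + b i.succ))‖) →
    (T.card : ℝ) ≤ (∏ i, (x i : ℝ)) / Real.log N ^ U := by
  classical
  obtain ⟨n1, h1⟩ := tuplesZ d hd h hb hsup r B C (V + 2 * r) U η hη
  obtain ⟨n2, hn2⟩ := Pool.Agent.K7.H49.SM.ev_log (2 * B + 3)
  obtain ⟨n3, hn3⟩ := Pool.Agent.H373R2.T7.ev_log' C 1
  refine ⟨max n1 (max n2 (max n3 2)), fun N hN G hG u hu x hx f hf hbent T hT hTb => ?_⟩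
  have hN1 : n1 ≤ N := le_trans (le_max_left _ _) hN
  have hL2 := hn2 N (le_trans (le_trans (le_max_left _ _) (le_max_right _ _)) hN)
  have hN' : max n3 2 ≤ N := le_trans (le_trans (le_max_right _ _) (le_max_right _ _)) hN
  have hL3 := hn3 N (le_trans (le_max_left _ _) hN')
  have hN2 : 2 ≤ N := le_trans (le_max_right _ _) hN'
  have hNr : (2 : ℝ) ≤ N := by exact_mod_cast hN2
  have hB0 : (0 : ℝ) ≤ B := Nat.cast_nonneg _
  have hL2' : 2 * (B : ℝ) + 3 ≤ Real.log N := by exact_mod_cast hL2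
  have hL1 : 1 ≤ Real.log N := by linarith
  have hL0 : 0 < Real.log N := by linarith
  have hLN : Real.log N ^ C ≤ N := by
    have h4 : √(N : ℝ) ≤ N := by
      rw [Real.sqrt_le_left (by linarith)]
      nlinarith
    have h5 : Real.log N ^ C ≤ √(N : ℝ) := by simpa using hL3
    exact h5.trans h4
  -- the size of the arguments
  obtain ⟨Y, hY⟩ : ∃ Y, Y = (2 * B + 2) * N := ⟨_, rfl⟩
  have hY1 : 1 ≤ Y := by rw [hY]; nlinarith
  have hlogY : Real.log Y ≤ Real.log N ^ 2 := by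
    rw [hY]
    push_cast
    rw [Real.log_mul (by positivity) (by linarith)]
    have h4 : Real.log (2 * (B : ℝ) + 2) ≤ 2 * B + 2 := by
      have := Real.log_le_sub_one_of_pos (by linarith : (0 : ℝ) < 2 * (B : ℝ) + 2)
      linarith
    nlinarith
  obtain ⟨v, hv⟩ : ∃ v : Fin r → ℤ → ℂ, v = fun i n => if (∀ n, ‖u i n‖ ≤ 1) then u i n else
      if n ≤ Y then u i n / ((Real.log N ^ 2 : ℝ) : ℂ) else 0 := ⟨_, rfl⟩
  have hL20 : ‖((Real.log N ^ 2 : ℝ) : ℂ)‖ = Real.log N ^ 2 := by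
    rw [Complex.norm_real, Real.norm_of_nonneg (by positivity)]
  have hv1 : ∀ i n, ‖v i n‖ ≤ 1 := by
    intro i n
    rw [hv]
    simp only
    split_ifs with h4 h5
    · exact h4 n
    · rcases hu i with h6 | h6
      · exact absurd h6 h4
      · rw [h6, norm_div, hL20, div_le_one (by positivity)]
        exact (vm_le n Y hY1 h5).trans hlogY
    · rw [norm_zero]; norm_num
  apply h1 N hN1 G hG v hv1 x hx f (hf 0) hbent T hT
  intro m hm
  obtain ⟨a, b, X, ha, hb0, hbf, haX, hbig⟩ := hTb m hm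
  have hmb := Fintype.mem_piFinset.1 (hT hm)
  refine ⟨a, b, X, (ha 0).1, fun i => (ha i).2, hb0, hbf, haX 0, ?_⟩
  -- comparison of the products
  have hcmp : ∑ n ∈ Icc 1 X, G n * (exI h ((a 0 : ℤ) * n + b 0) * ∏ i : Fin r, u i ((a i.succ : ℤ) * n + b i.succ)) =
      (∏ i : Fin r, (if (∀ n, ‖u i n‖ ≤ 1) then (1 : ℂ) else ((Real.log N ^ 2 : ℝ) : ℂ))) *
      ∑ n ∈ Icc 1 X, G n * (exI h ((a 0 : ℤ) * n + b 0) * ∏ i : Fin r, v i ((a i.succ : ℤ) * n + b i.succ)) := by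
    rw [mul_sum]
    apply sum_congr rfl
    intro n hn
    rw [mem_Icc] at hn
    have h4 : ∏ i : Fin r, u i ((a i.succ : ℤ) * n + b i.succ) =
        (∏ i : Fin r, (if (∀ n, ‖u i n‖ ≤ 1) then (1 : ℂ) else ((Real.log N ^ 2 : ℝ) : ℂ))) *
        ∏ i : Fin r, v i ((a i.succ : ℤ) * n + b i.succ) := by
      rw [← prod_mul_distrib]
      apply prod_congr rfl
      intro i _
      rw [hv]
      simp only
      by_cases h5 : ∀ n, ‖u i n‖ ≤ 1
      · rw [if_pos h5, if_pos h5, one_mul]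
      · rw [if_neg h5, if_neg h5]
        have h6 : (a i.succ : ℤ) * n + b i.succ ≤ Y := by
          have h7 : (a i.succ : ℤ) * n ≤ B * N := by
            have : a i.succ * n ≤ B * N := (Nat.mul_le_mul_left _ hn.2).trans (haX i.succ)
            exact_mod_cast this
          have h8 : (b i.succ : ℝ) ≤ B * N + N := by
            have h9 := abs_le.1 (hbf i.succ)
            have h10 := abs_le.1 (hf i.succ (m i.succ) (hmb i.succ))
            linarith [h9.2, h10.2]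
          have h9 : b i.succ ≤ B * N + N := by exact_mod_cast h8
          rw [hY]
          push_cast
          have : (0 : ℤ) ≤ N := Int.natCast_nonneg _
          linarith
        rw [if_pos h6]
        have h7 : ((Real.log N ^ 2 : ℝ) : ℂ) ≠ 0 := by
          rw [← norm_ne_zero_iff, hL20]
          positivity
        field_simp
    rw [h4]
    ring
  rw [hcmp, norm_mul, norm_prod] at hbig
  have hprod : ∏ i : Fin r, ‖(if (∀ n, ‖u i n‖ ≤ 1) then (1 : ℂ) else ((Real.log N ^ 2 : ℝ) : ℂ))‖ ≤ Real.log N ^ (2 * r) := by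
    calc _ ≤ ∏ _i : Fin r, Real.log N ^ 2 := by
          apply prod_le_prod (fun _ _ => norm_nonneg _)
          intro i _
          split_ifs
          · rw [norm_one]; exact one_le_pow₀ hL1
          · rw [hL20]
      _ = _ := by rw [prod_const, card_univ, Fintype.card_fin, ← pow_mul]
  obtain ⟨S, hS⟩ : ∃ S, S = ‖∑ n ∈ Icc 1 X, G n * (exI h ((a 0 : ℤ) * n + b 0) *
    ∏ i : Fin r, v i ((a i.succ : ℤ) * n + b i.succ))‖ := ⟨_, rfl⟩
  have hS0 : 0 ≤ S := by rw [hS]; exact norm_nonneg _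
  rw [← hS] at hbig ⊢
  have h4 : N / Real.log N ^ V < Real.log N ^ (2 * r) * S := hbig.trans_le (mul_le_mul_of_nonneg_right hprod hS0)
  rw [pow_add, ← div_div, div_lt_iff₀ (by positivity), mul_comm S]
  exact h4

end Pool.Agent.U828.KD
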