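import Mathlib
import Pool.Agent.U828.KD.One
import Pool.Agent.U828.CV.Even

/-! All the even integers near almost all values of one function whose differences of order `r` are bounded below, for
properties known for families of nearly minimal energy (helper828). -/

set_option autoImplicit false

namespace Pool.Agent.U828.KD

open Finset
open Pool.Agent.U828.CV.At (crit1_of_fam)
open Pool.Agent.H560R3.GB (energy)

/-- all the positive even integers near the values of a function of order `r`, from a theorem for families -/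
theorem nearEvenG (r : ℕ) (hr : 2 ≤ r) (B C U : ℕ) (η : ℝ) (hη : 0 < η) (P : ℕ → Prop)
    (H : ∀ p : ℕ, 1 ≤ p → ∀ B C U : ℕ, ∃ N₀ : ℕ, ∀ N : ℕ, N₀ ≤ N → ∀ (x : ℕ) (s : ℕ → ℕ),
      (∀ m ∈ Icc 1 x, s m ≤ B * N ∧ 2 ∣ s m) →
      (energy p x s : ℝ) * N ≤ Real.log N ^ C * (x : ℝ) ^ (2 * p) →
      ∀ S : Finset ℕ, S ⊆ Icc 1 x → (∀ m ∈ S, ¬ P (s m)) →
      (S.card : ℝ) ≤ x / Real.log N ^ U) :
    ∃ N₀ : ℕ, ∀ N : ℕ, N₀ ≤ N → ∀ x : ℕ, (N : ℝ) ^ (1 / (r : ℝ) + η) ≤ x →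
    ∀ f : ℕ → ℝ, (∀ m ∈ Icc 1 x, |f m| ≤ B * N) →
    Bent r x f (N / ((x : ℝ) ^ r * Real.log N ^ C)) →
    ∀ T ⊆ Icc 1 x, (∀ m ∈ T, ∃ n : ℕ, 0 < n ∧ Even n ∧ |(n : ℝ) - f m| ≤ Real.log N ^ C ∧ ¬ P n) →
    (T.card : ℝ) ≤ x / Real.log N ^ U := by
  classical
  obtain ⟨p, D, V, n1, hp, h1⟩ := nearOne r hr (B + 1) C U η hη
  obtain ⟨n2, h2⟩ := Pool.Agent.TH935.GF.transfer p (B + 1) D V P (H p hp)
  obtain ⟨n3, h3⟩ := Pool.Agent.H373R2.T7.ev_log' C 1
  refine ⟨n1 + n2 + n3 + 1, fun N hN x hx f hf hb T hT hTb => ?_⟩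
  have h4 := h3 N (by omega)
  rw [one_mul] at h4
  have hN1 : (1 : ℝ) ≤ N := by exact_mod_cast (by omega : 1 ≤ N)
  have h5 : Real.log N ^ C ≤ N := by
    refine h4.trans ?_
    rw [Real.sqrt_le_left (by positivity)]
    nlinarith
  apply h1 N (by omega) (fun b => 0 < b → Even b → P b.toNat) _ x hx f
    (fun m hm => (hf m hm).trans (by push_cast; nlinarith)) hb T hT
  · intro m hm
    obtain ⟨n, hn0, hn1, hn2, hn3⟩ := hTb m hm
    refine ⟨(n : ℤ), ?_, by simpa using hn2, ?_⟩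
    · have h6 := abs_le.1 (hf m (hT hm))
      have h7 := abs_le.1 hn2
      rw [Int.cast_natCast, abs_of_nonneg (Nat.cast_nonneg n)]
      push_cast
      nlinarith [h6.2, h7.2]
    · intro hcon
      have h8 := hcon (by exact_mod_cast hn0) (by exact_mod_cast hn1)
      rw [Int.toNat_natCast] at h8
      exact hn3 h8
  · apply crit1_of_fam
    intro ι _ v hv hE S hS
    apply h2 N (by omega) ι v (fun i => by
      have := (abs_le.1 (hv i)).2
      exact this) hE S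
    intro i hi
    have h6 := hS i hi
    push Not at h6
    exact h6

end Pool.Agent.U828.KD
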