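import Pool.Agent.N666.VE.FCMain
import Pool.Agent.U828.KD.OrdNull

/-! The Fermat-Catalan equation with two bases near the values of two arbitrary functions of different orders, one null set
for all the pairs of a sequence of functions (helper828; the proof of `core` is the one of `Pool.Agent.N666.VE.core`, for
arbitrary sequences). -/

set_option autoImplicit false

namespace Pool.Agent.U828.KD.FC

open Finset Filter
open Pool.Agent.N666.VE (Near BadPair near_floor card_near cls_le sieve one_pair cn_small Equi cls card_ints equi_of_small)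
open Pool.Agent.W147.PS (ev_pow)
open Pool.Agent.H374R2.Beal (Exceptional)
open Pool.Agent.H374R2.T (Good2)
open Pool.Agent.U828.KD (Order Orders dk dk_zero dk_succ small_order)
open Pool.Agent.N666.TM (NullIn diag)

/-- the main theorem for sequences with power saving equidistribution -/
theorem core (v : ℕ → Fin 2 → ℝ) (s : ℕ → Finset ℕ)
    (hs : ∀ N, s N ⊆ Ioc N (2 * N)) (δ : ℝ) (hδ : 0 < δ) (hEq : Equi s v δ)
    (hcard : ∀ᶠ N : ℕ in atTop, (N : ℝ) ^ (1 - δ / 4) ≤ (s N).card) (U : ℕ)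
    (hv : ∃ C N₀ : ℕ, ∀ N : ℕ, N₀ ≤ N → ∀ n ∈ Ioc N (2 * N), ∀ j, v n j + U ≤ (N : ℝ) ^ C) :
    ∃ κ : ℝ, 0 < κ ∧ ∀ ε : ℝ, 0 < ε → ∃ N₀ : ℕ, ∀ N : ℕ, N₀ ≤ N →
      ∀ (P : ℕ → Prop) [DecidablePred P],
      (∀ n ∈ s N, P n → ∃ x y : ℕ, Near U (v n) x y ∧ BadPair (Real.exp ((n : ℝ) ^ κ)) x y) →
      (((s N).filter P).card : ℝ) ≤ ε * (s N).card := by
  classical
  obtain ⟨C, N₁, hC⟩ := hv
  obtain ⟨R, c, N₂, hc, hL⟩ := Pool.Agent.N741.LD.main (δ / (4 * (C + 1))) (by positivity)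
  refine ⟨c / 2, by positivity, fun ε hε => ?_⟩
  obtain ⟨N₃, hN₃⟩ := one_pair s hs v δ hδ hEq U
  obtain ⟨N₅, hN₅⟩ := eventually_atTop.mp hcard
  -- the sieve for small third exponents
  set P₀ : ℕ → Prop := fun n => ∃ x y : ℕ, Near U (v n) x y ∧
    (x, y) ∈ ({p | ∃ n, 3 ≤ n ∧ n < R ∧ p ∈ Exceptional n} ∪
    ({p | ¬ Good2 p.1 p.2} ∪ Prod.swap ⁻¹' {p | ¬ Good2 p.1 p.2}) : Set (ℕ × ℕ)) with hP₀
  obtain ⟨C₁, N₄, hN₄⟩ := sieve (cn_small R) s v δ hδ hEq U (ε / 2) (by positivity) P₀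
  have hev : ∀ᶠ Z : ℝ in atTop, 1 ≤ Z ∧ (2 * Z) ^ (c / 2) ≤ Z ^ c ∧
      (4 / ε * (|C₁| + (2 * U + 3) ^ 2 * 5)) * Z ^ (1 - δ + δ / 4) ≤ Z ^ (1 - δ / 4) := by
    filter_upwards [eventually_ge_atTop (1 : ℝ), ev_pow (c / 2) c (2 ^ (c / 2)) (by linarith),
      ev_pow (1 - δ + δ / 4) (1 - δ / 4) (4 / ε * (|C₁| + (2 * U + 3) ^ 2 * 5)) (by linarith)]
      with Z h1 h2 h3
    refine ⟨h1, ?_, h3⟩
    rw [Real.mul_rpow (by norm_num) (by linarith)]
    exact h2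
  obtain ⟨Z₀, hZ₀⟩ := eventually_atTop.mp hev
  refine ⟨⌈Z₀⌉₊ + N₁ + N₂ + N₃ + N₄ + N₅ + 1, fun N hN P _ hP => ?_⟩
  have hNZ : Z₀ ≤ N := (Nat.le_ceil Z₀).trans (by exact_mod_cast (by omega : ⌈Z₀⌉₊ ≤ N))
  obtain ⟨hN1, hNc, hNδ⟩ := hZ₀ N hNZ
  have hN0 : (0 : ℝ) < N := by linarith
  -- the pairs from the theorem on lopsided pairs
  set N' : ℕ := N ^ (C + 1) with hN'
  have hN'N : N ≤ N' := by
    rw [hN']
    exact Nat.le_self_pow (by omega) N
  obtain ⟨hfin, hnc⟩ := hL N' (by omega)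
  set Q : Set (ℕ × ℕ × ℕ × ℕ × ℕ) := Pool.Agent.N741.LD.Sols N' R (Real.exp ((N' : ℝ) ^ c)) with hQ
  set T : Finset (ℕ × ℕ) := hfin.toFinset.image (fun v => (v.1, v.2.1)) with hT
  have hTc : (T.card : ℝ) ≤ (N : ℝ) ^ (δ / 4) := by
    have h1 : T.card ≤ Q.ncard := by
      rw [Set.ncard_eq_toFinset_card Q hfin]
      exact Finset.card_image_le
    have h2 : (T.card : ℝ) ≤ (N' : ℝ) ^ (δ / (4 * (C + 1))) := by
      refine le_trans ?_ hnc
      exact_mod_cast h1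
    refine h2.trans (le_of_eq ?_)
    rw [hN']
    push_cast
    rw [← Real.rpow_natCast, ← Real.rpow_mul hN0.le]
    congr 1
    push_cast
    field_simp
  set P₁ : ℕ → Prop := fun n => ∃ x y : ℕ, Near U (v n) x y ∧ (x, y) ∈ T with hP₁
  have hcover : (s N).filter P ⊆ (s N).filter P₀ ∪ (s N).filter P₁ := by
    intro n hn
    rw [Finset.mem_filter] at hn
    obtain ⟨hns, hPn⟩ := hn
    obtain ⟨x, y, hnear, z, p, q, r, hx, hy, hco, hz, hzW, hp, hq, hr, hpar, heq⟩ := hP n hns hPn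
    have hnI := hs N hns
    have hnI' := Finset.mem_Ioc.mp hnI
    rw [Finset.mem_union, Finset.mem_filter, Finset.mem_filter]
    rcases Nat.lt_or_ge r R with hrR | hrR
    · left
      refine ⟨hns, x, y, hnear, ?_⟩
      rcases Nat.lt_or_ge r 3 with hr3 | hr3
      · have hr2 : r = 2 := by omega
        right
        by_contra hcon
        rw [Set.mem_union, not_or] at hcon
        obtain ⟨h1, h2⟩ := hcon
        simp only [Set.mem_ofPred_eq, not_not, Set.mem_preimage, Prod.swap_prod_mk] at h1 h2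
        rw [hr2] at heq
        have e1 : 2 ∣ q := Pool.Agent.H374R2.T.Good2.even (m := 1) (w := z) (x := p) h1 (by omega)
          (by rw [mul_one]; exact heq)
        have e2 : 2 ∣ p := Pool.Agent.H374R2.T.Good2.even (m := 1) (w := z) (x := q) h2 (by omega)
          (by
            rw [mul_one]
            rcases heq with h | h | h
            · left; rw [add_comm]; exact h
            · right; right; exact h
            · right; left; exact h)
        rcases hpar with h | h | h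
        · omega
        · exact h e2
        · exact h e1
      · left
        exact ⟨r, hr3, hrR, hx, hy, hco, p, q, z, by omega, by omega, by omega, heq⟩
    · right
      refine ⟨hns, x, y, hnear, ?_⟩
      rw [hT, Finset.mem_image]
      refine ⟨(x, y, x ^ p, y ^ q, z ^ r), ?_, rfl⟩
      rw [Set.Finite.mem_toFinset, hQ]
      have hb := hC N (by omega) n hnI
      have hxN : x ≤ N' := by
        have h1 := (abs_le.mp hnear.1).2
        have h2 := hb 0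
        have h3 : (x : ℝ) ≤ (N : ℝ) ^ C := by linarith
        have h4 : x ≤ N ^ C := by exact_mod_cast h3
        exact h4.trans (Nat.pow_le_pow_right (by omega) (by omega))
      have hyN : y ≤ N' := by
        have h1 := (abs_le.mp hnear.2).2
        have h2 := hb 1
        have h3 : (y : ℝ) ≤ (N : ℝ) ^ C := by linarith
        have h4 : y ≤ N ^ C := by exact_mod_cast h3
        exact h4.trans (Nat.pow_le_pow_right (by omega) (by omega))
      refine ⟨x, y, z, p, q, r, hx, hxN, hy, hyN, hco, hz, ?_, hp, hq, hrR, heq, rfl⟩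
      refine hzW.trans ?_
      rw [Real.exp_le_exp]
      have hn2 : (n : ℝ) ≤ 2 * N := by exact_mod_cast hnI'.2
      calc (n : ℝ) ^ (c / 2) ≤ (2 * (N : ℝ)) ^ (c / 2) := by gcongr
        _ ≤ (N : ℝ) ^ c := hNc
        _ ≤ (N' : ℝ) ^ c := by gcongr
  have h0 := hN₄ N (by omega) (fun n _ h => h)
  have h1 := hN₃ N (by omega) T P₁ (fun n _ h => h)
  have h2 : (((s N).filter P).card : ℝ) ≤ ((s N).filter P₀).card + ((s N).filter P₁).card := by
    exact_mod_cast (Finset.card_le_card hcover).trans (Finset.card_union_le _ _)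
  have h3 := hN₅ N (by omega)
  have hpow : (N : ℝ) ^ (1 - δ) * (N : ℝ) ^ (δ / 4) = (N : ℝ) ^ (1 - δ + δ / 4) := by
    rw [Real.rpow_add hN0]
  have hle1 : (N : ℝ) ^ (1 - δ) ≤ (N : ℝ) ^ (1 - δ + δ / 4) :=
    Real.rpow_le_rpow_of_exponent_le hN1 (by linarith)
  have h4 : (2 * (U : ℝ) + 3) ^ 2 * T.card * (5 * (N : ℝ) ^ (1 - δ)) ≤
      (2 * U + 3) ^ 2 * 5 * (N : ℝ) ^ (1 - δ + δ / 4) := by
    rw [← hpow]
    calc (2 * (U : ℝ) + 3) ^ 2 * T.card * (5 * (N : ℝ) ^ (1 - δ)) ≤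
        (2 * (U : ℝ) + 3) ^ 2 * (N : ℝ) ^ (δ / 4) * (5 * (N : ℝ) ^ (1 - δ)) := by gcongr
      _ = _ := by ring
  have h5 : C₁ * (N : ℝ) ^ (1 - δ) ≤ |C₁| * (N : ℝ) ^ (1 - δ + δ / 4) := by
    have : C₁ * (N : ℝ) ^ (1 - δ) ≤ |C₁| * (N : ℝ) ^ (1 - δ) := by
      gcongr
      exact le_abs_self _
    refine this.trans ?_
    gcongr
  have h6 : (|C₁| + (2 * (U : ℝ) + 3) ^ 2 * 5) * (N : ℝ) ^ (1 - δ + δ / 4) ≤
      ε / 4 * (s N).card := by
    have h7 : (4 / ε * (|C₁| + (2 * (U : ℝ) + 3) ^ 2 * 5)) * (N : ℝ) ^ (1 - δ + δ / 4) ≤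
        (s N).card := hNδ.trans h3
    have h8 : (|C₁| + (2 * (U : ℝ) + 3) ^ 2 * 5) * (N : ℝ) ^ (1 - δ + δ / 4) =
        ε / 4 * ((4 / ε * (|C₁| + (2 * (U : ℝ) + 3) ^ 2 * 5)) * (N : ℝ) ^ (1 - δ + δ / 4)) := by
      field_simp
    rw [h8]
    gcongr
  have hs0 : (0 : ℝ) ≤ (s N).card := Nat.cast_nonneg _
  nlinarith

/-- a sequence with polynomially bounded differences is polynomially bounded -/
lemma poly_of_diff (g : ℕ → ℝ) (k : ℕ) (h : ∃ N₀ : ℕ, ∀ n : ℕ, N₀ ≤ n → |g (n + 1) - g n| ≤ (n : ℝ) ^ k) :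
    ∃ N₀ : ℕ, ∀ n : ℕ, N₀ ≤ n → |g n| ≤ (n : ℝ) ^ (k + 2) := by
  obtain ⟨N₀, h⟩ := h
  have h1 : ∀ n : ℕ, N₀ ≤ n → |g n| ≤ |g N₀| + ((n : ℝ) - N₀) * (n : ℝ) ^ k := by
    intro n hn
    induction n, hn using Nat.le_induction with
    | base => simp
    | succ n hn ih =>
      have h2 := h n hn
      have h3 : |g (n + 1)| ≤ |g n| + |g (n + 1) - g n| := by
        have := abs_add_le (g n) (g (n + 1) - g n)
        rwa [add_sub_cancel] at this
      have h4 : (n : ℝ) ^ k ≤ ((n + 1 : ℕ) : ℝ) ^ k := by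
        apply pow_le_pow_left₀ (Nat.cast_nonneg _)
        push_cast
        linarith
      have h5 : (0 : ℝ) ≤ (n : ℝ) - N₀ + 1 := by
        have : (N₀ : ℝ) ≤ n := by exact_mod_cast hn
        linarith
      calc |g (n + 1)| ≤ |g N₀| + ((n : ℝ) - N₀) * (n : ℝ) ^ k + (n : ℝ) ^ k := by linarith
        _ = |g N₀| + ((n : ℝ) - N₀ + 1) * (n : ℝ) ^ k := by ring
        _ ≤ |g N₀| + ((n : ℝ) - N₀ + 1) * ((n + 1 : ℕ) : ℝ) ^ k := by
            have := mul_le_mul_of_nonneg_left h4 h5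
            linarith
        _ = _ := by push_cast; ring
  refine ⟨N₀ + ⌈|g N₀|⌉₊ + 2, fun n hn => (h1 n (by omega)).trans ?_⟩
  have hn2 : (2 : ℝ) ≤ n := by exact_mod_cast (by omega : 2 ≤ n)
  have hg : |g N₀| ≤ n := (Nat.le_ceil _).trans (by exact_mod_cast (by omega : ⌈|g N₀|⌉₊ ≤ n))
  have h1n : (1 : ℝ) ≤ (n : ℝ) ^ k := one_le_pow₀ (by linarith)
  have h5 : (0 : ℝ) ≤ N₀ := Nat.cast_nonneg _
  calc |g N₀| + ((n : ℝ) - N₀) * (n : ℝ) ^ k ≤ n * (n : ℝ) ^ k + n * (n : ℝ) ^ k := by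
        have e1 : |g N₀| ≤ n * (n : ℝ) ^ k := hg.trans (le_mul_of_one_le_right (by linarith) h1n)
        have e2 : ((n : ℝ) - N₀) * (n : ℝ) ^ k ≤ n * (n : ℝ) ^ k :=
          mul_le_mul_of_nonneg_right (by linarith) (by linarith)
        linarith
    _ = 2 * (n : ℝ) ^ (k + 1) := by rw [pow_succ]; ring
    _ ≤ n * (n : ℝ) ^ (k + 1) := mul_le_mul_of_nonneg_right hn2 (by positivity)
    _ = (n : ℝ) ^ (k + 2) := by rw [pow_succ (n : ℝ) (k + 1)]; ring

/-- functions of given order are polynomially bounded -/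
lemma order_poly (d : ℕ) (c : ℝ) (hcd : c < d) (f : ℕ → ℝ) (hf : Order d c f) :
    ∃ N₀ : ℕ, ∀ n : ℕ, N₀ ≤ n → |f n| ≤ (n : ℝ) ^ (2 * d) := by
  have key : ∀ j : ℕ, j ≤ d → ∃ N₀ : ℕ, ∀ n : ℕ, N₀ ≤ n → |dk (d - j) f n| ≤ (n : ℝ) ^ (2 * j) := by
    intro j
    induction j with
    | zero =>
      intro _
      obtain ⟨N₀, h⟩ := hf (d - c) (by linarith)
      refine ⟨N₀, fun n hn => ?_⟩
      rw [Nat.sub_zero, mul_zero, pow_zero]
      have e : c - (d : ℝ) + (d - c) = 0 := by ring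
      rcases h with h | h
      · have h1 := h n hn
        rw [e, Real.rpow_zero] at h1
        have h2 : (0 : ℝ) ≤ (n : ℝ) ^ (c - d - (d - c)) := by positivity
        rw [abs_of_nonneg (by linarith)]
        exact h1.2
      · have h1 := h n hn
        rw [e, Real.rpow_zero] at h1
        have h2 : (0 : ℝ) ≤ (n : ℝ) ^ (c - d - (d - c)) := by positivity
        rw [abs_of_nonpos (by linarith)]
        exact h1.2
    | succ j ih =>
      intro hj
      obtain ⟨N₀, h⟩ := ih (by omega)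
      have h2 := poly_of_diff (dk (d - (j + 1)) f) (2 * j) ⟨N₀, fun n hn => by
        have e : d - j = d - (j + 1) + 1 := by omega
        have h3 := h n hn
        rw [e, dk_succ] at h3
        exact h3⟩
      exact h2
  have h := key d le_rfl
  rw [Nat.sub_self] at h
  exact h

/-- the values of a function of given order in a block -/
lemma order_val (d : ℕ) (c : ℝ) (hcd : c < d) (f : ℕ → ℝ) (hf : Order d c f) (U : ℕ) :
    ∃ N₀ : ℕ, ∀ N : ℕ, N₀ ≤ N → ∀ n ∈ Ioc N (2 * N), f n + U ≤ (N : ℝ) ^ (4 * d + 2) := by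
  obtain ⟨N₀, h⟩ := order_poly d c hcd f hf
  refine ⟨N₀ + U + 2, fun N hN n hn => ?_⟩
  rw [mem_Ioc] at hn
  have h1 := (le_abs_self _).trans (h n (by omega))
  have hN2 : (2 : ℝ) ≤ N := by exact_mod_cast (by omega : 2 ≤ N)
  have hU : (U : ℝ) ≤ N := by exact_mod_cast (by omega : U ≤ N)
  have hn2 : (n : ℝ) ≤ (N : ℝ) ^ 2 := by
    have h3 : (n : ℝ) ≤ 2 * N := by exact_mod_cast hn.2
    nlinarith
  have h4 : (n : ℝ) ^ (2 * d) ≤ (N : ℝ) ^ (4 * d) := by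
    calc (n : ℝ) ^ (2 * d) ≤ ((N : ℝ) ^ 2) ^ (2 * d) := pow_le_pow_left₀ (Nat.cast_nonneg _) hn2 _
      _ = _ := by rw [← pow_mul]; congr 1; ring
  have h5 : (1 : ℝ) ≤ (N : ℝ) ^ (4 * d) := one_le_pow₀ (by linarith)
  calc f n + U ≤ (N : ℝ) ^ (4 * d) + N * (N : ℝ) ^ (4 * d) := by
        have := le_mul_of_one_le_right (show (0 : ℝ) ≤ N by linarith) h5
        linarith
    _ = (1 + N) * (N : ℝ) ^ (4 * d) := by ring
    _ ≤ (N : ℝ) ^ 2 * (N : ℝ) ^ (4 * d) := mul_le_mul_of_nonneg_right (by nlinarith) (by positivity)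
    _ = _ := by rw [← pow_add]; congr 1; ring

/-- two functions of different orders -/
theorem pair (d : ℕ) (hd : 2 ≤ d) (c₁ c₂ : ℝ) (hne : c₁ ≠ c₂) (h1 : 0 < c₁) (h2 : 0 < c₂) (h1d : c₁ < d) (h2d : c₂ < d)
    (f₁ f₂ : ℕ → ℝ) (hf₁ : Order d c₁ f₁) (hf₂ : Order d c₂ f₂) (U : ℕ) :
    ∃ κ : ℝ, 0 < κ ∧ NullIn (fun N => Ioc N (2 * N)) {n : ℕ | ∃ x y : ℕ, Near U ![f₁ n, f₂ n] x y ∧
        BadPair (Real.exp ((n : ℝ) ^ κ)) x y} := by
  classical
  obtain ⟨v, hv⟩ : ∃ v : ℕ → Fin 2 → ℝ, v = fun n => ![f₁ n, f₂ n] := ⟨_, rfl⟩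
  have hsm : Pool.Agent.N666.VE.Small (r := 2) (fun N => Ioc N (2 * N)) v := by
    apply small_order (by norm_num) d hd ![c₁, c₂] _ _ _ v
    · intro j
      rw [hv]
      fin_cases j
      · exact hf₁
      · exact hf₂
    · intro i j hij
      fin_cases i <;> fin_cases j <;> simp at hij ⊢
      · exact hne hij
      · exact hne hij.symm
    · intro j; fin_cases j <;> simp [h1, h2]
    · intro j; fin_cases j <;> simp [h1d, h2d]
  obtain ⟨δ, hδ, hδ1, hE⟩ := equi_of_small (by norm_num) _ (fun _ => Finset.Subset.refl _) _ hsm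
  obtain ⟨N₁, hN₁⟩ := order_val d c₁ h1d f₁ hf₁ U
  obtain ⟨N₂, hN₂⟩ := order_val d c₂ h2d f₂ hf₂ U
  obtain ⟨κ, hκ, h⟩ := core v (fun N => Ioc N (2 * N)) (fun _ => Finset.Subset.refl _) δ hδ hE (card_ints δ hδ) U
    ⟨4 * d + 2, N₁ + N₂, fun N hN n hn j => by
      rw [hv]
      fin_cases j
      · exact hN₁ N (by omega) n hn
      · exact hN₂ N (by omega) n hn⟩
  refine ⟨κ, hκ, fun ε hε => ?_⟩
  obtain ⟨N₀, hN₀⟩ := h ε hε
  refine ⟨N₀, fun N hN => ?_⟩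
  have h3 := hN₀ N hN (fun n => ∃ x y : ℕ, Near U (v n) x y ∧ BadPair (Real.exp ((n : ℝ) ^ κ)) x y)
    (fun n _ h => h)
  refine le_trans (le_of_eq ?_) h3
  have h4 : {t : ℕ | t ∈ Ioc N (2 * N) ∧ t ∈ {n : ℕ | ∃ x y : ℕ, Near U ![f₁ n, f₂ n] x y ∧
        BadPair (Real.exp ((n : ℝ) ^ κ)) x y}} = (((Ioc N (2 * N)).filter
        (fun n => ∃ x y : ℕ, Near U (v n) x y ∧
        BadPair (Real.exp ((n : ℝ) ^ κ)) x y) : Finset ℕ) : Set ℕ) := by
    ext n
    rw [hv]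
    simp only [Set.mem_ofPred_eq, Finset.coe_filter]
  rw [h4, Set.ncard_coe_finset]

/-- one null set for all the pairs of a sequence of functions -/
theorem null_set {c : ℕ → ℝ} (hc0 : ∀ l, 0 < c l) (hc : Function.Injective c) (f : ℕ → ℕ → ℝ)
    (hf : Orders c f) : ∃ κ : ℕ → ℕ → ℕ → ℝ, (∀ i j U, 0 < κ i j U) ∧
      ∃ E : Set ℕ, NullIn (fun N => Ioc N (2 * N)) E ∧ ∀ i j U : ℕ, i ≠ j →
        {n : ℕ | n ∉ E ∧ ∃ x y : ℕ, Near U ![f i n, f j n] x y ∧ BadPair (Real.exp ((n : ℝ) ^ κ i j U)) x y}.Finite := by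
  classical
  have hpair : ∀ i j U : ℕ, ∃ κ : ℝ, 0 < κ ∧ (i ≠ j → NullIn (fun N => Ioc N (2 * N)) {n : ℕ | ∃ x y : ℕ,
      Near U ![f i n, f j n] x y ∧ BadPair (Real.exp ((n : ℝ) ^ κ)) x y}) := by
    intro i j U
    by_cases hij : i = j
    · exact ⟨1, one_pos, fun h => absurd hij h⟩
    · obtain ⟨d, hd, h⟩ := hf (max i j)
      obtain ⟨κ, hκ, h2⟩ := pair d hd (c i) (c j) (fun h => hij (hc h)) (hc0 i) (hc0 j) (h i (le_max_left _ _)).1
        (h j (le_max_right _ _)).1 (f i) (f j) (h i (le_max_left _ _)).2 (h j (le_max_right _ _)).2 U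
      exact ⟨κ, hκ, fun _ => h2⟩
  choose κ hκ hnull using hpair
  refine ⟨κ, hκ, ?_⟩
  obtain ⟨B, hB⟩ : ∃ B : ℕ × ℕ × ℕ → Set ℕ, B = fun t => {n : ℕ | t.1 ≠ t.2.1 ∧ ∃ x y : ℕ,
      Near t.2.2 ![f t.1 n, f t.2.1 n] x y ∧ BadPair (Real.exp ((n : ℝ) ^ κ t.1 t.2.1 t.2.2)) x y} := ⟨_, rfl⟩
  obtain ⟨I, hI⟩ : ∃ I : ℕ → Finset (ℕ × ℕ × ℕ), I = fun k => range (k + 1) ×ˢ (range (k + 1) ×ˢ range (k + 1)) :=
    ⟨_, rfl⟩
  have hBn : ∀ t, NullIn (fun N => Ioc N (2 * N)) (B t) := by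
    intro t ε hε
    by_cases ht : t.1 = t.2.1
    · refine ⟨0, fun N _ => ?_⟩
      have : {n : ℕ | n ∈ Ioc N (2 * N) ∧ n ∈ B t} = ∅ := by
        ext n
        rw [hB]
        simp [ht]
      rw [this, Set.ncard_empty, Nat.cast_zero]
      positivity
    · obtain ⟨N₀, h⟩ := hnull t.1 t.2.1 t.2.2 ht ε hε
      refine ⟨N₀, fun N hN => ?_⟩
      refine le_trans (le_of_eq ?_) (h N hN)
      congr 2
      ext n
      rw [hB]
      simp [ht]
  have hkey : ∀ k, NullIn (fun N => Ioc N (2 * N)) (⋃ t ∈ I k, B t) := by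
    intro k ε hε
    have hcard : 0 < ((I k).card : ℝ) := by
      rw [hI]
      simp only [card_product, card_range]
      positivity
    have h1 : ∀ t ∈ I k, ∃ N₀ : ℕ, ∀ N : ℕ, N₀ ≤ N →
        ({n : ℕ | n ∈ Ioc N (2 * N) ∧ n ∈ B t}.ncard : ℝ) ≤ ε / (I k).card * (Ioc N (2 * N)).card :=
      fun t _ => hBn t _ (by positivity)
    choose! N₀ hN₀ using h1
    refine ⟨∑ t ∈ I k, N₀ t, fun N hN => ?_⟩
    have hsub : {n : ℕ | n ∈ Ioc N (2 * N) ∧ n ∈ ⋃ t ∈ I k, B t} ⊆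
        (((I k).biUnion (fun t => (Ioc N (2 * N)).filter (fun n => n ∈ B t)) : Finset ℕ) : Set ℕ) := by
      rintro n ⟨hn, hn'⟩
      rw [Set.mem_iUnion₂] at hn'
      obtain ⟨t, ht, ht'⟩ := hn'
      rw [mem_coe, mem_biUnion]
      exact ⟨t, ht, by rw [mem_filter]; exact ⟨hn, ht'⟩⟩
    have h2 := Set.ncard_le_ncard hsub (finite_toSet _)
    rw [Set.ncard_coe_finset] at h2
    have h3 : ((({n : ℕ | n ∈ Ioc N (2 * N) ∧ n ∈ ⋃ t ∈ I k, B t}.ncard : ℕ)) : ℝ) ≤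
        ∑ t ∈ I k, (((Ioc N (2 * N)).filter (fun n => n ∈ B t)).card : ℝ) := by
      exact_mod_cast h2.trans card_biUnion_le
    refine h3.trans ?_
    calc ∑ t ∈ I k, (((Ioc N (2 * N)).filter (fun n => n ∈ B t)).card : ℝ)
        ≤ ∑ t ∈ I k, ε / (I k).card * (Ioc N (2 * N)).card := by
          apply sum_le_sum
          intro t ht
          have h4 := hN₀ t ht N ((single_le_sum (f := N₀) (fun _ _ => Nat.zero_le _) ht).trans hN)
          refine le_trans (le_of_eq ?_) h4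
          rw [← Set.ncard_coe_finset]
          congr 2
          ext n
          simp
      _ = ε * (Ioc N (2 * N)).card := by
          rw [sum_const, nsmul_eq_mul]
          field_simp
  have hmono : Monotone (fun k => ⋃ t ∈ I k, B t) := by
    intro k k' hkk
    apply Set.biUnion_subset_biUnion_left
    intro t ht
    rw [hI] at ht ⊢
    simp only [coe_product, Set.mem_prod, mem_coe, mem_range] at ht ⊢
    omega
  obtain ⟨E, h1, -, h3⟩ := diag hmono (fun N => Finset.Subset.refl _) (fun N => Finset.Subset.refl _) hkey hkey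
  refine ⟨E, h1, fun i j U hij => (h3 (i + j + U)).subset ?_⟩
  rintro n ⟨hn, hx⟩
  refine ⟨?_, hn⟩
  rw [Set.mem_iUnion₂]
  refine ⟨(i, j, U), ?_, ?_⟩
  · rw [hI]
    simp only [mem_product, mem_range]
    omega
  · rw [hB]
    exact ⟨hij, hx⟩

end Pool.Agent.U828.KD.FC
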