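import Mathlib
import Pool.Agent.U828.KD.Energy
import Pool.Agent.Y961.JR.ScaledJ

/-! Prime gaps of record length around the values of arbitrary functions whose differences of order `d` are bounded
below (helper828). -/

set_option autoImplicit false

namespace Pool.Agent.U828.KD

open Finset Filter
open Pool.Agent.H469R2.NK (e norm_e e_add conj_e)
open Pool.Agent.W147.PS (ff ff_compare ev_pow)

lemma mid_pos (d : ℕ) (hd : 2 ≤ d) (δ c C : ℝ) (H : Test d δ c C) (x w : ℕ) (hw : 1 ≤ w)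
    (hwx : (x : ℝ) ≤ 8 * d * w) (hwx2 : 2 * d * w + 2 ≤ x) (F : ℕ → ℝ) (lam Y : ℝ) (h1 : 1 ≤ lam * (x : ℝ) ^ d)
    (h2 : lam ≤ (x : ℝ) ^ (-δ)) (hY : lam * (x : ℝ) ^ d ≤ Y) (hFY : ∀ m ∈ Icc 1 x, |F m| ≤ Y)
    (hb : ∀ m, 1 ≤ m → m + d ≤ x → lam ≤ dk d F m) :
    ‖∑ m ∈ Ico (d * w + 1) (x - d * w), e (F m)‖ ≤
      C * ((16 * d) ^ d * (Y / (lam * (x : ℝ) ^ d))) * x * (lam * (x : ℝ) ^ d) ^ (-c) := by
  have hx0 : (0 : ℝ) < x := by exact_mod_cast (by omega : 0 < x)
  have hw0 : (0 : ℝ) < w := by exact_mod_cast hw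
  have hd0 : (1 : ℝ) ≤ d := by exact_mod_cast (by omega : 1 ≤ d)
  have hu0 : 0 < lam * (x : ℝ) ^ d := by linarith
  have hlam0 : 0 < lam := by
    by_contra hcon
    push Not at hcon
    have : lam * (x : ℝ) ^ d ≤ 0 := mul_nonpos_of_nonpos_of_nonneg hcon (by positivity)
    linarith
  have hY0 : 0 < Y := by linarith
  obtain ⟨L, hL⟩ : ∃ L, L = x - d * w - (d * w + 1) := ⟨_, rfl⟩
  have h2dw : 2 * d * w = d * w + d * w := by ring
  obtain ⟨T, hT⟩ : ∃ T, T = (16 * (d : ℝ)) ^ d * (Y / (lam * (x : ℝ) ^ d)) := ⟨_, rfl⟩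
  have hT1 : 1 ≤ T := by
    rw [hT]
    apply one_le_mul_of_one_le_of_one_le
    · exact one_le_pow₀ (by linarith)
    · rw [le_div_iff₀ hu0, one_mul]
      exact hY
  have e1 : ∑ m ∈ Ico (d * w + 1) (x - d * w), e (F m) = ∑ n ∈ range L, e ((fun n => F (n + (d * w + 1))) n) := by
    rw [sum_Ico_eq_sum_range, hL]
    apply sum_congr rfl
    intro n _
    simp only
    rw [add_comm n]
  rw [e1, ← hT]
  apply H x L _ lam T (by omega) hT1 h1 h2
  · intro m hm
    rw [dk_shift]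
    exact hb (m + (d * w + 1)) (by omega) (by omega)
  · intro m m' hm hm'
    rw [dk_shift, dk_shift]
    obtain ⟨s, hs⟩ : ∃ s, s = d - 1 := ⟨_, rfl⟩
    have hds : d = s + 1 := by omega
    have hint : ∀ m, m + (d - 1) ≤ L → |dk (d - 1) F (m + (d * w + 1))| ≤ 2 ^ s * Y / (w : ℝ) ^ s := by
      intro m hm
      rw [← hs]
      have hsw : s * w ≤ d * w := Nat.mul_le_mul_right _ (by omega)
      apply interior w s x hw F Y hFY _ (m + (d * w + 1)) (by omega) (by omega)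
      intro n hn1 hn2
      rw [← hds]
      exact hlam0.le.trans (hb n hn1 (by omega))
    have a1 := abs_le.1 (hint m hm)
    have a2 := abs_le.1 (hint m' hm')
    have a3 : dk (d - 1) F (m + (d * w + 1)) - dk (d - 1) F (m' + (d * w + 1)) ≤ 2 * (2 ^ s * Y / (w : ℝ) ^ s) := by
      linarith [a1.2, a2.1]
    refine a3.trans ?_
    have a5 : 1 / (w : ℝ) ^ s ≤ (8 * d) ^ s / (x : ℝ) ^ s := by
      rw [div_le_div_iff₀ (by positivity) (by positivity), one_mul, ← mul_pow]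
      exact pow_le_pow_left₀ hx0.le hwx s
    have a6 : T * x * lam = (16 * (d : ℝ)) ^ d * Y * (1 / (x : ℝ) ^ s) := by
      rw [hT]
      have e3 : (x : ℝ) ^ d = (x : ℝ) ^ s * x := by rw [← pow_succ, ← hds]
      rw [e3]
      field_simp
    rw [a6]
    have a7 : (2 : ℝ) * (2 ^ s) * (8 * d) ^ s ≤ (16 * (d : ℝ)) ^ d := by
      have e4 : (16 * (d : ℝ)) ^ d = (2 * 2 ^ s) * ((8 * d) ^ s * (8 * d)) := by
        have e5 : (16 * (d : ℝ)) = 2 * (8 * d) := by ring
        rw [e5, mul_pow]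
        have e6 : (2 : ℝ) ^ d = 2 * 2 ^ s := by rw [← pow_succ', ← hds]
        have e7 : (8 * (d : ℝ)) ^ d = (8 * d) ^ s * (8 * d) := by rw [← pow_succ, ← hds]
        rw [e6, e7]
      rw [e4]
      have a8 : (8 * (d : ℝ)) ^ s ≤ (8 * d) ^ s * (8 * d) := le_mul_of_one_le_right (by positivity) (by linarith)
      exact mul_le_mul_of_nonneg_left a8 (by positivity)
    calc 2 * (2 ^ s * Y / (w : ℝ) ^ s) = 2 * 2 ^ s * Y * (1 / (w : ℝ) ^ s) := by ring
      _ ≤ 2 * 2 ^ s * Y * ((8 * d) ^ s / (x : ℝ) ^ s) := mul_le_mul_of_nonneg_left a5 (by positivity)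
      _ = (2 * (2 ^ s) * (8 * d) ^ s) * Y * (1 / (x : ℝ) ^ s) := by ring
      _ ≤ _ := by gcongr

lemma mid_both (d : ℕ) (hd : 2 ≤ d) (δ c C : ℝ) (H : Test d δ c C) (x w : ℕ) (hw : 1 ≤ w)
    (hwx : (x : ℝ) ≤ 8 * d * w) (hwx2 : 2 * d * w + 2 ≤ x) (F : ℕ → ℝ) (lam Y : ℝ) (h1 : 1 ≤ lam * (x : ℝ) ^ d)
    (h2 : lam ≤ (x : ℝ) ^ (-δ)) (hY : lam * (x : ℝ) ^ d ≤ Y) (hFY : ∀ m ∈ Icc 1 x, |F m| ≤ Y)
    (hb : Bent d x F lam) :
    ‖∑ m ∈ Ico (d * w + 1) (x - d * w), e (F m)‖ ≤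
      C * ((16 * d) ^ d * (Y / (lam * (x : ℝ) ^ d))) * x * (lam * (x : ℝ) ^ d) ^ (-c) := by
  rcases hb with hb | hb
  · exact mid_pos d hd δ c C H x w hw hwx hwx2 F lam Y h1 h2 hY hFY hb
  · have h3 := mid_pos d hd δ c C H x w hw hwx hwx2 (fun m => -F m) lam Y h1 h2 hY (fun m hm => by
      rw [abs_neg]
      exact hFY m hm) (fun m hm1 hm2 => by
      rw [dk_neg]
      have := hb m hm1 hm2
      linarith)
    have e1 : ∑ m ∈ Ico (d * w + 1) (x - d * w), e (-F m) =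
        (starRingEnd ℂ) (∑ m ∈ Ico (d * w + 1) (x - d * w), e (F m)) := by
      rw [map_sum]
      exact sum_congr rfl fun m _ => (conj_e _).symm
    rw [e1, RCLike.norm_conj] at h3
    exact h3

lemma bent_mono' {d x : ℕ} {f : ℕ → ℝ} {κ κ' : ℝ} (hl : κ' ≤ κ) (h : Bent d x f κ) : Bent d x f κ' := by
  rcases h with h | h
  · left
    intro m h1 h2
    exact hl.trans (h m h1 h2)
  · right
    intro m h1 h2
    have := h m h1 h2
    linarith

/-- multiples of a function of order `d` -/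
lemma bent_mul (d x : ℕ) (f : ℕ → ℝ) (κ a : ℝ) (h : Bent d x f κ) : Bent d x (fun m => a * f m) (|a| * κ) := by
  rcases le_total 0 a with ha | ha
  · rw [abs_of_nonneg ha]
    rcases h with h | h
    · left
      intro m h1 h2
      rw [dk_mul]
      exact mul_le_mul_of_nonneg_left (h m h1 h2) ha
    · right
      intro m h1 h2
      rw [dk_mul]
      have := mul_le_mul_of_nonneg_left (h m h1 h2) ha
      linarith
  · rw [abs_of_nonpos ha]
    rcases h with h | h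
    · right
      intro m h1 h2
      rw [dk_mul]
      have := mul_le_mul_of_nonneg_left (h m h1 h2) (neg_nonneg.2 ha)
      linarith
    · left
      intro m h1 h2
      rw [dk_mul]
      have := mul_le_mul_of_nonneg_left (h m h1 h2) (neg_nonneg.2 ha)
      linarith

theorem rec_gaps (r : ℕ) (hr : 1 ≤ r) (d : ℕ) (hd : 2 ≤ d) (δ : ℝ) (h0 : 0 < δ) (h1 : δ ≤ 1) :
    ∃ θ : ℝ, 0 < θ ∧ θ ≤ 1 / 2 ∧ ∀ ρ : ℝ, 0 < ρ → ρ ≤ θ → ∃ κ : ℝ, 0 < κ ∧ ∀ᶠ M : ℝ in atTop,
    ∀ x : ℕ, M ^ (1 / (d : ℝ) + δ) ≤ x → ∀ f : Fin r → ℕ → ℝ,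
    (∀ j, ∀ m ∈ Icc 1 x, M ^ δ ≤ f j m ∧ f j m ≤ M) →
    (∀ h : Fin r → ℤ, h ≠ 0 → (∀ j, |(h j : ℝ)| ≤ M ^ ρ) →
      Bent d x (fun m => ∑ j, (h j : ℝ) * f j m) (M ^ (1 - θ) / (x : ℝ) ^ d)) →
    ∀ G ⊆ Icc 1 x, (∀ m ∈ Icc 1 x, (∀ j, ∀ q : ℕ, q.Prime → κ * ff M < |(q : ℝ) - f j m|) → m ∈ G) →
      x * M ^ (-δ) ≤ G.card := by
  classical
  have hd0 : (2 : ℝ) ≤ d := by exact_mod_cast hd
  have hr0 : (1 : ℝ) ≤ r := by exact_mod_cast hr
  obtain ⟨c, C, hc0, hc1, hC, H⟩ := test d hd δ h0 h1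
  refine ⟨c / 16, by positivity, by linarith, fun ρ hρ hρθ => ?_⟩
  obtain ⟨η, hη⟩ : ∃ η, η = min ρ (δ / 2) := ⟨_, rfl⟩
  have hη0 : 0 < η := by rw [hη]; positivity
  have hηρ : η ≤ ρ := by rw [hη]; exact min_le_left _ _
  have hηδ : η ≤ δ / 2 := by rw [hη]; exact min_le_right _ _
  have hηc : η ≤ c / 16 := hηρ.trans hρθ
  have hη1 : η ≤ 1 := by linarith
  obtain ⟨κ, hκ, hcrit⟩ := Pool.Agent.Y961.JR.crit_scaledJ r hr η hη0 hη1
  refine ⟨κ, hκ, ?_⟩
  obtain ⟨D, hD⟩ : ∃ D, D = 16 * (C * ((16 * (d : ℝ)) ^ d * r)) := ⟨_, rfl⟩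
  have hD1 : 16 ≤ D := by
    rw [hD]
    have : 1 ≤ C * ((16 * (d : ℝ)) ^ d * r) :=
      one_le_mul_of_one_le_of_one_le hC (one_le_mul_of_one_le_of_one_le (one_le_pow₀ (by linarith)) hr0)
    linarith
  filter_upwards [hcrit, eventually_ge_atTop (1 : ℝ), (tendsto_rpow_atTop (show 0 < c / 4 by positivity)).eventually_ge_atTop D,
    (tendsto_rpow_atTop (show 0 < δ / 2 by positivity)).eventually_ge_atTop 16,
    (tendsto_rpow_atTop (show (0 : ℝ) < 1 / d + δ by positivity)).eventually_ge_atTop (8 * d)] with M hM hM1 hMD hM16 hM8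
  intro x hx f hf hbent G hGx hG
  have hM0 : 0 < M := by linarith
  have hx8 : (8 * d : ℝ) ≤ x := hM8.trans hx
  have hx8' : 8 * d ≤ x := by exact_mod_cast hx8
  have hx0 : (0 : ℝ) < x := by linarith
  by_contra hcon
  push Not at hcon
  have hpowle : ∀ a b : ℝ, a ≤ b → M ^ a ≤ M ^ b := fun a b hab => Real.rpow_le_rpow_of_exponent_le hM1 hab
  -- the middle
  obtain ⟨w, hw⟩ : ∃ w, w = x / (4 * d) := ⟨_, rfl⟩
  have hw1 : 1 ≤ w := by
    rw [hw, Nat.le_div_iff_mul_le (by omega)]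
    omega
  have hwle : w * (4 * d) ≤ x := by
    rw [hw]
    exact Nat.div_mul_le_self _ _
  have hwlt : x < w * (4 * d) + 4 * d := by
    rw [hw]
    have := Nat.div_add_mod x (4 * d)
    have h2 := Nat.mod_lt x (show 0 < 4 * d by omega)
    have e3 : x / (4 * d) * (4 * d) = 4 * d * (x / (4 * d)) := by ring
    omega
  have hwx : (x : ℝ) ≤ 8 * d * w := by
    have h2 : x ≤ 8 * d * w := by
      have h3 : 4 * d ≤ w * (4 * d) := Nat.le_mul_of_pos_left _ hw1
      have e3 : 8 * d * w = w * (4 * d) + w * (4 * d) := by ring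
      omega
    exact_mod_cast h2
  have hwx2 : 2 * d * w + 2 ≤ x := by
    have e3 : w * (4 * d) = 2 * d * w + 2 * d * w := by ring
    have h4 : 2 ≤ 2 * d * w := by
      have : 1 ≤ d * w := Nat.mul_pos (by omega) hw1
      have e4 : 2 * d * w = 2 * (d * w) := by ring
      omega
    omega
  obtain ⟨J, hJ⟩ : ∃ J, J = Ico (d * w + 1) (x - d * w) := ⟨_, rfl⟩
  have hJx : J ⊆ Icc 1 x := by
    intro m hm
    rw [hJ, mem_Ico] at hm
    rw [mem_Icc]
    omega
  have hJc : (x : ℝ) / 4 ≤ J.card := by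
    have h3 : x ≤ 4 * J.card := by
      rw [hJ, Nat.card_Ico]
      have e3 : w * (4 * d) = 4 * (d * w) := by ring
      omega
    have h4 : (x : ℝ) ≤ 4 * J.card := by exact_mod_cast h3
    linarith
  obtain ⟨s, hs⟩ : ∃ s, s = J \ G := ⟨_, rfl⟩
  have hMη0 : 0 < M ^ (-η) := Real.rpow_pos_of_pos hM0 _
  have hMη1 : M ^ (-η) ≤ 1 := by
    rw [← Real.rpow_zero M]
    exact hpowle _ _ (by linarith)
  have hMδη : M ^ (-δ) ≤ M ^ (-η) / 16 := by
    have h2 : M ^ (-δ) ≤ M ^ (-η) * M ^ (-(δ / 2)) := by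
      rw [← Real.rpow_add hM0]
      apply hpowle
      linarith
    have h4 : M ^ (-(δ / 2)) ≤ 1 / 16 := by
      rw [Real.rpow_neg hM0.le, ← one_div]
      exact one_div_le_one_div_of_le (by norm_num) hM16
    calc M ^ (-δ) ≤ M ^ (-η) * M ^ (-(δ / 2)) := h2
      _ ≤ M ^ (-η) * (1 / 16) := mul_le_mul_of_nonneg_left h4 hMη0.le
      _ = _ := by ring
  have hGc : (G.card : ℝ) ≤ x * (M ^ (-η) / 16) := hcon.le.trans (mul_le_mul_of_nonneg_left hMδη hx0.le)
  have hGc' : (G.card : ℝ) ≤ x / 16 := by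
    refine hGc.trans ?_
    have h2 : (x : ℝ) * (M ^ (-η) / 16) ≤ x * (1 / 16) := mul_le_mul_of_nonneg_left (by linarith) hx0.le
    linarith
  have hscard : (x : ℝ) / 8 ≤ s.card := by
    have h3 : J.card ≤ s.card + G.card := by
      rw [hs]
      exact card_le_card_sdiff_add_card
    have h4 : (J.card : ℝ) ≤ s.card + G.card := by exact_mod_cast h3
    linarith
  have hsne : s.Nonempty := by
    rw [← card_pos]
    have h2 : (0 : ℝ) < s.card := by linarith [div_pos hx0 (by norm_num : (0 : ℝ) < 8)]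
    exact_mod_cast h2
  have hsx : ∀ m ∈ s, m ∈ Icc 1 x := by
    intro m hm
    rw [hs, Finset.mem_sdiff] at hm
    exact hJx hm.1
  obtain ⟨i, hi, hi2⟩ := hM ℕ s (fun m j => f j m) hsne (fun m hm j => by
    refine le_trans ?_ (hf j m (hsx m hm)).1
    exact hpowle _ _ (by linarith)) (by
    intro q hq hqM h hh hhM
    obtain ⟨F, hF⟩ : ∃ F : ℕ → ℝ, F = fun m => ∑ j, (h j : ℝ) * (f j m / q) := ⟨_, rfl⟩
    have hq0 : (0 : ℝ) < q := by exact_mod_cast (by omega : 0 < q)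
    have hq1 : (1 : ℝ) ≤ q := by exact_mod_cast hq
    have hF' : F = fun m => (1 / (q : ℝ)) * (fun m => ∑ j, (h j : ℝ) * f j m) m := by
      funext m
      rw [hF]
      simp only
      rw [mul_sum]
      exact sum_congr rfl fun j _ => by ring
    obtain ⟨lam, hlam⟩ : ∃ lam, lam = M ^ (1 - c / 16 - η) / (x : ℝ) ^ d := ⟨_, rfl⟩
    have hlam0 : 0 < lam := by rw [hlam]; positivity
    have hu : lam * (x : ℝ) ^ d = M ^ (1 - c / 16 - η) := by rw [hlam]; field_simp
    have hb := hbent h hh (fun j => (hhM j).trans (hpowle _ _ hηρ))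
    have hle : lam ≤ 1 / (q : ℝ) * (M ^ (1 - c / 16) / (x : ℝ) ^ d) := by
      rw [hlam, one_div, ← div_eq_inv_mul, le_div_iff₀ hq0, div_mul_eq_mul_div]
      apply div_le_div_of_nonneg_right _ (by positivity)
      calc M ^ (1 - c / 16 - η) * q ≤ M ^ (1 - c / 16 - η) * M ^ η := mul_le_mul_of_nonneg_left hqM (by positivity)
        _ = M ^ (1 - c / 16) := by rw [← Real.rpow_add hM0]; congr 1; ring
    have hFb : Bent d x F lam := by
      rw [hF']
      rcases hb with hb | hb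
      · left
        intro m h3 h4
        rw [dk_mul]
        exact hle.trans (mul_le_mul_of_nonneg_left (hb m h3 h4) (by positivity))
      · right
        intro m h3 h4
        rw [dk_mul]
        have h7 := mul_le_mul_of_nonneg_left (hb m h3 h4) (show (0 : ℝ) ≤ 1 / q by positivity)
        rw [mul_neg] at h7
        linarith
    -- the size
    obtain ⟨Y, hY⟩ : ∃ Y, Y = r * M ^ (1 + η) := ⟨_, rfl⟩
    have hFY : ∀ m ∈ Icc 1 x, |F m| ≤ Y := by
      intro m hm
      rw [hF]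
      simp only
      refine (abs_sum_le_sum_abs _ _).trans ?_
      calc ∑ j, |(h j : ℝ) * (f j m / q)| ≤ ∑ _j : Fin r, M ^ η * M := by
            apply sum_le_sum
            intro j _
            rw [abs_mul]
            have h3 := hf j m hm
            have h4 : 0 ≤ f j m := (Real.rpow_pos_of_pos hM0 _).le.trans h3.1
            have h5 : |f j m / q| ≤ M := by
              rw [abs_of_nonneg (div_nonneg h4 hq0.le)]
              exact (div_le_self h4 hq1).trans h3.2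
            exact mul_le_mul (hhM j) h5 (abs_nonneg _) (by positivity)
        _ = Y := by
            rw [sum_const, card_univ, Fintype.card_fin, nsmul_eq_mul, hY, Real.rpow_add hM0, Real.rpow_one]
            ring
    have hu1 : 1 ≤ lam * (x : ℝ) ^ d := by
      rw [hu]
      exact Real.one_le_rpow hM1 (by linarith)
    have huY : lam * (x : ℝ) ^ d ≤ Y := by
      rw [hu, hY]
      calc M ^ (1 - c / 16 - η) ≤ M ^ (1 + η) := hpowle _ _ (by linarith)
        _ ≤ r * M ^ (1 + η) := le_mul_of_one_le_left (by positivity) hr0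
    have hlamx : lam ≤ (x : ℝ) ^ (-δ) := by
      rw [hlam, div_le_iff₀ (by positivity)]
      have h3 : (x : ℝ) ^ (-δ) * (x : ℝ) ^ d = (x : ℝ) ^ ((d : ℝ) - δ) := by
        rw [← Real.rpow_natCast, ← Real.rpow_add hx0]
        congr 1
        ring
      rw [h3]
      calc M ^ (1 - c / 16 - η) ≤ M ^ ((1 / (d : ℝ) + δ) * (d - δ)) := by
            apply hpowle
            have h5 : (1 / (d : ℝ) + δ) * (d - δ) = 1 + δ * (d - (1 / d + δ)) := by field_simp; ring
            have h6 : 1 / (d : ℝ) ≤ 1 := by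
              rw [div_le_one (by linarith)]
              linarith
            have h7 : 0 ≤ δ * (d - (1 / d + δ)) := mul_nonneg h0.le (by linarith)
            rw [h5]
            linarith
        _ = (M ^ (1 / (d : ℝ) + δ)) ^ ((d : ℝ) - δ) := by rw [Real.rpow_mul hM0.le]
        _ ≤ (x : ℝ) ^ ((d : ℝ) - δ) := Real.rpow_le_rpow (by positivity) hx (by linarith)
    have hmain := mid_both d hd δ c C H x w hw1 hwx hwx2 F lam Y hu1 hlamx huY hFY hFb
    have hfin : C * ((16 * d) ^ d * (Y / (lam * (x : ℝ) ^ d))) * x * (lam * (x : ℝ) ^ d) ^ (-c) ≤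
        x * (M ^ (-η) / 16) := by
      rw [hu, hY, ← Real.rpow_mul hM0.le]
      have e1 : C * ((16 * d) ^ d * (r * M ^ (1 + η) / M ^ (1 - c / 16 - η))) * x * M ^ ((1 - c / 16 - η) * -c) =
          x * ((C * ((16 * d) ^ d * r)) * M ^ ((c / 16 + 2 * η) + (1 - c / 16 - η) * -c)) := by
        have e2 : M ^ (1 + η) / M ^ (1 - c / 16 - η) = M ^ (c / 16 + 2 * η) := by
          rw [← Real.rpow_sub hM0]
          congr 1
          ring
        rw [Real.rpow_add hM0 (c / 16 + 2 * η), ← e2]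
        ring
      rw [e1]
      apply mul_le_mul_of_nonneg_left _ hx0.le
      have e3 : M ^ ((c / 16 + 2 * η) + (1 - c / 16 - η) * -c) ≤ M ^ (-η) * M ^ (-(c / 4)) := by
        rw [← Real.rpow_add hM0]
        apply hpowle
        nlinarith
      have e4 : M ^ (-(c / 4)) ≤ 1 / D := by
        rw [Real.rpow_neg hM0.le, ← one_div]
        exact one_div_le_one_div_of_le (by linarith) hMD
      have e5 : 0 ≤ C * ((16 * (d : ℝ)) ^ d * r) := by positivity
      calc C * ((16 * (d : ℝ)) ^ d * r) * M ^ ((c / 16 + 2 * η) + (1 - c / 16 - η) * -c)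
          ≤ C * ((16 * (d : ℝ)) ^ d * r) * (M ^ (-η) * (1 / D)) := by
            apply mul_le_mul_of_nonneg_left _ e5
            exact e3.trans (mul_le_mul_of_nonneg_left e4 hMη0.le)
        _ = M ^ (-η) / 16 := by
            have hpos : 0 < C * ((16 * (d : ℝ)) ^ d * r) := by positivity
            rw [hD]
            field_simp
    -- removal of the good members
    have hsplit : ∑ i ∈ s, e (F i) = ∑ i ∈ J, e (F i) - ∑ i ∈ J ∩ G, e (F i) := by
      rw [hs, ← sum_sdiff (inter_subset_left : J ∩ G ⊆ J), sdiff_inter_self_left]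
      ring
    have hG2 : ‖∑ i ∈ J ∩ G, e (F i)‖ ≤ x * (M ^ (-η) / 16) := by
      refine (norm_sum_le _ _).trans ?_
      simp only [norm_e]
      rw [sum_const, nsmul_eq_mul, mul_one]
      refine le_trans ?_ hGc
      exact_mod_cast card_le_card inter_subset_right
    have hgoal : ‖∑ i ∈ s, e (F i)‖ ≤ s.card * M ^ (-η) := by
      rw [hsplit]
      calc ‖∑ i ∈ J, e (F i) - ∑ i ∈ J ∩ G, e (F i)‖
          ≤ ‖∑ i ∈ J, e (F i)‖ + ‖∑ i ∈ J ∩ G, e (F i)‖ := norm_sub_le _ _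
        _ ≤ x * (M ^ (-η) / 16) + x * (M ^ (-η) / 16) := by
            apply add_le_add _ hG2
            rw [hJ]
            exact hmain.trans hfin
        _ = x / 8 * M ^ (-η) := by ring
        _ ≤ s.card * M ^ (-η) := mul_le_mul_of_nonneg_right hscard hMη0.le
    rw [hF] at hgoal
    exact hgoal)
  have h3 := hG i (hsx i hi) hi2
  rw [hs, Finset.mem_sdiff] at hi
  exact hi.2 h3

end Pool.Agent.U828.KD
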