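import Pool.Agent.U828.KD.FC
import Pool.Agent.U828.KD.Rec

/-! The Fermat-Catalan equation with two bases near the values of two arbitrary functions whose differences of some order
are bounded below: product sets (helper828). -/

set_option autoImplicit false

namespace Pool.Agent.U828.KD.FCB

open Finset Filter
open Pool.Agent.H469R2.NK (e norm_e e_add conj_e)
open Pool.Agent.N666.VE (Near BadPair near_floor cn_small CN)
open Pool.Agent.W147.PS (ev_pow)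
open Pool.Agent.H374R2.Beal (Exceptional)
open Pool.Agent.H374R2.T (Good2)
open Pool.Agent.U828.KD (dk dk_zero dk_succ dk_shift dk_neg dk_mul Test Bent interior test bent_mul bent_mono')

/-- exponential sums away from the end points -/
lemma mid_pos (d : ℕ) (hd : 2 ≤ d) (δ c C : ℝ) (H : Test d δ c C) (x w : ℕ) (hw : 1 ≤ w) (R : ℝ) (hR : 1 ≤ R)
    (hwx : (x : ℝ) ≤ R * w) (hwx2 : 2 * d * w + 2 ≤ x) (F : ℕ → ℝ) (lam Y : ℝ) (h1 : 1 ≤ lam * (x : ℝ) ^ d)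
    (h2 : lam ≤ (x : ℝ) ^ (-δ)) (hY : lam * (x : ℝ) ^ d ≤ Y) (hFY : ∀ m ∈ Icc 1 x, |F m| ≤ Y)
    (hb : ∀ m, 1 ≤ m → m + d ≤ x → lam ≤ dk d F m) :
    ‖∑ m ∈ Ico (d * w + 1) (x - d * w), e (F m)‖ ≤
      C * ((2 * R) ^ d * (Y / (lam * (x : ℝ) ^ d))) * x * (lam * (x : ℝ) ^ d) ^ (-c) := by
  have hx0 : (0 : ℝ) < x := by exact_mod_cast (by omega : 0 < x)
  have hw0 : (0 : ℝ) < w := by exact_mod_cast hw
  have hd0 : (1 : ℝ) ≤ d := by exact_mod_cast (by omega : 1 ≤ d)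
  have hu0 : 0 < lam * (x : ℝ) ^ d := by linarith
  have hlam0 : 0 < lam := by
    by_contra hcon
    push Not at hcon
    have : lam * (x : ℝ) ^ d ≤ 0 := mul_nonpos_of_nonpos_of_nonneg hcon (by positivity)
    linarith
  have hY0 : 0 < Y := by linarith
  obtain ⟨L, hL⟩ : ∃ L, L = x - d * w - (d * w + 1) := ⟨_, rfl⟩
  have h2dw : 2 * d * w = d * w + d * w := by ring
  obtain ⟨T, hT⟩ : ∃ T, T = (2 * R) ^ d * (Y / (lam * (x : ℝ) ^ d)) := ⟨_, rfl⟩
  have hT1 : 1 ≤ T := by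
    rw [hT]
    apply one_le_mul_of_one_le_of_one_le
    · exact one_le_pow₀ (by linarith)
    · rw [le_div_iff₀ hu0, one_mul]
      exact hY
  have e1 : ∑ m ∈ Ico (d * w + 1) (x - d * w), e (F m) = ∑ n ∈ range L, e ((fun n => F (n + (d * w + 1))) n) := by
    rw [sum_Ico_eq_sum_range, hL]
    apply sum_congr rfl
    intro n _
    simp only
    rw [add_comm n]
  rw [e1, ← hT]
  apply H x L _ lam T (by omega) hT1 h1 h2
  · intro m hm
    rw [dk_shift]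
    exact hb (m + (d * w + 1)) (by omega) (by omega)
  · intro m m' hm hm'
    rw [dk_shift, dk_shift]
    obtain ⟨s, hs⟩ : ∃ s, s = d - 1 := ⟨_, rfl⟩
    have hds : d = s + 1 := by omega
    have hint : ∀ m, m + (d - 1) ≤ L → |dk (d - 1) F (m + (d * w + 1))| ≤ 2 ^ s * Y / (w : ℝ) ^ s := by
      intro m hm
      rw [← hs]
      have hsw : s * w ≤ d * w := Nat.mul_le_mul_right _ (by omega)
      apply interior w s x hw F Y hFY _ (m + (d * w + 1)) (by omega) (by omega)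
      intro n hn1 hn2
      rw [← hds]
      exact hlam0.le.trans (hb n hn1 (by omega))
    have a1 := abs_le.1 (hint m hm)
    have a2 := abs_le.1 (hint m' hm')
    have a3 : dk (d - 1) F (m + (d * w + 1)) - dk (d - 1) F (m' + (d * w + 1)) ≤ 2 * (2 ^ s * Y / (w : ℝ) ^ s) := by
      linarith [a1.2, a2.1]
    refine a3.trans ?_
    have a5 : 1 / (w : ℝ) ^ s ≤ R ^ s / (x : ℝ) ^ s := by
      rw [div_le_div_iff₀ (by positivity) (by positivity), one_mul, ← mul_pow]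
      exact pow_le_pow_left₀ hx0.le hwx s
    have a6 : T * x * lam = (2 * R) ^ d * Y * (1 / (x : ℝ) ^ s) := by
      rw [hT]
      have e3 : (x : ℝ) ^ d = (x : ℝ) ^ s * x := by rw [← pow_succ, ← hds]
      rw [e3]
      field_simp
    rw [a6]
    have a7 : (2 : ℝ) * (2 ^ s) * R ^ s ≤ (2 * R) ^ d := by
      have e4 : (2 * R) ^ d = (2 * 2 ^ s) * (R ^ s * R) := by
        rw [mul_pow]
        have e6 : (2 : ℝ) ^ d = 2 * 2 ^ s := by rw [← pow_succ', ← hds]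
        have e7 : R ^ d = R ^ s * R := by rw [← pow_succ, ← hds]
        rw [e6, e7]
      rw [e4]
      have a8 : R ^ s ≤ R ^ s * R := le_mul_of_one_le_right (by positivity) hR
      exact mul_le_mul_of_nonneg_left a8 (by positivity)
    calc 2 * (2 ^ s * Y / (w : ℝ) ^ s) = 2 * 2 ^ s * Y * (1 / (w : ℝ) ^ s) := by ring
      _ ≤ 2 * 2 ^ s * Y * (R ^ s / (x : ℝ) ^ s) := mul_le_mul_of_nonneg_left a5 (by positivity)
      _ = (2 * (2 ^ s) * R ^ s) * Y * (1 / (x : ℝ) ^ s) := by ring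
      _ ≤ _ := by gcongr

lemma mid_both (d : ℕ) (hd : 2 ≤ d) (δ c C : ℝ) (H : Test d δ c C) (x w : ℕ) (hw : 1 ≤ w) (R : ℝ) (hR : 1 ≤ R)
    (hwx : (x : ℝ) ≤ R * w) (hwx2 : 2 * d * w + 2 ≤ x) (F : ℕ → ℝ) (lam Y : ℝ) (h1 : 1 ≤ lam * (x : ℝ) ^ d)
    (h2 : lam ≤ (x : ℝ) ^ (-δ)) (hY : lam * (x : ℝ) ^ d ≤ Y) (hFY : ∀ m ∈ Icc 1 x, |F m| ≤ Y)
    (hb : Bent d x F lam) :
    ‖∑ m ∈ Ico (d * w + 1) (x - d * w), e (F m)‖ ≤
      C * ((2 * R) ^ d * (Y / (lam * (x : ℝ) ^ d))) * x * (lam * (x : ℝ) ^ d) ^ (-c) := by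
  rcases hb with hb | hb
  · exact mid_pos d hd δ c C H x w hw R hR hwx hwx2 F lam Y h1 h2 hY hFY hb
  · have h3 := mid_pos d hd δ c C H x w hw R hR hwx hwx2 (fun m => -F m) lam Y h1 h2 hY (fun m hm => by
      rw [abs_neg]
      exact hFY m hm) (fun m hm1 hm2 => by
      rw [dk_neg]
      have := hb m hm1 hm2
      linarith)
    have e1 : ∑ m ∈ Ico (d * w + 1) (x - d * w), e (-F m) =
        (starRingEnd ℂ) (∑ m ∈ Ico (d * w + 1) (x - d * w), e (F m)) := by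
      rw [map_sum]
      exact sum_congr rfl fun m _ => (conj_e _).symm
    rw [e1, RCLike.norm_conj] at h3
    exact h3

/-- equidistribution of the integer parts of an arbitrary function whose differences of order `d` are bounded below in the
residue classes modulo all `q` up to a power -/
theorem bent_equi (d : ℕ) (hd : 2 ≤ d) (δ : ℝ) (h0 : 0 < δ) (h1 : δ ≤ 1) :
    ∃ θ : ℝ, 0 < θ ∧ θ ≤ 1 ∧ ∀ᶠ M : ℝ in atTop, ∀ x : ℕ, M ^ (1 / (d : ℝ) + δ) ≤ x → ∀ f : ℕ → ℝ,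
      (∀ m ∈ Icc 1 x, |f m| ≤ M) → Bent d x f (M ^ (1 - θ) / (x : ℝ) ^ d) →
      ∀ q : ℕ, 1 ≤ q → (q : ℝ) ≤ M ^ θ → ∀ ρ : ℤ,
        |(((Icc 1 x).filter (fun m => (q : ℤ) ∣ ⌊f m⌋ - ρ)).card : ℝ) - x / q| ≤ x * M ^ (-θ) := by
  classical
  have hd0 : (2 : ℝ) ≤ d := by exact_mod_cast hd
  obtain ⟨c, C, hc0, hc1, hC, H⟩ := test d hd δ h0 h1
  -- parameters
  obtain ⟨τ, hτ⟩ : ∃ τ, τ = min (c / (128 * d)) (δ / 16) := ⟨_, rfl⟩
  have hτ0 : 0 < τ := by rw [hτ]; positivity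
  have hτd : τ ≤ c / (128 * d) := by rw [hτ]; exact min_le_left _ _
  have hτδ : τ ≤ δ / 16 := by rw [hτ]; exact min_le_right _ _
  have hτ1 : τ ≤ 1 / 16 := by linarith
  obtain ⟨ρ₀, hρ₀⟩ : ∃ ρ₀, ρ₀ = c / (8 * d) := ⟨_, rfl⟩
  have hρ0 : 0 < ρ₀ := by rw [hρ₀]; positivity
  have hρd : ρ₀ * d = c / 8 := by rw [hρ₀]; field_simp
  have hτρ : 16 * τ ≤ ρ₀ := by
    have : 16 * (c / (128 * d)) = ρ₀ := by rw [hρ₀]; field_simp; ring
    linarith
  have hρ1 : ρ₀ ≤ 1 / d := by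
    rw [hρ₀, div_le_div_iff₀ (by positivity) (by positivity)]
    nlinarith
  have hτc : 16 * τ ≤ c / 16 := by
    have : ρ₀ ≤ c / 16 := by
      rw [hρ₀]
      exact div_le_div_of_nonneg_left hc0.le (by norm_num) (by linarith)
    linarith
  refine ⟨τ / 4, by positivity, by linarith, ?_⟩
  filter_upwards [eventually_ge_atTop (1 : ℝ),
    (tendsto_rpow_atTop (show 0 < τ / 4 by positivity)).eventually_ge_atTop 30,
    (tendsto_rpow_atTop (show 0 < ρ₀ by positivity)).eventually_ge_atTop (8 * d),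
    ev_pow (4 * τ + τ / 4 + (c / 8 + τ / 4 - c * (1 - τ / 2))) (-(τ / 4)) (4 * (C * 2 ^ d)) (by nlinarith),
    ev_pow (4 * τ + τ / 4 - ρ₀) (-(τ / 4)) (4 * (4 * d + 1)) (by linarith)] with M hM1 hM30 hMρ hB hD
  intro x hx f hf hbent q hq hqM ρ
  have hM0 : 0 < M := by linarith
  have hpowle : ∀ a b : ℝ, a ≤ b → M ^ a ≤ M ^ b := fun a b hab => Real.rpow_le_rpow_of_exponent_le hM1 hab
  obtain ⟨R, hR⟩ : ∃ R, R = M ^ ρ₀ := ⟨_, rfl⟩
  rw [← hR] at hMρ
  have hR16 : (16 : ℝ) ≤ R := by linarith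
  have hR0 : 0 < R := by linarith
  have hRx : R ≤ x := by
    rw [hR]
    exact (hpowle _ _ (by linarith)).trans hx
  have hx16 : (16 : ℝ) ≤ x := by linarith
  have hx0 : (0 : ℝ) < x := by linarith
  have hq0 : (0 : ℝ) < q := by exact_mod_cast (by omega : 0 < q)
  have hq1 : (1 : ℝ) ≤ q := by exact_mod_cast hq
  -- the end pieces
  obtain ⟨w, hw⟩ : ∃ w, w = ⌈(x : ℝ) / R⌉₊ := ⟨_, rfl⟩
  have hxR : 1 ≤ (x : ℝ) / R := by rw [le_div_iff₀ hR0, one_mul]; exact hRx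
  have hw1 : 1 ≤ w := by
    rw [hw]
    exact Nat.one_le_iff_ne_zero.2 (by
      rw [Ne, Nat.ceil_eq_zero, not_le]
      linarith)
  have hwge : (x : ℝ) / R ≤ w := by rw [hw]; exact Nat.le_ceil _
  have hwle : (w : ℝ) ≤ 2 * (x / R) := by
    have := Nat.ceil_lt_add_one (show 0 ≤ (x : ℝ) / R by positivity)
    rw [← hw] at this
    linarith
  have hwx : (x : ℝ) ≤ R * w := by
    rw [div_le_iff₀ hR0] at hwge
    linarith
  have hdw : (2 * d * w : ℝ) ≤ x / 2 := by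
    have e1 : (2 * d : ℝ) * w ≤ (2 * d) * (2 * (x / R)) := mul_le_mul_of_nonneg_left hwle (by positivity)
    have e2 : (2 * d : ℝ) * (2 * (x / R)) ≤ x / 2 := by
      have e3 : (2 * d : ℝ) * (2 * (x / R)) = (4 * d * x) / R := by ring
      rw [e3, div_le_div_iff₀ hR0 (by norm_num)]
      nlinarith
    linarith
  have hwx2 : 2 * d * w + 2 ≤ x := by
    have : ((2 * d * w + 2 : ℕ) : ℝ) ≤ x := by
      push_cast
      linarith
    exact_mod_cast this
  have hends : (((Icc 1 x) \ Ico (d * w + 1) (x - d * w)).card : ℝ) ≤ (4 * d + 1) * (x / R) := by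
    have e1 : Ico (d * w + 1) (x - d * w) ⊆ Icc 1 x := by
      intro m hm
      rw [mem_Ico] at hm
      rw [mem_Icc]
      omega
    have e4 : 2 * d * w = d * w + d * w := by ring
    have e2 : ((Icc 1 x) \ Ico (d * w + 1) (x - d * w)).card = 2 * d * w + 1 := by
      rw [card_sdiff_of_subset e1, Nat.card_Icc, Nat.card_Ico]
      omega
    rw [e2]
    push_cast
    have e3 : (2 * d : ℝ) * w ≤ (2 * d) * (2 * (x / R)) := mul_le_mul_of_nonneg_left hwle (by positivity)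
    nlinarith
  -- the parameter K
  obtain ⟨K, hK⟩ : ∃ K, K = ⌈M ^ τ⌉₊ := ⟨_, rfl⟩
  have hMτ : M ^ τ = (M ^ (τ / 4)) ^ 4 := by
    rw [← Real.rpow_natCast, ← Real.rpow_mul hM0.le]
    congr 1
    push_cast
    ring
  have hMτ4 : 27000 * M ^ (τ / 4) ≤ M ^ τ := by
    rw [hMτ]
    have e1 : (M ^ (τ / 4)) ^ 4 = (M ^ (τ / 4)) ^ 3 * M ^ (τ / 4) := by ring
    rw [e1]
    apply mul_le_mul_of_nonneg_right _ (by positivity)
    calc (27000 : ℝ) = 30 ^ 3 := by norm_num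
      _ ≤ _ := pow_le_pow_left₀ (by norm_num) hM30 3
  have hK1 : M ^ τ ≤ K := by rw [hK]; exact Nat.le_ceil _
  have hK2 : (K : ℝ) ≤ 2 * M ^ τ := by
    have := Nat.ceil_lt_add_one (show 0 ≤ M ^ τ by positivity)
    rw [← hK] at this
    nlinarith
  have hK0 : (0 : ℝ) < K := lt_of_lt_of_le (by positivity) hK1
  have hK1' : 1 ≤ K := by exact_mod_cast hK0
  have h3q : 3 * q ≤ K := by
    have : (3 : ℝ) * q ≤ K := by
      calc (3 : ℝ) * q ≤ 3 * M ^ (τ / 4) := by linarith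
        _ ≤ 27000 * M ^ (τ / 4) := by gcongr; norm_num
        _ ≤ K := hMτ4.trans hK1
    exact_mod_cast this
  have hK3 : (K : ℝ) ^ 3 ≤ M ^ (4 * τ) := by
    calc (K : ℝ) ^ 3 ≤ (2 * M ^ τ) ^ 3 := pow_le_pow_left₀ hK0.le hK2 3
      _ = 8 * (M ^ τ) ^ 3 := by ring
      _ ≤ M ^ τ * (M ^ τ) ^ 3 := by
          apply mul_le_mul_of_nonneg_right _ (by positivity)
          nlinarith
      _ = M ^ (4 * τ) := by
          rw [← pow_succ', ← Real.rpow_natCast, ← Real.rpow_mul hM0.le]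
          congr 1
          push_cast
          ring
  obtain ⟨E, hE⟩ : ∃ E, E = (x : ℝ) * (C * 2 ^ d * M ^ (c / 8 + τ / 4 - c * (1 - τ / 2)) + (4 * d + 1) * M ^ (-ρ₀)) :=
    ⟨_, rfl⟩
  have hE0 : 0 ≤ E := by rw [hE]; positivity
  have hdisc := Pool.Agent.Y961.JR.discJ (r := 1) le_rfl (Icc 1 x) (fun m _ => f m) K q hK1' hq h3q E hE0 (by
    intro h hh hhK
    have hne : h 0 ≠ 0 := by
      intro h2
      apply hh
      funext j
      rw [Subsingleton.elim j 0, h2]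
      rfl
    have habs1 : (1 : ℝ) ≤ |(h 0 : ℝ)| := by
      have : (1 : ℤ) ≤ |h 0| := Int.one_le_abs hne
      have h3 : ((1 : ℤ) : ℝ) ≤ ((|h 0| : ℤ) : ℝ) := by exact_mod_cast this
      rw [Int.cast_abs, Int.cast_one] at h3
      exact h3
    have habs2 : |(h 0 : ℝ)| ≤ M ^ (4 * τ) := by
      have h3 := hhK 0
      have h4 : (((h 0).natAbs : ℕ) : ℝ) ≤ ((K ^ 3 : ℕ) : ℝ) := by exact_mod_cast h3.le
      rw [Nat.cast_natAbs, Int.cast_abs] at h4
      refine h4.trans ?_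
      push_cast
      exact hK3
    obtain ⟨a, ha⟩ : ∃ a : ℝ, a = (h 0 : ℝ) / q := ⟨_, rfl⟩
    have haabs : |a| = |(h 0 : ℝ)| / q := by rw [ha, abs_div, abs_of_pos hq0]
    have ha1 : M ^ (-(τ / 4)) ≤ |a| := by
      rw [haabs, le_div_iff₀ hq0]
      calc M ^ (-(τ / 4)) * q ≤ M ^ (-(τ / 4)) * M ^ (τ / 4) := mul_le_mul_of_nonneg_left hqM (by positivity)
        _ = 1 := by rw [← Real.rpow_add hM0]; norm_num
        _ ≤ _ := habs1
    have ha0 : 0 < |a| := lt_of_lt_of_le (by positivity) ha1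
    have ha2 : |a| ≤ M ^ (4 * τ) := by
      rw [haabs]
      exact (div_le_self (abs_nonneg _) hq1).trans habs2
    obtain ⟨F, hF⟩ : ∃ F : ℕ → ℝ, F = fun m => a * f m := ⟨_, rfl⟩
    have e0 : ∀ m, (∑ j : Fin 1, (h j : ℝ) * (f m / q)) = F m := by
      intro m
      rw [Fin.sum_univ_one, hF, ha]
      ring
    have e1 : ∑ m ∈ Icc 1 x, e (∑ j : Fin 1, (h j : ℝ) * (f m / q)) = ∑ m ∈ Icc 1 x, e (F m) :=
      sum_congr rfl fun m _ => by rw [e0 m]
    rw [e1]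
    obtain ⟨lam, hlam⟩ : ∃ lam, lam = |a| * (M ^ (1 - τ / 4) / (x : ℝ) ^ d) := ⟨_, rfl⟩
    have hlam0 : 0 < lam := by rw [hlam]; positivity
    have hu : lam * (x : ℝ) ^ d = |a| * M ^ (1 - τ / 4) := by rw [hlam]; field_simp
    have hu2 : M ^ (1 - τ / 2) ≤ lam * (x : ℝ) ^ d := by
      rw [hu]
      calc M ^ (1 - τ / 2) = M ^ (-(τ / 4)) * M ^ (1 - τ / 4) := by rw [← Real.rpow_add hM0]; congr 1; ring
        _ ≤ _ := mul_le_mul_of_nonneg_right ha1 (by positivity)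
    have hu1 : 1 ≤ lam * (x : ℝ) ^ d := (Real.one_le_rpow hM1 (by linarith)).trans hu2
    have hFb : Bent d x F lam := by
      rw [hF, hlam]
      exact bent_mul d x f _ a hbent
    obtain ⟨Y, hY⟩ : ∃ Y, Y = |a| * M := ⟨_, rfl⟩
    have hFY : ∀ m ∈ Icc 1 x, |F m| ≤ Y := by
      intro m hm
      rw [hF]
      simp only
      rw [abs_mul, hY]
      exact mul_le_mul_of_nonneg_left (hf m hm) (abs_nonneg _)
    have huY : lam * (x : ℝ) ^ d ≤ Y := by
      rw [hu, hY]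
      apply mul_le_mul_of_nonneg_left _ (abs_nonneg _)
      calc M ^ (1 - τ / 4) ≤ M ^ (1 : ℝ) := hpowle _ _ (by linarith)
        _ = M := Real.rpow_one _
    have hYu : Y / (lam * (x : ℝ) ^ d) = M ^ (τ / 4) := by
      rw [hu, hY, mul_div_mul_left _ _ ha0.ne', div_eq_iff (by positivity), ← Real.rpow_add hM0]
      rw [show τ / 4 + (1 - τ / 4) = 1 by ring, Real.rpow_one]
    have hlamx : lam ≤ (x : ℝ) ^ (-δ) := by
      rw [hlam, ← mul_div_assoc, div_le_iff₀ (by positivity)]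
      have h3 : (x : ℝ) ^ (-δ) * (x : ℝ) ^ d = (x : ℝ) ^ ((d : ℝ) - δ) := by
        rw [← Real.rpow_natCast, ← Real.rpow_add hx0]
        congr 1
        ring
      rw [h3]
      calc |a| * M ^ (1 - τ / 4) ≤ M ^ (4 * τ) * M ^ (1 : ℝ) :=
            mul_le_mul ha2 (hpowle _ _ (by linarith)) (by positivity) (by positivity)
        _ = M ^ (4 * τ + 1) := by rw [← Real.rpow_add hM0]
        _ ≤ M ^ ((1 / (d : ℝ) + δ) * (d - δ)) := by
            apply hpowle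
            have h5 : (1 / (d : ℝ) + δ) * (d - δ) = 1 + δ * (d - (1 / d + δ)) := by field_simp; ring
            have h6 : 1 / (d : ℝ) ≤ 1 / 2 := by
              apply one_div_le_one_div_of_le (by norm_num) hd0
            have h7 : δ * (1 / 2) ≤ δ * (d - (1 / d + δ)) := mul_le_mul_of_nonneg_left (by linarith) h0.le
            rw [h5]
            linarith
        _ = (M ^ (1 / (d : ℝ) + δ)) ^ ((d : ℝ) - δ) := by rw [Real.rpow_mul hM0.le]
        _ ≤ (x : ℝ) ^ ((d : ℝ) - δ) := Real.rpow_le_rpow (by positivity) hx (by linarith)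
    have hmain := mid_both d hd δ c C H x w hw1 R (by linarith) hwx hwx2 F lam Y hu1 hlamx huY hFY hFb
    rw [hYu] at hmain
    have hmid : ‖∑ m ∈ Ico (d * w + 1) (x - d * w), e (F m)‖ ≤
        x * (C * 2 ^ d * M ^ (c / 8 + τ / 4 - c * (1 - τ / 2))) := by
      refine hmain.trans ?_
      have e2 : (lam * (x : ℝ) ^ d) ^ (-c) ≤ M ^ (-(c * (1 - τ / 2))) := by
        calc (lam * (x : ℝ) ^ d) ^ (-c) ≤ (M ^ (1 - τ / 2)) ^ (-c) :=
              Real.rpow_le_rpow_of_nonpos (by positivity) hu2 (by linarith)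
          _ = _ := by rw [← Real.rpow_mul hM0.le]; congr 1; ring
      have e3 : (2 * R) ^ d = 2 ^ d * M ^ (c / 8) := by
        rw [mul_pow, hR, ← Real.rpow_natCast (M ^ ρ₀), ← Real.rpow_mul hM0.le, hρd]
      rw [e3]
      calc C * (2 ^ d * M ^ (c / 8) * M ^ (τ / 4)) * x * (lam * (x : ℝ) ^ d) ^ (-c)
          ≤ C * (2 ^ d * M ^ (c / 8) * M ^ (τ / 4)) * x * M ^ (-(c * (1 - τ / 2))) :=
            mul_le_mul_of_nonneg_left e2 (by positivity)
        _ = x * (C * 2 ^ d * (M ^ (c / 8) * M ^ (τ / 4) * M ^ (-(c * (1 - τ / 2))))) := by ring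
        _ = _ := by
            rw [← Real.rpow_add hM0, ← Real.rpow_add hM0]
            congr 3
    have hsub : Ico (d * w + 1) (x - d * w) ⊆ Icc 1 x := by
      intro m hm
      rw [mem_Ico] at hm
      rw [mem_Icc]
      omega
    rw [← sum_sdiff hsub, hE]
    refine (norm_add_le _ _).trans ?_
    have hend : ‖∑ m ∈ (Icc 1 x) \ Ico (d * w + 1) (x - d * w), e (F m)‖ ≤ (4 * d + 1) * (x / R) := by
      refine (norm_sum_le _ _).trans ?_
      simp only [norm_e]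
      rw [sum_const, nsmul_eq_mul, mul_one]
      exact hends
    have e5 : (4 * (d : ℝ) + 1) * (x / R) = x * ((4 * d + 1) * M ^ (-ρ₀)) := by
      rw [hR, Real.rpow_neg hM0.le]
      ring
    rw [e5] at hend
    rw [mul_add]
    linarith) (fun _ => ρ)
  have efil : ((Icc 1 x).filter (fun i => ∀ j : Fin 1, (q : ℤ) ∣ ⌊f i⌋ - ρ)) =
      (Icc 1 x).filter (fun m => (q : ℤ) ∣ ⌊f m⌋ - ρ) := by
    ext m
    simp only [mem_filter, forall_const]
  have hxc : ((Icc 1 x).card : ℝ) = x := by rw [Nat.card_Icc, Nat.add_sub_cancel]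
  simp only [pow_one, hxc, mul_one] at hdisc
  have hdisc2 : |(((Icc 1 x).filter (fun m => (q : ℤ) ∣ ⌊f m⌋ - ρ)).card : ℝ) - x / q| ≤
      (q : ℝ) * ((3 * 1 + 4) * x / K + (K : ℝ) ^ 3 * E) := by
    rw [← efil]
    refine le_trans (le_of_eq ?_) (hdisc.trans (le_of_eq ?_))
    · rfl
    · push_cast
      ring
  refine hdisc2.trans ?_
  have hθ0 : 0 < M ^ (-(τ / 4)) := by positivity
  have a1 : (q : ℝ) * ((3 * 1 + 4) * x / K) ≤ x * M ^ (-(τ / 4)) / 2 := by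
    have e1 : (q : ℝ) * ((3 * 1 + 4) * x / K) = x * (7 * q / K) := by ring
    rw [e1, show (x : ℝ) * M ^ (-(τ / 4)) / 2 = x * (M ^ (-(τ / 4)) / 2) by ring]
    apply mul_le_mul_of_nonneg_left _ hx0.le
    rw [div_le_iff₀ hK0]
    have e2 : M ^ (-(τ / 4)) * M ^ τ = (M ^ (τ / 4)) ^ 3 := by
      rw [← Real.rpow_natCast, ← Real.rpow_mul hM0.le, ← Real.rpow_add hM0]
      congr 1
      push_cast
      ring
    calc 7 * (q : ℝ) ≤ 7 * M ^ (τ / 4) := by linarith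
      _ ≤ (M ^ (τ / 4)) ^ 3 / 2 := by nlinarith [sq_nonneg (M ^ (τ / 4))]
      _ = M ^ (-(τ / 4)) / 2 * M ^ τ := by rw [← e2]; ring
      _ ≤ _ := mul_le_mul_of_nonneg_left hK1 (by positivity)
  have a2 : (q : ℝ) * ((K : ℝ) ^ 3 * E) ≤ x * M ^ (-(τ / 4)) / 2 := by
    have e1 : (q : ℝ) * ((K : ℝ) ^ 3 * E) ≤ M ^ (τ / 4) * (M ^ (4 * τ) * E) := by gcongr
    refine e1.trans ?_
    rw [hE]
    have e2 : M ^ (τ / 4) * (M ^ (4 * τ) * (x * (C * 2 ^ d * M ^ (c / 8 + τ / 4 - c * (1 - τ / 2)) +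
        (4 * d + 1) * M ^ (-ρ₀)))) = x * ((C * 2 ^ d) * M ^ (4 * τ + τ / 4 + (c / 8 + τ / 4 - c * (1 - τ / 2))) +
        (4 * d + 1) * M ^ (4 * τ + τ / 4 - ρ₀)) := by
      have e3 : M ^ (4 * τ + τ / 4 + (c / 8 + τ / 4 - c * (1 - τ / 2))) =
          M ^ (4 * τ) * M ^ (τ / 4) * M ^ (c / 8 + τ / 4 - c * (1 - τ / 2)) := by
        rw [← Real.rpow_add hM0, ← Real.rpow_add hM0]
      have e4 : M ^ (4 * τ + τ / 4 - ρ₀) = M ^ (4 * τ) * M ^ (τ / 4) * M ^ (-ρ₀) := by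
        rw [← Real.rpow_add hM0, ← Real.rpow_add hM0]
        congr 1
      rw [e3, e4]
      ring
    rw [e2, show (x : ℝ) * M ^ (-(τ / 4)) / 2 = x * (M ^ (-(τ / 4)) / 2) by ring]
    apply mul_le_mul_of_nonneg_left _ hx0.le
    linarith
  rw [mul_add]
  linarith

end Pool.Agent.U828.KD.FCB
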