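import Pool.Agent.U828.KD.FCB

/-! The Fermat-Catalan equation with two bases near the values of two arbitrary functions: the theorem (helper828). -/

set_option autoImplicit false

namespace Pool.Agent.U828.KD.FCC

open Finset Filter
open Pool.Agent.N666.VE (Near BadPair near_floor cn_small CN)
open Pool.Agent.W147.PS (ev_pow)
open Pool.Agent.H374R2.Beal (Exceptional)
open Pool.Agent.H374R2.T (Good2)
open Pool.Agent.U828.KD (Bent bent_mono')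
open Pool.Agent.U828.KD.FCB (bent_equi)

/-- the number of the indices with a near pair in given classes -/
lemma card_near {ι : Type*} (s : Finset ι) (v : ι → Fin 2 → ℝ) (U M : ℕ) (S : Finset (ℕ × ℕ)) (B : ℝ)
    (hB : ∀ ρ₁ ρ₂ : ℤ, ((s.filter (fun i => (M : ℤ) ∣ ⌊v i 0⌋ - ρ₁ ∧ (M : ℤ) ∣ ⌊v i 1⌋ - ρ₂)).card : ℝ) ≤ B)
    (P : ι → Prop) [DecidablePred P]
    (hP : ∀ i ∈ s, P i → ∃ a b : ℕ, Near U (v i) a b ∧ (a % M, b % M) ∈ S) :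
    ((s.filter P).card : ℝ) ≤ (2 * U + 3) ^ 2 * S.card * B := by
  classical
  obtain ⟨I, hI⟩ : ∃ I : Finset ℤ, I = Finset.Icc (-((U : ℤ) + 1)) ((U : ℤ) + 1) := ⟨_, rfl⟩
  have hIc : I.card = 2 * U + 3 := by
    rw [hI, Int.card_Icc]; omega
  have hsub : s.filter P ⊆ ((I ×ˢ I) ×ˢ S).biUnion
      (fun t => s.filter (fun i => (M : ℤ) ∣ ⌊v i 0⌋ - ((t.2.1 : ℤ) - t.1.1) ∧ (M : ℤ) ∣ ⌊v i 1⌋ - ((t.2.2 : ℤ) - t.1.2))) := by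
    intro n hn
    rw [Finset.mem_filter] at hn
    obtain ⟨a, b, ⟨h1, h2⟩, h3⟩ := hP n hn.1 hn.2
    obtain ⟨u, hu, hu'⟩ := near_floor h1
    obtain ⟨w, hw, hw'⟩ := near_floor h2
    rw [Finset.mem_biUnion]
    refine ⟨((u, w), (a % M, b % M)), ?_, ?_⟩
    · rw [Finset.mem_product, Finset.mem_product, hI]
      exact ⟨⟨hu, hw⟩, h3⟩
    · rw [Finset.mem_filter]
      refine ⟨hn.1, ?_⟩
      have key : ∀ (a : ℕ) (w t : ℤ), (a : ℤ) = w + t → (M : ℤ) ∣ w - (((a % M : ℕ) : ℤ) - t) := by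
        intro a w t h
        have h4 : w - (((a % M : ℕ) : ℤ) - t) = (a : ℤ) - (a : ℤ) % (M : ℤ) := by
          push_cast
          rw [h]; ring
        rw [h4]
        exact Int.dvd_self_sub_emod
      exact ⟨key a _ u hu', key b _ w hw'⟩
  have h1 : (s.filter P).card ≤ ∑ t ∈ (I ×ˢ I) ×ˢ S,
      (s.filter (fun i => (M : ℤ) ∣ ⌊v i 0⌋ - ((t.2.1 : ℤ) - t.1.1) ∧ (M : ℤ) ∣ ⌊v i 1⌋ - ((t.2.2 : ℤ) - t.1.2))).card :=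
    (Finset.card_le_card hsub).trans Finset.card_biUnion_le
  have h2 : ((s.filter P).card : ℝ) ≤ ∑ t ∈ (I ×ˢ I) ×ˢ S,
      ((s.filter (fun i => (M : ℤ) ∣ ⌊v i 0⌋ - ((t.2.1 : ℤ) - t.1.1) ∧
        (M : ℤ) ∣ ⌊v i 1⌋ - ((t.2.2 : ℤ) - t.1.2))).card : ℝ) := by exact_mod_cast h1
  refine h2.trans ((Finset.sum_le_sum fun t _ => hB _ _).trans ?_)
  rw [Finset.sum_const, Finset.card_product, Finset.card_product, hIc, nsmul_eq_mul]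
  push_cast
  apply le_of_eq
  ring

/-- classes in a product set -/
lemma prod_cls (x₁ x₂ M : ℕ) (f₁ f₂ : ℕ → ℝ) (b₁ b₂ : ℝ)
    (h₁ : ∀ ρ : ℤ, (((Icc 1 x₁).filter (fun m => (M : ℤ) ∣ ⌊f₁ m⌋ - ρ)).card : ℝ) ≤ b₁)
    (h₂ : ∀ ρ : ℤ, (((Icc 1 x₂).filter (fun m => (M : ℤ) ∣ ⌊f₂ m⌋ - ρ)).card : ℝ) ≤ b₂) (ρ₁ ρ₂ : ℤ) :
    (((Icc 1 x₁ ×ˢ Icc 1 x₂).filter (fun i => (M : ℤ) ∣ ⌊(![f₁ i.1, f₂ i.2] : Fin 2 → ℝ) 0⌋ - ρ₁ ∧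
      (M : ℤ) ∣ ⌊(![f₁ i.1, f₂ i.2] : Fin 2 → ℝ) 1⌋ - ρ₂)).card : ℝ) ≤ b₁ * b₂ := by
  have e : (Icc 1 x₁ ×ˢ Icc 1 x₂).filter (fun i => (M : ℤ) ∣ ⌊(![f₁ i.1, f₂ i.2] : Fin 2 → ℝ) 0⌋ - ρ₁ ∧
      (M : ℤ) ∣ ⌊(![f₁ i.1, f₂ i.2] : Fin 2 → ℝ) 1⌋ - ρ₂) =
      (Icc 1 x₁).filter (fun m => (M : ℤ) ∣ ⌊f₁ m⌋ - ρ₁) ×ˢ (Icc 1 x₂).filter (fun m => (M : ℤ) ∣ ⌊f₂ m⌋ - ρ₂) := by
    ext ⟨m, n⟩
    rw [mem_filter, mem_product, mem_product, mem_filter, mem_filter]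
    simp only [Matrix.cons_val_zero, Matrix.cons_val_one]
    tauto
  rw [e, card_product]
  push_cast
  exact mul_le_mul (h₁ _) (h₂ _) (Nat.cast_nonneg _) ((Nat.cast_nonneg _).trans (h₁ ρ₁))

theorem prod (d₁ d₂ : ℕ) (hd₁ : 2 ≤ d₁) (hd₂ : 2 ≤ d₂) (δ : ℝ) (h0 : 0 < δ) (h1 : δ ≤ 1) (K U : ℕ) :
    ∃ κ : ℝ, 0 < κ ∧ ∀ ε : ℝ, 0 < ε → ∃ N₀ : ℕ, ∀ N : ℕ, N₀ ≤ N → ∀ M₁ M₂ : ℝ, (N : ℝ) ≤ M₁ → M₁ ≤ (N : ℝ) ^ K →
      (N : ℝ) ≤ M₂ → M₂ ≤ (N : ℝ) ^ K → ∀ x₁ x₂ : ℕ, M₁ ^ (1 / (d₁ : ℝ) + δ) ≤ x₁ → M₂ ^ (1 / (d₂ : ℝ) + δ) ≤ x₂ →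
      ∀ f₁ f₂ : ℕ → ℝ, (∀ m ∈ Icc 1 x₁, |f₁ m| ≤ M₁) → (∀ m ∈ Icc 1 x₂, |f₂ m| ≤ M₂) →
      Bent d₁ x₁ f₁ (M₁ ^ (1 - κ) / (x₁ : ℝ) ^ d₁) → Bent d₂ x₂ f₂ (M₂ ^ (1 - κ) / (x₂ : ℝ) ^ d₂) →
      ∀ (P : ℕ × ℕ → Prop) [DecidablePred P],
      (∀ i ∈ Icc 1 x₁ ×ˢ Icc 1 x₂, P i → ∃ x y : ℕ, Near U ![f₁ i.1, f₂ i.2] x y ∧
        BadPair (Real.exp ((N : ℝ) ^ κ)) x y) →
      (((Icc 1 x₁ ×ˢ Icc 1 x₂).filter P).card : ℝ) ≤ ε * (x₁ * x₂) := by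
  classical
  obtain ⟨θ₁, hθ₁, hθ₁1, H₁⟩ := bent_equi d₁ hd₁ δ h0 h1
  obtain ⟨θ₂, hθ₂, hθ₂1, H₂⟩ := bent_equi d₂ hd₂ δ h0 h1
  obtain ⟨M₀, hM₀⟩ := eventually_atTop.1 H₁
  obtain ⟨M₀', hM₀'⟩ := eventually_atTop.1 H₂
  obtain ⟨θ, hθ⟩ : ∃ θ, θ = min θ₁ θ₂ := ⟨_, rfl⟩
  have hθ0 : 0 < θ := by rw [hθ]; exact lt_min hθ₁ hθ₂
  have hθ1 : θ ≤ θ₁ := by rw [hθ]; exact min_le_left _ _
  have hθ2 : θ ≤ θ₂ := by rw [hθ]; exact min_le_right _ _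
  obtain ⟨R, c, N₂, hc, hL⟩ := Pool.Agent.N741.LD.main (θ / (4 * (K + 1))) (by positivity)
  obtain ⟨κ, hκ⟩ : ∃ κ, κ = min c θ := ⟨_, rfl⟩
  have hκ0 : 0 < κ := by rw [hκ]; exact lt_min hc hθ0
  have hκc : κ ≤ c := by rw [hκ]; exact min_le_left _ _
  have hκθ : κ ≤ θ := by rw [hκ]; exact min_le_right _ _
  refine ⟨κ, hκ0, fun ε hε => ?_⟩
  obtain ⟨M, hM, S, hS1, hS2, hS3⟩ := cn_small R (ε / (8 * (2 * U + 3) ^ 2)) (by positivity)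
  have hMp : (0 : ℝ) < M := by exact_mod_cast hM
  have hev : ∀ᶠ Z : ℝ in atTop, 2 ≤ Z ∧ 1 ≤ Z ^ θ ∧ (M : ℝ) ≤ Z ^ θ ∧ M₀ ≤ Z ∧ M₀' ≤ Z ∧ (U : ℝ) ≤ Z ∧
      (2 / ε * ((2 * U + 3) ^ 2 * 9)) * Z ^ (θ / 4 - 2 * θ) ≤ Z ^ (0 : ℝ) := by
    filter_upwards [eventually_ge_atTop (2 : ℝ), (tendsto_rpow_atTop hθ0).eventually_ge_atTop 1,
      (tendsto_rpow_atTop hθ0).eventually_ge_atTop (M : ℝ), eventually_ge_atTop M₀, eventually_ge_atTop M₀',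
      eventually_ge_atTop (U : ℝ), ev_pow (θ / 4 - 2 * θ) 0 (2 / ε * ((2 * U + 3) ^ 2 * 9)) (by linarith)]
      with Z a1 a2 a3 a4 a5 a6 a7
    exact ⟨a1, a2, a3, a4, a5, a6, a7⟩
  obtain ⟨Z₀, hZ₀⟩ := eventually_atTop.mp hev
  refine ⟨⌈Z₀⌉₊ + N₂, fun N hN M₁ M₂ hNM₁ hM₁K hNM₂ hM₂K x₁ x₂ hx₁ hx₂ f₁ f₂ hf₁ hf₂ hb₁ hb₂ P _ hP => ?_⟩
  have hNZ : Z₀ ≤ N := (Nat.le_ceil Z₀).trans (by exact_mod_cast (by omega : ⌈Z₀⌉₊ ≤ N))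
  obtain ⟨hN2, hNθ, hMθ, hNM, hNM', hNU, hsmall⟩ := hZ₀ N hNZ
  rw [Real.rpow_zero] at hsmall
  have hN1 : (1 : ℝ) ≤ N := by linarith
  have hN0 : (0 : ℝ) < N := by linarith
  have hM₁0 : 0 < M₁ := by linarith
  have hM₂0 : 0 < M₂ := by linarith
  have hb₁' : Bent d₁ x₁ f₁ (M₁ ^ (1 - θ₁) / (x₁ : ℝ) ^ d₁) := by
    apply bent_mono' _ hb₁
    apply div_le_div_of_nonneg_right _ (by positivity)
    exact Real.rpow_le_rpow_of_exponent_le (by linarith) (by linarith)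
  have hb₂' : Bent d₂ x₂ f₂ (M₂ ^ (1 - θ₂) / (x₂ : ℝ) ^ d₂) := by
    apply bent_mono' _ hb₂
    apply div_le_div_of_nonneg_right _ (by positivity)
    exact Real.rpow_le_rpow_of_exponent_le (by linarith) (by linarith)
  have hx₁0 : (0 : ℝ) ≤ x₁ := Nat.cast_nonneg _
  have hx₂0 : (0 : ℝ) ≤ x₂ := Nat.cast_nonneg _
  -- classes
  have hcls : ∀ q : ℕ, 1 ≤ q → (q : ℝ) ≤ (N : ℝ) ^ θ → ∀ ρ₁ ρ₂ : ℤ,
      (((Icc 1 x₁ ×ˢ Icc 1 x₂).filter (fun i => (q : ℤ) ∣ ⌊(![f₁ i.1, f₂ i.2] : Fin 2 → ℝ) 0⌋ - ρ₁ ∧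
      (q : ℤ) ∣ ⌊(![f₁ i.1, f₂ i.2] : Fin 2 → ℝ) 1⌋ - ρ₂)).card : ℝ) ≤
      (x₁ * (1 / q + (N : ℝ) ^ (-θ))) * (x₂ * (1 / q + (N : ℝ) ^ (-θ))) := by
    intro q hq hqN
    have hup : ∀ (Mi θi : ℝ), (N : ℝ) ≤ Mi → θ ≤ θi → (N : ℝ) ^ θ ≤ Mi ^ θi ∧ Mi ^ (-θi) ≤ (N : ℝ) ^ (-θ) := by
      intro Mi θi h2 h3
      have h4 : (N : ℝ) ^ θ ≤ Mi ^ θi := by
        calc (N : ℝ) ^ θ ≤ Mi ^ θ := Real.rpow_le_rpow hN0.le h2 hθ0.le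
          _ ≤ Mi ^ θi := Real.rpow_le_rpow_of_exponent_le (by linarith) h3
      refine ⟨h4, ?_⟩
      rw [Real.rpow_neg (by linarith), Real.rpow_neg hN0.le]
      exact inv_anti₀ (by positivity) h4
    apply prod_cls
    · intro ρ
      obtain ⟨a1, a2⟩ := hup M₁ θ₁ hNM₁ hθ1
      have h3 := hM₀ M₁ (by linarith) x₁ hx₁ f₁ hf₁ hb₁' q hq (hqN.trans a1) ρ
      have h4 := (abs_le.1 h3).2
      have h5 := mul_le_mul_of_nonneg_left a2 hx₁0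
      rw [mul_add, mul_one_div]
      linarith
    · intro ρ
      obtain ⟨a1, a2⟩ := hup M₂ θ₂ hNM₂ hθ2
      have h3 := hM₀' M₂ (by linarith) x₂ hx₂ f₂ hf₂ hb₂' q hq (hqN.trans a1) ρ
      have h4 := (abs_le.1 h3).2
      have h5 := mul_le_mul_of_nonneg_left a2 hx₂0
      rw [mul_add, mul_one_div]
      linarith
  -- the sieve for small third exponents
  obtain ⟨P₀, hP₀⟩ : ∃ P₀ : ℕ × ℕ → Prop, P₀ = fun i => ∃ x y : ℕ, Near U ![f₁ i.1, f₂ i.2] x y ∧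
    (x, y) ∈ ({p | ∃ n, 3 ≤ n ∧ n < R ∧ p ∈ Exceptional n} ∪
    ({p | ¬ Good2 p.1 p.2} ∪ Prod.swap ⁻¹' {p | ¬ Good2 p.1 p.2}) : Set (ℕ × ℕ)) := ⟨_, rfl⟩
  have hsieve : (((Icc 1 x₁ ×ˢ Icc 1 x₂).filter P₀).card : ℝ) ≤ ε / 2 * (x₁ * x₂) := by
    have h2 := card_near (Icc 1 x₁ ×ˢ Icc 1 x₂) (fun i => ![f₁ i.1, f₂ i.2]) U M S _ (hcls M hM hMθ) P₀ (by
      intro i _ hi
      rw [hP₀] at hi
      obtain ⟨a, b, h3, h4⟩ := hi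
      exact ⟨a, b, h3, hS3 _ h4⟩)
    refine h2.trans ?_
    have h3 : 1 / (M : ℝ) + (N : ℝ) ^ (-θ) ≤ 2 / M := by
      have h4 : (N : ℝ) ^ (-θ) ≤ 1 / M := by
        rw [Real.rpow_neg hN0.le, ← one_div]
        exact one_div_le_one_div_of_le hMp hMθ
      have h5 : 2 / (M : ℝ) = 1 / M + 1 / M := by ring
      linarith
    calc (2 * (U : ℝ) + 3) ^ 2 * S.card * ((x₁ * (1 / M + (N : ℝ) ^ (-θ))) * (x₂ * (1 / M + (N : ℝ) ^ (-θ))))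
        ≤ (2 * (U : ℝ) + 3) ^ 2 * (ε / (8 * (2 * U + 3) ^ 2) * (M : ℝ) ^ 2) * ((x₁ * (2 / M)) * (x₂ * (2 / M))) := by
          gcongr
      _ = ε / 2 * (x₁ * x₂) := by
          have hU3 : (2 * (U : ℝ) + 3) ≠ 0 := by positivity
          field_simp
          ring
  -- the pairs from the theorem on lopsided pairs
  obtain ⟨N', hN'⟩ : ∃ N' : ℕ, N' = N ^ (K + 1) := ⟨_, rfl⟩
  have hN1' : 1 ≤ N := by exact_mod_cast hN1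
  have hN'N : N ≤ N' := by
    rw [hN']
    exact Nat.le_self_pow (by omega) N
  obtain ⟨hfin, hnc⟩ := hL N' (by omega)
  obtain ⟨Q, hQ⟩ : ∃ Q : Set (ℕ × ℕ × ℕ × ℕ × ℕ), Q = Pool.Agent.N741.LD.Sols N' R (Real.exp ((N' : ℝ) ^ c)) := ⟨_, rfl⟩
  rw [← hQ] at hfin hnc
  obtain ⟨T, hT⟩ : ∃ T : Finset (ℕ × ℕ), T = hfin.toFinset.image (fun v => (v.1, v.2.1)) := ⟨_, rfl⟩
  have hTc : (T.card : ℝ) ≤ (N : ℝ) ^ (θ / 4) := by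
    have h1 : T.card ≤ Q.ncard := by
      rw [Set.ncard_eq_toFinset_card Q hfin, hT]
      exact Finset.card_image_le
    have h2 : (T.card : ℝ) ≤ (N' : ℝ) ^ (θ / (4 * (K + 1))) := by
      refine le_trans ?_ hnc
      exact_mod_cast h1
    refine h2.trans (le_of_eq ?_)
    rw [hN']
    push_cast
    rw [← Real.rpow_natCast, ← Real.rpow_mul hN0.le]
    congr 1
    push_cast
    field_simp
  obtain ⟨P₁, hP₁⟩ : ∃ P₁ : ℕ × ℕ → Prop, P₁ = fun i => ∃ x y : ℕ, Near U ![f₁ i.1, f₂ i.2] x y ∧ (x, y) ∈ T := ⟨_, rfl⟩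
  have hone : (((Icc 1 x₁ ×ˢ Icc 1 x₂).filter P₁).card : ℝ) ≤ ε / 2 * (x₁ * x₂) := by
    obtain ⟨q, hq⟩ : ∃ q : ℕ, q = ⌊(N : ℝ) ^ θ⌋₊ := ⟨_, rfl⟩
    have hq1 : 1 ≤ q := by rw [hq]; exact Nat.le_floor (by exact_mod_cast hNθ)
    have hqle : (q : ℝ) ≤ (N : ℝ) ^ θ := by rw [hq]; exact Nat.floor_le (by positivity)
    have hq0 : (0 : ℝ) < q := by exact_mod_cast hq1
    have hqge : (N : ℝ) ^ θ / 2 ≤ q := by
      have h1 := Nat.lt_floor_add_one ((N : ℝ) ^ θ)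
      have h2 : (1 : ℝ) ≤ q := by exact_mod_cast hq1
      rw [← hq] at h1
      linarith
    have h2 := card_near (Icc 1 x₁ ×ˢ Icc 1 x₂) (fun i => ![f₁ i.1, f₂ i.2]) U q
      (T.image (fun p => (p.1 % q, p.2 % q))) _ (hcls q hq1 hqle) P₁ (by
      intro i _ hi
      rw [hP₁] at hi
      obtain ⟨a, b, h3, h4⟩ := hi
      exact ⟨a, b, h3, Finset.mem_image.mpr ⟨(a, b), h4, rfl⟩⟩)
    refine h2.trans ?_
    have h3 : 1 / (q : ℝ) + (N : ℝ) ^ (-θ) ≤ 3 * (N : ℝ) ^ (-θ) := by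
      have h4 : 1 / (q : ℝ) ≤ 2 * (N : ℝ) ^ (-θ) := by
        rw [Real.rpow_neg hN0.le, ← div_eq_mul_inv, div_le_div_iff₀ hq0 (by positivity)]
        linarith
      linarith
    have h5 : ((T.image (fun p => (p.1 % q, p.2 % q))).card : ℝ) ≤ (N : ℝ) ^ (θ / 4) := by
      refine le_trans ?_ hTc
      exact_mod_cast Finset.card_image_le
    calc (2 * (U : ℝ) + 3) ^ 2 * ((T.image (fun p => (p.1 % q, p.2 % q))).card) *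
          ((x₁ * (1 / q + (N : ℝ) ^ (-θ))) * (x₂ * (1 / q + (N : ℝ) ^ (-θ))))
        ≤ (2 * (U : ℝ) + 3) ^ 2 * (N : ℝ) ^ (θ / 4) * ((x₁ * (3 * (N : ℝ) ^ (-θ))) * (x₂ * (3 * (N : ℝ) ^ (-θ)))) := by
          gcongr
      _ = ((2 * (U : ℝ) + 3) ^ 2 * 9) * ((N : ℝ) ^ (θ / 4) * ((N : ℝ) ^ (-θ) * (N : ℝ) ^ (-θ))) * (x₁ * x₂) := by ring
      _ = ε / 2 * ((2 / ε * ((2 * U + 3) ^ 2 * 9)) * (N : ℝ) ^ (θ / 4 - 2 * θ)) * (x₁ * x₂) := by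
          rw [← Real.rpow_add hN0, ← Real.rpow_add hN0, show θ / 4 + (-θ + -θ) = θ / 4 - 2 * θ by ring]
          field_simp
      _ ≤ ε / 2 * 1 * (x₁ * x₂) := by gcongr
      _ = _ := by ring
  have hcover : (Icc 1 x₁ ×ˢ Icc 1 x₂).filter P ⊆ (Icc 1 x₁ ×ˢ Icc 1 x₂).filter P₀ ∪
      (Icc 1 x₁ ×ˢ Icc 1 x₂).filter P₁ := by
    intro i hi
    rw [Finset.mem_filter] at hi
    obtain ⟨his, hPi⟩ := hi
    obtain ⟨x, y, hnear, z, p, q, r, hx, hy, hco, hz, hzW, hp, hq, hr, hpar, heq⟩ := hP i his hPi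
    have his' := his
    rw [mem_product] at his'
    rw [Finset.mem_union, Finset.mem_filter, Finset.mem_filter]
    rcases Nat.lt_or_ge r R with hrR | hrR
    · left
      refine ⟨his, ?_⟩
      rw [hP₀]
      refine ⟨x, y, hnear, ?_⟩
      rcases Nat.lt_or_ge r 3 with hr3 | hr3
      · have hr2 : r = 2 := by omega
        right
        by_contra hcon
        rw [Set.mem_union, not_or] at hcon
        obtain ⟨h1, h2⟩ := hcon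
        simp only [Set.mem_ofPred_eq, not_not, Set.mem_preimage, Prod.swap_prod_mk] at h1 h2
        rw [hr2] at heq
        have e1 : 2 ∣ q := Pool.Agent.H374R2.T.Good2.even (m := 1) (w := z) (x := p) h1 (by omega)
          (by rw [mul_one]; exact heq)
        have e2 : 2 ∣ p := Pool.Agent.H374R2.T.Good2.even (m := 1) (w := z) (x := q) h2 (by omega)
          (by
            rw [mul_one]
            rcases heq with h | h | h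
            · left; rw [add_comm]; exact h
            · right; right; exact h
            · right; left; exact h)
        rcases hpar with h | h | h
        · omega
        · exact h e2
        · exact h e1
      · left
        exact ⟨r, hr3, hrR, hx, hy, hco, p, q, z, by omega, by omega, by omega, heq⟩
    · right
      refine ⟨his, ?_⟩
      rw [hP₁]
      refine ⟨x, y, hnear, ?_⟩
      rw [hT, Finset.mem_image]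
      refine ⟨(x, y, x ^ p, y ^ q, z ^ r), ?_, rfl⟩
      rw [Set.Finite.mem_toFinset, hQ]
      have hb : ∀ (Mi a b : ℝ), Mi ≤ (N : ℝ) ^ K → |b| ≤ Mi → |a - b| ≤ U → a ≤ (N : ℝ) ^ (K + 1) := by
        intro Mi a b h1 h2 h3
        have h4 := (abs_le.1 h3).2
        have h5 := (abs_le.1 h2).2
        have h6 : (1 : ℝ) ≤ (N : ℝ) ^ K := one_le_pow₀ hN1
        calc a ≤ (N : ℝ) ^ K + N := by linarith
          _ ≤ (N : ℝ) ^ K * N := by nlinarith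
          _ = _ := by rw [pow_succ]
      have hxN : x ≤ N' := by
        have h3 := hb M₁ x (f₁ i.1) hM₁K (hf₁ _ his'.1) hnear.1
        rw [hN']
        exact_mod_cast h3
      have hyN : y ≤ N' := by
        have h3 := hb M₂ y (f₂ i.2) hM₂K (hf₂ _ his'.2) hnear.2
        rw [hN']
        exact_mod_cast h3
      refine ⟨x, y, z, p, q, r, hx, hxN, hy, hyN, hco, hz, ?_, hp, hq, hrR, heq, rfl⟩
      refine hzW.trans ?_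
      rw [Real.exp_le_exp]
      calc (N : ℝ) ^ κ ≤ (N : ℝ) ^ c := Real.rpow_le_rpow_of_exponent_le hN1 hκc
        _ ≤ (N' : ℝ) ^ c := by gcongr
  have h2 : (((Icc 1 x₁ ×ˢ Icc 1 x₂).filter P).card : ℝ) ≤ ((Icc 1 x₁ ×ˢ Icc 1 x₂).filter P₀).card +
      ((Icc 1 x₁ ×ˢ Icc 1 x₂).filter P₁).card := by
    exact_mod_cast (Finset.card_le_card hcover).trans (Finset.card_union_le _ _)
  linarith

end Pool.Agent.U828.KD.FCC
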