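import Pool.Agent.U828.KD.Ord
import Pool.Agent.Y961.JR.ScaledJ

/-! Record prime gaps around the multiples of several functions of different orders (helper828). -/

set_option autoImplicit false

namespace Pool.Agent.U828.KD

open Finset Filter
open Pool.Agent.H469R2.NK (e norm_e e_add conj_e)

/-- exponential sums over joint real multiples of functions of different orders -/
theorem joint_exp {r : ℕ} (hr : 1 ≤ r) (d : ℕ) (hd : 2 ≤ d) (c : Fin r → ℝ) (hc : Function.Injective c)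
    (hc0 : ∀ j, 0 < c j) (hcd : ∀ j, c j < d) (f : ℕ → Fin r → ℝ) (hf : ∀ j, Order d (c j) (fun n => f n j)) :
    ∃ τ : ℝ, 0 < τ ∧ τ ≤ 1 ∧ ∃ N₀ : ℕ, ∀ N : ℕ, N₀ ≤ N → ∀ γ : Fin r → ℝ, γ ≠ 0 →
      (∀ j, γ j = 0 ∨ (N : ℝ) ^ (-τ) ≤ |γ j|) → (∀ j, |γ j| ≤ (N : ℝ) ^ τ) → ∀ L : ℕ → ℝ, (∀ n, dk d L n = 0) →
      ‖∑ n ∈ Ioc N (2 * N), e (∑ j, γ j * f n j - L n)‖ ≤ (N : ℝ) ^ (1 - τ) := by
  classical
  have : Nonempty (Fin r) := ⟨⟨0, hr⟩⟩
  obtain ⟨g, hg0, hg1, hg⟩ := exists_gap c hc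
  obtain ⟨ja, -, hja⟩ := exists_min_image univ c (univ_nonempty : (univ : Finset (Fin r)).Nonempty)
  obtain ⟨jb, -, hjb⟩ := exists_max_image univ c (univ_nonempty : (univ : Finset (Fin r)).Nonempty)
  obtain ⟨a, ha⟩ : ∃ a, a = min 1 (c ja) := ⟨_, rfl⟩
  obtain ⟨b, hb⟩ : ∃ b, b = min 1 (d - c jb) := ⟨_, rfl⟩
  have ha0 : 0 < a := by rw [ha]; exact lt_min one_pos (hc0 ja)
  have hb0 : 0 < b := by rw [hb]; exact lt_min one_pos (by linarith [hcd jb])
  have ha1 : a ≤ 1 := by rw [ha]; exact min_le_left _ _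
  have hb1 : b ≤ 1 := by rw [hb]; exact min_le_left _ _
  have hac : ∀ j, a ≤ c j := fun j => by
    rw [ha]; exact (min_le_right _ _).trans (hja j (mem_univ _))
  have hbc : ∀ j, c j ≤ d - b := fun j => by
    have h1 := hjb j (mem_univ _)
    have h2 : b ≤ d - c jb := by rw [hb]; exact min_le_right _ _
    linarith
  obtain ⟨c₀, C₀, hc₀, hc₀1, hC₀, H⟩ := test d hd b hb0 hb1
  obtain ⟨u, hu⟩ : ∃ u, u = min (min g a) b := ⟨_, rfl⟩
  have hu0 : 0 < u := by rw [hu]; exact lt_min (lt_min hg0 ha0) hb0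
  have hug : u ≤ g := by rw [hu]; exact (min_le_left _ _).trans (min_le_left _ _)
  have hua : u ≤ a := by rw [hu]; exact (min_le_left _ _).trans (min_le_right _ _)
  have hub : u ≤ b := by rw [hu]; exact min_le_right _ _
  obtain ⟨τ, hτ⟩ : ∃ τ, τ = c₀ * u / 32 := ⟨_, rfl⟩
  have hτ0 : 0 < τ := by rw [hτ]; positivity
  have hτu : τ ≤ u / 64 := by rw [hτ]; nlinarith
  have hτc : 8 * τ ≤ c₀ * a / 4 := by
    rw [hτ]
    have : c₀ * u ≤ c₀ * a := mul_le_mul_of_nonneg_left hua hc₀.le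
    linarith
  have hτ1 : τ ≤ 1 := by linarith
  have hbl := fun j => order_block d (c j) τ (fun n => f n j) (hf j) (hc0 j) (hcd j) hτ0 hτ1 (by
    have := hbc j
    linarith)
  choose σ hσ n₀ hn₀ using hbl
  obtain ⟨D, hD⟩ : ∃ D : ℝ, D = C₀ * (r * 3 ^ (d + 2)) := ⟨_, rfl⟩
  have hr1 : (1 : ℝ) ≤ r := by exact_mod_cast hr
  have h31 : (1 : ℝ) ≤ 3 ^ (d + 2) := one_le_pow₀ (by norm_num)
  have hD1 : (r : ℝ) * 3 ^ (d + 2) ≤ D := by
    rw [hD]
    exact le_mul_of_one_le_left (by positivity) hC₀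
  have hD2 : (3 : ℝ) ^ (d + 2) ≤ D := (le_mul_of_one_le_left (by positivity) hr1).trans hD1
  have hDpos : 1 ≤ D := h31.trans hD2
  have hev : ∀ᶠ Z : ℝ in atTop, 1 ≤ Z ∧ D ≤ Z ^ τ := by
    filter_upwards [eventually_ge_atTop (1 : ℝ), (tendsto_rpow_atTop hτ0).eventually_ge_atTop D] with Z h1 h2
    exact ⟨h1, h2⟩
  obtain ⟨Z₀, hZ₀⟩ := eventually_atTop.mp hev
  refine ⟨τ, hτ0, hτ1, ⌈Z₀⌉₊ + univ.sup n₀ + 1, ?_⟩
  intro N hN h hh hlo hhN L hL
  have hNZ : Z₀ ≤ N := (Nat.le_ceil Z₀).trans (by exact_mod_cast (by omega : ⌈Z₀⌉₊ ≤ N))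
  obtain ⟨hN1, hND⟩ := hZ₀ N hNZ
  have hN1' : 1 ≤ N := by omega
  have hN0 : (0 : ℝ) < N := by linarith
  have hNn : ∀ j, n₀ j ≤ N := fun j => (le_sup (mem_univ j)).trans (by omega)
  have hpow : ∀ x y : ℝ, x ≤ y → (N : ℝ) ^ x ≤ (N : ℝ) ^ y := fun x y hxy => Real.rpow_le_rpow_of_exponent_le hN1 hxy
  -- the leading function
  obtain ⟨j', hj'⟩ : ∃ j', h j' ≠ 0 := by
    by_contra hcon
    push Not at hcon
    exact hh (funext hcon)
  obtain ⟨k, hk, hkm⟩ := exists_max_image (univ.filter (fun j => h j ≠ 0)) c ⟨j', by simp [hj']⟩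
  have hk0 : h k ≠ 0 := (mem_filter.1 hk).2
  have hkge : (N : ℝ) ^ (-τ) ≤ |h k| := (hlo k).resolve_left hk0
  obtain ⟨F, hF⟩ : ∃ F : ℕ → ℝ, F = fun n => ∑ j, h j * f n j - L n := ⟨_, rfl⟩
  have hsum : ∑ n ∈ Ioc N (2 * N), e (∑ j, h j * f n j - L n) = ∑ n ∈ Ioc N (2 * N), e (F n) := by
    rw [hF]
  have hdkF : ∀ n, dk d F n = ∑ j, h j * dk d (fun n => f n j) n := by
    intro n
    rw [hF, dk_sub d (fun n => ∑ j, h j * f n j) L n, hL n, sub_zero]
    exact dk_sum univ d h (fun j n => f n j) n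
  -- the individual terms
  have hterm : ∀ j n, N ≤ n → n ≤ 3 * N → |dk d (fun n => f n j) n| ≤ (N : ℝ) ^ (c j - d + τ) := by
    intro j n hn1 hn2
    have h1 := hn₀ j N (hNn j) n hn1 hn2
    have h2 : 0 ≤ σ j * dk d (fun n => f n j) n := by
      refine le_trans ?_ h1.1
      positivity
    have h3 : |dk d (fun n => f n j) n| = |σ j * dk d (fun n => f n j) n| := by
      rcases hσ j with h4 | h4
      · rw [h4, one_mul]
      · rw [h4, neg_one_mul, abs_neg]
    rw [h3, abs_of_nonneg h2]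
    exact h1.2
  obtain ⟨lam, hlam⟩ : ∃ lam, lam = (N : ℝ) ^ (c k - d - 2 * τ) / 3 ^ (d + 2) := ⟨_, rfl⟩
  have hlam0 : 0 < lam := by rw [hlam]; positivity
  obtain ⟨T, hT⟩ : ∃ T, T = (r * 3 ^ (d + 2)) * (N : ℝ) ^ (4 * τ) := ⟨_, rfl⟩
  have hT1 : 1 ≤ T := by
    rw [hT]
    exact one_le_mul_of_one_le_of_one_le (one_le_mul_of_one_le_of_one_le hr1 h31) (Real.one_le_rpow hN1 (by positivity))
  obtain ⟨s, hs⟩ : ∃ s : ℝ, s = if 0 < h k then σ k else -σ k := ⟨_, rfl⟩
  have hs1 : s = 1 ∨ s = -1 := by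
    rw [hs]
    rcases hσ k with h4 | h4 <;> rw [h4] <;> split_ifs <;> norm_num
  have hsk : s * h k = |h k| * σ k := by
    rw [hs]
    split_ifs with h4
    · rw [abs_of_pos h4]
      ring
    · have h5 : h k < 0 := lt_of_le_of_ne (not_lt.1 h4) hk0
      rw [abs_of_neg h5]
      ring
  have hbound : ∀ n, N ≤ n → n ≤ 3 * N → lam ≤ s * dk d F n ∧ s * dk d F n ≤ T * lam := by
    intro n hn1 hn2
    obtain ⟨G, hG⟩ : ∃ G : Fin r → ℝ, G = fun j => dk d (fun n => f n j) n := ⟨_, rfl⟩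
    have hGj : ∀ j, |G j| ≤ (N : ℝ) ^ (c j - d + τ) := fun j => by rw [hG]; exact hterm j n hn1 hn2
    have hdF : dk d F n = ∑ j, h j * G j := by rw [hdkF, hG]
    rw [hdF, ← add_sum_erase univ _ (mem_univ k), mul_add]
    have hlead : s * (h k * G k) = |h k| * (σ k * G k) := by
      have : s * (h k * G k) = (s * h k) * G k := by ring
      rw [this, hsk]
      ring
    have hk1 := hn₀ k N (hNn k) n hn1 hn2
    have hGk : G k = dk d (fun n => f n k) n := by rw [hG]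
    rw [← hGk] at hk1
    have hrest : |s * ∑ j ∈ univ.erase k, h j * G j| ≤ lam * 2 := by
      rw [abs_mul]
      have hsa : |s| = 1 := by rcases hs1 with h4 | h4 <;> rw [h4] <;> norm_num
      rw [hsa, one_mul]
      refine (abs_sum_le_sum_abs _ _).trans ?_
      have h4 : ∀ j ∈ univ.erase k, |h j * G j| ≤ (N : ℝ) ^ (c k - d - g + 2 * τ) := by
        intro j hj
        by_cases hj0 : h j = 0
        · rw [hj0, zero_mul, abs_zero]
          positivity
        · have h5 : c j < c k := by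
            refine lt_of_le_of_ne (hkm j (by simp [hj0])) fun h6 => ?_
            exact (mem_erase.1 hj).1 (hc h6)
          have h6 := hg j k h5
          rw [abs_mul]
          calc |h j| * |G j| ≤ (N : ℝ) ^ τ * (N : ℝ) ^ (c j - d + τ) :=
                mul_le_mul (hhN j) (hGj j) (abs_nonneg _) (by positivity)
            _ = (N : ℝ) ^ (c j - d + 2 * τ) := by
                rw [← Real.rpow_add hN0]
                congr 1
                ring
            _ ≤ _ := hpow _ _ (by linarith)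
      calc ∑ j ∈ univ.erase k, |h j * G j| ≤ ∑ _j ∈ univ.erase k, (N : ℝ) ^ (c k - d - g + 2 * τ) :=
            sum_le_sum h4
        _ ≤ r * (N : ℝ) ^ (c k - d - g + 2 * τ) := by
            rw [sum_const, nsmul_eq_mul]
            apply mul_le_mul_of_nonneg_right _ (by positivity)
            have h5 : ((univ.erase k).card : ℝ) ≤ (univ : Finset (Fin r)).card := by
              exact_mod_cast card_le_card (erase_subset _ _)
            rw [card_univ, Fintype.card_fin] at h5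
            exact h5
        _ ≤ lam * 2 := by
            rw [hlam]
            have h5 : (N : ℝ) ^ (c k - d - g + 2 * τ) * (r * 3 ^ (d + 2)) ≤ (N : ℝ) ^ (c k - d - 2 * τ) := by
              calc (N : ℝ) ^ (c k - d - g + 2 * τ) * (r * 3 ^ (d + 2)) ≤ (N : ℝ) ^ (c k - d - g + 2 * τ) * (N : ℝ) ^ τ := by
                    apply mul_le_mul_of_nonneg_left (hD1.trans hND) (by positivity)
                _ = (N : ℝ) ^ (c k - d - g + 3 * τ) := by rw [← Real.rpow_add hN0]; congr 1; ring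
                _ ≤ _ := hpow _ _ (by linarith)
            have h6 : r * (N : ℝ) ^ (c k - d - g + 2 * τ) =
                ((N : ℝ) ^ (c k - d - g + 2 * τ) * (r * 3 ^ (d + 2))) / 3 ^ (d + 2) := by
              field_simp
            rw [h6]
            have h7 := div_le_div_of_nonneg_right h5 (show (0 : ℝ) ≤ 3 ^ (d + 2) by positivity)
            have h8 : 0 ≤ (N : ℝ) ^ (c k - d - 2 * τ) / 3 ^ (d + 2) := by positivity
            linarith
    have hrest' := abs_le.1 hrest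
    constructor
    · rw [hlead]
      have h4 : 3 * lam ≤ |h k| * (σ k * G k) := by
        calc 3 * lam = (N : ℝ) ^ (-τ) * ((N : ℝ) ^ (c k - d - τ) * (1 / 3 ^ (d + 1))) := by
              rw [hlam, ← mul_assoc, ← Real.rpow_add hN0, show -τ + (c k - d - τ) = c k - d - 2 * τ by ring]
              field_simp
              ring
          _ ≤ |h k| * (σ k * G k) := mul_le_mul hkge hk1.1 (by positivity) (abs_nonneg _)
      linarith [hrest'.1]
    · rw [hlead]
      have h4 : |h k| * (σ k * G k) ≤ (N : ℝ) ^ (c k - d + 2 * τ) := by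
        calc |h k| * (σ k * G k) ≤ (N : ℝ) ^ τ * (N : ℝ) ^ (c k - d + τ) :=
              mul_le_mul (hhN k) hk1.2 (le_trans (by positivity) hk1.1) (by positivity)
          _ = _ := by
              rw [← Real.rpow_add hN0]
              congr 1
              ring
      have h5 : T * lam = r * (N : ℝ) ^ (c k - d + 2 * τ) := by
        rw [hT, hlam]
        have e1 : (N : ℝ) ^ (c k - d + 2 * τ) = (N : ℝ) ^ (4 * τ) * (N : ℝ) ^ (c k - d - 2 * τ) := by
          rw [← Real.rpow_add hN0]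
          congr 1
          ring
        rw [e1]
        field_simp
      rcases Nat.lt_or_ge 1 r with h6 | h6
      · have h7 : (2 : ℝ) ≤ r := by exact_mod_cast h6
        rw [h5]
        have h8 : lam * 2 ≤ (N : ℝ) ^ (c k - d + 2 * τ) := by
          rw [hlam, div_mul_eq_mul_div, div_le_iff₀ (by positivity)]
          have h9 : (N : ℝ) ^ (c k - d - 2 * τ) ≤ (N : ℝ) ^ (c k - d + 2 * τ) := hpow _ _ (by linarith)
          apply mul_le_mul h9 _ (by norm_num) (by positivity)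
          calc (2 : ℝ) ≤ 3 ^ 1 := by norm_num
            _ ≤ 3 ^ (d + 2) := pow_le_pow_right₀ (by norm_num) (by omega)
        have h10 : 2 * (N : ℝ) ^ (c k - d + 2 * τ) ≤ r * (N : ℝ) ^ (c k - d + 2 * τ) :=
          mul_le_mul_of_nonneg_right h7 (by positivity)
        linarith [hrest'.2]
      · have h7 : r = 1 := by omega
        subst h7
        have h8 : (univ.erase k : Finset (Fin 1)) = ∅ := by
          ext j
          simp only [mem_erase, mem_univ, and_true, notMem_empty, iff_false, not_not]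
          exact Subsingleton.elim _ _
        rw [h8, sum_empty, mul_zero, add_zero, h5]
        refine h4.trans ?_
        rw [Nat.cast_one, one_mul]
  have hu1 : (N : ℝ) ^ (a / 4) ≤ lam * (N : ℝ) ^ d := by
    rw [hlam, ← Real.rpow_natCast (N : ℝ) d, div_mul_eq_mul_div, ← Real.rpow_add hN0, le_div_iff₀ (by positivity)]
    calc (N : ℝ) ^ (a / 4) * 3 ^ (d + 2) ≤ (N : ℝ) ^ (a / 4) * (N : ℝ) ^ τ :=
          mul_le_mul_of_nonneg_left (hD2.trans hND) (by positivity)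
      _ = (N : ℝ) ^ (a / 4 + τ) := by rw [← Real.rpow_add hN0]
      _ ≤ _ := hpow _ _ (by have := hac k; linarith)
  have hu2 : 1 ≤ lam * (N : ℝ) ^ d := (Real.one_le_rpow hN1 (by positivity)).trans hu1
  have hu3 : lam ≤ (N : ℝ) ^ (-b) := by
    rw [hlam, div_le_iff₀ (by positivity)]
    calc (N : ℝ) ^ (c k - d - 2 * τ) ≤ (N : ℝ) ^ (-b) := hpow _ _ (by have := hbc k; linarith)
      _ ≤ (N : ℝ) ^ (-b) * 3 ^ (d + 2) := le_mul_of_one_le_right (by positivity) h31
  rw [hsum]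
  refine (block_sum d hd b c₀ C₀ H N hN1' F s lam T hs1 hT1 hu2 hu3 hbound).trans ?_
  have h5 : (lam * (N : ℝ) ^ d) ^ (-c₀) ≤ (N : ℝ) ^ (-(8 * τ)) := by
    calc (lam * (N : ℝ) ^ d) ^ (-c₀) ≤ ((N : ℝ) ^ (a / 4)) ^ (-c₀) :=
          Real.rpow_le_rpow_of_nonpos (by positivity) hu1 (by linarith)
      _ = (N : ℝ) ^ (a / 4 * -c₀) := by rw [← Real.rpow_mul hN0.le]
      _ ≤ _ := hpow _ _ (by linarith)
  calc C₀ * T * N * (lam * (N : ℝ) ^ d) ^ (-c₀) ≤ C₀ * T * N * (N : ℝ) ^ (-(8 * τ)) :=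
        mul_le_mul_of_nonneg_left h5 (by positivity)
    _ = D * ((N : ℝ) ^ (4 * τ) * N * (N : ℝ) ^ (-(8 * τ))) := by rw [hT, hD]; ring
    _ ≤ (N : ℝ) ^ τ * ((N : ℝ) ^ (4 * τ) * N * (N : ℝ) ^ (-(8 * τ))) :=
        mul_le_mul_of_nonneg_right hND (by positivity)
    _ = (N : ℝ) ^ (1 - 3 * τ) := by
        have e1 : (N : ℝ) ^ τ * ((N : ℝ) ^ (4 * τ) * N * (N : ℝ) ^ (-(8 * τ))) =
            (N : ℝ) ^ τ * ((N : ℝ) ^ (4 * τ) * (N : ℝ) ^ (1 : ℝ) * (N : ℝ) ^ (-(8 * τ))) := by rw [Real.rpow_one]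
        rw [e1, ← Real.rpow_add hN0, ← Real.rpow_add hN0, ← Real.rpow_add hN0]
        congr 1
        ring
    _ ≤ _ := hpow _ _ (by linarith)


end Pool.Agent.U828.KD
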