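import Mathlib
import Pool.Agent.U828.KD.Chow
import Pool.Agent.TH893.CL.Fam

/-! Products of `k` consecutive values of the Liouville function along progressions, for all the lengths `k` near almost
all values of a function whose differences of order `r` are bounded below: savings of powers of the logarithm
(helper828). -/

set_option autoImplicit false

namespace Pool.Agent.U828.KD

open Finset
open Pool.Agent.H373R2.T7 (exI liR)
open Pool.Agent.U828.CV (BadZ)
open Pool.Agent.TH893.CL (Pk lr lr_pm twist_le exI_liR)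

/-- the real weights -/
noncomputable def wr (l : ℕ → ℝ) (ξ : ℕ → ℂ) (i j : Bool) (n : ℕ) : ℝ :=
  (if i then (ξ n).re else (ξ n).im) * (if j then (ξ (n + 1)).re else (ξ (n + 1)).im) * l n

/-- the weights, complex valued -/
noncomputable def wt (l : ℕ → ℝ) (ξ : ℕ → ℂ) (i j : Bool) (n : ℕ) : ℂ := ((wr l ξ i j n : ℝ) : ℂ)

lemma wr_le {l : ℕ → ℝ} (hl : ∀ n, l n = 1 ∨ l n = -1) {ξ : ℕ → ℂ} (hξ : ∀ n, ‖ξ n‖ ≤ 1) (i j : Bool) (n : ℕ) :
    |wr l ξ i j n| ≤ 1 := by
  have hre : ∀ n, |(ξ n).re| ≤ 1 := fun n => (Complex.abs_re_le_norm _).trans (hξ n)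
  have him : ∀ n, |(ξ n).im| ≤ 1 := fun n => (Complex.abs_im_le_norm _).trans (hξ n)
  have h1 : |l n| = 1 := by rcases hl n with h | h <;> rw [h] <;> norm_num
  have h2 : |(if i then (ξ n).re else (ξ n).im)| ≤ 1 := by
    cases i
    · simpa using him n
    · simpa using hre n
  have h3 : |(if j then (ξ (n + 1)).re else (ξ (n + 1)).im)| ≤ 1 := by
    cases j
    · simpa using him (n + 1)
    · simpa using hre (n + 1)
  unfold wr
  rw [abs_mul, abs_mul, h1, mul_one]
  exact mul_le_one₀ h2 (abs_nonneg _) h3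

lemma wt_le {l : ℕ → ℝ} (hl : ∀ n, l n = 1 ∨ l n = -1) {ξ : ℕ → ℂ} (hξ : ∀ n, ‖ξ n‖ ≤ 1) (i j : Bool) (n : ℕ) :
    ‖wt l ξ i j n‖ ≤ 1 := by
  unfold wt
  rw [Complex.norm_real, Real.norm_eq_abs]
  exact wr_le hl hξ i j n

lemma good_of {B C V N a d k : ℕ} {ξ : ℕ → ℂ} (hξ : ∀ n, ‖ξ n‖ ≤ 1) (ha1 : 1 ≤ a) (haC : (a : ℝ) ≤ Real.log N ^ C)
    (h : ∀ i j, ¬ BadZ liR (wt (lr a d) ξ i j) B C V N ((a * k + d : ℕ) : ℤ)) {Y X : ℕ} (hYX : Y ≤ X) (hX : a * X ≤ B * N) :
    ‖∑ n ∈ Ioc Y X, ξ n * (Pk (lr a d) k n : ℂ)‖ ≤ ((X : ℝ) - Y) / 2 + 4 * (N / Real.log N ^ V) + 1 := by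
  have h1 : ∀ i j, ∀ Z : ℕ, Z ≤ X → |∑ n ∈ Ioc 0 Z, wr (lr a d) ξ i j n * lr a d (n + k)| ≤ N / Real.log N ^ V := by
    intro i j Z hZ
    have h2 := h i j
    unfold BadZ at h2
    push Not at h2
    have h3 := h2 a Z ha1 haC ((Nat.mul_le_mul_left _ hZ).trans hX)
    have e : ∑ n ∈ Icc 1 Z, wt (lr a d) ξ i j n * exI liR ((a : ℤ) * n + ((a * k + d : ℕ) : ℤ)) =
        ((∑ n ∈ Ioc 0 Z, wr (lr a d) ξ i j n * lr a d (n + k) : ℝ) : ℂ) := by
      rw [Complex.ofReal_sum]
      have e0 : Icc 1 Z = Ioc 0 Z := by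
        ext n
        rw [mem_Icc, mem_Ioc]
        omega
      rw [e0]
      apply sum_congr rfl
      intro n hn
      rw [mem_Ioc] at hn
      have h4 : 1 ≤ a * (n + k) + d := by
        have : 1 ≤ a * (n + k) := Nat.one_le_iff_ne_zero.2 (Nat.mul_ne_zero (by omega) (by omega))
        omega
      rw [exI_liR (m := (a : ℤ) * n + ((a * k + d : ℕ) : ℤ)) h4 (by push_cast; ring)]
      unfold wt lr
      push_cast
      ring
    rw [e, Complex.norm_real, Real.norm_eq_abs] at h3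
    exact h3
  have h2 : ∀ i j, |∑ n ∈ Ioc Y X, wr (lr a d) ξ i j n * lr a d (n + k)| ≤ 2 * (N / Real.log N ^ V) := by
    intro i j
    have e := Finset.sum_Ioc_consecutive (fun n => wr (lr a d) ξ i j n * lr a d (n + k)) (Nat.zero_le Y) hYX
    have e1 : ∑ n ∈ Ioc Y X, wr (lr a d) ξ i j n * lr a d (n + k) =
        ∑ n ∈ Ioc 0 X, wr (lr a d) ξ i j n * lr a d (n + k) - ∑ n ∈ Ioc 0 Y, wr (lr a d) ξ i j n * lr a d (n + k) := by
      linarith
    rw [e1]
    have h3 := h1 i j X le_rfl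
    have h4 := h1 i j Y hYX
    refine (abs_sub _ _).trans ?_
    linarith
  have h3 := twist_le (lr_pm a d) k hξ hYX (M := 2 * (N / Real.log N ^ V)) (by simpa [wr] using h2 true true)
    (by simpa [wr] using h2 true false) (by simpa [wr] using h2 false true) (by simpa [wr] using h2 false false)
  linarith

/-- products of `k` consecutive values of the Liouville function for all the lengths `k` near almost all values of a function
whose differences of order `r` are bounded below -/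
theorem len_log (r : ℕ) (hr : 2 ≤ r) (A B C T U : ℕ) (η : ℝ) (hη : 0 < η) : ∃ N₀ : ℕ, ∀ N : ℕ, N₀ ≤ N →
    ∀ x : ℕ, (N : ℝ) ^ (1 / (r : ℝ) + η) ≤ x → ∀ f : ℕ → ℝ, (∀ m ∈ Icc 1 x, |f m| ≤ B * N) →
    Bent r x f (N / ((x : ℝ) ^ r * Real.log N ^ C)) →
    ∀ L : ℕ, (L : ℝ) ≤ Real.log N ^ T → ∀ a d : Fin L → ℕ, (∀ l, 1 ≤ a l ∧ a l ≤ A ∧ d l ≤ B * N) →
    ∀ ξ : Fin L → ℕ → ℂ, (∀ l n, ‖ξ l n‖ ≤ 1) →
    ∀ S ⊆ Icc 1 x, (∀ m ∈ S, ∃ k : ℕ, |(k : ℝ) - f m| ≤ Real.log N ^ C ∧ ∃ l, ∃ Y X : ℕ, Y ≤ X ∧ a l * X ≤ B * N ∧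
      ((X : ℝ) - Y) / 2 + N / Real.log N ^ U < ‖∑ n ∈ Ioc Y X, ξ l n * (Pk (lr (a l) (d l)) k n : ℂ)‖) →
    (S.card : ℝ) ≤ x / Real.log N ^ U := by
  classical
  obtain ⟨n1, h1⟩ := weightedZ r hr liR (fun n => by
    unfold liR
    rw [norm_pow, norm_neg, norm_one, one_pow]) Pool.Agent.H373R2.T7.sup_liou (A * B + B + 1) (C + 1) (U + 1) (U + T + 1) η hη
  obtain ⟨n2, h2⟩ := Pool.Agent.H373R2.T7.ev_log' (C + 1) 1
  obtain ⟨n3, h3⟩ := Pool.Agent.H373R2.T7.ev_log' (U + 1) 1
  obtain ⟨n4, h4⟩ := Pool.Agent.H373R2.T7.ev_L' (A + 5)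
  refine ⟨n1 + n2 + n3 + n4 + 1, fun N hN x hx f hf hb L hL a d had ξ hξ S hS hSb => ?_⟩
  have hN1 : (1 : ℝ) ≤ N := by exact_mod_cast (by omega : 1 ≤ N)
  have hlog : (A : ℝ) + 5 ≤ Real.log N := by
    have := h4 N (by omega)
    push_cast at this
    exact this
  have hA0 : (0 : ℝ) ≤ A := Nat.cast_nonneg A
  have hlog1 : 1 ≤ Real.log N := by linarith
  have hlog0 : 0 < Real.log N := by linarith
  have hC1 : Real.log N ^ (C + 1) ≤ N := by
    have h5 := h2 N (by omega)
    rw [one_mul] at h5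
    refine h5.trans ?_
    rw [Real.sqrt_le_left (by positivity)]
    nlinarith
  have hU1 : Real.log N ^ (U + 1) ≤ N := by
    have h5 := h3 N (by omega)
    rw [one_mul] at h5
    refine h5.trans ?_
    rw [Real.sqrt_le_left (by positivity)]
    nlinarith
  -- the exceptional set of one datum and one pair of parts
  obtain ⟨E, hE⟩ : ∃ E : Fin L → Bool → Bool → Finset ℕ, E = fun l i j => S.filter (fun m => ∃ k : ℕ,
      |(k : ℝ) - f m| ≤ Real.log N ^ C ∧
      BadZ liR (wt (lr (a l) (d l)) (ξ l) i j) (A * B + B + 1) (C + 1) (U + 1) N ((a l * k + d l : ℕ) : ℤ)) := ⟨_, rfl⟩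
  have hEc : ∀ l i j, ((E l i j).card : ℝ) ≤ x / Real.log N ^ (U + T + 1) := by
    intro l i j
    obtain ⟨ha1, haA, hdB⟩ := had l
    have ha1' : (1 : ℝ) ≤ a l := by exact_mod_cast ha1
    have haA' : (a l : ℝ) ≤ A := by exact_mod_cast haA
    have hdB' : (d l : ℝ) ≤ B * N := by exact_mod_cast hdB
    have haC : (a l : ℝ) ≤ Real.log N := by linarith
    have hB0 : (0 : ℝ) ≤ B * N := by positivity
    have hd0 : (0 : ℝ) ≤ d l := Nat.cast_nonneg _
    have hbd : ∀ m ∈ Icc 1 x, |(a l : ℝ) * f m + d l| ≤ (A * B + B) * N := by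
      intro m hm
      have h5 := hf m hm
      calc |(a l : ℝ) * f m + d l| ≤ |(a l : ℝ) * f m| + |(d l : ℝ)| := abs_add_le _ _
        _ = a l * |f m| + d l := by rw [abs_mul, abs_of_nonneg (by linarith : (0 : ℝ) ≤ a l), abs_of_nonneg hd0]
        _ ≤ A * (B * N) + B * N := add_le_add (mul_le_mul haA' h5 (abs_nonneg _) hA0) hdB'
        _ = _ := by ring
    apply h1 N (by omega) ⟨wt (lr (a l) (d l)) (ξ l) i j, wt_le (lr_pm _ _) (hξ l) i j⟩ x hx
      (fun m => (a l : ℝ) * f m + d l) (fun m hm => (hbd m hm).trans (by push_cast; nlinarith))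
    · have hdk : ∀ m, dk r (fun m => (a l : ℝ) * f m + d l) m = a l * dk r f m := by
        intro m
        obtain ⟨s, hs⟩ : ∃ s, r = s + 1 := ⟨r - 1, by omega⟩
        rw [hs, dk_add_const s (fun m => (a l : ℝ) * f m) (d l) m, dk_mul]
      have hκ : (N : ℝ) / ((x : ℝ) ^ r * Real.log N ^ (C + 1)) ≤ N / ((x : ℝ) ^ r * Real.log N ^ C) := by
        rcases Nat.eq_zero_or_pos x with hx0 | hx0
        · rw [hx0, Nat.cast_zero, zero_pow (by omega), zero_mul, zero_mul]
        · have hxp : (0 : ℝ) < x := by exact_mod_cast hx0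
          apply div_le_div_of_nonneg_left (by linarith) (by positivity)
          apply mul_le_mul_of_nonneg_left _ (by positivity)
          exact pow_le_pow_right₀ hlog1 (by omega)
      have hκ0 : 0 ≤ (N : ℝ) / ((x : ℝ) ^ r * Real.log N ^ C) := by positivity
      rcases hb with hb | hb
      · left
        intro m m1 m2
        rw [hdk]
        have := hb m m1 m2
        nlinarith
      · right
        intro m m1 m2
        rw [hdk]
        have := hb m m1 m2
        nlinarith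
    · rw [hE]
      exact (filter_subset _ _).trans hS
    · intro m hm
      rw [hE] at hm
      obtain ⟨hmS, k, hk1, hk2⟩ := mem_filter.1 hm
      have hmI := hS hmS
      have e : (((a l * k + d l : ℕ) : ℤ) : ℝ) - (a l * f m + d l) = a l * ((k : ℝ) - f m) := by
        push_cast
        ring
      have hCpow : Real.log N ^ C ≤ Real.log N ^ (C + 1) := pow_le_pow_right₀ hlog1 (by omega)
      have hnear : |(((a l * k + d l : ℕ) : ℤ) : ℝ) - (a l * f m + d l)| ≤ Real.log N ^ (C + 1) := by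
        rw [e, abs_mul, abs_of_nonneg (by linarith : (0 : ℝ) ≤ a l), pow_succ, mul_comm]
        exact mul_le_mul hk1 haC (by linarith) (by positivity)
      refine ⟨((a l * k + d l : ℕ) : ℤ), ?_, hnear, hk2⟩
      have h6 := hbd m hmI
      have e2 : (((a l * k + d l : ℕ) : ℤ) : ℝ) = (a l * f m + d l) +
          ((((a l * k + d l : ℕ) : ℤ) : ℝ) - (a l * f m + d l)) := by ring
      rw [e2]
      refine (abs_add_le _ _).trans ?_
      push_cast at h6 hnear ⊢
      linarith
  -- every exception is in one of the sets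
  have hsub : S ⊆ (univ : Finset (Fin L)).biUnion (fun l => (univ : Finset Bool).biUnion fun i =>
      (univ : Finset Bool).biUnion fun j => E l i j) := by
    intro m hm
    obtain ⟨k, hk, l, Y, X, hYX, hX, hbad⟩ := hSb m hm
    by_contra hcon
    simp only [mem_biUnion, mem_univ, true_and, not_exists] at hcon
    obtain ⟨ha1, haA, hdB⟩ := had l
    have haA' : (a l : ℝ) ≤ A := by exact_mod_cast haA
    have h5 := good_of (B := A * B + B + 1) (C := C + 1) (V := U + 1) (N := N) (a := a l) (d := d l) (k := k) (hξ l) ha1 (by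
      calc (a l : ℝ) ≤ Real.log N := by linarith
        _ = Real.log N ^ 1 := by rw [pow_one]
        _ ≤ _ := pow_le_pow_right₀ hlog1 (by omega)) (fun i j hB => by
        apply hcon l i j
        rw [hE]
        exact mem_filter.2 ⟨hm, k, hk, hB⟩) hYX (hX.trans (Nat.mul_le_mul_right _ (by
          have : B ≤ A * B + B + 1 := by nlinarith [Nat.zero_le (A * B)]
          exact this)))
    have h6 : 4 * ((N : ℝ) / Real.log N ^ (U + 1)) + 1 ≤ N / Real.log N ^ U := by
      have h7 : (1 : ℝ) ≤ N / Real.log N ^ (U + 1) := by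
        rw [one_le_div (by positivity)]
        exact hU1
      have h8 : (N : ℝ) / Real.log N ^ U = Real.log N * (N / Real.log N ^ (U + 1)) := by
        rw [pow_succ]
        field_simp
      rw [h8]
      nlinarith
    linarith
  have hcard : (S.card : ℝ) ≤ ∑ _l : Fin L, ∑ _i : Bool, ∑ _j : Bool, (x : ℝ) / Real.log N ^ (U + T + 1) := by
    have h5 := card_le_card hsub
    have h6 : (((univ : Finset (Fin L)).biUnion (fun l => (univ : Finset Bool).biUnion fun i =>
        (univ : Finset Bool).biUnion fun j => E l i j)).card : ℝ) ≤ ∑ l : Fin L, ∑ i : Bool, ∑ j : Bool, ((E l i j).card : ℝ) := by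
      have h7 := card_biUnion_le (s := (univ : Finset (Fin L))) (t := fun l => (univ : Finset Bool).biUnion fun i =>
        (univ : Finset Bool).biUnion fun j => E l i j)
      have h8 : ∀ l, ((univ : Finset Bool).biUnion fun i => (univ : Finset Bool).biUnion fun j => E l i j).card ≤
          ∑ i : Bool, ∑ j : Bool, (E l i j).card := by
        intro l
        refine card_biUnion_le.trans (sum_le_sum fun i _ => card_biUnion_le)
      exact_mod_cast h7.trans (sum_le_sum fun l _ => h8 l)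
    calc (S.card : ℝ) ≤ _ := by exact_mod_cast h5
      _ ≤ _ := h6
      _ ≤ _ := sum_le_sum fun l _ => sum_le_sum fun i _ => sum_le_sum fun j _ => hEc l i j
  refine hcard.trans ?_
  simp only [sum_const, card_univ, Fintype.card_bool, Fintype.card_fin, nsmul_eq_mul]
  have hx0 : (0 : ℝ) ≤ x := Nat.cast_nonneg _
  have e : (x : ℝ) / Real.log N ^ U = Real.log N ^ T * Real.log N * (x / Real.log N ^ (U + T + 1)) := by
    rw [pow_succ, pow_add]
    field_simp
  rw [e]
  have h9 : 0 ≤ (x : ℝ) / Real.log N ^ (U + T + 1) := by positivity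
  have h10 : (L : ℝ) * 4 ≤ Real.log N ^ T * Real.log N := mul_le_mul hL (by linarith) (by norm_num) (by positivity)
  calc (L : ℝ) * (((2 : ℕ) : ℝ) * (((2 : ℕ) : ℝ) * ((x : ℝ) / Real.log N ^ (U + T + 1)))) =
        ((L : ℝ) * 4) * ((x : ℝ) / Real.log N ^ (U + T + 1)) := by push_cast; ring
    _ ≤ _ := mul_le_mul_of_nonneg_right h10 h9

end Pool.Agent.U828.KD
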