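import Mathlib
import Pool.Agent.U828.KD.Near
import Pool.Agent.U828.CV.NearPow

/-! All the integers near almost all values of an arbitrary function whose differences of order `r` are bounded below,
with a power saving (helper828). -/

set_option autoImplicit false

namespace Pool.Agent.U828.KD

open Finset Filter
open Pool.Agent.U828.CV (Vec En CritP Jx En_le_card)

theorem near_pow (r : ℕ) (hr : 2 ≤ r) (B : ℕ) (η : ℝ) (hη : 0 < η) : ∃ h : ℕ, 2 ≤ h ∧ ∀ θ : ℝ, 0 < θ →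
    ∃ δ : ℝ, 0 < δ ∧ δ ≤ 1 / 8 ∧
    ∃ N₀ : ℕ, ∀ N : ℕ, N₀ ≤ N → ∀ P : ℤ → Prop, CritP (B + 1) h θ N P →
    ∀ x : ℕ, (N : ℝ) ^ (1 / (r : ℝ) + η) ≤ x → ∀ f : ℕ → ℝ, (∀ m ∈ Icc 1 x, |f m| ≤ B * N) →
    Bent r x f ((N : ℝ) ^ (1 - δ) / (x : ℝ) ^ r) →
    ∀ T ⊆ Icc 1 x, (∀ m ∈ T, ∃ b : ℤ, |(b : ℝ) - f m| ≤ (N : ℝ) ^ δ ∧ ¬ P b) →
    (T.card : ℝ) ≤ x * (N : ℝ) ^ (-δ) := by
  classical
  obtain ⟨h₀, hh0'⟩ := energy_r r hr B η hη
  obtain ⟨h, hhd⟩ : ∃ h, h = h₀ + 2 := ⟨_, rfl⟩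
  obtain ⟨K, hK1, hK⟩ := hh0' h (by omega)
  refine ⟨h, by omega, fun θ hθ => ?_⟩
  have hh2 : 2 ≤ h := by omega
  have hh0 : (0 : ℝ) < h := by exact_mod_cast (by omega : 0 < h)
  have hr0 : (0 : ℝ) < r := by exact_mod_cast (by omega : 0 < r)
  have hr1 : (1 : ℝ) ≤ r := by exact_mod_cast (by omega : 1 ≤ r)
  obtain ⟨A, hA⟩ : ∃ A : ℕ, A = 2 * h * (r + 1) + 1 := ⟨_, rfl⟩
  obtain ⟨ε, hε0, hεη, hε4, hεr, hεθ⟩ : ∃ ε : ℝ, 0 < ε ∧ ε ≤ η ∧ ε ≤ 1 / 4 ∧ ε * (2 * r) ≤ 1 ∧ (A + 2) * ε ≤ θ := by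
    refine ⟨min (min (min η (1 / 4)) (1 / (2 * r))) (θ / (A + 2)), by positivity, ?_, ?_, ?_, ?_⟩
    · exact (min_le_left _ _).trans ((min_le_left _ _).trans (min_le_left _ _))
    · exact (min_le_left _ _).trans ((min_le_left _ _).trans (min_le_right _ _))
    · calc _ ≤ 1 / (2 * (r : ℝ)) * (2 * r) := by
            apply mul_le_mul_of_nonneg_right _ (by positivity)
            exact (min_le_left _ _).trans (min_le_right _ _)
        _ = 1 := by field_simp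
    · calc (A + 2) * min (min (min η (1 / 4)) (1 / (2 * r))) (θ / (A + 2)) ≤ (A + 2) * (θ / (A + 2)) :=
            mul_le_mul_of_nonneg_left (min_le_right _ _) (by positivity)
        _ = θ := by field_simp
  obtain ⟨δ, hδ⟩ : ∃ δ, δ = ε / 2 := ⟨_, rfl⟩
  have hδ0 : 0 < δ := by rw [hδ]; positivity
  have hεδ : ε = 2 * δ := by rw [hδ]; ring
  refine ⟨δ, hδ0, by linarith, ?_⟩
  have hev : ∀ᶠ N : ℕ in atTop, 20 * r ≤ (N : ℝ) ^ δ ∧ K * (4 : ℝ) ^ h ≤ (N : ℝ) ^ ε ∧ (16 : ℝ) ≤ N ∧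
      8 ≤ (N : ℝ) ^ (1 / (2 * (r : ℝ))) := by
    have h2 := ((tendsto_rpow_atTop hδ0).comp (tendsto_natCast_atTop_atTop (R := ℝ))).eventually_ge_atTop (20 * r : ℝ)
    have h3 := ((tendsto_rpow_atTop hε0).comp (tendsto_natCast_atTop_atTop (R := ℝ))).eventually_ge_atTop (K * (4 : ℝ) ^ h)
    have h4 := (tendsto_natCast_atTop_atTop (R := ℝ)).eventually_ge_atTop (16 : ℝ)
    have h5 := ((tendsto_rpow_atTop (show 0 < 1 / (2 * (r : ℝ)) by positivity)).comp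
      (tendsto_natCast_atTop_atTop (R := ℝ))).eventually_ge_atTop (8 : ℝ)
    filter_upwards [h2, h3, h4, h5] with N a1 a2 a3 a4
    exact ⟨a1, a2, a3, a4⟩
  obtain ⟨N2, h2⟩ := eventually_atTop.1 hev
  refine ⟨N2, fun N hN P hP x hx f hf hb T hT hTb => ?_⟩
  obtain ⟨hN20', hN4, hN16, hN8⟩ := h2 N (by omega)
  have hN20 : 20 ≤ (N : ℝ) ^ δ := le_trans (by linarith) hN20'
  have hN1 : (1 : ℝ) ≤ N := by linarith
  have hN0 : (0 : ℝ) < N := by linarith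
  have hpow : ∀ a b : ℝ, a ≤ b → (N : ℝ) ^ a ≤ (N : ℝ) ^ b := fun a b hab => Real.rpow_le_rpow_of_exponent_le hN1 hab
  obtain ⟨L, hL⟩ : ∃ L, L = (N : ℝ) ^ δ := ⟨_, rfl⟩
  have hL20 : 20 ≤ L := by rw [hL]; exact hN20
  have hLε : (N : ℝ) ^ ε = L * L := by rw [hεδ, hL, ← Real.rpow_add hN0]; congr 1; ring
  have hLnδ : (N : ℝ) ^ (-δ) = 1 / L := by rw [Real.rpow_neg hN0.le, hL, one_div]
  have hLnε : (N : ℝ) ^ (-ε) = 1 / (L * L) := by rw [Real.rpow_neg hN0.le, hLε, one_div]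
  have hL0 : 0 < L := by linarith
  have hx0 : (0 : ℝ) < x := lt_of_lt_of_le (by positivity) hx
  -- sizes
  have hxε : 4 ≤ (x : ℝ) * (N : ℝ) ^ (-ε) := by
    have hεr' : ε ≤ 1 / (2 * (r : ℝ)) := by
      rw [le_div_iff₀ (by positivity)]
      exact hεr
    have e1 : 1 / (r : ℝ) = 1 / (2 * (r : ℝ)) + 1 / (2 * (r : ℝ)) := by field_simp; norm_num
    calc (4 : ℝ) ≤ (N : ℝ) ^ (1 / (2 * (r : ℝ))) := by linarith
      _ ≤ (N : ℝ) ^ ((1 / (r : ℝ) + η) + (-ε)) := hpow _ _ (by linarith)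
      _ = (N : ℝ) ^ (1 / (r : ℝ) + η) * (N : ℝ) ^ (-ε) := Real.rpow_add hN0 _ _
      _ ≤ x * (N : ℝ) ^ (-ε) := by gcongr
  obtain ⟨w, hw⟩ : ∃ w : ℕ, w = ⌈(x : ℝ) * (N : ℝ) ^ (-ε)⌉₊ := ⟨_, rfl⟩
  have hw1 : (x : ℝ) * (N : ℝ) ^ (-ε) ≤ w := by rw [hw]; exact Nat.le_ceil _
  have hw2 : (w : ℝ) ≤ x * (N : ℝ) ^ (-ε) + 1 := by rw [hw]; exact (Nat.ceil_lt_add_one (by positivity)).le
  have hL20' : 20 * r ≤ L := by rw [hL]; exact hN20'
  have hLL : 400 * r ≤ L * L := by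
    calc (400 * r : ℝ) = 20 * (20 * r) := by ring
      _ ≤ L * L := mul_le_mul hL20 hL20' (by positivity) hL0.le
  have hxL : (x : ℝ) * (N : ℝ) ^ (-ε) * (400 * r) ≤ x := by
    rw [hLnε, mul_one_div, div_mul_eq_mul_div, div_le_iff₀ (by positivity)]
    exact mul_le_mul_of_nonneg_left hLL hx0.le
  have hw5 : (w : ℝ) * (8 * r) ≤ x := by
    have a1 : (w : ℝ) ≤ 2 * (x * (N : ℝ) ^ (-ε)) := by linarith
    have a2 : (w : ℝ) * (8 * r) ≤ 2 * (x * (N : ℝ) ^ (-ε)) * (8 * r) := mul_le_mul_of_nonneg_right a1 (by positivity)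
    have a3 : 2 * ((x : ℝ) * (N : ℝ) ^ (-ε)) * (8 * r) * 25 = x * (N : ℝ) ^ (-ε) * (400 * r) := by ring
    have a4 : 0 ≤ 2 * ((x : ℝ) * (N : ℝ) ^ (-ε)) * (8 * r) := by positivity
    linarith
  have hx16 : (16 : ℝ) ≤ x := by
    have a1 : (16 : ℝ) ≤ x * (N : ℝ) ^ (-ε) * (400 * r) := by
      calc (16 : ℝ) ≤ 4 * 400 := by norm_num
        _ ≤ x * (N : ℝ) ^ (-ε) * (400 * r) := mul_le_mul hxε (by linarith) (by norm_num) (by positivity)
    linarith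
  have hwx : 2 * r * w + 2 ≤ x := by
    have : (2 * r * w : ℝ) + 2 ≤ x := by
      have e1 : (2 * r * w : ℝ) = w * (8 * r) / 4 := by ring
      rw [e1]
      linarith
    exact_mod_cast this
  have h2rw : 2 * r * w = r * w + r * w := by ring
  obtain ⟨J, hJ⟩ : ∃ J, J = Ico (r * w + 1) (x - r * w) := ⟨_, rfl⟩
  have hJc : J.card = x - r * w - (r * w + 1) := by rw [hJ, Nat.card_Ico]
  have hJc' : (J.card : ℝ) = x - 2 * (r * w) - 1 := by
    rw [hJc, Nat.cast_sub (by omega), Nat.cast_sub (by omega)]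
    push_cast
    ring
  have hJx : (J.card : ℝ) ≤ x := by
    rw [hJc']
    have : (0 : ℝ) ≤ r * w := by positivity
    linarith
  have hJx2 : (x : ℝ) ≤ 2 * J.card := by
    rw [hJc']
    have e1 : (2 : ℝ) * (r * w) = w * (8 * r) / 4 := by ring
    rw [e1]
    linarith
  have hLL1 : 1 ≤ L * L := one_le_mul_of_one_le_of_one_le (by linarith) (by linarith)
  have hL3 : L + 3 ≤ L * L := by
    have := mul_le_mul_of_nonneg_right hL20 hL0.le
    linarith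
  -- the energies
  have hE : ∀ t : ℕ → ℤ, (∀ m ∈ J, |(t m : ℝ) - f m| ≤ (N : ℝ) ^ ε) → ∀ S ⊆ J, (∀ m ∈ S, ¬ P (t m)) →
      (S.card : ℝ) ≤ (N : ℝ) ^ (-θ) * x := by
    intro t ht S hS hSP
    have h3 := hK N x w ((N : ℝ) ^ ε) (by exact_mod_cast hN1) (by rw [hLε]; exact hLL1) hx f hf (bent_mono r x f _ _ (by
      rw [div_le_div_iff₀ (by positivity) (by positivity)]
      have a1 : (N : ℝ) = (N : ℝ) ^ (1 - ε) * (N : ℝ) ^ ε := by
        rw [← Real.rpow_add hN0]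
        have : 1 - ε + ε = 1 := by ring
        rw [this, Real.rpow_one]
      have a2 : (N : ℝ) ^ (1 - ε) ≤ (N : ℝ) ^ (1 - δ) := hpow _ _ (by linarith)
      calc (N : ℝ) * (x : ℝ) ^ r = (N : ℝ) ^ (1 - ε) * (N : ℝ) ^ ε * (x : ℝ) ^ r := by rw [← a1]
        _ ≤ (N : ℝ) ^ (1 - δ) * (N : ℝ) ^ ε * (x : ℝ) ^ r := by gcongr
        _ = (N : ℝ) ^ (1 - δ) * ((x : ℝ) ^ r * (N : ℝ) ^ ε) := by ring) hb) (by
      have a1 := hw1
      rw [Real.rpow_neg hN0.le, ← div_eq_mul_inv, div_le_iff₀ (by positivity)] at a1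
      exact a1) hwx t (by rw [← hJ]; exact ht)
    rw [← hJ, ← hA] at h3
    have hNeL : L + 3 ≤ (N : ℝ) ^ ε := by rw [hLε]; exact hL3
    have hNε : (N : ℝ) ^ ε ≤ N := by
      calc (N : ℝ) ^ ε ≤ (N : ℝ) ^ (1 : ℝ) := hpow _ _ (by linarith)
        _ = N := Real.rpow_one _
    have h4 := hP (Jx J) (fun i => t i.1) (by
      intro i
      have hi : i.1 ∈ J := i.2
      have hi' : i.1 ∈ Icc 1 x := by
        obtain ⟨m, hm⟩ := i
        have hm' := hm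
        rw [hJ, mem_Ico] at hm'
        rw [mem_Icc]
        show 1 ≤ m ∧ m ≤ x
        omega
      have h5 := abs_le.1 (ht i.1 hi)
      have h6 := abs_le.1 (hf i.1 hi')
      have h7 : |(t i.1 : ℝ)| ≤ (B + 1) * N := by
        have e1 : ((B : ℝ) + 1) * N = B * N + N := by ring
        rw [e1, abs_le]
        constructor <;> linarith [h5.1, h5.2, h6.1, h6.2]
      have h8 : ((|t i.1| : ℤ) : ℝ) ≤ (((((B + 1 : ℕ) : ℤ)) * (N : ℤ) : ℤ) : ℝ) := by
        push_cast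
        exact h7
      exact_mod_cast h8) (by
      rw [Fintype.card_coe]
      have h5 : (En h (fun i : Jx J => t i.1) : ℝ) ≤
          (((Vec h J ×ˢ Vec h J).filter (fun q => ∑ i, t (q.1 i) = ∑ i, t (q.2 i))).card : ℝ) := by
        exact_mod_cast En_le_card h J t
      calc (En h (fun i : Jx J => t i.1) : ℝ) * N ≤ _ := mul_le_mul_of_nonneg_right h5 hN0.le
        _ ≤ K * ((N : ℝ) ^ ε) ^ A * (x : ℝ) ^ (2 * h) := h3
        _ ≤ K * ((N : ℝ) ^ ε) ^ A * (2 * J.card : ℝ) ^ (2 * h) := by gcongr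
        _ = ((N : ℝ) ^ ε) ^ A * (K * (4 : ℝ) ^ h) * (J.card : ℝ) ^ (2 * h) := by
            rw [mul_pow, pow_mul (2 : ℝ) 2 h]
            norm_num
            ring
        _ ≤ ((N : ℝ) ^ ε) ^ A * (N : ℝ) ^ ε * (J.card : ℝ) ^ (2 * h) :=
            mul_le_mul_of_nonneg_right (mul_le_mul_of_nonneg_left hN4 (by positivity))
              (pow_nonneg (Nat.cast_nonneg _) _)
        _ = (N : ℝ) ^ ((A + 1) * ε) * (J.card : ℝ) ^ (2 * h) := by
            rw [← Real.rpow_natCast ((N : ℝ) ^ ε) A, ← Real.rpow_mul hN0.le, ← Real.rpow_add hN0]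
            congr 2
            ring
        _ ≤ (N : ℝ) ^ θ * (J.card : ℝ) ^ (2 * h) :=
            mul_le_mul_of_nonneg_right (hpow _ _ (by linarith)) (pow_nonneg (Nat.cast_nonneg _) _))
      (S.subtype (fun m => m ∈ J)) (by
        intro i hi
        exact hSP i.1 (mem_subtype.1 hi))
    rw [Fintype.card_coe, card_subtype, filter_true_of_mem hS] at h4
    exact h4.trans (mul_le_mul_of_nonneg_left hJx (by positivity))
  -- the cover
  obtain ⟨E, hEd⟩ : ∃ E : ℕ, E = ⌈L⌉₊ := ⟨_, rfl⟩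
  have hE1 : L ≤ E := by rw [hEd]; exact Nat.le_ceil _
  have hE2 : (E : ℝ) ≤ L + 1 := by rw [hEd]; exact (Nat.ceil_lt_add_one hL0.le).le
  have hcov : T ⊆ (Icc 1 (r * w) ∪ Icc (x - r * w) x) ∪
      (range (2 * E + 2)).biUnion (fun e => J.filter (fun m => ¬ P (⌊f m⌋ + ((e : ℤ) - E)))) := by
    intro m hm
    have hmx := mem_Icc.1 (hT hm)
    rw [mem_union, mem_union, mem_Icc, mem_Icc]
    by_cases hmJ : m ∈ J
    · right
      obtain ⟨b, hb1, hb2⟩ := hTb m hm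
      rw [← hL] at hb1
      rw [mem_biUnion]
      have h3 := abs_le.1 hb1
      have h4 := Int.floor_le (f m)
      have h5 := Int.lt_floor_add_one (f m)
      have h6 : -(E : ℤ) ≤ b - ⌊f m⌋ := by
        have : (-(E : ℤ) : ℝ) ≤ ((b - ⌊f m⌋ : ℤ) : ℝ) := by push_cast; linarith [h3.1]
        exact_mod_cast this
      have h7 : b - ⌊f m⌋ ≤ E + 1 := by
        have : ((b - ⌊f m⌋ : ℤ) : ℝ) ≤ ((E + 1 : ℤ) : ℝ) := by push_cast; linarith [h3.2]
        exact_mod_cast this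
      refine ⟨(b - ⌊f m⌋ + E).toNat, ?_, ?_⟩
      · rw [mem_range]
        omega
      · rw [mem_filter]
        refine ⟨hmJ, ?_⟩
        have e1 : (((b - ⌊f m⌋ + E).toNat : ℕ) : ℤ) = b - ⌊f m⌋ + E := Int.toNat_of_nonneg (by omega)
        rw [e1]
        have e2 : ⌊f m⌋ + (b - ⌊f m⌋ + E - E) = b := by ring
        rw [e2]
        exact hb2
    · left
      rw [hJ, mem_Ico] at hmJ
      omega
  have hsm : ∀ e ∈ range (2 * E + 2), ((J.filter (fun m => ¬ P (⌊f m⌋ + ((e : ℤ) - E)))).card : ℝ) ≤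
      (N : ℝ) ^ (-θ) * x := by
    intro e he
    rw [mem_range] at he
    apply hE (fun m => ⌊f m⌋ + ((e : ℤ) - E)) _ _ (filter_subset _ _)
    · intro m hm
      exact (mem_filter.1 hm).2
    · intro m _
      have h4 := Int.floor_le (f m)
      have h5 := Int.lt_floor_add_one (f m)
      have he0 : (0 : ℝ) ≤ e := Nat.cast_nonneg _
      have he1 : (e : ℝ) ≤ 2 * E + 1 := by exact_mod_cast (by omega : e ≤ 2 * E + 1)
      have hNeL : L + 3 ≤ (N : ℝ) ^ ε := by rw [hLε]; exact hL3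
      push_cast
      rw [abs_le]
      constructor <;> linarith
  have h3 : (T.card : ℝ) ≤ (r * w + (r * w + 1)) + (2 * E + 2) * ((N : ℝ) ^ (-θ) * x) := by
    have c1 := (card_le_card hcov).trans (card_union_le _ _)
    have c2 : (Icc 1 (r * w) ∪ Icc (x - r * w) x).card ≤ r * w + (r * w + 1) := by
      refine (card_union_le _ _).trans ?_
      rw [Nat.card_Icc, Nat.card_Icc]
      omega
    have c3 : (((range (2 * E + 2)).biUnion (fun e => J.filter (fun m => ¬ P (⌊f m⌋ + ((e : ℤ) - E))))).card : ℝ) ≤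
        (2 * E + 2) * ((N : ℝ) ^ (-θ) * x) := by
      calc (((range (2 * E + 2)).biUnion (fun e => J.filter (fun m => ¬ P (⌊f m⌋ + ((e : ℤ) - E))))).card : ℝ)
          ≤ ∑ e ∈ range (2 * E + 2), ((J.filter (fun m => ¬ P (⌊f m⌋ + ((e : ℤ) - E)))).card : ℝ) := by
            exact_mod_cast card_biUnion_le
        _ ≤ ∑ _e ∈ range (2 * E + 2), (N : ℝ) ^ (-θ) * x := sum_le_sum hsm
        _ = _ := by rw [sum_const, card_range, nsmul_eq_mul]; push_cast; ring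
    calc (T.card : ℝ) ≤ (((Icc 1 (r * w) ∪ Icc (x - r * w) x).card +
          ((range (2 * E + 2)).biUnion (fun e => J.filter (fun m => ¬ P (⌊f m⌋ + ((e : ℤ) - E))))).card : ℕ) : ℝ) := by
          exact_mod_cast c1
      _ ≤ _ := by
          push_cast
          have c2' : (((Icc 1 (r * w) ∪ Icc (x - r * w) x).card : ℕ) : ℝ) ≤ r * w + (r * w + 1) := by exact_mod_cast c2
          linarith
  have hθL : (N : ℝ) ^ (-θ) ≤ 1 / (L * L * L) := by
    have e1 : 1 / (L * L * L) = (N : ℝ) ^ (-(3 * δ)) := by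
      rw [Real.rpow_neg hN0.le, one_div]
      congr 1
      rw [hL, ← Real.rpow_add hN0, ← Real.rpow_add hN0]
      congr 1
      ring
    rw [e1]
    apply hpow
    have a1 : (2 : ℝ) ≤ h := by exact_mod_cast hh2
    have a2 : (A : ℝ) = 2 * h * (r + 1) + 1 := by rw [hA]; push_cast; ring
    have a3 : (9 : ℝ) ≤ A := by
      rw [a2]
      have a4 : (2 : ℝ) * 2 ≤ h * (r + 1) := mul_le_mul a1 (by linarith) (by norm_num) hh0.le
      have e2 : (2 : ℝ) * h * (r + 1) = 2 * (h * (r + 1)) := by ring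
      rw [e2]
      linarith
    have a5 : (11 : ℝ) * ε ≤ (A + 2) * ε := mul_le_mul_of_nonneg_right (by linarith) hε0.le
    linarith
  rw [hLnδ, mul_one_div, le_div_iff₀ hL0]
  have h4 : (2 * E + 2) * ((N : ℝ) ^ (-θ) * x) ≤ 4 * (x / (L * L)) := by
    calc (2 * E + 2) * ((N : ℝ) ^ (-θ) * x) ≤ (4 * L) * (1 / (L * L * L) * x) := by
          apply mul_le_mul _ (mul_le_mul_of_nonneg_right hθL hx0.le) (by positivity) (by positivity)
          linarith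
      _ = 4 * (x / (L * L)) := by field_simp
  have h5 : (r : ℝ) * w + (r * w + 1) ≤ 5 * r * (x / (L * L)) := by
    have e1 : (x : ℝ) * (N : ℝ) ^ (-ε) = x / (L * L) := by rw [hLnε, mul_one_div]
    rw [← e1]
    have a1 : (w : ℝ) ≤ 2 * (x * (N : ℝ) ^ (-ε)) := by linarith
    have a2 : (r : ℝ) * w ≤ r * (2 * (x * (N : ℝ) ^ (-ε))) := mul_le_mul_of_nonneg_left a1 hr0.le
    have a3 : (1 : ℝ) * 1 ≤ r * (x * (N : ℝ) ^ (-ε)) := mul_le_mul hr1 (by linarith) (by norm_num) hr0.le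
    have e2 : 5 * (r : ℝ) * (x * (N : ℝ) ^ (-ε)) = 2 * (r * (2 * (x * (N : ℝ) ^ (-ε)))) + r * (x * (N : ℝ) ^ (-ε)) := by ring
    rw [e2]
    linarith
  have h6 : (T.card : ℝ) ≤ 9 * r * (x / (L * L)) := by
    have : 4 * ((x : ℝ) / (L * L)) ≤ 4 * r * (x / (L * L)) := by
      apply mul_le_mul_of_nonneg_right _ (by positivity)
      linarith
    linarith
  calc (T.card : ℝ) * L ≤ 9 * r * (x / (L * L)) * L := mul_le_mul_of_nonneg_right h6 hL0.le
    _ = x * (9 * r / L) := by field_simp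
    _ ≤ x * 1 := by
        apply mul_le_mul_of_nonneg_left _ hx0.le
        rw [div_le_one hL0]
        linarith
    _ = x := mul_one _

end Pool.Agent.U828.KD
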