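import Pool.Agent.U828.KD.Ord

/-! Multiples of the integer parts of functions of a given order modulo one, with a power saving (helper828). -/

set_option autoImplicit false

namespace Pool.Agent.U828.KD

open Finset Filter
open Pool.Agent.H469R2.NK (e norm_e e_add conj_e)
open Pool.Agent.Y961.JR (discJ)
open Pool.Agent.W147.PS (ev_pow)

/-- exponential sums with real multipliers of moderate size -/
theorem order_exp (d : ℕ) (hd : 2 ≤ d) (c : ℝ) (hc0 : 0 < c) (hcd : c < d) (f : ℕ → ℝ) (hf : Order d c f) :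
    ∃ τ : ℝ, 0 < τ ∧ τ ≤ 1 ∧ ∃ N₀ : ℕ, ∀ N : ℕ, N₀ ≤ N → ∀ γ : ℝ, (N : ℝ) ^ (-τ) ≤ |γ| → |γ| ≤ (N : ℝ) ^ τ →
      ‖∑ n ∈ Ioc N (2 * N), e (γ * f n)‖ ≤ (N : ℝ) ^ (1 - τ) := by
  obtain ⟨a, ha⟩ : ∃ a, a = min 1 c := ⟨_, rfl⟩
  obtain ⟨b, hb⟩ : ∃ b, b = min 1 (d - c) := ⟨_, rfl⟩
  have ha0 : 0 < a := by rw [ha]; exact lt_min one_pos hc0
  have hb0 : 0 < b := by rw [hb]; exact lt_min one_pos (by linarith)
  have ha1 : a ≤ 1 := by rw [ha]; exact min_le_left _ _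
  have hb1 : b ≤ 1 := by rw [hb]; exact min_le_left _ _
  have hac : a ≤ c := by rw [ha]; exact min_le_right _ _
  have hbc : b ≤ d - c := by rw [hb]; exact min_le_right _ _
  obtain ⟨c₀, C₀, hc₀, hc₀1, hC₀, H⟩ := test d hd b hb0 hb1
  obtain ⟨u, hu⟩ : ∃ u, u = min a b := ⟨_, rfl⟩
  have hu0 : 0 < u := by rw [hu]; exact lt_min ha0 hb0
  have hua : u ≤ a := by rw [hu]; exact min_le_left _ _
  have hub : u ≤ b := by rw [hu]; exact min_le_right _ _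
  obtain ⟨τ, hτ⟩ : ∃ τ, τ = c₀ * u / 32 := ⟨_, rfl⟩
  have hτ0 : 0 < τ := by rw [hτ]; positivity
  have hτu : τ ≤ u / 64 := by rw [hτ]; nlinarith
  have hτc : 8 * τ ≤ c₀ * a / 4 := by
    rw [hτ]
    have : c₀ * u ≤ c₀ * a := mul_le_mul_of_nonneg_left hua hc₀.le
    linarith
  have hτ1 : τ ≤ 1 := by linarith
  obtain ⟨σ, hσ, n₀, hn₀⟩ := order_block d c τ f hf hc0 hcd hτ0 hτ1 (by linarith)
  obtain ⟨D, hD⟩ : ∃ D : ℝ, D = C₀ * 3 ^ (d + 1) := ⟨_, rfl⟩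
  have h31 : (1 : ℝ) ≤ 3 ^ (d + 1) := one_le_pow₀ (by norm_num)
  have hD2 : (3 : ℝ) ^ (d + 1) ≤ D := by
    rw [hD]
    exact le_mul_of_one_le_left (by positivity) hC₀
  have hev : ∀ᶠ Z : ℝ in atTop, 1 ≤ Z ∧ D ≤ Z ^ τ := by
    filter_upwards [eventually_ge_atTop (1 : ℝ), (tendsto_rpow_atTop hτ0).eventually_ge_atTop D] with Z h1 h2
    exact ⟨h1, h2⟩
  obtain ⟨Z₀, hZ₀⟩ := eventually_atTop.mp hev
  refine ⟨τ, hτ0, hτ1, ⌈Z₀⌉₊ + n₀ + 1, ?_⟩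
  intro N hN γ hγ1 hγ2
  have hNZ : Z₀ ≤ N := (Nat.le_ceil Z₀).trans (by exact_mod_cast (by omega : ⌈Z₀⌉₊ ≤ N))
  obtain ⟨hN1, hND⟩ := hZ₀ N hNZ
  have hN1' : 1 ≤ N := by omega
  have hN0 : (0 : ℝ) < N := by linarith
  have hpow : ∀ x y : ℝ, x ≤ y → (N : ℝ) ^ x ≤ (N : ℝ) ^ y := fun x y hxy => Real.rpow_le_rpow_of_exponent_le hN1 hxy
  obtain ⟨lam, hlam⟩ : ∃ lam, lam = |γ| * ((N : ℝ) ^ (c - d - τ) * (1 / 3 ^ (d + 1))) := ⟨_, rfl⟩
  have hγ0 : 0 < |γ| := lt_of_lt_of_le (by positivity) hγ1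
  obtain ⟨T, hT⟩ : ∃ T, T = 3 ^ (d + 1) * (N : ℝ) ^ (2 * τ) := ⟨_, rfl⟩
  have hT1 : 1 ≤ T := by
    rw [hT]
    exact one_le_mul_of_one_le_of_one_le h31 (Real.one_le_rpow hN1 (by positivity))
  obtain ⟨s, hs⟩ : ∃ s : ℝ, s = if 0 < γ then σ else -σ := ⟨_, rfl⟩
  have hs1 : s = 1 ∨ s = -1 := by
    rw [hs]
    rcases hσ with h4 | h4 <;> rw [h4] <;> split_ifs <;> norm_num
  have hsγ : s * γ = |γ| * σ := by
    rw [hs]
    split_ifs with h4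
    · rw [abs_of_pos h4]
      ring
    · rw [abs_of_nonpos (not_lt.1 h4)]
      ring
  have hbound : ∀ n, N ≤ n → n ≤ 3 * N → lam ≤ s * dk d (fun n => γ * f n) n ∧
      s * dk d (fun n => γ * f n) n ≤ T * lam := by
    intro n hn1 hn2
    have h1 := hn₀ N (by omega) n hn1 hn2
    rw [dk_mul]
    have e1 : s * (γ * dk d f n) = |γ| * (σ * dk d f n) := by
      rw [← mul_assoc, hsγ]
      ring
    rw [e1]
    constructor
    · rw [hlam]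
      exact mul_le_mul_of_nonneg_left h1.1 hγ0.le
    · have e2 : T * lam = |γ| * (N : ℝ) ^ (c - d + τ) := by
        rw [hT, hlam]
        have e3 : (N : ℝ) ^ (c - d + τ) = (N : ℝ) ^ (2 * τ) * (N : ℝ) ^ (c - d - τ) := by
          rw [← Real.rpow_add hN0]
          congr 1
          ring
        rw [e3]
        field_simp
      rw [e2]
      exact mul_le_mul_of_nonneg_left h1.2 hγ0.le
  have hu1 : (N : ℝ) ^ (a / 4) ≤ lam * (N : ℝ) ^ d := by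
    have h1 : (N : ℝ) ^ (a / 4) * 3 ^ (d + 1) ≤ |γ| * (N : ℝ) ^ (c - τ) := by
      calc (N : ℝ) ^ (a / 4) * 3 ^ (d + 1) ≤ (N : ℝ) ^ (a / 4) * (N : ℝ) ^ τ :=
            mul_le_mul_of_nonneg_left (hD2.trans hND) (by positivity)
        _ = (N : ℝ) ^ (a / 4 + τ) := by rw [← Real.rpow_add hN0]
        _ ≤ (N : ℝ) ^ (-τ + (c - τ)) := hpow _ _ (by linarith)
        _ = (N : ℝ) ^ (-τ) * (N : ℝ) ^ (c - τ) := Real.rpow_add hN0 _ _
        _ ≤ |γ| * (N : ℝ) ^ (c - τ) := mul_le_mul_of_nonneg_right hγ1 (by positivity)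
    have h2 : lam * (N : ℝ) ^ d = |γ| * (N : ℝ) ^ (c - τ) / 3 ^ (d + 1) := by
      rw [hlam]
      have e3 : (N : ℝ) ^ (c - τ) = (N : ℝ) ^ (c - d - τ) * (N : ℝ) ^ d := by
        rw [← Real.rpow_natCast (N : ℝ) d, ← Real.rpow_add hN0]
        congr 1
        ring
      rw [e3]
      field_simp
    rw [h2, le_div_iff₀ (by positivity)]
    exact h1
  have hu2 : 1 ≤ lam * (N : ℝ) ^ d := (Real.one_le_rpow hN1 (by positivity)).trans hu1
  have hu3 : lam ≤ (N : ℝ) ^ (-b) := by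
    calc lam ≤ (N : ℝ) ^ τ * ((N : ℝ) ^ (c - d - τ) * 1) := by
          rw [hlam]
          apply mul_le_mul hγ2 _ (by positivity) (by positivity)
          apply mul_le_mul_of_nonneg_left _ (by positivity)
          rw [div_le_one (by positivity)]
          exact h31
      _ = (N : ℝ) ^ (c - d) := by
          rw [mul_one, ← Real.rpow_add hN0]
          congr 1
          ring
      _ ≤ _ := hpow _ _ (by linarith)
  refine (block_sum d hd b c₀ C₀ H N hN1' (fun n => γ * f n) s lam T hs1 hT1 hu2 hu3 hbound).trans ?_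
  have h5 : (lam * (N : ℝ) ^ d) ^ (-c₀) ≤ (N : ℝ) ^ (-(8 * τ)) := by
    calc (lam * (N : ℝ) ^ d) ^ (-c₀) ≤ ((N : ℝ) ^ (a / 4)) ^ (-c₀) :=
          Real.rpow_le_rpow_of_nonpos (by positivity) hu1 (by linarith)
      _ = (N : ℝ) ^ (a / 4 * -c₀) := by rw [← Real.rpow_mul hN0.le]
      _ ≤ _ := hpow _ _ (by linarith)
  calc C₀ * T * N * (lam * (N : ℝ) ^ d) ^ (-c₀) ≤ C₀ * T * N * (N : ℝ) ^ (-(8 * τ)) :=
        mul_le_mul_of_nonneg_left h5 (by positivity)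
    _ = D * ((N : ℝ) ^ (2 * τ) * N * (N : ℝ) ^ (-(8 * τ))) := by rw [hT, hD]; ring
    _ ≤ (N : ℝ) ^ τ * ((N : ℝ) ^ (2 * τ) * N * (N : ℝ) ^ (-(8 * τ))) :=
        mul_le_mul_of_nonneg_right hND (by positivity)
    _ = (N : ℝ) ^ (1 - 5 * τ) := by
        have e1 : (N : ℝ) ^ τ * ((N : ℝ) ^ (2 * τ) * N * (N : ℝ) ^ (-(8 * τ))) =
            (N : ℝ) ^ τ * ((N : ℝ) ^ (2 * τ) * (N : ℝ) ^ (1 : ℝ) * (N : ℝ) ^ (-(8 * τ))) := by rw [Real.rpow_one]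
        rw [e1, ← Real.rpow_add hN0, ← Real.rpow_add hN0, ← Real.rpow_add hN0]
        congr 1
        ring
    _ ≤ _ := hpow _ _ (by linarith)

/-- multiples of integer parts in an arc, covered by boxes -/
theorem cover (s : Finset ℕ) (v : ℕ → ℝ) (α β lo hi : ℝ) (hα : 0 < α) (hlh : lo ≤ hi) (q : ℕ) (hq : 1 ≤ q) (B : ℝ)
    (hB0 : 0 ≤ B)
    (hB : ∀ i j : ℤ, ((s.filter (fun n => (q : ℤ) ∣ ⌊(q : ℝ) * (α * v n + β)⌋ - i ∧
      (q : ℤ) ∣ ⌊(q : ℝ) * v n⌋ - j)).card : ℝ) ≤ B) :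
    ({n : ℕ | n ∈ s ∧ ∃ z : ℤ, lo ≤ α * ⌊v n⌋ + β - z ∧ α * ⌊v n⌋ + β - z ≤ hi}.ncard : ℝ) ≤
      q * ((q * (hi - lo) + α + 2) * B) := by
  classical
  have hq0 : (0 : ℝ) < q := by exact_mod_cast hq
  obtain ⟨I, hI⟩ : ∃ I : ℕ → Finset ℤ, I = fun j : ℕ => Finset.Icc ⌊(q : ℝ) * lo + α * (j : ℝ)⌋ ⌊(q : ℝ) * hi + α * ((j : ℝ) + 1)⌋ :=
    ⟨_, rfl⟩
  have hIc : ∀ j, ((I j).card : ℝ) ≤ q * (hi - lo) + α + 2 := by
    intro j
    rw [hI]
    simp only [Int.card_Icc]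
    have hmono : ⌊(q : ℝ) * lo + α * j⌋ ≤ ⌊(q : ℝ) * hi + α * (j + 1)⌋ := by
      apply Int.floor_le_floor
      nlinarith
    have h1 : ((⌊(q : ℝ) * hi + α * (j + 1)⌋ + 1 - ⌊(q : ℝ) * lo + α * j⌋).toNat : ℝ) =
        ((⌊(q : ℝ) * hi + α * (j + 1)⌋ + 1 - ⌊(q : ℝ) * lo + α * j⌋ : ℤ) : ℝ) := by
      have : (((⌊(q : ℝ) * hi + α * (j + 1)⌋ + 1 - ⌊(q : ℝ) * lo + α * j⌋).toNat : ℤ)) =
        (⌊(q : ℝ) * hi + α * (j + 1)⌋ + 1 - ⌊(q : ℝ) * lo + α * j⌋ : ℤ) :=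
        Int.toNat_of_nonneg (by omega)
      exact_mod_cast congrArg (fun z : ℤ => (z : ℝ)) this
    rw [h1]
    push_cast
    have h2 := Int.floor_le ((q : ℝ) * hi + α * (j + 1))
    have h3 := Int.lt_floor_add_one ((q : ℝ) * lo + α * j)
    linarith
  have hsub : {n : ℕ | n ∈ s ∧ ∃ z : ℤ, lo ≤ α * ⌊v n⌋ + β - z ∧ α * ⌊v n⌋ + β - z ≤ hi} ⊆
      (((range q).biUnion fun j => (I j).biUnion fun i => s.filter (fun n =>
        (q : ℤ) ∣ ⌊(q : ℝ) * (α * v n + β)⌋ - i ∧ (q : ℤ) ∣ ⌊(q : ℝ) * v n⌋ - j) : Finset ℕ) : Set ℕ) := by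
    rintro n ⟨hn, z, hz1, hz2⟩
    rw [Finset.mem_coe]
    obtain ⟨θ, hθ⟩ : ∃ θ : ℝ, θ = v n - ⌊v n⌋ := ⟨_, rfl⟩
    have hθ0 : 0 ≤ θ := by rw [hθ]; linarith [Int.floor_le (v n)]
    have hθ1 : θ < 1 := by rw [hθ]; linarith [Int.lt_floor_add_one (v n)]
    obtain ⟨j, hj⟩ : ∃ j : ℕ, j = ⌊(q : ℝ) * θ⌋₊ := ⟨_, rfl⟩
    have hqθ0 : 0 ≤ (q : ℝ) * θ := by positivity
    have hj1 : (j : ℝ) ≤ q * θ := by rw [hj]; exact Nat.floor_le hqθ0
    have hj2 : q * θ < j + 1 := by rw [hj]; exact Nat.lt_floor_add_one _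
    have hjq : j < q := by
      have : (j : ℝ) < q := by nlinarith
      exact_mod_cast this
    have hfl : ⌊(q : ℝ) * v n⌋ = q * ⌊v n⌋ + j := by
      rw [Int.floor_eq_iff]
      push_cast
      have : (q : ℝ) * v n = q * ⌊v n⌋ + q * θ := by rw [hθ]; ring
      rw [this]
      constructor <;> linarith
    obtain ⟨y, hy⟩ : ∃ y : ℝ, y = (q : ℝ) * (α * v n + β) - q * z := ⟨_, rfl⟩
    have hy1 : y = q * (α * ⌊v n⌋ + β - z) + α * (q * θ) := by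
      rw [hy, hθ]; ring
    have hylo : (q : ℝ) * lo + α * j ≤ y := by
      rw [hy1]
      have h1 := mul_le_mul_of_nonneg_left hz1 hq0.le
      have h2 := mul_le_mul_of_nonneg_left hj1 hα.le
      linarith
    have hyhi : y ≤ (q : ℝ) * hi + α * (j + 1) := by
      rw [hy1]
      have h1 := mul_le_mul_of_nonneg_left hz2 hq0.le
      have h2 := mul_le_mul_of_nonneg_left hj2.le hα.le
      linarith
    refine Finset.mem_biUnion.2 ⟨j, Finset.mem_range.2 hjq, Finset.mem_biUnion.2 ⟨⌊y⌋, ?_, ?_⟩⟩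
    · rw [hI, Finset.mem_Icc]
      exact ⟨Int.floor_le_floor hylo, Int.floor_le_floor hyhi⟩
    · rw [Finset.mem_filter]
      refine ⟨hn, ?_, ?_⟩
      · have h3 : ⌊(q : ℝ) * (α * v n + β)⌋ = ⌊y⌋ + q * z := by
          have : (q : ℝ) * (α * v n + β) = y + ((q * z : ℤ) : ℝ) := by
            rw [hy]; push_cast; ring
          rw [this, Int.floor_add_intCast]
        rw [h3]
        exact ⟨z, by ring⟩
      · rw [hfl]
        exact ⟨⌊v n⌋, by ring⟩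
  have h1 : ({n : ℕ | n ∈ s ∧ ∃ z : ℤ, lo ≤ α * ⌊v n⌋ + β - z ∧
      α * ⌊v n⌋ + β - z ≤ hi}.ncard : ℝ) ≤
      (((range q).biUnion fun j => (I j).biUnion fun i => s.filter (fun n =>
        (q : ℤ) ∣ ⌊(q : ℝ) * (α * v n + β)⌋ - i ∧ (q : ℤ) ∣ ⌊(q : ℝ) * v n⌋ - j)).card : ℝ) := by
    have := Set.ncard_le_ncard hsub (Finset.finite_toSet _)
    rw [Set.ncard_coe_finset] at this
    exact_mod_cast this
  refine h1.trans ?_
  calc _ ≤ ∑ j ∈ range q, (((I j).biUnion fun i => s.filter (fun n =>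
        (q : ℤ) ∣ ⌊(q : ℝ) * (α * v n + β)⌋ - i ∧ (q : ℤ) ∣ ⌊(q : ℝ) * v n⌋ - (j : ℤ))).card : ℝ) := by
        exact_mod_cast Finset.card_biUnion_le
    _ ≤ ∑ j ∈ range q, (q * (hi - lo) + α + 2) * B := by
        refine Finset.sum_le_sum fun j _ => ?_
        calc (((I j).biUnion fun i => s.filter (fun n =>
              (q : ℤ) ∣ ⌊(q : ℝ) * (α * v n + β)⌋ - i ∧ (q : ℤ) ∣ ⌊(q : ℝ) * v n⌋ - (j : ℤ))).card : ℝ)
            ≤ ∑ i ∈ I j, ((s.filter (fun n =>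
              (q : ℤ) ∣ ⌊(q : ℝ) * (α * v n + β)⌋ - i ∧ (q : ℤ) ∣ ⌊(q : ℝ) * v n⌋ - (j : ℤ))).card : ℝ) := by
              exact_mod_cast Finset.card_biUnion_le
          _ ≤ ∑ i ∈ I j, B := Finset.sum_le_sum fun i _ => hB i j
          _ = (I j).card * B := by rw [Finset.sum_const, nsmul_eq_mul]
          _ ≤ _ := mul_le_mul_of_nonneg_right (hIc j) hB0
    _ = _ := by rw [Finset.sum_const, Finset.card_range, nsmul_eq_mul]

/-- the multiplier is not too close to rational numbers -/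
def Bad (α : ℝ) : Prop := ∃ C : ℝ, 0 < C ∧ ∀ x y : ℤ, (x ≠ 0 ∨ y ≠ 0) → C ≤ |(x : ℝ) * α + y| * (|(x : ℝ)| + |(y : ℝ)|)

/-- irrational square roots of rational numbers -/
theorem bad_of_sq {α : ℝ} (hirr : Irrational α) {p q : ℤ} (hq : 0 < q) (h : (q : ℝ) * α ^ 2 = p) : Bad α := by
  have hqR : (0 : ℝ) < q := by exact_mod_cast hq
  refine ⟨1 / (q * (|α| + 1)), by positivity, fun x y hxy => ?_⟩
  have h0 : (x : ℝ) * α + y ≠ 0 := by
    rcases eq_or_ne x 0 with hx | hx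
    · subst hx
      have hy : y ≠ 0 := by
        rcases hxy with h1 | h1
        · exact absurd rfl h1
        · exact h1
      simp only [Int.cast_zero, zero_mul, zero_add]
      exact_mod_cast hy
    · exact ((hirr.intCast_mul hx).add_intCast y).ne_zero
  have h0' : (x : ℝ) * α - y ≠ 0 := by
    rcases eq_or_ne x 0 with hx | hx
    · subst hx
      have hy : y ≠ 0 := by
        rcases hxy with h1 | h1
        · exact absurd rfl h1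
        · exact h1
      simp only [Int.cast_zero, zero_mul, zero_sub, ne_eq, neg_eq_zero]
      exact_mod_cast hy
    · exact ((hirr.intCast_mul hx).sub_intCast y).ne_zero
  have h1 : (q : ℝ) * (((x : ℝ) * α + y) * ((x : ℝ) * α - y)) = ((x ^ 2 * p - q * y ^ 2 : ℤ) : ℝ) := by
    push_cast
    rw [← h]
    ring
  have h2 : (x ^ 2 * p - q * y ^ 2 : ℤ) ≠ 0 := by
    intro h3
    rw [h3, Int.cast_zero] at h1
    rcases mul_eq_zero.1 h1 with h4 | h4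
    · exact hqR.ne' h4
    · rcases mul_eq_zero.1 h4 with h5 | h5
      · exact h0 h5
      · exact h0' h5
  have h3 : (1 : ℝ) ≤ |((x ^ 2 * p - q * y ^ 2 : ℤ) : ℝ)| := by
    have : 1 ≤ |(x ^ 2 * p - q * y ^ 2 : ℤ)| := Int.one_le_abs h2
    exact_mod_cast this
  rw [← h1, abs_mul, abs_mul, abs_of_pos hqR] at h3
  have h4 : |(x : ℝ) * α - y| ≤ (|(x : ℝ)| + |(y : ℝ)|) * (|α| + 1) := by
    calc |(x : ℝ) * α - y| ≤ |(x : ℝ) * α| + |(y : ℝ)| := abs_sub _ _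
      _ = |(x : ℝ)| * |α| + |(y : ℝ)| := by rw [abs_mul]
      _ ≤ _ := by
          have h5 : 0 ≤ |(y : ℝ)| * |α| := by positivity
          have h6 := abs_nonneg (x : ℝ)
          nlinarith
  rw [div_le_iff₀ (by positivity)]
  calc (1 : ℝ) ≤ q * (|(x : ℝ) * α + y| * |(x : ℝ) * α - y|) := h3
    _ ≤ q * (|(x : ℝ) * α + y| * ((|(x : ℝ)| + |(y : ℝ)|) * (|α| + 1))) := by
        apply mul_le_mul_of_nonneg_left _ hqR.le
        exact mul_le_mul_of_nonneg_left h4 (abs_nonneg _)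
    _ = _ := by ring

/-- **multiples of the integer parts of functions of a given order in arcs, with a power saving** -/
theorem order_arc (d : ℕ) (hd : 2 ≤ d) (c : ℝ) (hc0 : 0 < c) (hcd : c < d) (f : ℕ → ℝ) (hf : Order d c f)
    (α : ℝ) (hα : 0 < α) (hbad : Bad α) (β lo hi : ℝ) (hlh : lo ≤ hi) : ∃ κ : ℝ, 0 < κ ∧ ∃ N₀ : ℕ, ∀ N : ℕ, N₀ ≤ N →
      ({n : ℕ | n ∈ Ioc N (2 * N) ∧ ∃ z : ℤ, lo ≤ α * ⌊f n⌋ + β - z ∧ α * ⌊f n⌋ + β - z ≤ hi}.ncard : ℝ) ≤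
        (hi - lo) * N + (N : ℝ) ^ (1 - κ) := by
  classical
  obtain ⟨τ, hτ0, hτ1, N₁, h₁⟩ := order_exp d hd c hc0 hcd f hf
  obtain ⟨C, hC, hCb⟩ := hbad
  obtain ⟨κ, hκ⟩ : ∃ κ, κ = τ / 200 := ⟨_, rfl⟩
  have hκ0 : 0 < κ := by rw [hκ]; positivity
  have hτκ : τ = 200 * κ := by rw [hκ]; ring
  obtain ⟨M, hM⟩ : ∃ M, M = hi - lo + α + 2 := ⟨_, rfl⟩
  have hM0 : 0 < M := by rw [hM]; linarith
  have hev : ∀ᶠ Z : ℝ in atTop, 1 ≤ Z ∧ 6 * Z ^ (2 * κ) ≤ Z ^ (20 * κ) ∧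
      8 * (α + 1) * Z ^ (60 * κ) ≤ Z ^ (200 * κ) ∧ 16 / C * Z ^ (60 * κ) ≤ Z ^ (200 * κ) ∧
      2 * (α + 2) * Z ^ (-(2 * κ)) ≤ Z ^ (-κ) ∧ M * 2368 * Z ^ (-(12 * κ)) ≤ Z ^ (-κ) := by
    filter_upwards [eventually_ge_atTop (1 : ℝ), ev_pow (2 * κ) (20 * κ) 6 (by linarith),
      ev_pow (60 * κ) (200 * κ) (8 * (α + 1)) (by linarith), ev_pow (60 * κ) (200 * κ) (16 / C) (by linarith),
      ev_pow (-(2 * κ)) (-κ) (2 * (α + 2)) (by linarith),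
      ev_pow (-(12 * κ)) (-κ) (M * 2368) (by linarith)] with Z h1 h2 h3 h4 h5 h6
    exact ⟨h1, h2, h3, h4, h5, h6⟩
  obtain ⟨Z₀, hZ₀⟩ := eventually_atTop.mp hev
  refine ⟨κ, hκ0, ⌈Z₀⌉₊ + N₁ + 1, fun N hN => ?_⟩
  have hNZ : Z₀ ≤ N := (Nat.le_ceil Z₀).trans (by exact_mod_cast (by omega : ⌈Z₀⌉₊ ≤ N))
  obtain ⟨hN1, h3q, hup, hlow, hq2, hlast⟩ := hZ₀ N hNZ
  have hN0 : (0 : ℝ) < N := by linarith
  have hpow : ∀ x y : ℝ, x ≤ y → (N : ℝ) ^ x ≤ (N : ℝ) ^ y := fun x y hxy => Real.rpow_le_rpow_of_exponent_le hN1 hxy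
  obtain ⟨q, hq⟩ : ∃ q : ℕ, q = ⌈(N : ℝ) ^ (2 * κ)⌉₊ := ⟨_, rfl⟩
  obtain ⟨K, hK⟩ : ∃ K : ℕ, K = ⌈(N : ℝ) ^ (20 * κ)⌉₊ := ⟨_, rfl⟩
  have hqa : (N : ℝ) ^ (2 * κ) ≤ q := by rw [hq]; exact Nat.le_ceil _
  have hQ1 : 1 ≤ (N : ℝ) ^ (2 * κ) := Real.one_le_rpow hN1 (by positivity)
  have hR1 : 1 ≤ (N : ℝ) ^ (20 * κ) := Real.one_le_rpow hN1 (by positivity)
  have hqb : (q : ℝ) ≤ 2 * (N : ℝ) ^ (2 * κ) := by
    rw [hq]
    have := Nat.ceil_lt_add_one (show 0 ≤ (N : ℝ) ^ (2 * κ) by positivity)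
    linarith
  have hKa : (N : ℝ) ^ (20 * κ) ≤ K := by rw [hK]; exact Nat.le_ceil _
  have hKb : (K : ℝ) ≤ 2 * (N : ℝ) ^ (20 * κ) := by
    rw [hK]
    have := Nat.ceil_lt_add_one (show 0 ≤ (N : ℝ) ^ (20 * κ) by positivity)
    linarith
  have hq1 : 1 ≤ q := by exact_mod_cast hQ1.trans hqa
  have hK1 : 1 ≤ K := by exact_mod_cast hR1.trans hKa
  have hKq : 3 * q ≤ K := by
    have : 3 * (q : ℝ) ≤ K := by linarith
    exact_mod_cast this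
  have hq0 : (0 : ℝ) < q := by exact_mod_cast hq1
  have hK0 : (0 : ℝ) < K := by exact_mod_cast hK1
  have hK3 : (K : ℝ) ^ 3 ≤ 8 * (N : ℝ) ^ (60 * κ) := by
    calc (K : ℝ) ^ 3 ≤ (2 * (N : ℝ) ^ (20 * κ)) ^ 3 := pow_le_pow_left₀ hK0.le hKb 3
      _ = 8 * (N : ℝ) ^ (60 * κ) := by
          rw [mul_pow, ← Real.rpow_natCast ((N : ℝ) ^ (20 * κ)) 3, ← Real.rpow_mul hN0.le]
          norm_num
          congr 1
          ring
  have hbox : ∀ i j : ℤ, (((Ioc N (2 * N)).filter (fun n => (q : ℤ) ∣ ⌊(q : ℝ) * (α * f n + β)⌋ - i ∧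
      (q : ℤ) ∣ ⌊(q : ℝ) * f n⌋ - j)).card : ℝ) ≤
      N / (q : ℝ) ^ 2 + (q : ℝ) ^ 2 * (10 * N / K + (K : ℝ) ^ 6 * (N : ℝ) ^ (1 - τ)) := by
    intro i j
    have h1 := discJ (r := 2) (by norm_num) (Ioc N (2 * N))
      (fun n => ![(q : ℝ) * (α * f n + β), (q : ℝ) * f n]) K q hK1 hq1 hKq ((N : ℝ) ^ (1 - τ)) (by positivity) (by
        intro g hg hgK
        obtain ⟨γ, hγ⟩ : ∃ γ : ℝ, γ = (g 0 : ℝ) * α + g 1 := ⟨_, rfl⟩
        have hg01 : g 0 ≠ 0 ∨ g 1 ≠ 0 := by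
          by_contra hcon
          push Not at hcon
          apply hg
          funext k
          fin_cases k
          · exact hcon.1
          · exact hcon.2
        have habs : ∀ k, |((g k : ℤ) : ℝ)| ≤ (K : ℝ) ^ 3 := by
          intro k
          have h2 := (hgK k).le
          rw [← Int.cast_abs, Int.abs_eq_natAbs]
          exact_mod_cast h2
        have hγ1 : (N : ℝ) ^ (-τ) ≤ |γ| := by
          have h2 := hCb (g 0) (g 1) hg01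
          rw [← hγ] at h2
          have h3 : |((g 0 : ℤ) : ℝ)| + |((g 1 : ℤ) : ℝ)| ≤ 16 * (N : ℝ) ^ (60 * κ) := by
            linarith [habs 0, habs 1]
          have h4 : C ≤ |γ| * (16 * (N : ℝ) ^ (60 * κ)) :=
            h2.trans (mul_le_mul_of_nonneg_left h3 (abs_nonneg _))
          have h5 : 16 * (N : ℝ) ^ (60 * κ) ≤ C * (N : ℝ) ^ τ := by
            have h6 := mul_le_mul_of_nonneg_left hlow hC.le
            have e1 : C * (16 / C * (N : ℝ) ^ (60 * κ)) = 16 * (N : ℝ) ^ (60 * κ) := by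
              field_simp
            rw [e1, ← hτκ] at h6
            exact h6
          have h7 : C ≤ |γ| * (C * (N : ℝ) ^ τ) := h4.trans (mul_le_mul_of_nonneg_left h5 (abs_nonneg _))
          have h8 : 1 ≤ |γ| * (N : ℝ) ^ τ := by
            have e1 : |γ| * (C * (N : ℝ) ^ τ) = C * (|γ| * (N : ℝ) ^ τ) := by ring
            rw [e1] at h7
            exact le_of_mul_le_mul_left (by rw [mul_one]; exact h7) hC
          rw [Real.rpow_neg hN0.le, inv_eq_one_div, div_le_iff₀ (by positivity)]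
          exact h8
        have hγ2 : |γ| ≤ (N : ℝ) ^ τ := by
          rw [hτκ]
          refine le_trans ?_ hup
          rw [hγ]
          calc |(g 0 : ℝ) * α + g 1| ≤ |(g 0 : ℝ) * α| + |(g 1 : ℝ)| := abs_add_le _ _
            _ = |(g 0 : ℝ)| * α + |(g 1 : ℝ)| := by rw [abs_mul, abs_of_pos hα]
            _ ≤ (K : ℝ) ^ 3 * α + (K : ℝ) ^ 3 :=
                add_le_add (mul_le_mul_of_nonneg_right (habs 0) hα.le) (habs 1)
            _ = (K : ℝ) ^ 3 * (α + 1) := by ring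
            _ ≤ (8 * (N : ℝ) ^ (60 * κ)) * (α + 1) := mul_le_mul_of_nonneg_right hK3 (by linarith)
            _ = _ := by ring
        have h3 := h₁ N (by omega) γ hγ1 hγ2
        refine le_trans (le_of_eq ?_) h3
        have e1 : ∑ n ∈ Ioc N (2 * N), e (∑ k, ((g k : ℤ) : ℝ) *
            ((![(q : ℝ) * (α * f n + β), (q : ℝ) * f n] : Fin 2 → ℝ) k / q)) =
            (∑ n ∈ Ioc N (2 * N), e (γ * f n)) * e ((g 0 : ℝ) * β) := by
          rw [sum_mul]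
          apply sum_congr rfl
          intro n _
          rw [← e_add, Fin.sum_univ_two]
          congr 1
          simp only [Matrix.cons_val_zero, Matrix.cons_val_one]
          rw [hγ]
          field_simp
          ring
        rw [e1, norm_mul, norm_e, mul_one]) ![i, j]
    have h2 : ((Ioc N (2 * N)).filter (fun n => ∀ k, (q : ℤ) ∣
        ⌊(![(q : ℝ) * (α * f n + β), (q : ℝ) * f n] : Fin 2 → ℝ) k⌋ - (![i, j] : Fin 2 → ℤ) k)) =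
        (Ioc N (2 * N)).filter (fun n => (q : ℤ) ∣ ⌊(q : ℝ) * (α * f n + β)⌋ - i ∧ (q : ℤ) ∣ ⌊(q : ℝ) * f n⌋ - j) := by
      refine Finset.filter_congr fun n _ => ?_
      rw [Fin.forall_fin_two]
      simp
    rw [h2, Nat.card_Ioc, show 2 * N - N = N by omega] at h1
    have h3 := (abs_le.1 h1).2
    have e2 : (3 * ((2 : ℕ) : ℝ) + 4) * (N : ℝ) / K + (K : ℝ) ^ (3 * 2) * (N : ℝ) ^ (1 - τ) =
        10 * N / K + (K : ℝ) ^ 6 * (N : ℝ) ^ (1 - τ) := by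
      push_cast
      norm_num
    rw [e2] at h3
    linarith
  have hcov := cover (Ioc N (2 * N)) f α β lo hi hα hlh q hq1 _ (by positivity) hbox
  refine hcov.trans ?_
  obtain ⟨W, hW⟩ : ∃ W : ℝ, W = 10 * N / K + (K : ℝ) ^ 6 * (N : ℝ) ^ (1 - τ) := ⟨_, rfl⟩
  rw [← hW]
  have hW0 : 0 ≤ W := by rw [hW]; positivity
  have hWb : W ≤ 74 * (N : ℝ) ^ (1 - 20 * κ) := by
    have h1 : 10 * (N : ℝ) / K ≤ 10 * (N : ℝ) ^ (1 - 20 * κ) := by
      rw [div_le_iff₀ hK0]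
      calc 10 * (N : ℝ) = 10 * ((N : ℝ) ^ (1 - 20 * κ) * (N : ℝ) ^ (20 * κ)) := by
            rw [← Real.rpow_add hN0]
            have : 1 - 20 * κ + 20 * κ = 1 := by ring
            rw [this, Real.rpow_one]
        _ ≤ 10 * ((N : ℝ) ^ (1 - 20 * κ) * K) := by
            apply mul_le_mul_of_nonneg_left _ (by norm_num)
            exact mul_le_mul_of_nonneg_left hKa (by positivity)
        _ = _ := by ring
    have h2 : (K : ℝ) ^ 6 * (N : ℝ) ^ (1 - τ) ≤ 64 * (N : ℝ) ^ (1 - 20 * κ) := by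
      have e3 : (K : ℝ) ^ 6 = ((K : ℝ) ^ 3) ^ 2 := by ring
      rw [e3]
      calc ((K : ℝ) ^ 3) ^ 2 * (N : ℝ) ^ (1 - τ) ≤ (8 * (N : ℝ) ^ (60 * κ)) ^ 2 * (N : ℝ) ^ (1 - τ) := by
            apply mul_le_mul_of_nonneg_right _ (by positivity)
            exact pow_le_pow_left₀ (by positivity) hK3 2
        _ = 64 * ((N : ℝ) ^ (120 * κ) * (N : ℝ) ^ (1 - τ)) := by
            rw [mul_pow, ← Real.rpow_natCast ((N : ℝ) ^ (60 * κ)) 2, ← Real.rpow_mul hN0.le]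
            norm_num
            rw [mul_assoc]
            congr 3
            ring
        _ = 64 * (N : ℝ) ^ (120 * κ + (1 - τ)) := by rw [Real.rpow_add hN0]
        _ ≤ _ := by
            apply mul_le_mul_of_nonneg_left _ (by norm_num)
            exact hpow _ _ (by rw [hτκ]; linarith)
    rw [hW]
    linarith
  have hq4 : (q : ℝ) ^ 4 ≤ 16 * (N : ℝ) ^ (8 * κ) := by
    calc (q : ℝ) ^ 4 ≤ (2 * (N : ℝ) ^ (2 * κ)) ^ 4 := pow_le_pow_left₀ hq0.le hqb 4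
      _ = 16 * (N : ℝ) ^ (8 * κ) := by
          rw [mul_pow, ← Real.rpow_natCast ((N : ℝ) ^ (2 * κ)) 4, ← Real.rpow_mul hN0.le]
          norm_num
          congr 1
          ring
  have hq1R : (1 : ℝ) ≤ q := by exact_mod_cast hq1
  have hX : (q : ℝ) * (hi - lo) + α + 2 ≤ q * M := by
    rw [hM]
    nlinarith
  have e4 : (q : ℝ) * ((q * (hi - lo) + α + 2) * (N / (q : ℝ) ^ 2 + (q : ℝ) ^ 2 * W)) =
      (hi - lo) * N + (α + 2) * (N / q) + q * ((q * (hi - lo) + α + 2) * ((q : ℝ) ^ 2 * W)) := by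
    field_simp
    ring
  rw [e4]
  have h6 : (α + 2) * ((N : ℝ) / q) ≤ (N : ℝ) ^ (1 - κ) / 2 := by
    have h7 : (N : ℝ) / q ≤ N * (N : ℝ) ^ (-(2 * κ)) := by
      rw [div_le_iff₀ hq0]
      calc (N : ℝ) = N * ((N : ℝ) ^ (-(2 * κ)) * (N : ℝ) ^ (2 * κ)) := by
            rw [← Real.rpow_add hN0]
            simp
        _ ≤ N * ((N : ℝ) ^ (-(2 * κ)) * q) := by
            apply mul_le_mul_of_nonneg_left _ hN0.le
            exact mul_le_mul_of_nonneg_left hqa (by positivity)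
        _ = _ := by ring
    calc (α + 2) * ((N : ℝ) / q) ≤ (α + 2) * (N * (N : ℝ) ^ (-(2 * κ))) :=
          mul_le_mul_of_nonneg_left h7 (by linarith)
      _ = N * (2 * (α + 2) * (N : ℝ) ^ (-(2 * κ))) / 2 := by ring
      _ ≤ N * (N : ℝ) ^ (-κ) / 2 := by
          apply div_le_div_of_nonneg_right _ (by norm_num)
          exact mul_le_mul_of_nonneg_left hq2 hN0.le
      _ = (N : ℝ) ^ (1 - κ) / 2 := by rw [sub_eq_add_neg, Real.rpow_add hN0, Real.rpow_one]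
  have h8 : (q : ℝ) * ((q * (hi - lo) + α + 2) * ((q : ℝ) ^ 2 * W)) ≤ (N : ℝ) ^ (1 - κ) / 2 := by
    calc (q : ℝ) * ((q * (hi - lo) + α + 2) * ((q : ℝ) ^ 2 * W)) ≤ q * ((q * M) * ((q : ℝ) ^ 2 * W)) := by
          apply mul_le_mul_of_nonneg_left _ hq0.le
          exact mul_le_mul_of_nonneg_right hX (by positivity)
      _ = M * ((q : ℝ) ^ 4 * W) := by ring
      _ ≤ M * ((16 * (N : ℝ) ^ (8 * κ)) * (74 * (N : ℝ) ^ (1 - 20 * κ))) := by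
          apply mul_le_mul_of_nonneg_left _ hM0.le
          exact mul_le_mul hq4 hWb hW0 (by positivity)
      _ = N * (M * 2368 * (N : ℝ) ^ (-(12 * κ))) / 2 := by
          have e5 : (N : ℝ) ^ (8 * κ) * (N : ℝ) ^ (1 - 20 * κ) = N * (N : ℝ) ^ (-(12 * κ)) := by
            rw [← Real.rpow_add hN0]
            nth_rewrite 2 [← Real.rpow_one (N : ℝ)]
            rw [← Real.rpow_add hN0]
            congr 1
            ring
          have e6 : M * ((16 * (N : ℝ) ^ (8 * κ)) * (74 * (N : ℝ) ^ (1 - 20 * κ))) =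
              M * 1184 * ((N : ℝ) ^ (8 * κ) * (N : ℝ) ^ (1 - 20 * κ)) := by ring
          rw [e6, e5]
          ring
      _ ≤ N * (N : ℝ) ^ (-κ) / 2 := by
          apply div_le_div_of_nonneg_right _ (by norm_num)
          exact mul_le_mul_of_nonneg_left hlast hN0.le
      _ = (N : ℝ) ^ (1 - κ) / 2 := by rw [sub_eq_add_neg, Real.rpow_add hN0, Real.rpow_one]
  linarith

/-- counting the bad members -/
theorem count_order (d : ℕ) (hd : 2 ≤ d) (c : ℝ) (hc0 : 0 < c) (hcd : c < d) (f : ℕ → ℝ) (hf : Order d c f)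
    (α : ℝ) (hα : 0 < α) (hbad : Bad α) (β lo hi : ℝ) (hlh : lo ≤ hi) (P : ℕ → Prop)
    (hP : ∀ m : ℕ, 1 ≤ m → P m → ∃ z : ℤ, lo ≤ α * m + β - z ∧ α * m + β - z ≤ hi) :
    ∃ κ : ℝ, 0 < κ ∧ ∃ N₀ : ℕ, ∀ N : ℕ, N₀ ≤ N →
      ({t : ℕ | t ∈ Ioc N (2 * N) ∧ 1 ≤ f t ∧ P ⌊f t⌋₊}.ncard : ℝ) ≤ (hi - lo) * N + (N : ℝ) ^ (1 - κ) := by
  obtain ⟨κ, hκ, N₀, h⟩ := order_arc d hd c hc0 hcd f hf α hα hbad β lo hi hlh
  refine ⟨κ, hκ, N₀, fun N hN => le_trans ?_ (h N hN)⟩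
  have hsub : {t : ℕ | t ∈ Ioc N (2 * N) ∧ 1 ≤ f t ∧ P ⌊f t⌋₊} ⊆
      {n : ℕ | n ∈ Ioc N (2 * N) ∧ ∃ z : ℤ, lo ≤ α * ⌊f n⌋ + β - z ∧ α * ⌊f n⌋ + β - z ≤ hi} := by
    rintro n ⟨hn, hn1, hn'⟩
    obtain ⟨z, h5, h6⟩ := hP _ ((Nat.one_le_floor_iff _).2 hn1) hn'
    have h7 : ((⌊f n⌋₊ : ℕ) : ℝ) = ((⌊f n⌋ : ℤ) : ℝ) := by
      have : ((⌊f n⌋₊ : ℕ) : ℤ) = ⌊f n⌋ := Int.natCast_floor_eq_floor (zero_le_one.trans hn1)
      exact_mod_cast congrArg (fun z : ℤ => (z : ℝ)) this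
    rw [h7] at h5 h6
    exact ⟨hn, z, h5, h6⟩
  exact_mod_cast Set.ncard_le_ncard hsub ((Finset.finite_toSet (Ioc N (2 * N))).subset fun n hn => hn.1)

end Pool.Agent.U828.KD
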