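import Pool.Agent.U828.KD.JointG
import Pool.Agent.Y961.JR.Class
import Pool.Agent.Y961.JR.ScaledJ

/-! Record prime gaps around the multiples of several functions of different orders (helper828). -/

set_option autoImplicit false

namespace Pool.Agent.U828.KD

open Finset Filter
open Pool.Agent.H469R2.NK (e norm_e e_add conj_e)
open Pool.Agent.W147.PS (ff)

/-- the sum over a residue class -/
lemma class_sum (s : Finset ℕ) (F : ℕ → ℝ) (q : ℕ) (hq : 1 ≤ q) (E : ℝ)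
    (hE : ∀ l : ℕ, ‖∑ n ∈ s, e (F n - -((l : ℝ) / q * n))‖ ≤ E) (b : ℤ) :
    ‖∑ n ∈ s.filter (fun n : ℕ => (q : ℤ) ∣ (n : ℤ) - b), e (F n)‖ ≤ E := by
  classical
  have hq0 : (0 : ℝ) < q := by exact_mod_cast hq
  have h1 : ∀ m : ℤ, ∑ h ∈ range q, e (m * ((h : ℝ) / q)) = if (q : ℤ) ∣ m then (q : ℂ) else 0 := by
    intro m
    split_ifs with hm
    · obtain ⟨t, rfl⟩ := hm
      have : ∀ h ∈ range q, e (((q : ℤ) * t : ℤ) * ((h : ℝ) / q)) = 1 := by
        intro h _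
        have e1 : (((q : ℤ) * t : ℤ) : ℝ) * ((h : ℝ) / q) = ((t * h : ℤ) : ℝ) := by
          push_cast
          field_simp
        rw [e1]
        exact Pool.Agent.TH915.PW.e_int _
      rw [sum_congr rfl this]
      simp
    · exact Pool.Agent.TH915.PW.sum_char q hq m hm
  have h2 : (q : ℂ) * ∑ n ∈ s.filter (fun n : ℕ => (q : ℤ) ∣ (n : ℤ) - b), e (F n) =
      ∑ l ∈ range q, e (-(b : ℝ) * ((l : ℝ) / q)) * ∑ n ∈ s, e (F n - -((l : ℝ) / q * n)) := by
    symm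
    have h3 : ∀ l ∈ range q, e (-(b : ℝ) * ((l : ℝ) / q)) * ∑ n ∈ s, e (F n - -((l : ℝ) / q * n)) =
        ∑ n ∈ s, e (F n) * e ((((n : ℤ) - b : ℤ) : ℝ) * ((l : ℝ) / q)) := by
      intro l _
      rw [mul_sum]
      refine sum_congr rfl fun n _ => ?_
      rw [← e_add, ← e_add]
      congr 1
      push_cast
      ring
    rw [sum_congr rfl h3, sum_comm]
    have h4 : ∀ n ∈ s, ∑ l ∈ range q, e (F n) * e ((((n : ℤ) - b : ℤ) : ℝ) * ((l : ℝ) / q)) =
        if (q : ℤ) ∣ (n : ℤ) - b then (q : ℂ) * e (F n) else 0 := by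
      intro n _
      rw [← mul_sum, h1]
      split_ifs <;> ring
    rw [sum_congr rfl h4, ← sum_filter, mul_sum]
  have h5 : ‖(q : ℂ) * ∑ n ∈ s.filter (fun n : ℕ => (q : ℤ) ∣ (n : ℤ) - b), e (F n)‖ ≤ q * E := by
    rw [h2]
    refine (norm_sum_le _ _).trans ?_
    calc _ ≤ ∑ _l ∈ range q, E := sum_le_sum fun l _ => by
          rw [norm_mul, norm_e, one_mul]
          exact hE l
      _ = q * E := by rw [sum_const, card_range, nsmul_eq_mul]
  rw [norm_mul, Complex.norm_natCast] at h5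
  exact le_of_mul_le_mul_left h5 hq0

lemma sdiff_filter {M : Type*} [AddCommMonoid M] (I G : Finset ℕ) (hG : G ⊆ I) (P : ℕ → Prop) [DecidablePred P]
    (g : ℕ → M) : ∑ n ∈ (I \ G).filter P, g n + ∑ n ∈ G.filter P, g n = ∑ n ∈ I.filter P, g n := by
  rw [sum_filter, sum_filter, sum_filter]
  exact sum_sdiff hG

/-- **Record gaps around the multiples of several functions of different orders.** -/
theorem rec_orders {r s : ℕ} (hr : 1 ≤ r) (hs : 1 ≤ s) (d : ℕ) (hd : 2 ≤ d) (c : Fin r → ℝ)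
    (hc : Function.Injective c) (hc0 : ∀ j, 0 < c j) (hcd : ∀ j, c j < d) (f : Fin r → ℕ → ℝ)
    (hf : ∀ j, Order d (c j) (f j)) (ρ : ℝ) (hρ : 0 < ρ) (hlow : ∀ j, ∀ᶠ n : ℕ in atTop, (n : ℝ) ^ ρ ≤ f j n)
    (α : Fin s → ℝ) (hα : ∀ i, 0 < α i) (c₁ : ℝ) (A : ℕ) (hc₁ : 0 < c₁)
    (hA : ∀ (h : Fin s → ℤ) (H : ℕ), h ≠ 0 → (∀ i, |h i| ≤ H) → c₁ ≤ |∑ i, (h i : ℝ) * α i| * (H : ℝ) ^ A)
    (ε : ℝ) (hε : 0 < ε) :
    ∃ κ : ℝ, 0 < κ ∧ ∀ᶠ N : ℕ in atTop, ∀ G ⊆ Ioc N (2 * N),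
      (∀ n ∈ Ioc N (2 * N), (∀ q : ℕ, q.Prime → κ * ff N < |(q : ℝ) - n|) →
        (∀ i j, ∀ q : ℕ, q.Prime → κ * ff N < |(q : ℝ) - α i * f j n|) → n ∈ G) →
      (N : ℝ) ^ (1 - ε) ≤ G.card := by
  classical
  obtain ⟨τ, hτ0, hτ1, N₁, hJ⟩ := joint_exp hr d hd c hc hc0 hcd (fun n j => f j n) hf
  have hA1 : (0 : ℝ) < A + 1 := by positivity
  obtain ⟨η, hη⟩ : ∃ η, η = min (τ / (8 * (A + 1))) (min (ρ / 2) (min (ε / 4) (1 / 4))) := ⟨_, rfl⟩
  have hη0 : 0 < η := by rw [hη]; positivity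
  have hηA : η * (A + 1) ≤ τ / 8 := by
    have h1 : η ≤ τ / (8 * (A + 1)) := by rw [hη]; exact min_le_left _ _
    calc η * (A + 1) ≤ τ / (8 * (A + 1)) * (A + 1) := mul_le_mul_of_nonneg_right h1 hA1.le
      _ = τ / 8 := by field_simp
  have hητ : η ≤ τ / 8 := le_trans (by nlinarith [Nat.cast_nonneg (α := ℝ) A]) hηA
  have hηρ : 2 * η ≤ ρ := by
    have : η ≤ ρ / 2 := by rw [hη]; exact (min_le_right _ _).trans (min_le_left _ _)
    linarith
  have hηε : η ≤ ε / 4 := by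
    rw [hη]; exact (min_le_right _ _).trans ((min_le_right _ _).trans (min_le_left _ _))
  have hη4 : η ≤ 1 / 4 := by
    rw [hη]; exact (min_le_right _ _).trans ((min_le_right _ _).trans (min_le_right _ _))
  obtain ⟨κ, hκ, hcrit⟩ := Pool.Agent.Y961.JR.crit_scaled1J (s * r) (Nat.mul_pos hs hr) η hη0 (by linarith)
  refine ⟨κ, hκ, ?_⟩
  have hlim : ∀ x : ℝ, 0 < x → ∀ y : ℝ, ∀ᶠ N : ℕ in atTop, y ≤ (N : ℝ) ^ x := fun x hx y =>
    ((tendsto_rpow_atTop hx).comp tendsto_natCast_atTop_atTop).eventually_ge_atTop y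
  have hlow' : ∀ᶠ N : ℕ in atTop, ∀ j, ∀ n : ℕ, N ≤ n → (n : ℝ) ^ ρ ≤ f j n := by
    choose n₀ hn₀ using fun j => eventually_atTop.1 (hlow j)
    filter_upwards [eventually_ge_atTop (univ.sup n₀)] with N hN j n hn
    exact hn₀ j n (((le_sup (mem_univ j)).trans hN).trans hn)
  have hαη : ∀ᶠ N : ℕ in atTop, ∀ i, 1 ≤ α i * (N : ℝ) ^ η := by
    rw [eventually_all]
    intro i
    filter_upwards [hlim η hη0 (1 / α i)] with N hN
    have := mul_le_mul_of_nonneg_left hN (hα i).le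
    rwa [mul_one_div_cancel (hα i).ne'] at this
  filter_upwards [tendsto_natCast_atTop_atTop.eventually hcrit, eventually_ge_atTop (max N₁ 1), hlow', hαη,
    hlim (τ / 8) (by positivity) (∑ i, α i), hlim (τ / 8) (by positivity) (2 ^ A / c₁), hlim (ε / 4) (by positivity) 8,
    hlim (τ / 2) (by positivity) 8, hlim (1 / 2) (by norm_num) 8] with N h1 h2 h3 h4 h5 h6 h7 h8 h9
  intro G hG hgood
  by_contra hcon
  push Not at hcon
  have hN1' : 1 ≤ N := (le_max_right _ _).trans h2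
  have hN1 : (1 : ℝ) ≤ N := by exact_mod_cast hN1'
  have hN0 : (0 : ℝ) < N := by linarith
  have hpow : ∀ x y : ℝ, x ≤ y → (N : ℝ) ^ x ≤ (N : ℝ) ^ y := fun x y hxy => Real.rpow_le_rpow_of_exponent_le hN1 hxy
  obtain ⟨S, hS⟩ : ∃ S, S = Ioc N (2 * N) \ G := ⟨_, rfl⟩
  -- the sizes
  have hP1 : 8 * (N : ℝ) ^ (1 - ε) ≤ (N : ℝ) ^ (1 - η) := by
    calc 8 * (N : ℝ) ^ (1 - ε) ≤ (N : ℝ) ^ (ε / 4) * (N : ℝ) ^ (1 - ε) := mul_le_mul_of_nonneg_right h7 (by positivity)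
      _ = (N : ℝ) ^ (ε / 4 + (1 - ε)) := by rw [← Real.rpow_add hN0]
      _ ≤ _ := hpow _ _ (by linarith)
  have hP2 : 8 * (N : ℝ) ^ (1 - τ) ≤ (N : ℝ) ^ (1 - η) := by
    calc 8 * (N : ℝ) ^ (1 - τ) ≤ (N : ℝ) ^ (τ / 2) * (N : ℝ) ^ (1 - τ) := mul_le_mul_of_nonneg_right h8 (by positivity)
      _ = (N : ℝ) ^ (τ / 2 + (1 - τ)) := by rw [← Real.rpow_add hN0]
      _ ≤ _ := hpow _ _ (by linarith)
  have hP3 : 8 ≤ (N : ℝ) ^ (1 - η) := h9.trans (hpow _ _ (by linarith))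
  have hP4 : (N : ℝ) ^ (1 - η) = N * (N : ℝ) ^ (-η) := by
    rw [sub_eq_add_neg, Real.rpow_add hN0, Real.rpow_one]
  have hη1 : (N : ℝ) ^ (-η) ≤ 1 := Real.rpow_le_one_of_one_le_of_nonpos hN1 (by linarith)
  have hη2 : 0 < (N : ℝ) ^ (-η) := by positivity
  have hle : (N : ℝ) ^ (1 - η) ≤ N := by rw [hP4]; exact mul_le_of_le_one_right hN0.le hη1
  have hScard : (S.card : ℝ) = N - G.card := by
    rw [hS, cast_card_sdiff hG, Nat.card_Ioc]
    rw [show 2 * N - N = N by omega]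
  have hS2 : (N : ℝ) / 2 ≤ S.card := by rw [hScard]; linarith
  have hSη : (N : ℝ) ^ (1 - η) / 2 ≤ S.card * (N : ℝ) ^ (-η) := by
    rw [hP4]
    calc (N : ℝ) * (N : ℝ) ^ (-η) / 2 = N / 2 * (N : ℝ) ^ (-η) := by ring
      _ ≤ _ := mul_le_mul_of_nonneg_right hS2 hη2.le
  have hSn : S.Nonempty := by
    rw [← card_pos]
    have : (0 : ℝ) < S.card := by linarith
    exact_mod_cast this
  suffices hkey : ∃ n ∈ S, (∀ q : ℕ, q.Prime → κ * ff N < |(q : ℝ) - ((n : ℤ) : ℝ)|) ∧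
      ∀ k : Fin (s * r), ∀ q : ℕ, q.Prime →
        κ * ff N < |(q : ℝ) - α (finProdFinEquiv.symm k).1 * f (finProdFinEquiv.symm k).2 n| by
    obtain ⟨n, hn, hn1, hn2⟩ := hkey
    rw [hS, Finset.mem_sdiff] at hn
    apply hn.2
    refine hgood n hn.1 (fun q hq => ?_) fun i j q hq => ?_
    · have := hn1 q hq
      rwa [Int.cast_natCast] at this
    · have := hn2 (finProdFinEquiv (i, j)) q hq
      rw [Equiv.symm_apply_apply] at this
      exact this
  refine h1 ℕ S (fun n => (n : ℤ))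
    (fun n k => α (finProdFinEquiv.symm k).1 * f (finProdFinEquiv.symm k).2 n) hSn ?_ ?_ ?_
  · intro n hn
    rw [hS, Finset.mem_sdiff, mem_Ioc] at hn
    have h10 : (N : ℝ) ≤ n := by exact_mod_cast hn.1.1.le
    have h11 : (N : ℝ) ^ η ≤ N := by
      calc (N : ℝ) ^ η ≤ (N : ℝ) ^ (1 : ℝ) := hpow _ _ (by linarith)
        _ = N := Real.rpow_one _
    rw [Int.cast_natCast]
    linarith
  · intro n hn k
    rw [hS, Finset.mem_sdiff, mem_Ioc] at hn
    have h10 : (N : ℝ) ≤ n := by exact_mod_cast hn.1.1.le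
    have h11 := h3 (finProdFinEquiv.symm k).2 n hn.1.1.le
    have h12 : (N : ℝ) ^ (2 * η) ≤ (n : ℝ) ^ ρ :=
      (hpow _ _ hηρ).trans (Real.rpow_le_rpow hN0.le h10 hρ.le)
    have h13 : (N : ℝ) ^ (2 * η) = (N : ℝ) ^ η * (N : ℝ) ^ η := by rw [two_mul, Real.rpow_add hN0]
    have h14 := h4 (finProdFinEquiv.symm k).1
    have h15 := hα (finProdFinEquiv.symm k).1
    calc (N : ℝ) ^ η = 1 * (N : ℝ) ^ η := (one_mul _).symm
      _ ≤ (α (finProdFinEquiv.symm k).1 * (N : ℝ) ^ η) * (N : ℝ) ^ η :=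
          mul_le_mul_of_nonneg_right h14 (by positivity)
      _ = α (finProdFinEquiv.symm k).1 * (N : ℝ) ^ (2 * η) := by rw [h13]; ring
      _ ≤ _ := mul_le_mul_of_nonneg_left (h12.trans h11) h15.le
  intro q hq hqN b
  have hq0 : (0 : ℝ) < q := by exact_mod_cast hq
  have hq1 : (1 : ℝ) ≤ q := by exact_mod_cast hq
  constructor
  · -- the number in a class
    obtain ⟨n₀, L, -, -, hL, -, hLc, -⟩ := Pool.Agent.Y961.JR.class_param N (2 * N) q hq (by omega) b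
    have h10 := sdiff_filter (Ioc N (2 * N)) G hG (fun n : ℕ => (q : ℤ) ∣ (n : ℤ) - b) (fun _ => (1 : ℝ))
    rw [← hS] at h10
    simp only [sum_const, nsmul_eq_mul, mul_one] at h10
    rw [hLc] at h10
    have h11 : ((G.filter (fun n : ℕ => (q : ℤ) ∣ (n : ℤ) - b)).card : ℝ) ≤ G.card := by
      exact_mod_cast card_filter_le _ _
    have h12 : (0 : ℝ) ≤ (G.filter (fun n : ℕ => (q : ℤ) ∣ (n : ℤ) - b)).card := Nat.cast_nonneg _
    have h13 : (S.card : ℝ) / q = N / q - G.card / q := by rw [hScard, sub_div]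
    have h14 : (G.card : ℝ) / q ≤ G.card := div_le_self (Nat.cast_nonneg _) hq1
    have h15 : (0 : ℝ) ≤ (G.card : ℝ) / q := by positivity
    have h16 : ((((2 * N : ℕ) : ℝ)) - N) / q = N / q := by push_cast; congr 1; ring
    rw [h16] at hL
    have hL' := abs_le.1 hL
    rw [h13]
    refine le_trans ?_ hSη
    rw [abs_le]
    constructor <;> linarith [hL'.1, hL'.2]
  · intro h hh hhN
    obtain ⟨γ, hγ⟩ : ∃ γ : Fin r → ℝ, γ = fun j => (∑ i, (h (finProdFinEquiv (i, j)) : ℝ) * α i) / q := ⟨_, rfl⟩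
    have hsum : ∀ n : ℕ, ∑ k, (h k : ℝ) * (α (finProdFinEquiv.symm k).1 * f (finProdFinEquiv.symm k).2 n / q) =
        ∑ j, γ j * f j n := by
      intro n
      rw [← Equiv.sum_comp finProdFinEquiv, Fintype.sum_prod_type, sum_comm]
      apply sum_congr rfl
      intro j _
      rw [hγ]
      simp only [Equiv.symm_apply_apply]
      rw [div_mul_eq_mul_div, sum_mul, sum_div]
      apply sum_congr rfl
      intro i _
      ring
    simp only [hsum]
    -- the multipliers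
    have hup : ∀ j, |γ j| ≤ (N : ℝ) ^ τ := by
      intro j
      rw [hγ]
      simp only
      rw [abs_div, abs_of_pos hq0]
      calc |∑ i, (h (finProdFinEquiv (i, j)) : ℝ) * α i| / q ≤ |∑ i, (h (finProdFinEquiv (i, j)) : ℝ) * α i| :=
            div_le_self (abs_nonneg _) hq1
        _ ≤ ∑ i, |(h (finProdFinEquiv (i, j)) : ℝ) * α i| := abs_sum_le_sum_abs _ _
        _ ≤ ∑ i, (N : ℝ) ^ η * α i := by
            apply sum_le_sum
            intro i _
            rw [abs_mul, abs_of_pos (hα i)]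
            exact mul_le_mul_of_nonneg_right (hhN _) (hα i).le
        _ = (N : ℝ) ^ η * ∑ i, α i := by rw [mul_sum]
        _ ≤ (N : ℝ) ^ η * (N : ℝ) ^ (τ / 8) := mul_le_mul_of_nonneg_left h5 (by positivity)
        _ = (N : ℝ) ^ (η + τ / 8) := by rw [← Real.rpow_add hN0]
        _ ≤ _ := hpow _ _ (by linarith)
    have hlo' : ∀ j, (fun i => h (finProdFinEquiv (i, j))) ≠ 0 → (N : ℝ) ^ (-τ) ≤ |γ j| := by
      intro j hj
      have hceil : ((⌈(N : ℝ) ^ η⌉₊ : ℕ) : ℝ) ≤ 2 * (N : ℝ) ^ η := by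
        have h10 := (Nat.ceil_lt_add_one (show 0 ≤ (N : ℝ) ^ η by positivity)).le
        have h11 : 1 ≤ (N : ℝ) ^ η := Real.one_le_rpow hN1 hη0.le
        linarith
      have h10 := hA (fun i => h (finProdFinEquiv (i, j))) ⌈(N : ℝ) ^ η⌉₊ hj (fun i => by
        have h11 : |(h (finProdFinEquiv (i, j)) : ℝ)| ≤ (⌈(N : ℝ) ^ η⌉₊ : ℕ) := (hhN _).trans (Nat.le_ceil _)
        have h12 : ((|h (finProdFinEquiv (i, j))| : ℤ) : ℝ) ≤ ((⌈(N : ℝ) ^ η⌉₊ : ℤ) : ℝ) := by
          push_cast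
          exact h11
        exact_mod_cast h12)
      obtain ⟨w, hw⟩ : ∃ w, w = |∑ i, (h (finProdFinEquiv (i, j)) : ℝ) * α i| := ⟨_, rfl⟩
      have hw0 : 0 ≤ w := by rw [hw]; exact abs_nonneg _
      rw [← hw] at h10
      have hγw : |γ j| = w / q := by
        rw [hγ, hw]
        simp only
        rw [abs_div, abs_of_pos hq0]
      have h11 : c₁ ≤ w * (2 ^ A * (N : ℝ) ^ (η * A)) := by
        refine h10.trans (mul_le_mul_of_nonneg_left ?_ hw0)
        calc (((⌈(N : ℝ) ^ η⌉₊ : ℕ) : ℝ)) ^ A ≤ (2 * (N : ℝ) ^ η) ^ A := pow_le_pow_left₀ (Nat.cast_nonneg _) hceil A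
          _ = 2 ^ A * (N : ℝ) ^ (η * A) := by rw [mul_pow, ← Real.rpow_natCast ((N : ℝ) ^ η), ← Real.rpow_mul hN0.le]
      have h12 : 2 ^ A ≤ c₁ * (N : ℝ) ^ (τ / 8) := by
        rw [div_le_iff₀ hc₁] at h6
        linarith
      have h13 : (0 : ℝ) < 2 ^ A := by positivity
      have h14 : 2 ^ A ≤ w * (2 ^ A * (N : ℝ) ^ (η * A)) * (N : ℝ) ^ (τ / 8) :=
        h12.trans (mul_le_mul_of_nonneg_right h11 (by positivity))
      have h15 : 1 ≤ w * (N : ℝ) ^ (η * A + τ / 8) := by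
        rw [Real.rpow_add hN0]
        have e1 : w * (2 ^ A * (N : ℝ) ^ (η * A)) * (N : ℝ) ^ (τ / 8) =
            2 ^ A * (w * ((N : ℝ) ^ (η * A) * (N : ℝ) ^ (τ / 8))) := by ring
        rw [e1] at h14
        by_contra hc2
        push Not at hc2
        have := mul_lt_mul_of_pos_left hc2 h13
        linarith
      rw [hγw, le_div_iff₀ hq0]
      calc (N : ℝ) ^ (-τ) * q ≤ (N : ℝ) ^ (-τ) * (N : ℝ) ^ η := mul_le_mul_of_nonneg_left hqN (by positivity)
        _ = (N : ℝ) ^ (-τ + η) := by rw [← Real.rpow_add hN0]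
        _ ≤ (N : ℝ) ^ (-(η * A + τ / 8)) := hpow _ _ (by nlinarith)
        _ ≤ (N : ℝ) ^ (-(η * A + τ / 8)) * (w * (N : ℝ) ^ (η * A + τ / 8)) :=
            le_mul_of_one_le_right (by positivity) h15
        _ = w := by
            have e1 : (N : ℝ) ^ (-(η * A + τ / 8)) * (w * (N : ℝ) ^ (η * A + τ / 8)) =
                w * ((N : ℝ) ^ (-(η * A + τ / 8)) * (N : ℝ) ^ (η * A + τ / 8)) := by ring
            rw [e1, ← Real.rpow_add hN0, neg_add_cancel, Real.rpow_zero, mul_one]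
    have hzero : ∀ j, (fun i => h (finProdFinEquiv (i, j))) = 0 → γ j = 0 := by
      intro j hj
      rw [hγ]
      simp only
      have : ∀ i, h (finProdFinEquiv (i, j)) = 0 := fun i => congrFun hj i
      simp [this]
    have hor : ∀ j, γ j = 0 ∨ (N : ℝ) ^ (-τ) ≤ |γ j| := by
      intro j
      by_cases hj : (fun i => h (finProdFinEquiv (i, j))) = 0
      · exact Or.inl (hzero j hj)
      · exact Or.inr (hlo' j hj)
    have hne : γ ≠ 0 := by
      obtain ⟨k, hk⟩ : ∃ k, h k ≠ 0 := by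
        by_contra hc2
        push Not at hc2
        exact hh (funext hc2)
      intro h0
      have h10 : (fun i => h (finProdFinEquiv (i, (finProdFinEquiv.symm k).2))) ≠ 0 := by
        intro h11
        apply hk
        have h12 := congrFun h11 (finProdFinEquiv.symm k).1
        simp only [Prod.mk.eta, Equiv.apply_symm_apply, Pi.zero_apply] at h12
        exact h12
      have h11 := hlo' _ h10
      rw [h0, Pi.zero_apply, abs_zero] at h11
      have : (0 : ℝ) < (N : ℝ) ^ (-τ) := by positivity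
      linarith
    have hlin : ∀ l : ℕ, ∀ m : ℕ, dk d (fun n : ℕ => -((l : ℝ) / q * n)) m = 0 := by
      intro l m
      obtain ⟨d', rfl⟩ : ∃ d', d = d' + 2 := ⟨d - 2, by omega⟩
      have h10 : ∀ (d' : ℕ) (m : ℕ), dk (d' + 2) (fun n : ℕ => -((l : ℝ) / q * n)) m = 0 := by
        intro d'
        induction d' with
        | zero =>
          intro m
          rw [dk_succ, dk_succ, dk_succ, dk_zero]
          push_cast
          ring
        | succ d' ih =>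
          intro m
          rw [show d' + 1 + 2 = (d' + 2) + 1 by omega, dk_succ, ih, ih, sub_zero]
      exact h10 d' m
    have hfull := class_sum (Ioc N (2 * N)) (fun n => ∑ j, γ j * f j n) q hq ((N : ℝ) ^ (1 - τ))
      (fun l => hJ N ((le_max_left _ _).trans h2) γ hne hor hup _ (hlin l)) b
    have h10 := sdiff_filter (Ioc N (2 * N)) G hG (fun n : ℕ => (q : ℤ) ∣ (n : ℤ) - b)
      (fun n => e (∑ j, γ j * f j n))
    rw [← hS] at h10
    rw [eq_sub_of_add_eq h10]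
    have h11 : ‖∑ n ∈ G.filter (fun n : ℕ => (q : ℤ) ∣ (n : ℤ) - b), e (∑ j, γ j * f j n)‖ ≤ G.card := by
      refine (norm_sum_le _ _).trans ?_
      calc _ ≤ ∑ _n ∈ G.filter (fun n : ℕ => (q : ℤ) ∣ (n : ℤ) - b), (1 : ℝ) :=
            sum_le_sum fun n _ => (norm_e _).le
        _ = ((G.filter (fun n : ℕ => (q : ℤ) ∣ (n : ℤ) - b)).card : ℝ) := by rw [sum_const, nsmul_eq_mul, mul_one]
        _ ≤ G.card := by exact_mod_cast card_filter_le _ _
    refine (norm_sub_le _ _).trans (le_trans ?_ hSη)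
    linarith

end Pool.Agent.U828.KD
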