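import Pool.Agent.N647.TS.MulT
import Pool.Agent.U828.KD.Ord

/-!
# From well distributed families to the integer parts of arbitrary functions of given orders

The analogues of `Pool.Agent.N647.TS.wellN_thin`, `thin_conv` and `mt_thin` (generalised polynomials) for arbitrary
functions of given orders; the distribution is `Pool.Agent.U828.KD.order_well`.
-/

set_option autoImplicit false

namespace Pool.Agent.U828.KD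

open Finset
open Pool.Agent.N647.TS (WellN wellN_of_well)
open Pool.Agent.N666.TM (Well)
open Pool.Agent.X22.MT
open Pool.Agent.X22.ND (hp)

/-- the natural numbers `⌊f_l (t)⌋` -/
noncomputable def ov {k : ℕ} (f : Fin k → ℕ → ℝ) (t : ℕ) (l : Fin k) : ℕ := ⌊f l t⌋₊

theorem wellN_order {k : ℕ} (hk : 1 ≤ k) (d : ℕ) (hd : 2 ≤ d) (c : Fin k → ℝ) (hc : Function.Injective c)
    (hc0 : ∀ i, 0 < c i) (hcd : ∀ i, c i < d) (f : Fin k → ℕ → ℝ) (hf : ∀ i, Order d (c i) (f i))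
    (hp : ∀ i, ∃ T : ℕ, ∀ t : ℕ, T ≤ t → 0 ≤ f i t) :
    ∃ κ : ℝ, 0 < κ ∧ ∃ N₀ : ℕ, ∀ N : ℕ, N₀ ≤ N → ∀ H : ℕ, (H : ℝ) ≤ (N : ℝ) ^ κ →
      WellN (Ioc N (2 * N)) (ov f) H := by
  haveI : Nonempty (Fin k) := ⟨⟨0, hk⟩⟩
  obtain ⟨κ, hκ, N₁, h₁⟩ := order_well d hd c hc hc0 hcd f hf
  choose T hT using hp
  refine ⟨κ, hκ, N₁ + univ.sup T, fun N hN H hH => ?_⟩
  refine wellN_of_well (h₁ N (by omega) H hH) ?_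
  intro n hn i
  rw [mem_Ioc] at hn
  have h2 : T i ≤ univ.sup T := le_sup (mem_univ i)
  exact (Int.natCast_floor_eq_floor (hT i n (by omega))).symm

open Classical in
theorem order_conv {k : ℕ} (hk : 1 ≤ k) (d : ℕ) (hd : 2 ≤ d) (c : Fin k → ℝ) (hc : Function.Injective c)
    (hc0 : ∀ i, 0 < c i) (hcd : ∀ i, c i < d) (f : Fin k → ℕ → ℝ) (hf : ∀ i, Order d (c i) (f i))
    (hp : ∀ i, ∃ T : ℕ, ∀ t : ℕ, T ≤ t → 0 ≤ f i t) (M : ℕ) : ∃ κ₀ : ℝ, 0 < κ₀ ∧ ∃ y₀ : ℕ, ∀ y N A : ℕ, y₀ ≤ y →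
    ∀ R : ℕ → (Fin k → ℕ) → Prop,
    (∀ (S : Finset ℕ) (v : ℕ → Fin k → ℕ) (H : ℕ), WellN S v H → ∀ E : (Fin k → ℕ) → Prop,
      (∀ m, (∀ n : ℕ, y ≤ n → n ^ M ≤ 2 * H + 1 → R n m) → E m) →
      ((S.filter fun t => ¬ E (v t)).card : ℝ) ≤ 1 / (y : ℝ) ^ A * S.card) →
    ∀ E : (Fin k → ℕ) → Prop, (∀ m, (∀ n : ℕ, y ≤ n → (n : ℝ) ≤ (N : ℝ) ^ κ₀ → R n m) → E m) →
    (((Ioc N (2 * N)).filter fun t => ¬ E (ov f t)).card : ℝ) ≤ 1 / (y : ℝ) ^ A * N := by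
  obtain ⟨κ₁, hκ₁, N₁, h₁⟩ := wellN_order hk d hd c hc hc0 hcd f hf hp
  obtain ⟨κ₀, hκ₀⟩ : ∃ κ₀ : ℝ, κ₀ = κ₁ / (M + 1) := ⟨_, rfl⟩
  have hκ0 : 0 < κ₀ := by rw [hκ₀]; positivity
  obtain ⟨y₂, hy₂⟩ := exists_nat_gt ((N₁ : ℝ) ^ κ₀)
  refine ⟨κ₀, hκ0, y₂ + 1, fun y N A hy R hM E hE => ?_⟩
  by_cases hN : N₁ ≤ N
  · obtain ⟨J, hJ⟩ : ∃ J : ℕ, J = ⌊(N : ℝ) ^ κ₁⌋₊ := ⟨_, rfl⟩
    have hJ1 : (J : ℝ) ≤ (N : ℝ) ^ κ₁ := by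
      rw [hJ]
      exact Nat.floor_le (Real.rpow_nonneg (Nat.cast_nonneg _) _)
    have hJ2 : (N : ℝ) ^ κ₁ < J + 1 := by
      rw [hJ]
      exact Nat.lt_floor_add_one _
    have hw1 := h₁ N hN J hJ1
    have hE' : ∀ m : Fin k → ℕ, (∀ n : ℕ, y ≤ n → n ^ M ≤ 2 * J + 1 → R n m) → E m := by
      intro m hm
      refine hE m fun n hyn hnN => hm n hyn ?_
      have hn1 : (1 : ℝ) ≤ n := by exact_mod_cast (by omega : 1 ≤ n)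
      have hN0 : (0 : ℝ) ≤ N := Nat.cast_nonneg _
      have h3 : (n : ℝ) ^ (M + 1) ≤ (N : ℝ) ^ κ₁ := by
        calc (n : ℝ) ^ (M + 1) ≤ ((N : ℝ) ^ κ₀) ^ (M + 1) := pow_le_pow_left₀ (by positivity) hnN _
          _ = (N : ℝ) ^ κ₁ := by
              rw [← Real.rpow_natCast, ← Real.rpow_mul hN0, hκ₀]
              congr 1
              push_cast
              field_simp
      have h4 : (n : ℝ) ^ M ≤ (n : ℝ) ^ (M + 1) := pow_le_pow_right₀ hn1 (by omega)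
      have h5 : (n : ℝ) ^ M ≤ ((2 * J + 1 : ℕ) : ℝ) := by
        push_cast
        have : (0 : ℝ) ≤ J := Nat.cast_nonneg _
        linarith
      exact_mod_cast h5
    have := hM (Ioc N (2 * N)) (ov f) J hw1 E hE'
    rw [Nat.card_Ioc, show 2 * N - N = N by omega] at this
    exact this
  · have hall : ∀ m, E m := by
      intro m
      refine hE m fun n hyn hnN => ?_
      exfalso
      have h2 : (N : ℝ) ^ κ₀ ≤ (N₁ : ℝ) ^ κ₀ := by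
        apply Real.rpow_le_rpow (Nat.cast_nonneg _) _ hκ0.le
        exact_mod_cast (by omega : N ≤ N₁)
      have h3 : (y₂ : ℝ) ≤ n := by exact_mod_cast (by omega : y₂ ≤ n)
      linarith
    rw [Finset.filter_false_of_mem (fun t _ => not_not.2 (hall _)), card_empty, Nat.cast_zero]
    positivity

open Classical in
theorem mt_order {k : ℕ} (hk : 1 ≤ k) (d : ℕ) (hd : 2 ≤ d) (c : Fin k → ℝ) (hc : Function.Injective c)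
    (hc0 : ∀ i, 0 < c i) (hcd : ∀ i, c i < d) (f : Fin k → ℕ → ℝ) (hf : ∀ i, Order d (c i) (f i))
    (hpos : ∀ i, ∃ T : ℕ, ∀ t : ℕ, T ≤ t → 0 ≤ f i t) (L : ℕ) (hL0 : L ≠ 0) (δ : ℝ) (hδ : 0 < δ) (A B C : ℕ) :
    ∃ κ₀ : ℝ, 0 < κ₀ ∧ ∃ y₀ : ℕ, ∀ y N : ℕ, y₀ ≤ y →
    ∀ (κ : Type) (Λ : ℕ → Finset κ), (∀ x, y ≤ x → (Λ x).card ≤ x ^ B) →
    ∀ (F : ℕ → κ → ℕ → (Fin k → ℕ) → ℂ), (∀ x, y ≤ x → ∀ l ∈ Λ x, Fam k L x ((x : ℝ) ^ (δ / 16)) (F x l)) →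
    ∀ (v w : ℕ → κ → ℕ → ℂ), (∀ x l n, ‖v x l n‖ ≤ 1) → (∀ x l n, ‖w x l n‖ ≤ 1) →
    ∀ E : (Fin k → ℕ) → Prop,
    (∀ m, (∀ x : ℕ, y ≤ x → (x : ℝ) ≤ (N : ℝ) ^ κ₀ → ∀ l ∈ Λ x, ∀ τ : ℝ, |τ| ≤ (x : ℝ) ^ C → ∀ χ : ℕ → ℂ,
      (∀ n, ‖χ n‖ ≤ 1) → (∀ n n' : ℕ, 1 ≤ n → 1 ≤ n' → χ (n * n') = χ n * χ n') →
      (∀ n ∈ nn L x, χ n = w x l n * F x l n m) → ∀ M M' : ℕ, M' ≤ x →
      ‖∑ n ∈ Ioc M M', v x l n * χ n * hp τ n‖ ≤ (x : ℝ) ^ (1 / 2 + δ)) → E m) →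
    (((Ioc N (2 * N)).filter fun t => ¬ E (ov f t)).card : ℝ) ≤ 1 / (y : ℝ) ^ A * N := by
  obtain ⟨M₀, y₁, hM⟩ := Pool.Agent.N647.TS.mt_law2W k L hL0 δ hδ A B C
  obtain ⟨κ₀, hκ₀, y₂, h₂⟩ := order_conv hk d hd c hc hc0 hcd f hf hpos M₀
  refine ⟨κ₀, hκ₀, y₁ + y₂, fun y N hy κ Λ hΛ F hF v w hv hw E hE => ?_⟩
  exact h₂ y N A (by omega) _ (fun S u H hW E' hE' => hM S u H y hW (by omega) κ Λ hΛ F hF v w hv hw E' hE') E hE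

end Pool.Agent.U828.KD
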