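import Pool.Agent.N647.TS.MulT
import Pool.Agent.U828.KD.FCB

/-!
# Product families of integer parts of two arbitrary functions with differences of one sign are well distributed

(helper828) The distribution is `Pool.Agent.U828.KD.FCB.bent_equi`; the conversion follows
`Pool.Agent.N647.TS.thin_conv` and `mt_thin`.
-/

set_option autoImplicit false

namespace Pool.Agent.U828.KD

open Finset Filter
open Pool.Agent.N647.TS (WellN)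
open Pool.Agent.X22.MT
open Pool.Agent.X22.ND (hp)
open Pool.Agent.TH894.NE (box mem_box)
open Pool.Agent.U828.KD.FCB (bent_equi)

lemma bent_mono {d x : ℕ} {f : ℕ → ℝ} {a b : ℝ} (hab : a ≤ b) (h : Bent d x f b) : Bent d x f a := by
  rcases h with h | h
  · exact Or.inl fun m h1 h2 => hab.trans (h m h1 h2)
  · exact Or.inr fun m h1 h2 => (h m h1 h2).trans (by linarith)

/-- the pair `(⌊f_0(m)⌋, ⌊f_1(n)⌋)` -/
noncomputable def pv (f : Fin 2 → ℕ → ℝ) (p : ℕ × ℕ) : Fin 2 → ℕ := ![⌊f 0 p.1⌋₊, ⌊f 1 p.2⌋₊]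

/-- the hypotheses on one curve -/
def Curve (d : ℕ) (δ κ M : ℝ) (x : ℕ) (f : ℕ → ℝ) : Prop :=
  M ^ (1 / (d : ℝ) + δ) ≤ x ∧ (∀ m ∈ Icc 1 x, 0 ≤ f m ∧ f m ≤ M) ∧ Bent d x f (M ^ (1 - κ) / (x : ℝ) ^ d)

lemma prod_est {a b q h E : ℝ} (hq : 1 ≤ q) (hqh : q ≤ h) (hE0 : 0 ≤ E) (hE : E * (4 * h ^ 3) ≤ 1)
    (ha : |a - 1 / q| ≤ E) (hb : |b - 1 / q| ≤ E) : |a * b - 1 / q ^ 2| ≤ 1 / h * (1 / q ^ 2) := by
  have hq0 : 0 < q := by linarith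
  have hh1 : 1 ≤ h := by linarith
  have hh0 : 0 < h := by linarith
  have e1 : a * b - 1 / q ^ 2 = (a - 1 / q) * (b - 1 / q) + (a - 1 / q) * (1 / q) + (b - 1 / q) * (1 / q) := by
    field_simp
    ring
  have hq1 : 0 ≤ 1 / q := by positivity
  have h1 : |(a - 1 / q) * (b - 1 / q)| ≤ E * E := by
    rw [abs_mul]
    exact mul_le_mul ha hb (abs_nonneg _) hE0
  have h2 : |(a - 1 / q) * (1 / q)| ≤ E * (1 / q) := by
    rw [abs_mul, abs_of_nonneg hq1]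
    exact mul_le_mul_of_nonneg_right ha hq1
  have h3 : |(b - 1 / q) * (1 / q)| ≤ E * (1 / q) := by
    rw [abs_mul, abs_of_nonneg hq1]
    exact mul_le_mul_of_nonneg_right hb hq1
  have h4 : |a * b - 1 / q ^ 2| ≤ E * E + 2 * (E * (1 / q)) := by
    rw [e1]
    calc _ ≤ |(a - 1 / q) * (b - 1 / q) + (a - 1 / q) * (1 / q)| + |(b - 1 / q) * (1 / q)| := abs_add_le _ _
      _ ≤ |(a - 1 / q) * (b - 1 / q)| + |(a - 1 / q) * (1 / q)| + |(b - 1 / q) * (1 / q)| := by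
          gcongr
          exact abs_add_le _ _
      _ ≤ _ := by linarith
  refine h4.trans ?_
  have hE2 : E ≤ 1 / (4 * h ^ 3) := by
    rw [le_div_iff₀ (by positivity)]
    exact hE
  have h5 : 1 / (4 * h ^ 3) ≤ 1 / (4 * h) * (1 / q ^ 2) := by
    rw [one_div_mul_one_div]
    apply one_div_le_one_div_of_le (by positivity)
    have : q ^ 2 ≤ h ^ 2 := pow_le_pow_left₀ hq0.le hqh 2
    calc 4 * h * q ^ 2 ≤ 4 * h * h ^ 2 := mul_le_mul_of_nonneg_left this (by positivity)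
      _ = 4 * h ^ 3 := by ring
  have hE3 : E ≤ 1 / (4 * h) * (1 / q ^ 2) := hE2.trans h5
  have hE1 : E ≤ 1 := by
    refine hE2.trans ?_
    rw [div_le_one (by positivity)]
    have : 1 ≤ h ^ 3 := one_le_pow₀ hh1
    linarith
  have h6 : E * E ≤ E := by nlinarith
  have h7 : E * (1 / q) ≤ E := by
    have : 1 / q ≤ 1 := by
      rw [div_le_one hq0]
      exact hq
    nlinarith
  have h8 : E * E + 2 * (E * (1 / q)) ≤ 3 * (1 / (4 * h) * (1 / q ^ 2)) := by linarith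
  refine h8.trans ?_
  have h9 : 1 / (4 * h) * (1 / q ^ 2) = 1 / 4 * (1 / h * (1 / q ^ 2)) := by
    field_simp
  have h10 : 0 ≤ 1 / h * (1 / q ^ 2) := by positivity
  rw [h9]
  linarith

open Classical in
theorem wellN_prod (d : Fin 2 → ℕ) (hd : ∀ i, 2 ≤ d i) (δ : ℝ) (h0 : 0 < δ) (h1 : δ ≤ 1) :
    ∃ κ : ℝ, 0 < κ ∧ ∃ N₁ : ℕ, 1 ≤ N₁ ∧ ∀ N : ℕ, N₁ ≤ N → ∀ H : ℕ, (H : ℝ) ≤ (N : ℝ) ^ κ →
      ∀ (M : Fin 2 → ℝ) (x : Fin 2 → ℕ) (f : Fin 2 → ℕ → ℝ), (∀ i, (N : ℝ) ≤ M i) →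
      (∀ i, Curve (d i) δ κ (M i) (x i) (f i)) →
      WellN (((Icc 1 (x 0)) ×ˢ (Icc 1 (x 1))).image fun p => Nat.pair p.1 p.2)
        (fun t => pv f (Nat.unpair t)) H := by
  have hb := fun i => bent_equi (d i) (hd i) δ h0 h1
  choose θ hθ0 hθ1 hθ using hb
  obtain ⟨θ', hθ'⟩ : ∃ θ', θ' = min (θ 0) (θ 1) := ⟨_, rfl⟩
  have hθ'0 : 0 < θ' := by rw [hθ']; exact lt_min (hθ0 0) (hθ0 1)
  have hθ'i : ∀ i, θ' ≤ θ i := by
    intro i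
    rw [hθ']
    fin_cases i
    · exact min_le_left _ _
    · exact min_le_right _ _
  have hev : ∀ᶠ M : ℝ in atTop, ∀ i : Fin 2, ∀ x : ℕ, M ^ (1 / ((d i : ℕ) : ℝ) + δ) ≤ x → ∀ f : ℕ → ℝ,
      (∀ m ∈ Icc 1 x, |f m| ≤ M) → Bent (d i) x f (M ^ (1 - θ i) / (x : ℝ) ^ (d i)) →
      ∀ q : ℕ, 1 ≤ q → (q : ℝ) ≤ M ^ (θ i) → ∀ ρ : ℤ,
        |(((Icc 1 x).filter (fun m => (q : ℤ) ∣ ⌊f m⌋ - ρ)).card : ℝ) - x / q| ≤ x * M ^ (-(θ i)) := by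
    rw [eventually_all]
    exact hθ
  obtain ⟨M₀, hM₀⟩ := eventually_atTop.1 (hev.and ((tendsto_rpow_atTop (by positivity : 0 < θ' / 4)).eventually_ge_atTop 108))
  refine ⟨θ' / 4, by positivity, ⌈M₀⌉₊ + 1, by omega, fun N hN H hH M x f hM hf => ?_⟩
  have hN1 : (1 : ℝ) ≤ N := by exact_mod_cast (by omega : 1 ≤ N)
  have hN0 : (0 : ℝ) < N := by linarith
  have hNM : M₀ ≤ N := by
    have h2 := Nat.le_ceil M₀
    have h3 : ((⌈M₀⌉₊ + 1 : ℕ) : ℝ) ≤ N := by exact_mod_cast hN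
    push_cast at h3
    linarith
  have h108 := (hM₀ N hNM).2
  set h : ℝ := 2 * (H : ℝ) + 1 with hh
  have hh1 : 1 ≤ h := by
    have : (0 : ℝ) ≤ H := Nat.cast_nonneg _
    rw [hh]
    linarith
  have hNκ1 : 1 ≤ (N : ℝ) ^ (θ' / 4) := Real.one_le_rpow hN1 (by positivity)
  have hhN : h ≤ 3 * (N : ℝ) ^ (θ' / 4) := by rw [hh]; linarith
  have hNθ : (N : ℝ) ^ θ' = ((N : ℝ) ^ (θ' / 4)) ^ 4 := by
    rw [← Real.rpow_natCast, ← Real.rpow_mul hN0.le]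
    congr 1
    push_cast
    ring
  have h4h : 4 * h ^ 3 ≤ (N : ℝ) ^ θ' := by
    have h2 : h ^ 3 ≤ (3 * (N : ℝ) ^ (θ' / 4)) ^ 3 := pow_le_pow_left₀ (by linarith) hhN 3
    rw [hNθ]
    have h3 : 0 ≤ ((N : ℝ) ^ (θ' / 4)) ^ 3 := by positivity
    calc 4 * h ^ 3 ≤ 4 * (3 * (N : ℝ) ^ (θ' / 4)) ^ 3 := by linarith
      _ = 108 * ((N : ℝ) ^ (θ' / 4)) ^ 3 := by ring
      _ ≤ (N : ℝ) ^ (θ' / 4) * ((N : ℝ) ^ (θ' / 4)) ^ 3 := mul_le_mul_of_nonneg_right h108 h3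
      _ = _ := by ring
  have hhθ : h ≤ (N : ℝ) ^ θ' := by
    have : h ≤ h ^ 3 := le_self_pow₀ hh1 (by norm_num)
    have : 0 ≤ h ^ 3 := by positivity
    linarith
  -- one coordinate
  have hone : ∀ i, 0 < x i ∧ ∀ q : ℕ, 1 ≤ q → (q : ℝ) ≤ h → ∀ r : ℕ, r < q →
      |(((Icc 1 (x i)).filter (fun m => ⌊f i m⌋₊ % q = r)).card : ℝ) / x i - 1 / q| ≤ (N : ℝ) ^ (-θ') := by
    intro i
    obtain ⟨hc1, hc2, hc3⟩ := hf i
    have hMi : (1 : ℝ) ≤ M i := hN1.trans (hM i)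
    have hMi0 : 0 < M i := by linarith
    have hx0 : (0 : ℝ) < x i := lt_of_lt_of_le (Real.rpow_pos_of_pos hMi0 _) hc1
    refine ⟨by exact_mod_cast hx0, fun q hq1 hqh r hr => ?_⟩
    have hκ : M i ^ (1 - θ i) / (x i : ℝ) ^ (d i) ≤ M i ^ (1 - θ' / 4) / (x i : ℝ) ^ (d i) := by
      apply div_le_div_of_nonneg_right _ (by positivity)
      apply Real.rpow_le_rpow_of_exponent_le hMi
      linarith [hθ'i i]
    have hNM' : (N : ℝ) ^ θ' ≤ M i ^ θ i :=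
      (Real.rpow_le_rpow hN0.le (hM i) hθ'0.le).trans (Real.rpow_le_rpow_of_exponent_le hMi (hθ'i i))
    have hNM'' : M i ^ (-θ i) ≤ (N : ℝ) ^ (-θ') := by
      rw [Real.rpow_neg hMi0.le, Real.rpow_neg hN0.le]
      exact inv_anti₀ (Real.rpow_pos_of_pos hN0 _) hNM'
    have h2 := (hM₀ (M i) (hNM.trans (hM i))).1 i (x i) hc1 (f i) (fun m hm => by
      rw [abs_of_nonneg (hc2 m hm).1]
      exact (hc2 m hm).2) (bent_mono hκ hc3) q hq1 (hqh.trans (hhθ.trans hNM')) r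
    have hfil : (Icc 1 (x i)).filter (fun m => (q : ℤ) ∣ ⌊f i m⌋ - (r : ℤ)) =
        (Icc 1 (x i)).filter (fun m => ⌊f i m⌋₊ % q = r) := by
      apply filter_congr
      intro m hm
      have e1 : ⌊f i m⌋ = ((⌊f i m⌋₊ : ℕ) : ℤ) := (Int.natCast_floor_eq_floor (hc2 m hm).1).symm
      rw [e1]
      have e2 : (q : ℤ) ∣ ((⌊f i m⌋₊ : ℕ) : ℤ) - (r : ℤ) ↔ r ≡ ⌊f i m⌋₊ [MOD q] := Nat.modEq_iff_dvd.symm
      rw [e2]
      unfold Nat.ModEq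
      rw [Nat.mod_eq_of_lt hr]
      exact eq_comm
    rw [hfil] at h2
    have e3 : (((Icc 1 (x i)).filter (fun m => ⌊f i m⌋₊ % q = r)).card : ℝ) / x i - 1 / q =
        ((((Icc 1 (x i)).filter (fun m => ⌊f i m⌋₊ % q = r)).card : ℝ) - x i / q) / x i := by
      field_simp
    rw [e3, abs_div, abs_of_pos hx0, div_le_iff₀ hx0]
    refine h2.trans ?_
    rw [mul_comm]
    exact mul_le_mul_of_nonneg_right hNM'' hx0.le
  have hinj : Function.Injective (fun p : ℕ × ℕ => Nat.pair p.1 p.2) := by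
    intro p q hpq
    have := congrArg Nat.unpair hpq
    simpa using this
  have hcard : ((((Icc 1 (x 0)) ×ˢ (Icc 1 (x 1))).image fun p => Nat.pair p.1 p.2).card : ℝ) = (x 0 : ℝ) * x 1 := by
    rw [card_image_of_injective _ hinj, card_product, Nat.card_Icc, Nat.card_Icc]
    push_cast
    simp
  have hx0 : (0 : ℝ) < x 0 := by exact_mod_cast (hone 0).1
  have hx1 : (0 : ℝ) < x 1 := by exact_mod_cast (hone 1).1
  refine ⟨?_, fun q hq1 hq r hr => ?_⟩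
  · have : (0 : ℝ) < ((((Icc 1 (x 0)) ×ˢ (Icc 1 (x 1))).image fun p => Nat.pair p.1 p.2).card : ℝ) := by
      rw [hcard]
      positivity
    exact_mod_cast this
  · rw [mem_box] at hr
    have hqh : (q : ℝ) ≤ h := by
      rw [hh]
      exact_mod_cast hq
    have hq1r : (1 : ℝ) ≤ q := by exact_mod_cast hq1
    have a0 := (hone 0).2 q hq1 hqh (r 0) (hr 0)
    have a1 := (hone 1).2 q hq1 hqh (r 1) (hr 1)
    have hset : ((((Icc 1 (x 0)) ×ˢ (Icc 1 (x 1))).image fun p => Nat.pair p.1 p.2).filter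
        fun n => (fun i => pv f (Nat.unpair n) i % q) = r) =
        (((Icc 1 (x 0)).filter fun m => ⌊f 0 m⌋₊ % q = r 0) ×ˢ
          ((Icc 1 (x 1)).filter fun m => ⌊f 1 m⌋₊ % q = r 1)).image fun p => Nat.pair p.1 p.2 := by
      ext n
      simp only [mem_filter, mem_image, mem_product, Prod.exists]
      constructor
      · rintro ⟨⟨a, b, ⟨ha, hb⟩, rfl⟩, h2⟩
        rw [Nat.unpair_pair] at h2
        exact ⟨a, b, ⟨⟨ha, congrFun h2 0⟩, ⟨hb, congrFun h2 1⟩⟩, rfl⟩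
      · rintro ⟨a, b, ⟨⟨ha, h2⟩, ⟨hb, h3⟩⟩, rfl⟩
        refine ⟨⟨a, b, ⟨ha, hb⟩, rfl⟩, ?_⟩
        rw [Nat.unpair_pair]
        funext i
        fin_cases i
        · exact h2
        · exact h3
    rw [hset, card_image_of_injective _ hinj, card_product, hcard]
    have e1 : (((((Icc 1 (x 0)).filter fun m => ⌊f 0 m⌋₊ % q = r 0).card *
        ((Icc 1 (x 1)).filter fun m => ⌊f 1 m⌋₊ % q = r 1).card : ℕ) : ℝ)) / ((x 0 : ℝ) * x 1) =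
        ((((Icc 1 (x 0)).filter fun m => ⌊f 0 m⌋₊ % q = r 0).card : ℝ) / x 0) *
          ((((Icc 1 (x 1)).filter fun m => ⌊f 1 m⌋₊ % q = r 1).card : ℝ) / x 1) := by
      push_cast
      field_simp
    rw [e1]
    have hE : (N : ℝ) ^ (-θ') * (4 * h ^ 3) ≤ 1 := by
      rw [Real.rpow_neg hN0.le, inv_mul_le_iff₀ (Real.rpow_pos_of_pos hN0 _), mul_one]
      exact h4h
    have := prod_est hq1r hqh (Real.rpow_nonneg hN0.le _) hE a0 a1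
    exact this

open Classical in
theorem mt_prod (d : Fin 2 → ℕ) (hd : ∀ i, 2 ≤ d i) (δ₁ : ℝ) (h0 : 0 < δ₁) (h1 : δ₁ ≤ 1)
    (L : ℕ) (hL0 : L ≠ 0) (δ : ℝ) (hδ : 0 < δ) (A B C : ℕ) :
    ∃ κ₁ κ₀ : ℝ, 0 < κ₁ ∧ 0 < κ₀ ∧ ∃ y₀ : ℕ, ∀ y N : ℕ, y₀ ≤ y →
    ∀ (K : Fin 2 → ℝ) (x : Fin 2 → ℕ) (f : Fin 2 → ℕ → ℝ), (∀ i, (N : ℝ) ≤ K i) →
    (∀ i, Curve (d i) δ₁ κ₁ (K i) (x i) (f i)) →
    ∀ (κ : Type) (Λ : ℕ → Finset κ), (∀ x, y ≤ x → (Λ x).card ≤ x ^ B) →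
    ∀ (F : ℕ → κ → ℕ → (Fin 2 → ℕ) → ℂ), (∀ x, y ≤ x → ∀ l ∈ Λ x, Fam 2 L x ((x : ℝ) ^ (δ / 16)) (F x l)) →
    ∀ (v w : ℕ → κ → ℕ → ℂ), (∀ x l n, ‖v x l n‖ ≤ 1) → (∀ x l n, ‖w x l n‖ ≤ 1) →
    ∀ E : (Fin 2 → ℕ) → Prop,
    (∀ m, (∀ x : ℕ, y ≤ x → (x : ℝ) ≤ (N : ℝ) ^ κ₀ → ∀ l ∈ Λ x, ∀ τ : ℝ, |τ| ≤ (x : ℝ) ^ C → ∀ χ : ℕ → ℂ,
      (∀ n, ‖χ n‖ ≤ 1) → (∀ n n' : ℕ, 1 ≤ n → 1 ≤ n' → χ (n * n') = χ n * χ n') →
      (∀ n ∈ nn L x, χ n = w x l n * F x l n m) → ∀ M M' : ℕ, M' ≤ x →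
      ‖∑ n ∈ Ioc M M', v x l n * χ n * hp τ n‖ ≤ (x : ℝ) ^ (1 / 2 + δ)) → E m) →
    ((((Icc 1 (x 0)) ×ˢ (Icc 1 (x 1))).filter fun p => ¬ E (pv f p)).card : ℝ) ≤
      1 / (y : ℝ) ^ A * ((x 0 : ℝ) * x 1) := by
  obtain ⟨M₀, y₁, hM⟩ := Pool.Agent.N647.TS.mt_law2W 2 L hL0 δ hδ A B C
  obtain ⟨κ₁, hκ₁, N₁, hN₁, h₁⟩ := wellN_prod d hd δ₁ h0 h1
  obtain ⟨κ₀, hκ₀⟩ : ∃ κ₀ : ℝ, κ₀ = κ₁ / (M₀ + 1) := ⟨_, rfl⟩
  have hκ0 : 0 < κ₀ := by rw [hκ₀]; positivity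
  obtain ⟨y₂, hy₂⟩ := exists_nat_gt ((N₁ : ℝ) ^ κ₀)
  refine ⟨κ₁, κ₀, hκ₁, hκ0, y₁ + y₂ + 1, fun y N hy K x f hK hf κ Λ hΛ F hF v w hv hw E hE => ?_⟩
  by_cases hN : N₁ ≤ N
  · obtain ⟨J, hJ⟩ : ∃ J : ℕ, J = ⌊(N : ℝ) ^ κ₁⌋₊ := ⟨_, rfl⟩
    have hJ1 : (J : ℝ) ≤ (N : ℝ) ^ κ₁ := by
      rw [hJ]
      exact Nat.floor_le (Real.rpow_nonneg (Nat.cast_nonneg _) _)
    have hJ2 : (N : ℝ) ^ κ₁ < J + 1 := by
      rw [hJ]
      exact Nat.lt_floor_add_one _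
    have hw1 := h₁ N hN J hJ1 K x f hK hf
    have hE' : ∀ m, (∀ x : ℕ, y ≤ x → x ^ M₀ ≤ 2 * J + 1 → ∀ l ∈ Λ x, ∀ τ : ℝ, |τ| ≤ (x : ℝ) ^ C → ∀ χ : ℕ → ℂ,
        (∀ n, ‖χ n‖ ≤ 1) → (∀ n n' : ℕ, 1 ≤ n → 1 ≤ n' → χ (n * n') = χ n * χ n') →
        (∀ n ∈ nn L x, χ n = w x l n * F x l n m) → ∀ M M' : ℕ, M' ≤ x →
        ‖∑ n ∈ Ioc M M', v x l n * χ n * hp τ n‖ ≤ (x : ℝ) ^ (1 / 2 + δ)) → E m := by
      intro m hm
      refine hE m fun n hyn hnN => hm n hyn ?_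
      have hn1 : (1 : ℝ) ≤ n := by exact_mod_cast (by omega : 1 ≤ n)
      have hN0 : (0 : ℝ) ≤ N := Nat.cast_nonneg _
      have h3 : (n : ℝ) ^ (M₀ + 1) ≤ (N : ℝ) ^ κ₁ := by
        calc (n : ℝ) ^ (M₀ + 1) ≤ ((N : ℝ) ^ κ₀) ^ (M₀ + 1) := pow_le_pow_left₀ (by positivity) hnN _
          _ = (N : ℝ) ^ κ₁ := by
              rw [← Real.rpow_natCast, ← Real.rpow_mul hN0, hκ₀]
              congr 1
              push_cast
              field_simp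
      have h4 : (n : ℝ) ^ M₀ ≤ (n : ℝ) ^ (M₀ + 1) := pow_le_pow_right₀ hn1 (by omega)
      have h5 : (n : ℝ) ^ M₀ ≤ ((2 * J + 1 : ℕ) : ℝ) := by
        push_cast
        have : (0 : ℝ) ≤ J := Nat.cast_nonneg _
        linarith
      exact_mod_cast h5
    have h6 := hM _ _ J y hw1 (by omega) κ Λ hΛ F hF v w hv hw E hE'
    have hinj : Function.Injective (fun p : ℕ × ℕ => Nat.pair p.1 p.2) := by
      intro p q hpq
      have := congrArg Nat.unpair hpq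
      simpa using this
    have e1 : ((((Icc 1 (x 0)) ×ˢ (Icc 1 (x 1))).image fun p => Nat.pair p.1 p.2).filter
        fun t => ¬ E (pv f (Nat.unpair t))) =
        (((Icc 1 (x 0)) ×ˢ (Icc 1 (x 1))).filter fun p => ¬ E (pv f p)).image fun p => Nat.pair p.1 p.2 := by
      ext n
      simp only [mem_filter, mem_image]
      constructor
      · rintro ⟨⟨p, hp, rfl⟩, h2⟩
        rw [Nat.unpair_pair] at h2
        exact ⟨p, ⟨hp, h2⟩, rfl⟩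
      · rintro ⟨p, ⟨hp, h2⟩, rfl⟩
        refine ⟨⟨p, hp, rfl⟩, ?_⟩
        rw [Nat.unpair_pair]
        exact h2
    rw [e1, card_image_of_injective _ hinj, card_image_of_injective _ hinj, card_product, Nat.card_Icc,
      Nat.card_Icc] at h6
    refine h6.trans (le_of_eq ?_)
    push_cast
    simp
  · have hall : ∀ m, E m := by
      intro m
      refine hE m fun n hyn hnN => ?_
      exfalso
      have h2 : (N : ℝ) ^ κ₀ ≤ (N₁ : ℝ) ^ κ₀ := by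
        apply Real.rpow_le_rpow (Nat.cast_nonneg _) _ hκ0.le
        exact_mod_cast (by omega : N ≤ N₁)
      have h3 : (y₂ : ℝ) ≤ n := by exact_mod_cast (by omega : y₂ ≤ n)
      linarith
    rw [Finset.filter_false_of_mem (fun t _ => not_not.2 (hall _)), card_empty, Nat.cast_zero]
    positivity

end Pool.Agent.U828.KD
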